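import Pool.Agent.GSM.Defs

/-!
# Conjugacy classes of tuples

MODULE GSM-Basic. Elementary matrix algebra with rectangular invertible matrices.
PLAN.
* `iso_reindex`: take `P = Matrix.of fun j i => if i = e.symm j then 1 else 0`, or more simply
  `P = (1 : Matrix ι ι R).submatrix e.symm id`, `Q = (1 : Matrix ι ι R).submatrix id e.symm`
  (`Matrix.submatrix_mul_equiv` and friends).
* `cls_eq_iff`: `Quotient.eq`, `iso_reindex`, `Iso.trans`, `Iso.symm`.
* For `hom`-type operations the new `P` is obtained from the old one by the same recipe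
  (`P.map f`, the block matrix `fun (i, a) (j, b) => Λ (P i j) a b`, `fromBlocks P 0 0 P'`, `P ⊗ₖ P'`).
-/

noncomputable section

namespace Pool.Agent.GSM

open Matrix Kronecker

universe u v w

namespace Tup

variable {ι κ ν δ ε σ τ : Type} [Fintype ι] [DecidableEq ι] [Fintype κ] [DecidableEq κ]
  [Fintype ν] [DecidableEq ν] [Fintype δ] [DecidableEq δ] [Fintype ε] [DecidableEq ε]
  {μ : Type} [Fintype μ] [DecidableEq μ]
variable {R : Type u} {R' : Type v} [CommRing R] [CommRing R']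

theorem iso_reindex (e : ι ≃ κ) (A : Tup ι σ R) : (A.reindex e).Iso A := by
  have hm : ∀ s, (A.reindex e).mat s = (A.mat s).submatrix e.symm e.symm := fun s => rfl
  refine ⟨(1 : Matrix ι ι R).submatrix e.symm id, (1 : Matrix ι ι R).submatrix id e.symm,
    ?_, ?_, fun s => ?_⟩
  · have h := Matrix.submatrix_mul_equiv (1 : Matrix ι ι R) (1 : Matrix ι ι R) e.symm
      (Equiv.refl ι) e.symm
    rw [Equiv.coe_refl] at h
    rw [h, Matrix.one_mul, Matrix.submatrix_one_equiv]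
  · rw [Matrix.submatrix_mul_equiv (1 : Matrix ι ι R) (1 : Matrix ι ι R) id e.symm id,
      Matrix.one_mul, Matrix.submatrix_id_id]
  · rw [hm s, Matrix.submatrix_mul_equiv (A.mat s) (1 : Matrix ι ι R) e.symm e.symm id,
      Matrix.mul_one]
    have h := Matrix.submatrix_mul_equiv (1 : Matrix ι ι R) (A.mat s) e.symm (Equiv.refl ι) id
    rw [Equiv.coe_refl, Matrix.submatrix_id_id, Matrix.one_mul] at h
    exact h.symm

theorem Iso.map (f : R →+* R') {A : Tup ι σ R} {B : Tup κ σ R} (h : A.Iso B) :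
    (A.map f).Iso (B.map f) := by
  obtain ⟨P, Q, h1, h2, h3⟩ := h
  have hA : ∀ s, (A.map f).mat s = (A.mat s).map f := fun s => rfl
  have hB : ∀ s, (B.map f).mat s = (B.mat s).map f := fun s => rfl
  refine ⟨P.map f, Q.map f, ?_, ?_, fun s => ?_⟩
  · rw [← Matrix.map_mul, h1, Matrix.map_one _ (map_zero f) (map_one f)]
  · rw [← Matrix.map_mul, h2, Matrix.map_one _ (map_zero f) (map_one f)]
  · rw [hA, hB, ← Matrix.map_mul, ← Matrix.map_mul, h3]

theorem Iso.pull (p : τ → Option σ) {A : Tup ι σ R} {B : Tup κ σ R} (h : A.Iso B) :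
    (A.pull p).Iso (B.pull p) := by
  obtain ⟨P, Q, h1, h2, h3⟩ := h
  refine ⟨P, Q, h1, h2, fun t => ?_⟩
  have hA : (A.pull p).mat t = (p t).elim 1 A.mat := rfl
  have hB : (B.pull p).mat t = (p t).elim 1 B.mat := rfl
  rw [hA, hB]
  cases p t with
  | none =>
    rw [Option.elim_none, Option.elim_none, Matrix.one_mul, Matrix.mul_one]
  | some s =>
    rw [Option.elim_some, Option.elim_some, h3]

/-- blocks of a rectangular matrix -/
private def blB (Λ : R →+* Matrix δ δ R') (M : Matrix ι κ R) : Matrix (ι × δ) (κ × δ) R' :=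
  Matrix.of fun x y => Λ (M x.1 y.1) x.2 y.2

private theorem blB_mul (Λ : R →+* Matrix δ δ R') (M : Matrix ι κ R) (N : Matrix κ ν R) :
    blB Λ (M * N) = blB Λ M * blB Λ N := by
  ext ⟨i, a⟩ ⟨k, c⟩
  rw [Matrix.mul_apply, Fintype.sum_prod_type]
  simp only [blB, Matrix.of_apply]
  rw [Matrix.mul_apply, map_sum, Matrix.sum_apply]
  refine Finset.sum_congr rfl fun j _ => ?_
  rw [map_mul, Matrix.mul_apply]

private theorem blB_one (Λ : R →+* Matrix δ δ R') :
    blB Λ (1 : Matrix ι ι R) = 1 := by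
  ext ⟨i, a⟩ ⟨j, b⟩
  simp only [blB, Matrix.of_apply]
  by_cases h : i = j
  · subst h
    rw [Matrix.one_apply_eq, map_one]
    by_cases h' : a = b
    · subst h'
      rw [Matrix.one_apply_eq, Matrix.one_apply_eq]
    · rw [Matrix.one_apply_ne h', Matrix.one_apply_ne (fun h'' => h' (Prod.ext_iff.1 h'').2)]
  · rw [Matrix.one_apply_ne h, map_zero, Matrix.zero_apply,
      Matrix.one_apply_ne (fun h'' => h (Prod.ext_iff.1 h'').1)]

private theorem corr_mat (Λ : R →+* Matrix δ δ R') (A : Tup ι σ R) (s : σ) :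
    (A.corr Λ).mat s = blB Λ (A.mat s) := rfl

theorem Iso.corr (Λ : R →+* Matrix δ δ R') {A : Tup ι σ R} {B : Tup κ σ R} (h : A.Iso B) :
    (A.corr Λ).Iso (B.corr Λ) := by
  obtain ⟨P, Q, h1, h2, h3⟩ := h
  refine ⟨blB Λ P, blB Λ Q, ?_, ?_, fun s => ?_⟩
  · rw [← blB_mul, h1, blB_one]
  · rw [← blB_mul, h2, blB_one]
  · rw [corr_mat, corr_mat, ← blB_mul, ← blB_mul, h3]

theorem Iso.add {A : Tup ι σ R} {A' : Tup κ σ R} {B : Tup ν σ R} {B' : Tup μ σ R}
    (h : A.Iso A') (h' : B.Iso B') : (A.add B).Iso (A'.add B') := by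
  obtain ⟨P, Q, h1, h2, h3⟩ := h
  obtain ⟨P', Q', h1', h2', h3'⟩ := h'
  have hA : ∀ s, (A.add B).mat s = Matrix.fromBlocks (A.mat s) 0 0 (B.mat s) := fun s => rfl
  have hB : ∀ s, (A'.add B').mat s = Matrix.fromBlocks (A'.mat s) 0 0 (B'.mat s) := fun s => rfl
  refine ⟨Matrix.fromBlocks P 0 0 P', Matrix.fromBlocks Q 0 0 Q', ?_, ?_, fun s => ?_⟩
  · rw [Matrix.fromBlocks_multiply, h1, h1']
    simp
  · rw [Matrix.fromBlocks_multiply, h2, h2']
    simp
  · rw [hA, hB, Matrix.fromBlocks_multiply, Matrix.fromBlocks_multiply, h3, h3']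
    simp

theorem Iso.mul {A : Tup ι σ R} {A' : Tup κ σ R} {B : Tup ν σ R} {B' : Tup μ σ R}
    (h : A.Iso A') (h' : B.Iso B') : (A.mul B).Iso (A'.mul B') := by
  obtain ⟨P, Q, h1, h2, h3⟩ := h
  obtain ⟨P', Q', h1', h2', h3'⟩ := h'
  have hA : ∀ s, (A.mul B).mat s = A.mat s ⊗ₖ B.mat s := fun s => rfl
  have hB : ∀ s, (A'.mul B').mat s = A'.mat s ⊗ₖ B'.mat s := fun s => rfl
  refine ⟨P ⊗ₖ P', Q ⊗ₖ Q', ?_, ?_, fun s => ?_⟩
  · rw [← Matrix.mul_kronecker_mul, h1, h1', Matrix.one_kronecker_one]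
  · rw [← Matrix.mul_kronecker_mul, h2, h2', Matrix.one_kronecker_one]
  · rw [hA, hB, ← Matrix.mul_kronecker_mul, ← Matrix.mul_kronecker_mul, h3, h3']

end Tup

variable {ι κ σ : Type} [Fintype ι] [DecidableEq ι] [Fintype κ] [DecidableEq κ]
  {R : Type u} [CommRing R]

theorem cls_eq_iff {A : Tup ι σ R} {B : Tup κ σ R} : cls A = cls B ↔ A.Iso B := by
  constructor
  · intro h
    have h1 : (A.reindex (Fintype.equivFin ι)).Iso (B.reindex (Fintype.equivFin κ)) :=
      Quotient.exact h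
    exact ((Tup.iso_reindex _ A).symm.trans h1).trans (Tup.iso_reindex _ B)
  · intro h
    have h1 : (A.reindex (Fintype.equivFin ι)).Iso (B.reindex (Fintype.equivFin κ)) :=
      ((Tup.iso_reindex _ A).trans h).trans (Tup.iso_reindex _ B).symm
    exact Quotient.sound h1

theorem cls_mk {r : ℕ} (A : Tup (Fin r) σ R) : cls A = Quotient.mk (tupSetoid σ R) ⟨r, A⟩ := by
  apply Quotient.sound
  exact Tup.iso_reindex (Fintype.equivFin (Fin r)) A

theorem cls_surj (x : TupQ σ R) : ∃ (r : ℕ) (A : Tup (Fin r) σ R), cls A = x := by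
  induction x using Quotient.inductionOn with
  | h a => exact ⟨a.1, a.2, cls_mk a.2⟩

end Pool.Agent.GSM
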