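import Pool.Agent.GSM.Cube

/-!
# Homotopies and boundaries

MODULE GSM-Bd. PLAN.
* `pCorr Λ : S[X] →+* Matrix δ δ R[X]` (coefficientwise) by `Polynomial.eval₂RingHom'`; identities of
  ring homomorphisms out of `S[X]` by `Polynomial.ringHom_ext` / evaluation at `C s` and `X`.
* If `y` is a homotopy over `S[X]` then `GG.corr (pCorr Λ) y` is a homotopy over `R[X]`.
* Products: multiply the homotopy by the constant homotopy `GG.base Polynomial.C z`.
* `homotopy`: take `y = GG.corr Λ x`.
-/

noncomputable section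

namespace Pool.Agent.GSM

open Matrix Kronecker Polynomial

universe u v w u'

section

variable {I J σ τ : Type} [DecidableEq I] [DecidableEq J] [DecidableEq σ] [DecidableEq τ]
  {δ ε : Type} [Fintype δ] [DecidableEq δ] [Fintype ε] [DecidableEq ε]
variable {S : Type u} {R : Type v} {R' : Type w} [CommRing S] [CommRing R] [CommRing R']

/-- Value of a homotopy at `u = 0` (`e = false`) or `u = 1` (`e = true`). -/
def ev (R : Type v) [CommRing R] (e : Bool) : R[X] →+* R := evalRingHom (if e then 1 else 0)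

/-- Differences of the two ends of homotopies of cubes. -/
def BdOn (a : Set I) (b : Set σ) (x : GG I σ R) : Prop :=
  ∃ y : GG I σ R[X], IsCubeOn a b y ∧ GG.base (ev R true) y - GG.base (ev R false) y = x

/-- Coefficientwise extension to `S[X]`. -/
def pCorr (Λ : S →+* Matrix δ δ R) : S[X] →+* Matrix δ δ R[X] :=
  Polynomial.eval₂RingHom' (((Polynomial.C : R →+* R[X]).mapMatrix).comp Λ)
    (Matrix.scalar δ (X : R[X])) (fun _ =>
      (Matrix.scalar_commute (X : R[X]) (fun r => Commute.all _ r) _).symm)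

theorem ev_pCorr (Λ : S →+* Matrix δ δ R) (e : Bool) :
    ((ev R e).mapMatrix).comp (pCorr Λ) = Λ.comp (ev S e) := by
  apply Polynomial.ringHom_ext
  · intro s
    have h1 : pCorr Λ (C s) = ((Polynomial.C : R →+* R[X]).mapMatrix).comp Λ s :=
      Polynomial.eval₂_C _ _
    rw [RingHom.comp_apply, RingHom.comp_apply, h1]
    ext i j
    simp [ev]
  · have h1 : pCorr Λ X = Matrix.scalar δ (X : R[X]) := Polynomial.eval₂_X _ _
    rw [RingHom.comp_apply, RingHom.comp_apply, h1]
    have h2 : ev S e X = if e then 1 else 0 := by simp [ev]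
    have h3 : ev R e X = if e then 1 else 0 := by simp [ev]
    have h4 : (ev R e).mapMatrix (Matrix.scalar δ (X : R[X])) =
        Matrix.scalar δ (ev R e X) := by
      ext i j
      by_cases h : i = j
      · subst h
        simp
      · simp [Matrix.diagonal_apply_ne _ h]
    rw [h4, h2, h3]
    cases e <;> simp

theorem ev_map (f : R →+* R') (e : Bool) :
    (ev R' e).comp (Polynomial.mapRingHom f) = f.comp (ev R e) := by
  apply Polynomial.ringHom_ext
  · intro s
    simp [ev]
  · cases e <;> simp [ev]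

theorem BdOn.isCubeOn {a : Set I} {b : Set σ} {x : GG I σ R} (h : BdOn a b x) :
    IsCubeOn a b x := by
  obtain ⟨y, hy, rfl⟩ := h
  exact (hy.base _).sub (hy.base _)

theorem BdOn.zero (a : Set I) (b : Set σ) : BdOn a b (0 : GG I σ R) := by
  exact ⟨0, IsCubeOn.zero a b, by rw [map_zero, map_zero, sub_zero]⟩

theorem BdOn.add {a : Set I} {b : Set σ} {x y : GG I σ R} (hx : BdOn a b x)
    (hy : BdOn a b y) : BdOn a b (x + y) := by
  obtain ⟨x', hx', rfl⟩ := hx
  obtain ⟨y', hy', rfl⟩ := hy
  exact ⟨x' + y', hx'.add hy', by rw [map_add, map_add]; abel⟩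

theorem BdOn.smul {a : Set I} {b : Set σ} (c : ℚ) {x : GG I σ R} (hx : BdOn a b x) :
    BdOn a b (c • x) := by
  obtain ⟨x', hx', rfl⟩ := hx
  exact ⟨c • x', hx'.smul c, by rw [map_smul, map_smul, smul_sub]⟩

theorem BdOn.sub {a : Set I} {b : Set σ} {x y : GG I σ R} (hx : BdOn a b x)
    (hy : BdOn a b y) : BdOn a b (x - y) := by
  obtain ⟨x', hx', rfl⟩ := hx
  obtain ⟨y', hy', rfl⟩ := hy
  exact ⟨x' - y', hx'.sub hy', by rw [map_sub, map_sub]; abel⟩

theorem BdOn.neg {a : Set I} {b : Set σ} {x : GG I σ R} (hx : BdOn a b x) :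
    BdOn a b (-x) := by
  have h := (BdOn.zero (R := R) a b).sub hx
  rwa [zero_sub] at h

theorem BdOn.sum {ι : Type} {a : Set I} {b : Set σ} (s : Finset ι) {x : ι → GG I σ R}
    (hx : ∀ i ∈ s, BdOn a b (x i)) : BdOn a b (∑ i ∈ s, x i) := by
  classical
  induction s using Finset.induction_on with
  | empty => rw [Finset.sum_empty]; exact BdOn.zero a b
  | insert i s his ih =>
    rw [Finset.sum_insert his]
    exact (hx i (Finset.mem_insert_self i s)).add
      (ih fun j hj => hx j (Finset.mem_insert_of_mem hj))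

theorem BdOn.mul {a a' : Set I} {b b' : Set σ} (ha : Disjoint a a') (hb : Disjoint b b')
    {x y : GG I σ R} (hx : BdOn a b x) (hy : IsCubeOn a' b' y) :
    BdOn (a ∪ a') (b ∪ b') (x * y) := by
  obtain ⟨x', hx', rfl⟩ := hx
  refine ⟨x' * GG.base (Polynomial.C : R →+* R[X]) y, hx'.mul ha hb (hy.base _), ?_⟩
  have h : ∀ e, GG.base (ev R e) (GG.base (Polynomial.C : R →+* R[X]) y) = y := by
    intro e
    rw [GG.base_base]
    have h1 : (ev R e).comp (Polynomial.C : R →+* R[X]) = RingHom.id R := by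
      ext r
      simp [ev]
    rw [h1, GG.base_id]
  rw [map_mul, map_mul, h, h, sub_mul]

theorem BdOn.base {a : Set I} {b : Set σ} (f : R →+* R') {x : GG I σ R}
    (hx : BdOn a b x) : BdOn a b (GG.base f x) := by
  obtain ⟨x', hx', rfl⟩ := hx
  refine ⟨GG.base (Polynomial.mapRingHom f) x', hx'.base _, ?_⟩
  rw [GG.base_base, GG.base_base, ev_map, ev_map, map_sub, GG.base_base, GG.base_base]

theorem BdOn.corr {a : Set I} {b : Set σ} (Λ : S →+* Matrix δ δ R) {x : GG I σ S}
    (hx : BdOn a b x) : BdOn a b (GG.corr Λ x) := by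
  obtain ⟨x', hx', rfl⟩ := hx
  refine ⟨GG.corr (pCorr Λ) x', hx'.corr _, ?_⟩
  rw [GG.base_corr, GG.base_corr, ev_pCorr, ev_pCorr, map_sub, GG.corr_base, GG.corr_base]

/-- Homotopic block homomorphisms have homotopic `corr`. -/
theorem homotopy {a : Set I} {b : Set σ} (Λ : S →+* Matrix δ δ R[X]) {x : GG I σ S}
    (hx : IsCubeOn a b x) :
    BdOn a b (GG.corr (((ev R true).mapMatrix).comp Λ) x
      - GG.corr (((ev R false).mapMatrix).comp Λ) x) := by
  refine ⟨GG.corr Λ x, hx.corr Λ, ?_⟩
  rw [GG.base_corr, GG.base_corr]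

end

end Pool.Agent.GSM
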