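import Mathlib

/-!
# A big field

MODULE GSM-Big. PLAN. Noether normalisation of `R` gives an injective integral
`f : MvPolynomial (Fin s) k →ₐ[k] R`. Take `Ω = AlgebraicClosure (FractionRing (MvPolynomial (Fin s) K))`.
`MvPolynomial (Fin s) k → MvPolynomial (Fin s) K → Ω` is injective; extend it to the fraction field
of `R`, which is algebraic over the fraction field of `MvPolynomial (Fin s) k` (`IsAlgClosed.lift`), or
directly to `R` (integral extension of domains); the extension is injective on `R`.
-/

noncomputable section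

namespace Pool.Agent.GSM

universe u v

theorem exists_big {k : Type u} [Field k] {K : Type u} [Field K] [Algebra k K] {R : Type v}
    [CommRing R] [IsDomain R] [Algebra k R] [Algebra.FiniteType k R] :
    ∃ (Ω : Type u) (_ : Field Ω) (_ : IsAlgClosed Ω) (_ : Algebra K Ω) (_ : Algebra k Ω)
      (_ : IsScalarTower k K Ω) (η : R →ₐ[k] Ω), Function.Injective η := by
  obtain ⟨s, g, hg, hgi⟩ := exists_integral_inj_algHom_of_fg k R
  let B := MvPolynomial (Fin s) K
  let Ω := AlgebraicClosure (FractionRing B)
  -- the two embeddings of the polynomial ring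
  let φ : MvPolynomial (Fin s) k →ₐ[k] B := MvPolynomial.mapAlgHom (Algebra.ofId k K)
  have hφ : Function.Injective φ :=
    MvPolynomial.map_injective _ (algebraMap k K).injective
  let ψ : B →ₐ[k] Ω := (IsScalarTower.toAlgHom B (FractionRing B) Ω).restrictScalars k |>.comp
    ((Algebra.ofId B (FractionRing B)).restrictScalars k)
  have hψ : Function.Injective ψ := by
    intro x y h
    have h1 : algebraMap (FractionRing B) Ω (algebraMap B (FractionRing B) x) =
      algebraMap (FractionRing B) Ω (algebraMap B (FractionRing B) y) := h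
    exact IsFractionRing.injective B (FractionRing B)
      ((algebraMap (FractionRing B) Ω).injective h1)
  let χ : MvPolynomial (Fin s) k →ₐ[k] Ω := ψ.comp φ
  have hχ : Function.Injective χ := hψ.comp hφ
  let a1 : Algebra (MvPolynomial (Fin s) k) R := g.toRingHom.toAlgebra
  let a2 : Algebra (MvPolynomial (Fin s) k) Ω := χ.toRingHom.toAlgebra
  have t1 : Module.IsTorsionFree (MvPolynomial (Fin s) k) R :=
    Module.isTorsionFree_iff_algebraMap_injective.2 hg
  have t2 : Module.IsTorsionFree (MvPolynomial (Fin s) k) Ω :=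
    Module.isTorsionFree_iff_algebraMap_injective.2 hχ
  have t3 : Algebra.IsIntegral (MvPolynomial (Fin s) k) R := ⟨hgi⟩
  let l : R →ₐ[MvPolynomial (Fin s) k] Ω := IsAlgClosed.lift
  have hl : ∀ x : MvPolynomial (Fin s) k, l (g x) = χ x := fun x => l.commutes x
  have hli : Function.Injective l := by
    have h1 : RingHom.ker (l : R →+* Ω) = ⊥ := by
      refine Ideal.eq_bot_of_comap_eq_bot (R := MvPolynomial (Fin s) k) ?_
      rw [eq_bot_iff]
      intro x hx
      have h2 : l (g x) = 0 := hx
      rw [hl x] at h2
      have h3 : x = 0 := hχ (by rw [h2, map_zero])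
      exact h3
    exact (RingHom.injective_iff_ker_eq_bot (l : R →+* Ω)).2 h1
  let η : R →ₐ[k] Ω :=
    { (l : R →+* Ω) with
      commutes' := fun r => by
        show l (algebraMap k R r) = algebraMap k Ω r
        rw [← g.commutes r, hl, χ.commutes] }
  exact ⟨Ω, inferInstance, inferInstance, inferInstance, inferInstance, inferInstance, η, hli⟩

/-- Over an algebraically closed field every proper situation has constant points. -/
theorem exists_const_point {k : Type u} [Field k] [IsAlgClosed k] {K : Type u} [Field K]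
    [Algebra k K] {R : Type v} [CommRing R] [Algebra k R] [Algebra.FiniteType k R]
    (p : R →ₐ[k] K) : ∃ a : R →ₐ[k] k, RingHom.ker p ≤ RingHom.ker a := by
  obtain ⟨M, hM, hpM⟩ := Ideal.exists_le_maximal (RingHom.ker p) (RingHom.ker_ne_top p)
  let _ : Field (R ⧸ M) := Ideal.Quotient.field M
  have : Module.Finite k (R ⧸ M) := finite_of_finite_type_of_isJacobsonRing k (R ⧸ M)
  have hb : Function.Bijective (algebraMap k (R ⧸ M)) :=
    IsAlgClosed.algebraMap_bijective_of_isIntegral
  let e : k ≃ₐ[k] (R ⧸ M) := AlgEquiv.ofBijective (Algebra.ofId k (R ⧸ M)) hb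
  refine ⟨(e.symm : (R ⧸ M) →ₐ[k] k).comp (Ideal.Quotient.mkₐ k M), fun x hx => ?_⟩
  have h1 : (Ideal.Quotient.mkₐ k M) x = 0 := by
    rw [Ideal.Quotient.mkₐ_eq_mk]
    exact Ideal.Quotient.eq_zero_iff_mem.2 (hpM hx)
  rw [RingHom.mem_ker]
  show e.symm ((Ideal.Quotient.mkₐ k M) x) = 0
  rw [h1, map_zero]

end Pool.Agent.GSM
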