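import Pool.Agent.GSM.Step

/-!
# Every point of a finitely generated algebra is linked with a constant point

Induction on `n` with `Algebra.trdeg k p.range ≤ n` (finite because `p.range`
is a finitely generated algebra). If it is `0`, every element of the range is algebraic over `k`,
hence in `k` (`IsAlgClosed`), which defines `z` with `(algebraMap k K).comp z = p`
(`linked_self`). Otherwise `exists_step` and `Linked.trans`.
-/

noncomputable section

namespace Pool.Agent.GSM

universe u v

theorem exists_linked {k : Type u} [Field k] [IsAlgClosed k] [CharZero k] {K : Type u} [Field K]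
    [IsAlgClosed K] [Algebra k K] {R : Type v} [CommRing R] [Algebra k R]
    [Algebra.FiniteType k R] (p : R →ₐ[k] K) :
    ∃ (z : R →ₐ[k] k) (D : ℕ),
      Linked (p : R →+* K) ((algebraMap k K).comp (z : R →+* k)) D := by
  have key : ∀ (n : ℕ) (p : R →ₐ[k] K), Algebra.trdeg k p.range = n →
      ∃ (z : R →ₐ[k] k) (D : ℕ),
        Linked (p : R →+* K) ((algebraMap k K).comp (z : R →+* k)) D := by
    intro n
    induction n using Nat.strong_induction_on with
    | _ n ih =>
      intro p hp
      rcases n with _ | n
      · have h1 : Algebra.IsAlgebraic k p.range :=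
          (trdeg_eq_zero_iff (R := k) (A := p.range)).1 (by rw [hp]; simp)
        have h2 : Function.Surjective (algebraMap k p.range) :=
          (IsAlgClosed.algebraMap_bijective_of_isIntegral (k := k) (K := p.range)).2
        let e : k ≃ₐ[k] p.range := AlgEquiv.ofBijective (Algebra.ofId k p.range)
          ⟨(algebraMap k p.range).injective, h2⟩
        refine ⟨(e.symm : p.range →ₐ[k] k).comp p.rangeRestrict, 1, ?_⟩
        have h3 : (algebraMap k K).comp
            (((e.symm : p.range →ₐ[k] k).comp p.rangeRestrict : R →ₐ[k] k) : R →+* k) =
            (p : R →+* K) := by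
          ext x
          have h4 : algebraMap k p.range (e.symm (p.rangeRestrict x)) = p.rangeRestrict x :=
            e.apply_symm_apply _
          have h5 := congrArg (fun y : p.range => (y : K)) h4
          exact h5
        rw [h3]
        exact linked_self _
      · obtain ⟨q, D, hq, hL⟩ := exists_step p n (by rw [hp]; push_cast; rfl)
        obtain ⟨m, hm⟩ := Cardinal.lt_aleph0.1 (hq.trans_lt (Cardinal.natCast_lt_aleph0 (n := n)))
        have hmn : m ≤ n := by
          rw [hm] at hq
          exact_mod_cast hq
        obtain ⟨z, D', hz⟩ := ih m (by omega) q hm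
        exact ⟨z, D + D', hL.trans hz⟩
  have : Algebra.FiniteType k p.range :=
    Algebra.FiniteType.of_surjective p.rangeRestrict p.rangeRestrict_surjective
  obtain ⟨n, hn⟩ := Cardinal.lt_aleph0.1
    (trdeg_lt_aleph0_of_finiteType (R := k) (S := p.range))
  exact key n p hn

end Pool.Agent.GSM
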