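import Pool.Agent.GSM.StepTo

/-!
# A point is linked with every constant point of its closure

MODULE GSM-ChainTo. PLAN. As `exists_linked` (Chain.lean), with `exists_step_to`. If the transcendence
degree is `0` then `p = (k → K) ∘ p₀` with `p₀ : R → k`, `ker p₀ = ker p ≤ ker a`, both maximal with
residue field `k`, so `p₀ = a` (`p₀ (r - algebraMap (p₀ r)) = 0`).
-/

noncomputable section

namespace Pool.Agent.GSM

universe u v

theorem exists_linked_to {k : Type u} [Field k] [IsAlgClosed k] [CharZero k] {K : Type u} [Field K]
    [IsAlgClosed K] [Algebra k K] {R : Type v} [CommRing R] [Algebra k R]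
    [Algebra.FiniteType k R] (p : R →ₐ[k] K) (a : R →ₐ[k] k)
    (ha : RingHom.ker p ≤ RingHom.ker a) :
    ∃ D : ℕ, Linked (p : R →+* K) ((algebraMap k K).comp (a : R →+* k)) D := by
  have key : ∀ (n : ℕ) (p : R →ₐ[k] K), RingHom.ker p ≤ RingHom.ker a →
      Algebra.trdeg k p.range = n →
      ∃ D : ℕ, Linked (p : R →+* K) ((algebraMap k K).comp (a : R →+* k)) D := by
    intro n
    induction n using Nat.strong_induction_on with
    | _ n ih =>
      intro p ha hp
      rcases n with _ | n
      · have h1 : Algebra.IsAlgebraic k p.range :=
          (trdeg_eq_zero_iff (R := k) (A := p.range)).1 (by rw [hp]; simp)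
        have h2 : Function.Surjective (algebraMap k p.range) :=
          (IsAlgClosed.algebraMap_bijective_of_isIntegral (k := k) (K := p.range)).2
        let e : k ≃ₐ[k] p.range := AlgEquiv.ofBijective (Algebra.ofId k p.range)
          ⟨(algebraMap k p.range).injective, h2⟩
        refine ⟨1, ?_⟩
        have h3 : (algebraMap k K).comp
            (((e.symm : p.range →ₐ[k] k).comp p.rangeRestrict : R →ₐ[k] k) : R →+* k) =
            (p : R →+* K) := by
          ext x
          have h4 : algebraMap k p.range (e.symm (p.rangeRestrict x)) = p.rangeRestrict x :=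
            e.apply_symm_apply _
          have h5 := congrArg (fun y : p.range => (y : K)) h4
          exact h5
        set p0 : R →ₐ[k] k := (e.symm : p.range →ₐ[k] k).comp p.rangeRestrict with hp0
        have h6 : (p0 : R →+* k) = (a : R →+* k) := by
          ext r
          have h7 : p (r - algebraMap k R (p0 r)) = 0 := by
            have h8 : algebraMap k K (p0 (r - algebraMap k R (p0 r))) =
                p (r - algebraMap k R (p0 r)) := RingHom.congr_fun h3 _
            rw [← h8, map_sub, p0.commutes]
            simp
          have h9 : r - algebraMap k R (p0 r) ∈ RingHom.ker a :=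
            ha ((RingHom.mem_ker).2 h7)
          rw [RingHom.mem_ker, map_sub, a.commutes, sub_eq_zero] at h9
          exact h9.symm
        rw [← h6, h3]
        exact linked_self _
      · obtain ⟨q, D, hqa, hq, hL⟩ := exists_step_to p a ha n (by rw [hp]; push_cast; rfl)
        obtain ⟨m, hm⟩ := Cardinal.lt_aleph0.1 (hq.trans_lt (Cardinal.natCast_lt_aleph0 (n := n)))
        have hmn : m ≤ n := by
          rw [hm] at hq
          exact_mod_cast hq
        obtain ⟨D', hz⟩ := ih m (by omega) q hqa hm
        exact ⟨D + D', hL.trans hz⟩
  have : Algebra.FiniteType k p.range :=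
    Algebra.FiniteType.of_surjective p.rangeRestrict p.rangeRestrict_surjective
  obtain ⟨n, hn⟩ := Cardinal.lt_aleph0.1
    (trdeg_lt_aleph0_of_finiteType (R := k) (S := p.range))
  exact key n p ha hn

end Pool.Agent.GSM
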