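import Pool.Agent.GSM.Tri

/-!
# Splitting off a row eigenvector
-/

noncomputable section

namespace Pool.Agent.GSM

open Matrix

universe u v

private theorem rr_basis {K : Type u} [Field K] {d : ℕ} (l : Fin (d + 1) → K) (hl : l ≠ 0) :
    ∃ (P : Matrix (Fin (d + 1)) (Fin d ⊕ Unit) K) (Q : Matrix (Fin d ⊕ Unit) (Fin (d + 1)) K),
      P * Q = 1 ∧ Q * P = 1 ∧ Q (Sum.inr ()) = l := by
  obtain ⟨i0, hi0⟩ := Function.ne_iff.1 hl
  rw [Pi.zero_apply] at hi0
  let P : Matrix (Fin (d + 1)) (Fin d ⊕ Unit) K := Matrix.of fun i =>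
    Sum.elim (fun k => if i = i0 then -(l (i0.succAbove k)) / l i0 else
      if i = i0.succAbove k then 1 else 0) (fun _ => if i = i0 then (l i0)⁻¹ else 0)
  let Q : Matrix (Fin d ⊕ Unit) (Fin (d + 1)) K := Matrix.of
    (Sum.elim (fun k i => if i = i0.succAbove k then 1 else 0) (fun _ => l))
  have hQP : Q * P = 1 := by
    ext a b
    rw [Matrix.mul_apply]
    rcases a with j | a
    · have h1 : ∑ i, Q (Sum.inl j) i * P i b = P (i0.succAbove j) b := by
        rw [Finset.sum_eq_single (i0.succAbove j)]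
        · simp [Q]
        · intro i _ hi
          simp [Q, hi]
        · intro h
          exact absurd (Finset.mem_univ _) h
      rw [h1]
      rcases b with k | b
      · simp [P, Matrix.one_apply]
      · simp [P]
    · rw [Fin.sum_univ_succAbove _ i0]
      rcases b with k | b
      · have h2 : ∑ i, Q (Sum.inr a) (i0.succAbove i) * P (i0.succAbove i) (Sum.inl k) =
            l (i0.succAbove k) := by
          rw [Finset.sum_eq_single k]
          · simp [P, Q]
          · intro i _ hi
            simp [P, Q, hi]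
          · intro h
            exact absurd (Finset.mem_univ _) h
        rw [h2]
        have h3 : Q (Sum.inr a) i0 * P i0 (Sum.inl k) = - l (i0.succAbove k) := by
          simp only [P, Q, Matrix.of_apply, Sum.elim_inr, Sum.elim_inl, if_true]
          field_simp
        rw [h3]
        simp
      · have h2 : ∑ i, Q (Sum.inr a) (i0.succAbove i) * P (i0.succAbove i) (Sum.inr b) = 0 := by
          refine Finset.sum_eq_zero fun i _ => ?_
          simp [P]
        rw [h2, add_zero]
        have h3 : Q (Sum.inr a) i0 * P i0 (Sum.inr b) = 1 := by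
          simp only [P, Q, Matrix.of_apply, Sum.elim_inr, if_true]
          exact mul_inv_cancel₀ hi0
        rw [h3]
        simp
  have hPQ : P * Q = 1 := by
    rw [Matrix.mul_eq_one_comm_of_card_eq]
    · exact hQP
    · simp
  exact ⟨P, Q, hPQ, hQP, rfl⟩

theorem row_reduce {K : Type u} [Field K] {S : Type v} [CommRing S]
    {d : ℕ} (Λ : S →+* Matrix (Fin (d + 1)) (Fin (d + 1)) K) (χ : S →+* K)
    (l : Fin (d + 1) → K) (hl : l ≠ 0) (h : ∀ s, Matrix.vecMul l (Λ s) = χ s • l) :
    ∃ Λ' : S →+* Matrix (Fin d) (Fin d) K,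
      (∀ (s : S) (c : K), Λ s = Matrix.scalar _ c → Λ' s = Matrix.scalar _ c) ∧
      ∀ (I σ : Type) [DecidableEq I] [DecidableEq σ] (a : Set I) (b : Set σ) (x : GG I σ S),
        IsCubeOn a b x → BdOn a b (GG.corr Λ x - (GG.base χ x + GG.corr Λ' x)) := by
  obtain ⟨P, Q, hPQ, hQP, hQl⟩ := rr_basis l hl
  let Λc : S →+* Matrix (Fin d ⊕ Unit) (Fin d ⊕ Unit) K :=
    { toFun := fun s => Q * Λ s * P
      map_one' := by rw [map_one, Matrix.mul_one, hQP]
      map_mul' := by
        intro s t
        rw [map_mul]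
        have e1 : Q * Λ s * P * (Q * Λ t * P) = Q * Λ s * (P * Q) * (Λ t * P) := by
          simp only [Matrix.mul_assoc]
        rw [e1, hPQ, Matrix.mul_one]
        simp only [Matrix.mul_assoc]
      map_zero' := by rw [map_zero, Matrix.mul_zero, Matrix.zero_mul]
      map_add' := by
        intro s t
        rw [map_add, Matrix.mul_add, Matrix.add_mul] }
  have hΛc : ∀ s, Λc s = Q * Λ s * P := fun s => rfl
  -- the last row
  have hrow : ∀ s b, Λc s (Sum.inr ()) b = if b = Sum.inr () then χ s else 0 := by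
    intro s b
    have h1 : (Q * Λ s) (Sum.inr ()) = χ s • l := by
      funext i
      rw [Matrix.mul_apply', hQl, ← h s]
      rfl
    have h2 : Λc s (Sum.inr ()) b = (χ s • l) ⬝ᵥ fun i => P i b := by
      rw [hΛc, Matrix.mul_apply', h1]
    have h3 : (l ⬝ᵥ fun i => P i b) = (1 : Matrix (Fin d ⊕ Unit) (Fin d ⊕ Unit) K) (Sum.inr ()) b := by
      rw [← hQP, Matrix.mul_apply', hQl]
    rw [h2, smul_dotProduct, h3, Matrix.one_apply, smul_eq_mul]
    by_cases hb : b = Sum.inr ()
    · rw [if_pos hb, if_pos hb.symm, mul_one]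
    · rw [if_neg hb, if_neg (fun h => hb h.symm), mul_zero]
  have h21 : ∀ s, (Λc s).toBlocks₂₁ = 0 := by
    intro s
    ext a b
    rw [Matrix.toBlocks₂₁, Matrix.of_apply, hrow, if_neg (by simp)]
    rfl
  let Λ' : S →+* Matrix (Fin d) (Fin d) K :=
    { toFun := fun s => (Λc s).toBlocks₁₁
      map_one' := by
        rw [map_one]
        ext i j
        simp [Matrix.toBlocks₁₁, Matrix.one_apply]
      map_mul' := by
        intro s t
        have h1 := congrArg Matrix.toBlocks₁₁ (map_mul Λc s t)
        rw [h1]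
        conv_lhs => rw [← Matrix.fromBlocks_toBlocks (Λc s), ← Matrix.fromBlocks_toBlocks (Λc t)]
        rw [Matrix.fromBlocks_multiply, Matrix.toBlocks_fromBlocks₁₁, h21 t, Matrix.mul_zero,
          add_zero]
      map_zero' := by
        rw [map_zero]
        rfl
      map_add' := by
        intro s t
        rw [map_add]
        rfl }
  refine ⟨Λ', ?_, ?_⟩
  · intro s c hs
    have h1 : Λc s = Matrix.scalar _ c := by
      rw [hΛc, hs]
      have h2 : Q * Matrix.scalar (Fin (d + 1)) c = c • Q := by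
        ext i j
        simp [Matrix.scalar_apply, Matrix.mul_diagonal, mul_comm]
      rw [h2, Matrix.smul_mul, hQP]
      ext i j
      simp [Matrix.scalar_apply, Matrix.diagonal_apply, Matrix.one_apply]
    ext i j
    show Λc s (Sum.inl i) (Sum.inl j) = _
    rw [h1]
    simp [Matrix.diagonal_apply]
  · intro I σ _ _ a b x hx
    let Λ₂ : S →+* Matrix Unit Unit K := (Matrix.scalar Unit).comp χ
    have h1 : GG.corr Λ x = GG.corr Λc x := by
      refine GG.corr_conj Λ Λc P Q hPQ hQP (fun s => ?_) x
      rw [hΛc, ← Matrix.mul_assoc, ← Matrix.mul_assoc, hPQ, Matrix.one_mul]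
    have h2 : GG.corr Λ₂ x = GG.base χ x := by
      refine GG.corr_unique Λ₂ χ (fun s => ?_) x
      simp [Λ₂]
    have h3 := corr_triangular Λc Λ' Λ₂ (fun s => (Λc s).toBlocks₁₂) (fun s => by
      have h4 : (Λc s).toBlocks₂₂ = Λ₂ s := by
        ext i j
        show Λc s (Sum.inr i) (Sum.inr j) = _
        rw [hrow]
        simp [Λ₂]
      conv_lhs => rw [← Matrix.fromBlocks_toBlocks (Λc s), h21 s, h4]
      rfl) hx
    rw [h2, add_comm (GG.corr Λ' x)] at h3
    rw [h1]
    exact h3

end Pool.Agent.GSM
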