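import Pool.Agent.GSM.Eigen
import Pool.Agent.GSM.RowRed

/-!
# Decomposition into characters

Induction on `d` with `exists_row_eigen`, `row_reduce` and `BdOn.add`.
-/

noncomputable section

namespace Pool.Agent.GSM

open Matrix

universe u v

/-- `Λ` is, up to homotopy, the sum of the characters `χ i`. -/
structure CharDecomp {K : Type u} [Field K] {S : Type v} [CommRing S] {d : ℕ}
    (Λ : S →+* Matrix (Fin d) (Fin d) K) (χ : Fin d → (S →+* K)) : Prop where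
  scalar : ∀ (s : S) (c : K), Λ s = Matrix.scalar _ c → ∀ i, χ i s = c
  bd : ∀ (I σ : Type) [DecidableEq I] [DecidableEq σ] (a : Set I) (b : Set σ) (x : GG I σ S),
    IsCubeOn a b x → BdOn a b (GG.corr Λ x - ∑ i, GG.base (χ i) x)

private theorem chars_step {K : Type u} [Field K] {S : Type v} [CommRing S]
    {d : ℕ} (Λ : S →+* Matrix (Fin (d + 1)) (Fin (d + 1)) K) (χ₀ : S →+* K)
    (l : Fin (d + 1) → K) (hl : l ≠ 0) (h : ∀ s, Matrix.vecMul l (Λ s) = χ₀ s • l)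
    (ih : ∀ Λ' : S →+* Matrix (Fin d) (Fin d) K, ∃ χ, CharDecomp Λ' χ) :
    ∃ χ, CharDecomp Λ χ ∧ χ 0 = χ₀ := by
  obtain ⟨Λ', h1, h2⟩ := row_reduce Λ χ₀ l hl h
  obtain ⟨χ, hχ⟩ := ih Λ'
  refine ⟨Fin.cons χ₀ χ, ⟨?_, ?_⟩, rfl⟩
  · intro s c hs i
    refine Fin.cases ?_ (fun j => ?_) i
    · rw [Fin.cons_zero]
      obtain ⟨k, hk⟩ := Function.ne_iff.1 hl
      have h3 := congrFun (h s) k
      rw [hs] at h3
      have h4 : Matrix.vecMul l (Matrix.scalar (Fin (d + 1)) c) k = l k * c := by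
        rw [Matrix.scalar_apply, Matrix.vecMul_diagonal]
      rw [h4, Pi.smul_apply, smul_eq_mul, mul_comm] at h3
      exact (mul_right_cancel₀ (by simpa using hk) h3).symm
    · rw [Fin.cons_succ]
      exact hχ.scalar s c (h1 s c hs) j
  · intro I σ _ _ a b x hx
    have h3 := (h2 I σ a b x hx).add (hχ.bd I σ a b x hx)
    have h4 : GG.corr Λ x - ∑ i, GG.base ((Fin.cons χ₀ χ : Fin (d + 1) → (S →+* K)) i) x =
        (GG.corr Λ x - (GG.base χ₀ x + GG.corr Λ' x)) +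
          (GG.corr Λ' x - ∑ i, GG.base (χ i) x) := by
      rw [Fin.sum_univ_succ]
      simp only [Fin.cons_zero, Fin.cons_succ]
      abel
    rw [h4]
    exact h3

theorem exists_charDecomp {K : Type u} [Field K] [IsAlgClosed K] {S : Type v} [CommRing S]
    {d : ℕ} (Λ : S →+* Matrix (Fin d) (Fin d) K) : ∃ χ, CharDecomp Λ χ := by
  induction d with
  | zero =>
    refine ⟨fun i => i.elim0, ⟨fun _ _ _ i => i.elim0, ?_⟩⟩
    intro I σ _ _ a b x _
    rw [GG.corr_empty, Finset.univ_eq_empty, Finset.sum_empty, sub_zero]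
    exact BdOn.zero a b
  | succ d ih =>
    obtain ⟨χ₀, l, hl, h⟩ := exists_row_eigen Λ
    obtain ⟨χ, hχ, _⟩ := chars_step Λ χ₀ l hl h ih
    exact ⟨χ, hχ⟩

theorem exists_charDecomp_zero {K : Type u} [Field K] [IsAlgClosed K] {S : Type v} [CommRing S]
    {d : ℕ} (Λ : S →+* Matrix (Fin (d + 1)) (Fin (d + 1)) K) (χ₀ : S →+* K)
    (l : Fin (d + 1) → K) (hl : l ≠ 0) (h : ∀ s, Matrix.vecMul l (Λ s) = χ₀ s • l) :
    ∃ χ, CharDecomp Λ χ ∧ χ 0 = χ₀ := by
  exact chars_step Λ χ₀ l hl h fun Λ' => exists_charDecomp Λ'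

end Pool.Agent.GSM
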