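import Pool.Agent.GSM.ContK
import Pool.Agent.GSM.Bd

/-!
# Continuity of cubes and boundaries

MODULE GSM-ContG. PLAN. Apply `KK.exists_lift`, `KK.descend` to `MvPolynomial I K` (and to
`MvPolynomial I K[X]`): for a finite set `F` of polynomials let `F'` be the set of their
coefficients; if `F' ⊆ range f`, `f : A → K` injective, then `F ⊆ range (MvPolynomial.map f)`, which
is injective. For `exists_cube`: lift `x`, then the finitely many (`I`, `σ` finite) conditions
`face i e x = 0` etc. hold after enlarging `A` (`KK.descend` for the identity or the inclusion: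
the set `F` obtained for a first lift over the subring generated by `F'`; work with subrings
of `K`: first a finitely generated subring `A₀ ⊆ K` over which `x` is defined, then `F₂`).
For `bd_descend`: lift the homotopy, and descend the equality of its ends with `x`.
-/

noncomputable section

namespace Pool.Agent.GSM

universe u v w

/-- All coefficients of a set of polynomials. -/
private def mvCoefs {I : Type} {K : Type u} [CommRing K] (F : Set (MvPolynomial I K)) : Set K :=
  ⋃ p ∈ F, (↑p.coeffs : Set K)

private theorem mvCoefs_finite {I : Type} {K : Type u} [CommRing K]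
    {F : Set (MvPolynomial I K)} (hF : F.Finite) : (mvCoefs F).Finite :=
  hF.biUnion fun p _ => p.coeffs.finite_toSet

private theorem subset_range_map {I : Type} {K : Type u} [CommRing K] {A : Type v} [CommRing A]
    {F : Set (MvPolynomial I K)} (f : A →+* K) (h : mvCoefs F ⊆ Set.range f) :
    F ⊆ Set.range (MvPolynomial.map (σ := I) f) := by
  intro p hp
  rw [MvPolynomial.mem_range_map_iff_coeffs_subset]
  intro c hc
  exact h (Set.mem_biUnion hp hc)

/-- All coefficients of a set of polynomials in one variable. -/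
private def poCoefs {K : Type u} [CommRing K] (F : Set (Polynomial K)) : Set K :=
  ⋃ p ∈ F, (↑p.coeffs : Set K)

private theorem poCoefs_finite {K : Type u} [CommRing K]
    {F : Set (Polynomial K)} (hF : F.Finite) : (poCoefs F).Finite :=
  hF.biUnion fun p _ => p.coeffs.finite_toSet

private theorem subset_range_mapRingHom {K : Type u} [CommRing K] {A : Type v} [CommRing A]
    {F : Set (Polynomial K)} (f : A →+* K) (h : poCoefs F ⊆ Set.range f) :
    F ⊆ Set.range (Polynomial.mapRingHom f) := by
  intro p hp
  have : p ∈ (Polynomial.mapRingHom f).range := by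
    rw [Polynomial.mem_map_range]
    intro n
    by_cases hn : p.coeff n = 0
    · rw [hn]
      exact zero_mem _
    · exact h (Set.mem_biUnion hp (Polynomial.coeff_mem_coeffs hn))
  exact this

/-- A subring contained in the range of an injective homomorphism lifts. -/
private theorem exists_lift_subring {K : Type u} [CommRing K] {A : Type v} [CommRing A]
    (f : A →+* K) (hf : Function.Injective f) (S : Subring K) (hS : S ≤ f.range) :
    ∃ g : S →+* A, f.comp g = S.subtype := by
  obtain ⟨l, hl⟩ := hf.hasLeftInverse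
  refine ⟨((RingEquiv.ofLeftInverse hl).symm : f.range →+* A).comp (Subring.inclusion hS), ?_⟩
  ext x
  obtain ⟨y, hy⟩ := hS x.2
  have : (Subring.inclusion hS) x = RingEquiv.ofLeftInverse hl y := by
    apply Subtype.ext
    simp [hy]
  simp [this, hy]

section

variable {I σ : Type} [Finite I] [DecidableEq I] [Finite σ] [DecidableEq σ]

/-- `KK.exists_lift` for classes over polynomial rings. -/
private theorem gg_exists_lift {K : Type u} [CommRing K] (x : GG I σ K) : ∃ F : Set K, F.Finite ∧
    ∀ {A : Type v} [CommRing A] (f : A →+* K), Function.Injective f → F ⊆ Set.range f →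
      ∃ y : GG I σ A, GG.base f y = x := by
  obtain ⟨F, hF, h⟩ := KK.exists_lift.{u, v} x
  refine ⟨mvCoefs F, mvCoefs_finite hF, fun {A} _ f hf hr => ?_⟩
  exact h (MvPolynomial.map f) (MvPolynomial.map_injective f hf) (subset_range_map f hr)

/-- `KK.descend` for classes over polynomial rings. -/
private theorem gg_descend {K : Type u} [CommRing K] {A : Type v} [CommRing A] (f : A →+* K)
    (x : GG I σ A) (hx : GG.base f x = 0) :
    ∃ F : Set K, F.Finite ∧
      ∀ {A' : Type w} [CommRing A'] (g : A →+* A') (g' : A' →+* K), g'.comp g = f →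
        Function.Injective g' → F ⊆ Set.range g' → GG.base g x = 0 := by
  obtain ⟨F, hF, h⟩ := KK.descend.{u, v, w} (MvPolynomial.map (σ := I) f) x hx
  refine ⟨mvCoefs F, mvCoefs_finite hF, fun {A'} _ g g' hg hi hr => ?_⟩
  refine h (MvPolynomial.map g) (MvPolynomial.map g') ?_ (MvPolynomial.map_injective g' hi)
    (subset_range_map g' hr)
  rw [← hg]
  ext p <;> simp

/-- A finite family of equalities descends simultaneously. -/
private theorem gg_descend_fam {K : Type u} [CommRing K] {A : Type v} [CommRing A] (f : A →+* K)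
    {ι : Type} [Finite ι] (x : ι → GG I σ A) (hx : ∀ i, GG.base f (x i) = 0) :
    ∃ F : Set K, F.Finite ∧
      ∀ {A' : Type w} [CommRing A'] (g : A →+* A') (g' : A' →+* K), g'.comp g = f →
        Function.Injective g' → F ⊆ Set.range g' → ∀ i, GG.base g (x i) = 0 := by
  choose F hF h using fun i => gg_descend.{u, v, w} f (x i) (hx i)
  refine ⟨⋃ i, F i, Set.finite_iUnion hF, fun {A'} _ g g' hg hi hr i => ?_⟩
  exact h i g g' hg hi ((Set.subset_iUnion F i).trans hr)

theorem exists_cube {K : Type u} [CommRing K] {a : Set I} {b : Set σ} {x : GG I σ K}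
    (hx : IsCubeOn a b x) : ∃ F : Set K, F.Finite ∧
      ∀ {A : Type v} [CommRing A] (f : A →+* K), Function.Injective f → F ⊆ Set.range f →
        ∃ y : GG I σ A, IsCubeOn a b y ∧ GG.base f y = x := by
  classical
  obtain ⟨F₁, hF₁, h₁⟩ := gg_exists_lift.{u, u} x
  obtain ⟨y₀, hy₀⟩ := h₁ (Subring.closure F₁).subtype (Subtype.val_injective)
    (by
      intro c hc
      exact ⟨⟨c, Subring.subset_closure hc⟩, rfl⟩)
  obtain ⟨F₂, hF₂, h₂⟩ := gg_descend_fam.{u, u, v} (Subring.closure F₁).subtype
    (fun q : I × Bool => face q.1 q.2 y₀ - if q.1 ∈ a then 0 else y₀) (by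
      rintro ⟨i, e⟩
      have h : GG.base (Subring.closure F₁).subtype (face i e y₀) = face i e x := by
        rw [← hy₀]
        exact GG.base_sub _ _ _
      simp only
      rw [map_sub, h]
      split_ifs with hi
      · rw [hx.face_mem i hi, map_zero, sub_zero]
      · rw [hx.face_not_mem i hi, hy₀, sub_self])
  obtain ⟨F₃, hF₃, h₃⟩ := gg_descend_fam.{u, u, v} (Subring.closure F₁).subtype
    (fun s : σ => kill s y₀ - if s ∈ b then 0 else y₀) (by
      intro s
      have h : GG.base (Subring.closure F₁).subtype (kill s y₀) = kill s x := by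
        rw [← hy₀]
        exact GG.base_pull _ _ _
      rw [map_sub, h]
      split_ifs with hs
      · rw [hx.kill_mem s hs, map_zero, sub_zero]
      · rw [hx.kill_not_mem s hs, hy₀, sub_self])
  refine ⟨F₁ ∪ (F₂ ∪ F₃), hF₁.union (hF₂.union hF₃), fun {A} _ f hf hr => ?_⟩
  obtain ⟨g, hg⟩ := exists_lift_subring f hf (Subring.closure F₁) (by
    rw [Subring.closure_le]
    intro c hc
    exact hr (Or.inl hc))
  have H₂ := h₂ g f hg hf (fun c hc => hr (Or.inr (Or.inl hc)))
  have H₃ := h₃ g f hg hf (fun c hc => hr (Or.inr (Or.inr hc)))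
  have hface : ∀ i e, GG.base g (face i e y₀) = face i e (GG.base g y₀) := fun i e =>
    GG.base_sub _ _ _
  have hkill : ∀ s, GG.base g (kill s y₀) = kill s (GG.base g y₀) := fun s =>
    GG.base_pull _ _ _
  refine ⟨GG.base g y₀, ⟨?_, ?_, ?_, ?_⟩, ?_⟩
  · intro i hi e
    have := H₂ (i, e)
    simp only [if_pos hi, sub_zero] at this
    rw [← hface]
    exact this
  · intro i hi e
    have := H₂ (i, e)
    simp only [if_neg hi] at this
    rw [map_sub, sub_eq_zero, hface] at this
    exact this
  · intro s hs
    have := H₃ s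
    simp only [if_pos hs, sub_zero] at this
    rw [← hkill]
    exact this
  · intro s hs
    have := H₃ s
    simp only [if_neg hs] at this
    rw [map_sub, sub_eq_zero, hkill] at this
    exact this
  · rw [GG.base_base, hg]
    exact hy₀

theorem bd_descend {K : Type u} [CommRing K] {A : Type v} [CommRing A] (f : A →+* K)
    {a : Set I} {b : Set σ} (x : GG I σ A) (hx : BdOn a b (GG.base f x)) :
    ∃ F : Set K, F.Finite ∧
      ∀ {A' : Type w} [CommRing A'] (g : A →+* A') (g' : A' →+* K), g'.comp g = f →
        Function.Injective g' → F ⊆ Set.range g' → BdOn a b (GG.base g x) := by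
  obtain ⟨y, hy, hyx⟩ := hx
  obtain ⟨G, hG, h₁⟩ := exists_cube.{u, u} hy
  obtain ⟨S, hSdef⟩ : ∃ S : Subring K, S = Subring.closure (Set.range f ∪ poCoefs G) := ⟨_, rfl⟩
  have hfS : ∀ c, f c ∈ S := fun c => by
    rw [hSdef]
    exact Subring.subset_closure (Or.inl ⟨c, rfl⟩)
  obtain ⟨y₀, hy₀, hyy₀⟩ := h₁ (Polynomial.mapRingHom S.subtype)
    (Polynomial.map_injective _ Subtype.val_injective)
    (subset_range_mapRingHom _ (fun c hc => ⟨⟨c, by
      rw [hSdef]
      exact Subring.subset_closure (Or.inr hc)⟩, rfl⟩))
  have hf₀ : S.subtype.comp (f.codRestrict S hfS) = f := by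
    ext c
    rfl
  obtain ⟨F₂, hF₂, h₂⟩ := gg_descend.{u, u, w} S.subtype
    (GG.base (ev S true) y₀ - GG.base (ev S false) y₀ - GG.base (f.codRestrict S hfS) x) (by
      rw [map_sub, map_sub, GG.base_base, GG.base_base, GG.base_base, hf₀, ← ev_map, ← ev_map,
        ← GG.base_base, ← GG.base_base, hyy₀, hyx, sub_self])
  refine ⟨poCoefs G ∪ F₂, (poCoefs_finite hG).union hF₂, fun {A'} _ g g' hg hi hr => ?_⟩
  obtain ⟨h, hh⟩ := exists_lift_subring g' hi S (by
    rw [hSdef, Subring.closure_le]
    rintro c (⟨d, rfl⟩ | hc)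
    · exact ⟨g d, by rw [← hg]; rfl⟩
    · exact hr (Or.inl hc))
  have hhg : h.comp (f.codRestrict S hfS) = g := by
    ext c
    apply hi
    have e1 : g' (h (f.codRestrict S hfS c)) = f c := by
      have := RingHom.congr_fun hh (f.codRestrict S hfS c)
      exact this
    have e2 : g' (g c) = f c := by
      have := RingHom.congr_fun hg c
      exact this
    exact e1.trans e2.symm
  have H := h₂ h g' hh hi (fun c hc => hr (Or.inr hc))
  rw [map_sub, map_sub, GG.base_base, GG.base_base, GG.base_base, hhg, ← ev_map, ← ev_map,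
    ← GG.base_base, ← GG.base_base, sub_eq_zero] at H
  exact ⟨GG.base (Polynomial.mapRingHom h) y₀, hy₀.base _, H⟩

end

end Pool.Agent.GSM
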