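import Pool.Agent.GSM.GR

/-!
# Equality in the rational Grothendieck ring

MODULE GSM-GRker. PLAN. Let `G` be the Grothendieck group of the additive monoid `T`
(`Algebra.GrothendieckAddGroup T`, or pairs `(a, b)` modulo `a + b' + c = a' + b + c`), and `V` its
rationalisation (pairs `(g, n)`, `n ≠ 0`, i.e. `LocalizedModule (nonZeroDivisors ℤ) G` or
`TensorProduct ℤ ℚ G`), a `ℚ`-vector space. The additive map `T →+ V` extends to `GR T` (`liftAdd`),
so `of a = of b` gives equality of the images of `a`, `b` in `V`, i.e. `n • ([a] - [b]) = 0` in `G` for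
some `n ≠ 0`, i.e. `n • a + c = n • b + c` in `T`.
Alternative without tensor products: the set of `x : T →₀ ℚ` such that for some `n ≠ 0` all `n * x t` are
integers and `∑ (n x t)⁺ • t + c = ∑ (n x t)⁻ • t + c` for some `c` is a `ℚ`-subspace of
`MonoidAlgebra ℚ T` containing the additivity relations (`relIdeal_eq_span`).
-/

noncomputable section

namespace Pool.Agent.GSM

namespace GR

universe u

theorem of_eq_of {T : Type u} [CommSemiring T] {a b : T} (h : (of a : GR T) = of b) :
    ∃ (n : ℕ) (c : T), n ≠ 0 ∧ n • a + c = n • b + c := by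
  have hloc : IsLocalizedModule (nonZeroDivisors ℤ)
      (TensorProduct.mk ℤ ℚ (Algebra.GrothendieckAddGroup T) 1) :=
    (isLocalizedModule_iff_isBaseChange (nonZeroDivisors ℤ) ℚ _).2
      (TensorProduct.isBaseChange ℤ (Algebra.GrothendieckAddGroup T) ℚ)
  have h1 : TensorProduct.mk ℤ ℚ (Algebra.GrothendieckAddGroup T) 1
      (Algebra.GrothendieckAddGroup.of a) =
      TensorProduct.mk ℤ ℚ (Algebra.GrothendieckAddGroup T) 1
      (Algebra.GrothendieckAddGroup.of b) := by
    have h2 := congrArg (liftAdd ((TensorProduct.mk ℤ ℚ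
      (Algebra.GrothendieckAddGroup T) 1).toAddMonoidHom.comp
        (Algebra.GrothendieckAddGroup.of (M := T)))) h
    rw [liftAdd_of, liftAdd_of] at h2
    exact h2
  rw [IsLocalizedModule.eq_iff_exists (nonZeroDivisors ℤ)] at h1
  obtain ⟨z, hz⟩ := h1
  have hz0 : (z : ℤ) ≠ 0 := nonZeroDivisors.ne_zero z.2
  have hz' : (z : ℤ) • (Algebra.GrothendieckAddGroup.of a : Algebra.GrothendieckAddGroup T) =
      (z : ℤ) • Algebra.GrothendieckAddGroup.of b := hz
  have h3 : (z : ℤ).natAbs • (Algebra.GrothendieckAddGroup.of a :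
      Algebra.GrothendieckAddGroup T) = (z : ℤ).natAbs • Algebra.GrothendieckAddGroup.of b := by
    rcases Int.natAbs_eq (z : ℤ) with h4 | h4
    · rw [h4] at hz'
      rw [← natCast_zsmul, ← natCast_zsmul]
      exact hz'
    · rw [h4, neg_smul, neg_smul, neg_inj] at hz'
      rw [← natCast_zsmul, ← natCast_zsmul]
      exact hz'
  rw [← map_nsmul, ← map_nsmul] at h3
  obtain ⟨c, hc⟩ := ((AddLocalization.addMonoidOf (⊤ : AddSubmonoid T)).eq_iff_exists).1 h3
  refine ⟨(z : ℤ).natAbs, c, Int.natAbs_ne_zero.2 hz0, ?_⟩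
  rw [add_comm _ (c : T), add_comm _ (c : T)]
  exact hc

end GR

end Pool.Agent.GSM
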