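import Pool.Agent.GSM.ContT
import Pool.Agent.GSM.GRker

/-!
# Continuity of `KK`

MODULE GSM-ContK. PLAN. `exists_lift`: write `x = (of a - of b) / n` (`GR.exists_rep`), `cls_surj`,
`Tup.exists_lift`. `descend`: write `x = (mk A - mk B) / n` over `T'`; the hypothesis says
`mk (A.map f) = mk (B.map f)`, so by `GR.of_eq_of` there are `n ≠ 0` and a tuple `C` over `T` with
`n A ⊕ C ≅ n B ⊕ C` (after base change to `T`); `C` and this isomorphism are defined over a
suitable `T''` (`Tup.exists_lift`, `Tup.Iso.descend`). (If `C` is not defined over `T'` work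
directly over `T''`: choose `F` = entries of `C`, its inverses, and of the isomorphism.)
-/

noncomputable section

namespace Pool.Agent.GSM

universe u v w

section

variable {σ : Type} [Finite σ]

private theorem iso_lift {ι κ : Type} [Fintype ι] [DecidableEq ι] [Fintype κ] [DecidableEq κ]
    {σ : Type} {T : Type u} [CommRing T] {A : Tup ι σ T} {B : Tup κ σ T} (h : A.Iso B) :
    ∃ F : Set T, F.Finite ∧ ∀ {T'' : Type w} [CommRing T''] (g' : T'' →+* T),
      Function.Injective g' → F ⊆ Set.range g' → ∀ (A' : Tup ι σ T'') (B' : Tup κ σ T''),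
        A'.map g' = A → B'.map g' = B → A'.Iso B' := by
  obtain ⟨P, Q, h1, h2, h3⟩ := h
  refine ⟨Set.range (fun p : ι × κ => P p.1 p.2) ∪ Set.range (fun p : κ × ι => Q p.1 p.2),
    (Set.finite_range _).union (Set.finite_range _), ?_⟩
  intro T'' _ g' hg hF A' B' hA hB
  have hP : ∀ i j, ∃ y, g' y = P i j := fun i j => hF (Or.inl ⟨(i, j), rfl⟩)
  have hQ : ∀ i j, ∃ y, g' y = Q i j := fun i j => hF (Or.inr ⟨(i, j), rfl⟩)
  choose P' hP' using hP
  choose Q' hQ' using hQ
  have eP : (Matrix.of P').map g' = P := by ext i j; exact hP' i j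
  have eQ : (Matrix.of Q').map g' = Q := by ext i j; exact hQ' i j
  refine ⟨Matrix.of P', Matrix.of Q', ?_, ?_, fun s => ?_⟩
  · apply Matrix.map_injective hg
    show (Matrix.of P' * Matrix.of Q').map g' = (1 : Matrix ι ι T'').map g'
    rw [Matrix.map_mul, eP, eQ, h1, Matrix.map_one _ (map_zero g') (map_one g')]
  · apply Matrix.map_injective hg
    show (Matrix.of Q' * Matrix.of P').map g' = (1 : Matrix κ κ T'').map g'
    rw [Matrix.map_mul, eP, eQ, h2, Matrix.map_one _ (map_zero g') (map_one g')]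
  · apply Matrix.map_injective hg
    show (A'.mat s * Matrix.of P').map g' = (Matrix.of P' * B'.mat s).map g'
    have hAs : (A'.mat s).map g' = A.mat s := by rw [← hA]; rfl
    have hBs : (B'.mat s).map g' = B.mat s := by rw [← hB]; rfl
    rw [Matrix.map_mul, Matrix.map_mul, eP, hAs, hBs, h3]

private theorem map_of {σ : Type} {T : Type u} [CommRing T] {T' : Type v} [CommRing T']
    (f : T →+* T') (a : TupQ σ T) : KK.map f (GR.of a) = GR.of (TupQ.map f a) :=
  GR.lift_of _ a

private theorem map_cls {ι : Type} [Fintype ι] [DecidableEq ι] {σ : Type} {T : Type u}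
    [CommRing T] {T' : Type v} [CommRing T'] (f : T →+* T') (A : Tup ι σ T) :
    TupQ.map f (cls A) = cls (A.map f) :=
  TupQ.mapQ_cls f A

private theorem tmap_add {ι κ : Type} [Fintype ι] [DecidableEq ι] [Fintype κ] [DecidableEq κ]
    {σ : Type} {T : Type u} [CommRing T] {T' : Type v} [CommRing T'] (f : T →+* T')
    (A : Tup ι σ T) (B : Tup κ σ T) : (A.add B).map f = (A.map f).add (B.map f) := by
  apply Tup.ext
  funext s
  show (Matrix.fromBlocks (A.mat s) 0 0 (B.mat s)).map f =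
    Matrix.fromBlocks ((A.mat s).map f) 0 0 ((B.mat s).map f)
  rw [Matrix.fromBlocks_map, Matrix.map_zero _ (map_zero f), Matrix.map_zero _ (map_zero f)]

private theorem tmap_map {ι : Type} [Fintype ι] [DecidableEq ι] {σ : Type} {T : Type u}
    [CommRing T] {T' : Type v} [CommRing T'] {T'' : Type w} [CommRing T''] (f : T →+* T')
    (g : T' →+* T'') (A : Tup ι σ T) : (A.map f).map g = A.map (g.comp f) := by
  apply Tup.ext
  funext s
  rfl

theorem KK.exists_lift {T : Type u} [CommRing T] (x : KK σ T) : ∃ F : Set T, F.Finite ∧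
    ∀ {T' : Type v} [CommRing T'] (f : T' →+* T), Function.Injective f → F ⊆ Set.range f →
      ∃ y : KK σ T', KK.map f y = x := by
  obtain ⟨n, a, b, hn, hx⟩ := GR.exists_rep x
  obtain ⟨r, A, rfl⟩ := cls_surj a
  obtain ⟨r', B, rfl⟩ := cls_surj b
  obtain ⟨F, hF, hF'⟩ := Tup.exists_lift.{u, v} A
  obtain ⟨G, hG, hG'⟩ := Tup.exists_lift.{u, v} B
  refine ⟨F ∪ G, hF.union hG, ?_⟩
  intro T' _ f hf hFG
  obtain ⟨A', hA'⟩ := hF' f hf (Set.subset_union_left.trans hFG)
  obtain ⟨B', hB'⟩ := hG' f hf (Set.subset_union_right.trans hFG)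
  have hn' : (n : ℚ) ≠ 0 := Nat.cast_ne_zero.2 hn
  refine ⟨(n : ℚ)⁻¹ • (GR.of (cls A') - GR.of (cls B')), ?_⟩
  rw [map_smul, map_sub, map_of, map_of, map_cls, map_cls, hA', hB', ← hx, smul_smul,
    inv_mul_cancel₀ hn', one_smul]

theorem KK.descend {T : Type u} [CommRing T] {T' : Type v} [CommRing T'] (f : T' →+* T)
    (x : KK σ T') (h : KK.map f x = 0) : ∃ F : Set T, F.Finite ∧
      ∀ {T'' : Type w} [CommRing T''] (g : T' →+* T'') (g' : T'' →+* T), g'.comp g = f →
        Function.Injective g' → F ⊆ Set.range g' → KK.map g x = 0 := by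
  obtain ⟨n, a, b, hn, hx⟩ := GR.exists_rep x
  have hn' : (n : ℚ) ≠ 0 := Nat.cast_ne_zero.2 hn
  have h1 : (GR.of (TupQ.map f a) : KK σ T) = GR.of (TupQ.map f b) := by
    have h2 := congrArg (KK.map f) hx
    rw [map_smul, h, smul_zero, map_sub, map_of, map_of] at h2
    exact (sub_eq_zero.1 h2.symm)
  obtain ⟨m, c, hm, hc⟩ := GR.of_eq_of h1
  obtain ⟨r, C, rfl⟩ := cls_surj c
  obtain ⟨r1, A, hA⟩ := cls_surj (m • a)
  obtain ⟨r2, B, hB⟩ := cls_surj (m • b)
  rw [← map_nsmul, ← map_nsmul, ← hA, ← hB, map_cls, map_cls, ← TupQ.cls_add,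
    ← TupQ.cls_add] at hc
  obtain ⟨F, hF, hF'⟩ := iso_lift.{u, w} (cls_eq_iff.1 hc)
  obtain ⟨G, hG, hG'⟩ := Tup.exists_lift.{u, w} C
  refine ⟨F ∪ G, hF.union hG, ?_⟩
  intro T'' _ g g' hgf hinj hFG
  obtain ⟨C', hC'⟩ := hG' g' hinj (Set.subset_union_right.trans hFG)
  have h3 := cls_eq_iff.2 (hF' g' hinj (Set.subset_union_left.trans hFG)
    ((A.map g).add C') ((B.map g).add C')
    (by rw [tmap_add, tmap_map, hgf, hC']) (by rw [tmap_add, tmap_map, hgf, hC']))
  rw [TupQ.cls_add, TupQ.cls_add, ← map_cls, ← map_cls, hA, hB, map_nsmul, map_nsmul] at h3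
  have h4 := congrArg (GR.of : TupQ σ T'' → KK σ T'') h3
  rw [map_add, map_add, map_nsmul, map_nsmul] at h4
  have h5 := add_right_cancel h4
  have hm' : (m : ℚ) ≠ 0 := Nat.cast_ne_zero.2 hm
  have h6 : (GR.of (TupQ.map g a) : KK σ T'') = GR.of (TupQ.map g b) := by
    rw [← Nat.cast_smul_eq_nsmul ℚ, ← Nat.cast_smul_eq_nsmul ℚ] at h5
    have h7 := congrArg (fun z => (m : ℚ)⁻¹ • z) h5
    simpa only [smul_smul, inv_mul_cancel₀ hm', one_smul] using h7
  have h8 := congrArg (KK.map g) hx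
  rw [map_smul, map_sub, map_of, map_of, h6, sub_self] at h8
  have h9 := congrArg (fun z => (n : ℚ)⁻¹ • z) h8
  simpa only [smul_smul, inv_mul_cancel₀ hn', one_smul, smul_zero] using h9

end

end Pool.Agent.GSM
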