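import Pool.Agent.GSM.KKMap

/-!
# Continuity of conjugacy classes of tuples

MODULE GSM-ContT. PLAN. A tuple over `T` has finitely many matrix entries if `σ` is finite
(also take the entries of the inverse matrices). If `f : T' → T` is injective and its range
contains them, lift the entries; the lifted matrices commute and are invertible because `f` is
injective. An isomorphism `P, Q` between `A.map f` and `B.map f` has finitely many entries.
-/

noncomputable section

namespace Pool.Agent.GSM

universe u v w

section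

variable {σ : Type} [Finite σ]

private theorem contT_lift {ι κ : Type} {T : Type u} [CommRing T] {T' : Type v} [CommRing T']
    (f : T' →+* T) (M : Matrix ι κ T) (h : ∀ a b, M a b ∈ Set.range f) :
    ∃ M' : Matrix ι κ T', M'.map f = M := by
  choose x hx using h
  exact ⟨Matrix.of fun a b => x a b, Matrix.ext fun a b => hx a b⟩

private theorem contT_inj {ι κ : Type} {T : Type u} [CommRing T] {T' : Type v} [CommRing T']
    (f : T' →+* T) (hf : Function.Injective f) {M N : Matrix ι κ T'}
    (h : M.map f = N.map f) : M = N := by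
  apply Matrix.ext
  intro a b
  exact hf (congrFun (congrFun h a) b)

theorem Tup.exists_lift {ι : Type} [Fintype ι] [DecidableEq ι] {T : Type u} [CommRing T]
    (A : Tup ι σ T) : ∃ F : Set T, F.Finite ∧
      ∀ {T' : Type v} [CommRing T'] (f : T' →+* T), Function.Injective f → F ⊆ Set.range f →
        ∃ B : Tup ι σ T', B.map f = A := by
  choose N hN using fun s => (A.unit s).exists_right_inv
  refine ⟨Set.range (fun x : σ × ι × ι => A.mat x.1 x.2.1 x.2.2) ∪
    Set.range (fun x : σ × ι × ι => N x.1 x.2.1 x.2.2),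
    (Set.finite_range _).union (Set.finite_range _), ?_⟩
  intro T' _ f hf hF
  choose M' hM' using fun s => contT_lift f (A.mat s)
    fun a b => hF (Or.inl ⟨(s, a, b), rfl⟩)
  choose N' hN' using fun s => contT_lift f (N s)
    fun a b => hF (Or.inr ⟨(s, a, b), rfl⟩)
  refine ⟨⟨M', fun s => ?_, fun s t => ?_⟩, ?_⟩
  · have h1 : M' s * N' s = 1 := by
      apply contT_inj f hf
      rw [Matrix.map_mul, hM', hN', hN s, Matrix.map_one f (map_zero f) (map_one f)]
    exact (Matrix.isUnit_iff_isUnit_det _).2 (Matrix.isUnit_det_of_right_inverse h1)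
  · change M' s * M' t = M' t * M' s
    apply contT_inj f hf
    rw [Matrix.map_mul, Matrix.map_mul, hM', hM']
    exact A.comm s t
  · apply Tup.ext
    funext s
    exact hM' s

theorem Tup.Iso.descend {ι κ : Type} [Fintype ι] [DecidableEq ι] [Fintype κ] [DecidableEq κ]
    {T : Type u} [CommRing T] {T' : Type v} [CommRing T'] (f : T' →+* T) {A : Tup ι σ T'}
    {B : Tup κ σ T'} (h : (A.map f).Iso (B.map f)) : ∃ F : Set T, F.Finite ∧
      ∀ {T'' : Type w} [CommRing T''] (g : T' →+* T'') (g' : T'' →+* T), g'.comp g = f →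
        Function.Injective g' → F ⊆ Set.range g' → (A.map g).Iso (B.map g) := by
  obtain ⟨P, Q, h1, h2, h3⟩ := h
  refine ⟨Set.range (fun x : ι × κ => P x.1 x.2) ∪ Set.range (fun x : κ × ι => Q x.1 x.2),
    (Set.finite_range _).union (Set.finite_range _), ?_⟩
  intro T'' _ g g' hgg hg' hF
  obtain ⟨P', hP'⟩ := contT_lift g' P fun a b => hF (Or.inl ⟨(a, b), rfl⟩)
  obtain ⟨Q', hQ'⟩ := contT_lift g' Q fun a b => hF (Or.inr ⟨(a, b), rfl⟩)
  have hmap : ∀ {ν : Type} [Fintype ν] [DecidableEq ν] (C : Tup ν σ T') (s : σ),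
      ((C.map g).mat s).map g' = (C.map f).mat s := by
    intro ν _ _ C s
    rw [← hgg]
    rfl
  refine ⟨P', Q', ?_, ?_, fun s => ?_⟩
  · apply contT_inj g' hg'
    rw [Matrix.map_mul, hP', hQ', h1, Matrix.map_one g' (map_zero g') (map_one g')]
  · apply contT_inj g' hg'
    rw [Matrix.map_mul, hP', hQ', h2, Matrix.map_one g' (map_zero g') (map_one g')]
  · apply contT_inj g' hg'
    rw [Matrix.map_mul, Matrix.map_mul, hmap, hmap, hP']
    exact h3 s

end

end Pool.Agent.GSM
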