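import Pool.Agent.GSM.GG

/-!
# Cubes

A cube is a class over `R[t_i, i ∈ I]` all of whose faces `t_i = 0`, `t_i = 1` vanish and which
vanishes when one of the automorphisms is replaced by the identity. `IsCubeOn a b` is the
version where only the coordinates in `a` and the automorphisms in `b` are used.

Cubes are closed under linear combinations, products (over disjoint sets of coordinates), base
change and `corr`.
-/

noncomputable section

namespace Pool.Agent.GSM

open Matrix Kronecker

universe u v w u'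

/-- The substitution `t_i = e` for `e = 0, 1` (`false`, `true`). -/
def faceSub {I : Type} [DecidableEq I] (i : I) (e : Bool) : I → MvPolynomial I ℤ :=
  fun j => if j = i then (if e then 1 else 0) else MvPolynomial.X j

/-- Replace the automorphism number `s` by the identity. -/
def killMap {σ : Type} [DecidableEq σ] (s : σ) : σ → Option σ :=
  fun t => if t = s then none else some t

section

variable {I J σ τ : Type} [DecidableEq I] [DecidableEq J] [DecidableEq σ] [DecidableEq τ]
  {δ : Type} [Fintype δ] [DecidableEq δ]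
variable {S : Type u} {R : Type v} {R' : Type w} [CommRing S] [CommRing R] [CommRing R']

/-- The face `t_i = e`. -/
def face (i : I) (e : Bool) : GG I σ R →ₐ[ℚ] GG I σ R := GG.sub (faceSub i e)

/-- Replace the automorphism number `s` by the identity. -/
def kill (s : σ) : GG I σ R →ₐ[ℚ] GG I σ R := KK.pull (killMap s)

/-- All faces vanish. -/
def IsCube (x : GG I σ R) : Prop := (∀ i e, face i e x = 0) ∧ ∀ s, kill s x = 0

/-- Cubes in the coordinates `a` and the automorphisms `b`. -/
structure IsCubeOn (a : Set I) (b : Set σ) (x : GG I σ R) : Prop where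
  face_mem : ∀ i ∈ a, ∀ e, face i e x = 0
  face_not_mem : ∀ i ∉ a, ∀ e, face i e x = x
  kill_mem : ∀ s ∈ b, kill s x = 0
  kill_not_mem : ∀ s ∉ b, kill s x = x

theorem isCubeOn_univ {x : GG I σ R} : IsCubeOn Set.univ Set.univ x ↔ IsCube x := by
  constructor
  · intro h
    exact ⟨fun i e => h.face_mem i (Set.mem_univ i) e, fun s => h.kill_mem s (Set.mem_univ s)⟩
  · rintro ⟨h1, h2⟩
    exact ⟨fun i _ e => h1 i e, fun i hi => absurd (Set.mem_univ i) hi, fun s _ => h2 s,
      fun s hs => absurd (Set.mem_univ s) hs⟩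

theorem IsCubeOn.zero (a : Set I) (b : Set σ) : IsCubeOn a b (0 : GG I σ R) := by
  exact ⟨fun i _ e => map_zero (face i e), fun i _ e => map_zero (face i e),
    fun s _ => map_zero (kill s), fun s _ => map_zero (kill s)⟩

theorem IsCubeOn.one : IsCubeOn (∅ : Set I) (∅ : Set σ) (1 : GG I σ R) := by
  exact ⟨fun i hi => absurd hi (Set.notMem_empty i), fun i _ e => map_one (face i e),
    fun s hs => absurd hs (Set.notMem_empty s), fun s _ => map_one (kill s)⟩

theorem IsCubeOn.add {a : Set I} {b : Set σ} {x y : GG I σ R} (hx : IsCubeOn a b x)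
    (hy : IsCubeOn a b y) : IsCubeOn a b (x + y) := by
  refine ⟨fun i hi e => ?_, fun i hi e => ?_, fun s hs => ?_, fun s hs => ?_⟩
  · rw [map_add, hx.face_mem i hi e, hy.face_mem i hi e, add_zero]
  · rw [map_add, hx.face_not_mem i hi e, hy.face_not_mem i hi e]
  · rw [map_add, hx.kill_mem s hs, hy.kill_mem s hs, add_zero]
  · rw [map_add, hx.kill_not_mem s hs, hy.kill_not_mem s hs]

theorem IsCubeOn.smul {a : Set I} {b : Set σ} (c : ℚ) {x : GG I σ R} (hx : IsCubeOn a b x) :
    IsCubeOn a b (c • x) := by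
  refine ⟨fun i hi e => ?_, fun i hi e => ?_, fun s hs => ?_, fun s hs => ?_⟩
  · rw [map_smul, hx.face_mem i hi e, smul_zero]
  · rw [map_smul, hx.face_not_mem i hi e]
  · rw [map_smul, hx.kill_mem s hs, smul_zero]
  · rw [map_smul, hx.kill_not_mem s hs]

theorem IsCubeOn.sub {a : Set I} {b : Set σ} {x y : GG I σ R} (hx : IsCubeOn a b x)
    (hy : IsCubeOn a b y) : IsCubeOn a b (x - y) := by
  refine ⟨fun i hi e => ?_, fun i hi e => ?_, fun s hs => ?_, fun s hs => ?_⟩
  · rw [map_sub, hx.face_mem i hi e, hy.face_mem i hi e, sub_zero]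
  · rw [map_sub, hx.face_not_mem i hi e, hy.face_not_mem i hi e]
  · rw [map_sub, hx.kill_mem s hs, hy.kill_mem s hs, sub_zero]
  · rw [map_sub, hx.kill_not_mem s hs, hy.kill_not_mem s hs]

theorem IsCubeOn.sum {ι : Type} {a : Set I} {b : Set σ} (s : Finset ι) {x : ι → GG I σ R}
    (hx : ∀ i ∈ s, IsCubeOn a b (x i)) : IsCubeOn a b (∑ i ∈ s, x i) := by
  classical
  induction s using Finset.induction_on with
  | empty => exact IsCubeOn.zero a b
  | insert j t hj ih =>
    rw [Finset.sum_insert hj]
    exact (hx j (Finset.mem_insert_self j t)).add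
      (ih fun i hi => hx i (Finset.mem_insert_of_mem hi))

theorem IsCubeOn.mul {a a' : Set I} {b b' : Set σ} (ha : Disjoint a a') (hb : Disjoint b b')
    {x y : GG I σ R} (hx : IsCubeOn a b x) (hy : IsCubeOn a' b' y) :
    IsCubeOn (a ∪ a') (b ∪ b') (x * y) := by
  have _ha := ha
  have _hb := hb
  refine ⟨fun i hi e => ?_, fun i hi e => ?_, fun s hs => ?_, fun s hs => ?_⟩
  · rw [map_mul]
    rcases hi with hi | hi
    · rw [hx.face_mem i hi e, zero_mul]
    · rw [hy.face_mem i hi e, mul_zero]
  · rw [map_mul, hx.face_not_mem i (fun h => hi (Or.inl h)) e,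
      hy.face_not_mem i (fun h => hi (Or.inr h)) e]
  · rw [map_mul]
    rcases hs with hs | hs
    · rw [hx.kill_mem s hs, zero_mul]
    · rw [hy.kill_mem s hs, mul_zero]
  · rw [map_mul, hx.kill_not_mem s (fun h => hs (Or.inl h)),
      hy.kill_not_mem s (fun h => hs (Or.inr h))]

theorem IsCubeOn.prod {ι : Type} {a : ι → Set I} {b : ι → Set σ} (s : Finset ι)
    (ha : ∀ i ∈ s, ∀ j ∈ s, i ≠ j → Disjoint (a i) (a j))
    (hb : ∀ i ∈ s, ∀ j ∈ s, i ≠ j → Disjoint (b i) (b j))
    {x : ι → GG I σ R} (hx : ∀ i ∈ s, IsCubeOn (a i) (b i) (x i)) :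
    IsCubeOn (⋃ i ∈ s, a i) (⋃ i ∈ s, b i) (∏ i ∈ s, x i) := by
  classical
  induction s using Finset.induction_on with
  | empty =>
    rw [Finset.prod_empty]
    have h1 : (⋃ i ∈ (∅ : Finset ι), a i) = ∅ := by simp
    have h2 : (⋃ i ∈ (∅ : Finset ι), b i) = ∅ := by simp
    rw [h1, h2]
    exact IsCubeOn.one
  | insert j t hj ih =>
    rw [Finset.prod_insert hj, Finset.set_biUnion_insert, Finset.set_biUnion_insert]
    have hjt : ∀ i ∈ t, j ≠ i := fun i hi h => hj (h ▸ hi)
    refine IsCubeOn.mul ?_ ?_ (hx j (Finset.mem_insert_self j t)) (ih ?_ ?_ ?_)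
    · rw [Set.disjoint_iUnion₂_right]
      exact fun i hi => ha j (Finset.mem_insert_self j t) i (Finset.mem_insert_of_mem hi)
        (hjt i hi)
    · rw [Set.disjoint_iUnion₂_right]
      exact fun i hi => hb j (Finset.mem_insert_self j t) i (Finset.mem_insert_of_mem hi)
        (hjt i hi)
    · exact fun i hi k hk => ha i (Finset.mem_insert_of_mem hi) k (Finset.mem_insert_of_mem hk)
    · exact fun i hi k hk => hb i (Finset.mem_insert_of_mem hi) k (Finset.mem_insert_of_mem hk)
    · exact fun i hi => hx i (Finset.mem_insert_of_mem hi)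

theorem IsCubeOn.base {a : Set I} {b : Set σ} (f : R →+* R') {x : GG I σ R}
    (hx : IsCubeOn a b x) : IsCubeOn a b (GG.base f x) := by
  have h1 : ∀ i e, face i e (GG.base f x) = GG.base f (face i e x) := fun i e =>
    (GG.base_sub f (faceSub i e) x).symm
  have h2 : ∀ s, kill s (GG.base f x) = GG.base f (kill s x) := fun s =>
    (GG.base_pull f (killMap s) x).symm
  refine ⟨fun i hi e => ?_, fun i hi e => ?_, fun s hs => ?_, fun s hs => ?_⟩
  · rw [h1, hx.face_mem i hi e, map_zero]
  · rw [h1, hx.face_not_mem i hi e]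
  · rw [h2, hx.kill_mem s hs, map_zero]
  · rw [h2, hx.kill_not_mem s hs]

theorem IsCubeOn.corr {a : Set I} {b : Set σ} (Λ : S →+* Matrix δ δ R) {x : GG I σ S}
    (hx : IsCubeOn a b x) : IsCubeOn a b (GG.corr Λ x) := by
  have h1 : ∀ i e, face i e (GG.corr Λ x) = GG.corr Λ (face i e x) := fun i e =>
    (GG.corr_sub Λ (faceSub i e) x).symm
  have h2 : ∀ s, kill s (GG.corr Λ x) = GG.corr Λ (kill s x) := fun s =>
    (GG.corr_pull Λ (killMap s) x).symm
  refine ⟨fun i hi e => ?_, fun i hi e => ?_, fun s hs => ?_, fun s hs => ?_⟩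
  · rw [h1, hx.face_mem i hi e, map_zero]
  · rw [h1, hx.face_not_mem i hi e]
  · rw [h2, hx.kill_mem s hs, map_zero]
  · rw [h2, hx.kill_not_mem s hs]

end

end Pool.Agent.GSM
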