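import Pool.Agent.GSM.Lat

/-!
# A function with a single pole, vanishing at infinity

Let `O = integralClosure k[X] L` (a Dedekind domain with fraction field `L`,
not a field; `char 0` gives separability), `𝔮` the maximal ideal. There is `w ∈ L`, `w ∉ O`, with
`w 𝔮 ⊆ O` (`exists_notMem_one_of_ne_bot`). The powers `w, w^2, ...` are `k`-linearly independent
modulo `O`: a nontrivial combination in `O` would be a monic equation for `w` over `O`, and `O` is
integrally closed. With `J, W` from `exists_lattice` and `n = dim W + 1`, some nontrivial combination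
of `w, ..., w^n` lies in `O + J`, say `= o + g`, `g ∈ J`. Then `g ∉ O`, and `s^n g ∈ O` for `s ∈ 𝔮`.
-/

noncomputable section

namespace Pool.Agent.GSM

open Polynomial

universe u v

variable {k : Type u} [Field k] [CharZero k]

omit [CharZero k] in
private theorem riem_algC {L : Type v} [Field L] [Algebra k L] [Algebra k[X] L]
    [Algebra (RatFunc k) L] [IsScalarTower k (RatFunc k) L] [IsScalarTower k[X] (RatFunc k) L] (c : k) :
    algebraMap k L c = algebraMap k[X] L (C c) := by
  rw [IsScalarTower.algebraMap_apply k (RatFunc k) L, IsScalarTower.algebraMap_apply k[X] (RatFunc k) L,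
    RatFunc.algebraMap_C]
  rfl

omit [CharZero k] in
private theorem riem_smul {L : Type v} [Field L] [Algebra k L] [Algebra k[X] L]
    [Algebra (RatFunc k) L] [IsScalarTower k (RatFunc k) L] [IsScalarTower k[X] (RatFunc k) L] (c : k)
    {x : L} (hx : IsIntegral k[X] x) : IsIntegral k[X] (c • x) := by
  rw [Algebra.smul_def, riem_algC]
  exact isIntegral_algebraMap.mul hx

/-- the integral elements as a `k`-subspace -/
private def riemS (k : Type u) [Field k] (L : Type v) [Field L] [Algebra k L] [Algebra k[X] L]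
    [Algebra (RatFunc k) L] [IsScalarTower k (RatFunc k) L] [IsScalarTower k[X] (RatFunc k) L] :
    Submodule k L where
  carrier := {x | IsIntegral k[X] x}
  add_mem' := fun ha hb => ha.add hb
  zero_mem' := isIntegral_zero
  smul_mem' := fun c _ hx => riem_smul c hx

omit [CharZero k] in
/-- a nontrivial combination of the powers of a nonintegral element is not integral -/
private theorem riem_pow {L : Type v} [Field L] [Algebra k L] [Algebra k[X] L]
    [Algebra (RatFunc k) L] [IsScalarTower k (RatFunc k) L] [IsScalarTower k[X] (RatFunc k) L]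
    (w : L) (hw : ¬ IsIntegral k[X] w) (n : ℕ) (c : Fin n → k) (hc : c ≠ 0) :
    ¬ IsIntegral k[X] (∑ i, c i • w ^ ((i : ℕ) + 1)) := by
  classical
  intro hint
  apply hw
  -- extend `c` by zero
  set c' : ℕ → k := fun i => if h : i < n then c ⟨i, h⟩ else 0 with hc'
  have hsum : ∑ i, c i • w ^ ((i : ℕ) + 1) = ∑ i ∈ Finset.range n, c' i • w ^ (i + 1) := by
    rw [Finset.sum_range]
    apply Finset.sum_congr rfl
    intro i _
    simp [hc']
  obtain ⟨i0, hi0⟩ : ∃ i, c i ≠ 0 := by
    by_contra h
    push Not at h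
    exact hc (funext h)
  have hne : ((Finset.range n).filter (fun i => c' i ≠ 0)).Nonempty := by
    refine ⟨i0, ?_⟩
    rw [Finset.mem_filter, Finset.mem_range]
    refine ⟨i0.2, ?_⟩
    simp only [hc', i0.2, dif_pos]
    exact hi0
  set m := ((Finset.range n).filter (fun i => c' i ≠ 0)).max' hne with hm
  have hmm := Finset.max'_mem _ hne
  rw [← hm, Finset.mem_filter, Finset.mem_range] at hmm
  have hmax : ∀ i ∈ Finset.range n, m < i → c' i = 0 := by
    intro i hi hmi
    by_contra h
    have h7 := Finset.le_max' ((Finset.range n).filter (fun i => c' i ≠ 0)) i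
      (Finset.mem_filter.2 ⟨hi, h⟩)
    omega
  have hsum2 : ∑ i ∈ Finset.range n, c' i • w ^ (i + 1) =
      ∑ i ∈ Finset.range (m + 1), c' i • w ^ (i + 1) := by
    symm
    apply Finset.sum_subset
    · intro i hi
      rw [Finset.mem_range] at hi ⊢
      omega
    · intro i hi hi2
      rw [hmax i hi (by rw [Finset.mem_range] at hi2; omega), zero_smul]
  rw [hsum, hsum2] at hint
  -- an integral equation over the integral closure
  have hwO : IsIntegral (integralClosure k[X] L) w := by
    set o : integralClosure k[X] L := ⟨_, hint⟩ with ho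
    have ho' : (o : L) = ∑ i ∈ Finset.range (m + 1), c' i • w ^ (i + 1) := rfl
    set kO : k → integralClosure k[X] L := fun c => algebraMap k[X] _ (C c) with hkO
    have hkO' : ∀ c : k, ((kO c : integralClosure k[X] L) : L) = algebraMap k L c := by
      intro c
      rw [riem_algC]
      rfl
    refine ⟨X ^ (m + 1) + (∑ i ∈ Finset.range m, C (kO ((c' m)⁻¹ * c' i)) * X ^ (i + 1) +
      C (-(kO (c' m)⁻¹ * o))), ?_, ?_⟩
    · apply monic_X_pow_add
      refine lt_of_le_of_lt (degree_add_le _ _) ?_
      rw [max_lt_iff]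
      constructor
      · refine lt_of_le_of_lt (degree_sum_le _ _) ?_
        rw [Finset.sup_lt_iff (by exact_mod_cast WithBot.bot_lt_coe _)]
        intro i hi
        rw [Finset.mem_range] at hi
        refine lt_of_le_of_lt (degree_C_mul_X_pow_le _ _) ?_
        exact_mod_cast (by omega : i + 1 < m + 1)
      · refine lt_of_le_of_lt degree_C_le ?_
        exact_mod_cast Nat.succ_pos m
    · rw [eval₂_add, eval₂_add, eval₂_X_pow, eval₂_finsetSum, eval₂_C, map_neg]
      have h1 : ∀ x : integralClosure k[X] L, algebraMap (integralClosure k[X] L) L x = (x : L) :=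
        fun _ => rfl
      have h2 : ∑ i ∈ Finset.range m, eval₂ (algebraMap (integralClosure k[X] L) L) w
          (C (kO ((c' m)⁻¹ * c' i)) * X ^ (i + 1)) =
          algebraMap k L (c' m)⁻¹ * ∑ i ∈ Finset.range m, c' i • w ^ (i + 1) := by
        rw [Finset.mul_sum]
        apply Finset.sum_congr rfl
        intro i _
        rw [eval₂_mul, eval₂_C, eval₂_X_pow, h1, hkO', map_mul, Algebra.smul_def]
        ring
      rw [h2, h1, MulMemClass.coe_mul, hkO', ho', Finset.sum_range_succ, Algebra.smul_def]
      have h3 : algebraMap k L (c' m)⁻¹ * algebraMap k L (c' m) = 1 := by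
        rw [← map_mul, inv_mul_cancel₀ hmm.2, map_one]
      linear_combination -w ^ (m + 1) * h3
  have : Algebra.IsIntegral k[X] (integralClosure k[X] L) := inferInstance
  exact isIntegral_trans w hwO

theorem riemann {L : Type v} [Field L] [Algebra k L] [Algebra k[X] L]
    [Algebra (RatFunc k) L] [IsScalarTower k (RatFunc k) L] [IsScalarTower k[X] (RatFunc k) L]
    [FiniteDimensional (RatFunc k) L] (𝔮 : Ideal (integralClosure k[X] L)) (hq : 𝔮.IsMaximal) :
    ∃ g : L, ¬ IsIntegral k[X] g ∧
      (∃ n : ℕ, ∀ s ∈ 𝔮, IsIntegral k[X] ((s : L) ^ n * g)) ∧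
      IsIntegral (Algebra.adjoin k {g⁻¹}) (algebraMap (RatFunc k) L RatFunc.X) := by
  classical
  have : CharZero (RatFunc k) := charZero_of_injective_algebraMap (algebraMap k (RatFunc k)).injective
  have hded : IsDedekindDomain (integralClosure k[X] L) :=
    integralClosure.isDedekindDomain k[X] (RatFunc k) L
  have hfr : IsFractionRing (integralClosure k[X] L) L :=
    integralClosure.isFractionRing_of_finite_extension (RatFunc k) L
  -- `O` is not a field
  have hinj : Function.Injective (algebraMap k[X] L) := by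
    rw [IsScalarTower.algebraMap_eq k[X] (RatFunc k) L]
    exact (algebraMap (RatFunc k) L).injective.comp (IsFractionRing.injective k[X] (RatFunc k))
  have hinj2 : Function.Injective (algebraMap k[X] (integralClosure k[X] L)) := by
    intro a b hab
    apply hinj
    have := congrArg (fun x : integralClosure k[X] L => (x : L)) hab
    exact this
  have hnf : ¬ IsField (integralClosure k[X] L) := by
    intro h
    exact Polynomial.not_isField k
      ((Algebra.IsIntegral.isField_iff_isField (R := k[X]) (S := integralClosure k[X] L) hinj2).2 h)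
  have hqb : 𝔮 ≠ ⊥ := Ring.ne_bot_of_isMaximal_of_not_isField hq hnf
  obtain ⟨w, hw1, hw2⟩ := FractionalIdeal.exists_notMem_one_of_ne_bot (K := L) hqb hq.ne_top
  have hwni : ¬ IsIntegral k[X] w := by
    intro h
    apply hw2
    rw [FractionalIdeal.mem_one_iff]
    exact ⟨⟨w, h⟩, rfl⟩
  have hws : ∀ s ∈ 𝔮, IsIntegral k[X] (w * (s : L)) := by
    intro s hs
    have h1 := (FractionalIdeal.mem_inv_iff (by
      rw [Ne, FractionalIdeal.coeIdeal_eq_zero]; exact hqb)).1 hw1 (s : L)
      (FractionalIdeal.mem_coeIdeal_of_mem _ hs)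
    rw [FractionalIdeal.mem_one_iff] at h1
    obtain ⟨y, hy⟩ := h1
    rw [← hy]
    exact y.2
  obtain ⟨J, W, hW, hdec, hJ⟩ := exists_lattice (k := k) (L := L)
  have := hW
  set n := Module.finrank k W + 1 with hn
  have hsurj : Function.Surjective ((Submodule.mkQ (riemS k L ⊔ J)).comp W.subtype) := by
    intro x
    obtain ⟨x, rfl⟩ := Submodule.mkQ_surjective _ x
    obtain ⟨o, ho, j, hj, v, hv, hx⟩ := hdec x
    refine ⟨⟨v, hv⟩, ?_⟩
    rw [LinearMap.comp_apply, Submodule.subtype_apply, ← sub_eq_zero, ← map_sub,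
      Submodule.mkQ_apply, Submodule.Quotient.mk_eq_zero]
    have h1 : v - x = (-o) + (-j) := by rw [hx]; ring
    rw [h1]
    exact Submodule.add_mem_sup ((riemS k L).neg_mem ho) (J.neg_mem hj)
  have : FiniteDimensional k (L ⧸ (riemS k L ⊔ J)) := Module.Finite.of_surjective _ hsurj
  have hfr2 : Module.finrank k (L ⧸ (riemS k L ⊔ J)) ≤ Module.finrank k W :=
    LinearMap.finrank_le_finrank_of_surjective hsurj
  set f : (Fin n → k) →ₗ[k] L ⧸ (riemS k L ⊔ J) := (Submodule.mkQ (riemS k L ⊔ J)).comp
    (Fintype.linearCombination k (fun i : Fin n => w ^ ((i : ℕ) + 1))) with hf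
  have hker : LinearMap.ker f ≠ ⊥ := by
    apply LinearMap.ker_ne_bot_of_finrank_lt
    rw [Module.finrank_fin_fun]
    omega
  obtain ⟨c, hcker, hc0⟩ := (Submodule.ne_bot_iff _).1 hker
  rw [LinearMap.mem_ker, hf, LinearMap.comp_apply, Submodule.mkQ_apply,
    Submodule.Quotient.mk_eq_zero, Fintype.linearCombination_apply] at hcker
  obtain ⟨o, ho, g, hg, hog⟩ := Submodule.mem_sup.1 hcker
  have hcomb := riem_pow w hwni n c hc0
  have hgni : ¬ IsIntegral k[X] g := by
    intro h
    apply hcomb
    rw [← hog]
    exact IsIntegral.add ho h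
  have hg0 : g ≠ 0 := by
    rintro rfl
    exact hgni isIntegral_zero
  refine ⟨g, hgni, ⟨n, fun s hs => ?_⟩, hJ g hg hg0⟩
  have h1 : (s : L) ^ n * g = (∑ i : Fin n, c i • ((s : L) ^ (n - ((i : ℕ) + 1)) *
      (w * (s : L)) ^ ((i : ℕ) + 1))) - (s : L) ^ n * o := by
    have h2 : g = (∑ i : Fin n, c i • w ^ ((i : ℕ) + 1)) - o := by
      rw [← hog]; ring
    rw [h2, mul_sub, Finset.mul_sum]
    congr 1
    apply Finset.sum_congr rfl
    intro i _
    rw [mul_smul_comm]
    congr 1
    have h3 : (s : L) ^ n = (s : L) ^ (n - ((i : ℕ) + 1)) * (s : L) ^ ((i : ℕ) + 1) := by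
      rw [← pow_add]
      congr 1
      have := i.2
      omega
    rw [h3, mul_pow]
    ring
  rw [h1]
  have hsi : IsIntegral k[X] (s : L) := s.2
  apply IsIntegral.sub
  · apply IsIntegral.sum
    intro i _
    exact riem_smul _ ((hsi.pow _).mul ((hws s hs).pow _))
  · exact (hsi.pow _).mul ho

end Pool.Agent.GSM
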