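import Pool.Agent.GSM.Reg
import Pool.Agent.GSM.Riem

/-!
# Curves: a finite map to the line, totally ramified where we want

MODULE GSM-Curve. PLAN. By Noether normalisation (`exists_integral_inj_algHom_of_fg`) `C` is
integral over a polynomial ring; the transcendence degree of `L` over `k` is one, so the polynomial
ring has exactly one variable: there is `t ∈ C`, transcendental over `k`, with `C` integral over
`k[t]` and `L` finite over `k(t)` (`L` is generated as a field by the finitely generated algebra `C`).
Install the `k[X]`- and `RatFunc k`-algebra structures with `X ↦ t`, take a maximal ideal `𝔮` of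
`O = integralClosure k[X] L`, apply `riemann` to get `g`, `h = g⁻¹`. Then `t ∈ intCl k h`, hence
`C ⊆ O ⊆ S = intCl k h`. `h` is transcendental over `k` (else `g ∈ k ⊆ O`, as `k` is algebraically
closed) and `L` is finite over `k(h)` (`t` is integral over `k[h]`). `exists_regRep`.
`O / 𝔮 = k` (a field, algebraic over the algebraically closed `k`): this defines
`q : C → O → O / 𝔮 = k`. If `χ h = 0` then for `s ∈ 𝔮`, `s ^ n = (s ^ n g) h` gives `χ s = 0`, so
`χ` restricted to `O` factors through `O / 𝔮`.
-/

noncomputable section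

namespace Pool.Agent.GSM

open Polynomial

universe u v w

/-- The data provided by a function with one (multiple) zero. -/
structure CurveData (k : Type u) [Field k] {L : Type v} [Field L] [Algebra k L]
    (C : Subalgebra k L) where
  S : Subalgebra k L
  le : C ≤ S
  h : S
  reg : RegRep k S h
  q : C →ₐ[k] k
  char_eq : ∀ {K : Type w} [Field K] [Algebra k K] (χ : S →ₐ[k] K), χ h = 0 →
    ∀ x : C, χ (Subalgebra.inclusion le x) = algebraMap k K (q x)

private lemma fd_of_gens {k : Type u} {L : Type v} {K : Type w} [Field k] [Field L] [Algebra k L]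
    [Field K] [Algebra k K] [Algebra K L] [IsScalarTower k K L]
    (C : Subalgebra k L) (F : Finset L) (hF : Algebra.adjoin k (F : Set L) = C)
    (hgen : IntermediateField.adjoin k (C : Set L) = ⊤)
    (hint : ∀ c ∈ C, IsIntegral K c) : FiniteDimensional K L := by
  have hsub : ∀ x ∈ (F : Set L), IsIntegral K x := fun x hx =>
    hint x (hF ▸ Algebra.subset_adjoin hx)
  have h1 : FiniteDimensional K (IntermediateField.adjoin K (F : Set L)) :=
    IntermediateField.finiteDimensional_adjoin hsub
  have h2 : IntermediateField.adjoin K (F : Set L) = ⊤ := by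
    rw [eq_top_iff]
    intro x _
    have hle : C ≤ ((IntermediateField.adjoin K (F : Set L)).restrictScalars k).toSubalgebra := by
      rw [← hF]
      apply Algebra.adjoin_le
      intro y hy
      exact IntermediateField.subset_adjoin K (F : Set L) hy
    have h3 : IntermediateField.adjoin k (C : Set L) ≤
        (IntermediateField.adjoin K (F : Set L)).restrictScalars k :=
      IntermediateField.adjoin_le_iff.2 (fun y hy => hle hy)
    rw [hgen] at h3
    exact h3 (IntermediateField.mem_top (x := x))
  rw [h2] at h1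
  exact (IntermediateField.topEquiv (F := K) (E := L)).toLinearEquiv.finiteDimensional

open scoped IntermediateField.algebraAdjoinAdjoin in
private lemma int_of_adjoin {k : Type u} {L : Type v} [Field k] [Field L] [Algebra k L] {z c : L}
    (h : IsIntegral (Algebra.adjoin k {z}) c) : IsIntegral (IntermediateField.adjoin k {z}) c :=
  h.tower_top

/-- `intCl k h` is integrally closed -/
private lemma int_trans {k : Type u} {L : Type v} [Field k] [Field L] [Algebra k L] {h c : L}
    {A : Subalgebra k L} (hA : A ≤ intCl k h) (hc : IsIntegral A c) : c ∈ intCl k h := by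
  rw [mem_intCl]
  have h1 : IsIntegral (integralClosure (Algebra.adjoin k {h}) L) c := by
    obtain ⟨p, hp, he⟩ := hc
    let f : A →+* integralClosure (Algebra.adjoin k {h}) L :=
      { toFun := fun a => ⟨a.1, hA a.2⟩
        map_one' := rfl
        map_mul' := fun _ _ => rfl
        map_zero' := rfl
        map_add' := fun _ _ => rfl }
    refine ⟨p.map f, hp.map f, ?_⟩
    rw [eval₂_map]
    exact he
  exact isIntegral_trans c h1

/-- the residue field of a maximal ideal of the integral closure of `k[X]` -/
private lemma res_int {k : Type u} {O : Type v} [Field k] [CommRing O] [IsDomain O] [Algebra k O]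
    [Algebra k[X] O] [IsScalarTower k k[X] O] [Algebra.IsIntegral k[X] O]
    (𝔮 : Ideal O) [h𝔮 : 𝔮.IsMaximal] : Algebra.IsIntegral k (O ⧸ 𝔮) := by
  have hmax : (𝔮.comap (algebraMap k[X] O)).IsMaximal :=
    Ideal.isMaximal_comap_of_isIntegral_of_isMaximal 𝔮
  have hne : 𝔮.comap (algebraMap k[X] O) ≠ ⊥ :=
    Ring.ne_bot_of_isMaximal_of_not_isField hmax (Polynomial.not_isField k)
  obtain ⟨p, hp, hp0⟩ := Submodule.exists_mem_ne_zero_of_ne_bot hne
  set τ : O ⧸ 𝔮 := Ideal.Quotient.mk 𝔮 (algebraMap k[X] O X) with hτ
  have haev : ∀ r : k[X], aeval τ r = Ideal.Quotient.mk 𝔮 (algebraMap k[X] O r) := by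
    intro r
    have : (aeval τ : k[X] →ₐ[k] O ⧸ 𝔮) =
        (Ideal.Quotient.mkₐ k 𝔮).comp (IsScalarTower.toAlgHom k k[X] O) := by
      apply Polynomial.algHom_ext
      simp [hτ]
    rw [this]; rfl
  have hτalg : IsIntegral k τ := by
    have : IsAlgebraic k τ := ⟨p, hp0, by
      rw [haev]
      exact Ideal.Quotient.eq_zero_iff_mem.2 hp⟩
    exact this.isIntegral
  have hAint : Algebra.IsIntegral k (Algebra.adjoin k {τ}) :=
    ⟨fun x => by
      have hx : (x : O ⧸ 𝔮) ∈ integralClosure k (O ⧸ 𝔮) :=
        (Algebra.adjoin_le (by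
          intro y hy
          rw [Set.mem_singleton_iff] at hy
          rw [hy]; exact hτalg) : Algebra.adjoin k {τ} ≤ integralClosure k (O ⧸ 𝔮)) x.2
      have hx' : IsIntegral k (x : O ⧸ 𝔮) := hx
      exact (isIntegral_algHom_iff (Algebra.adjoin k {τ}).val Subtype.val_injective).1 hx'⟩
  refine ⟨fun x => ?_⟩
  obtain ⟨y, rfl⟩ := Ideal.Quotient.mk_surjective x
  have hy : IsIntegral k[X] y := Algebra.IsIntegral.isIntegral y
  have h1 : IsIntegral (Algebra.adjoin k {τ}) (Ideal.Quotient.mk 𝔮 y) := by
    obtain ⟨P, hP, he⟩ := hy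
    let f : k[X] →+* Algebra.adjoin k {τ} :=
      ((aeval τ : k[X] →ₐ[k] O ⧸ 𝔮).codRestrict (Algebra.adjoin k {τ})
        (fun r => aeval_mem_adjoin_singleton k τ)).toRingHom
    refine ⟨P.map f, hP.map f, ?_⟩
    rw [eval₂_map]
    have hcomp : (algebraMap (Algebra.adjoin k {τ}) (O ⧸ 𝔮)).comp f =
        (Ideal.Quotient.mk 𝔮).comp (algebraMap k[X] O) := by
      exact RingHom.ext (fun r => haev r)
    rw [hcomp, ← hom_eval₂, he, map_zero]
  exact isIntegral_trans _ h1

private theorem core {k : Type u} [Field k] [IsAlgClosed k] [CharZero k]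
    {L : Type v} [Field L] [Algebra k L] [Algebra k[X] L] [IsScalarTower k k[X] L]
    [Algebra (RatFunc k) L] [IsScalarTower k (RatFunc k) L] [IsScalarTower k[X] (RatFunc k) L]
    (C : Subalgebra k L) (F : Finset L) (hF : Algebra.adjoin k (F : Set L) = C)
    (hgen : IntermediateField.adjoin k (C : Set L) = ⊤) (hC : ∀ c ∈ C, IsIntegral k[X] c) :
    Nonempty (CurveData.{u, v, w} k C) := by
  classical
  have hfd : FiniteDimensional (RatFunc k) L :=
    fd_of_gens C F hF hgen (fun c hc => (hC c hc).tower_top)
  obtain ⟨𝔮, hq⟩ := Ideal.exists_maximal (integralClosure k[X] L)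
  obtain ⟨g, hg, ⟨n, hn⟩, ht⟩ := riemann 𝔮 hq
  have hg0 : g ≠ 0 := by
    rintro rfl; exact hg isIntegral_zero
  set h : L := g⁻¹ with hh
  set t : L := algebraMap (RatFunc k) L RatFunc.X with htdef
  have htX : algebraMap k[X] L X = t := by
    rw [htdef, IsScalarTower.algebraMap_apply k[X] (RatFunc k) L, RatFunc.algebraMap_X]
  have htmem : t ∈ intCl k h := ht
  -- everything integral over `k[X]` is in `intCl k h`
  have hOS : ∀ x : L, IsIntegral k[X] x → x ∈ intCl k h := by
    intro x hx
    have hle : Algebra.adjoin k {t} ≤ intCl k h := by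
      apply Algebra.adjoin_le
      intro y hy
      rw [Set.mem_singleton_iff] at hy
      rw [hy]; exact htmem
    apply int_trans hle
    obtain ⟨P, hP, he⟩ := hx
    have hval : ∀ r : k[X], aeval t r = algebraMap k[X] L r := by
      intro r
      have : (aeval t : k[X] →ₐ[k] L) = IsScalarTower.toAlgHom k k[X] L := by
        apply Polynomial.algHom_ext
        simp [htX]
      rw [this]; rfl
    let f : k[X] →+* Algebra.adjoin k {t} :=
      ((aeval t : k[X] →ₐ[k] L).codRestrict (Algebra.adjoin k {t})
        (fun r => aeval_mem_adjoin_singleton k t)).toRingHom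
    refine ⟨P.map f, hP.map f, ?_⟩
    rw [eval₂_map]
    have hcomp : (algebraMap (Algebra.adjoin k {t}) L).comp f = algebraMap k[X] L :=
      RingHom.ext (fun r => hval r)
    rw [hcomp, he]
  have hCS : C ≤ intCl k h := fun c hc => hOS c (hC c hc)
  -- `h` is transcendental
  have htr : Transcendental k h := by
    intro halg
    have hint : IsIntegral k h := halg.isIntegral
    have h1 : Algebra.IsIntegral k (Algebra.adjoin k {h}) :=
      ⟨fun x => by
        have hx : (x : L) ∈ integralClosure k L :=
          (Algebra.adjoin_le (by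
            intro y hy
            rw [Set.mem_singleton_iff] at hy
            rw [hy]; exact hint) : Algebra.adjoin k {h} ≤ integralClosure k L) x.2
        have hx' : IsIntegral k (x : L) := hx
        exact (isIntegral_algHom_iff (Algebra.adjoin k {h}).val Subtype.val_injective).1 hx'⟩
    obtain ⟨a, ha⟩ := (IsAlgClosed.algebraMap_bijective_of_isIntegral (k := k)
      (K := Algebra.adjoin k {h})).2 ⟨h, Algebra.self_mem_adjoin_singleton k h⟩
    have ha' : algebraMap k L a = h := congrArg Subtype.val ha
    apply hg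
    have hga : g = algebraMap k L a⁻¹ := by
      rw [map_inv₀, ha', hh, inv_inv]
    rw [hga, IsScalarTower.algebraMap_apply k k[X] L]
    exact isIntegral_algebraMap
  have hfin : FiniteDimensional (IntermediateField.adjoin k {h}) L :=
    fd_of_gens C F hF hgen (fun c hc => int_of_adjoin (hCS hc))
  obtain ⟨reg⟩ := exists_regRep h htr hfin
  -- the character
  have hres : Algebra.IsIntegral k (integralClosure k[X] L ⧸ 𝔮) := res_int 𝔮
  have hbij : Function.Bijective (algebraMap k (integralClosure k[X] L ⧸ 𝔮)) :=
    IsAlgClosed.algebraMap_bijective_of_isIntegral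
  let e : k ≃ₐ[k] (integralClosure k[X] L ⧸ 𝔮) :=
    AlgEquiv.ofBijective (Algebra.ofId k (integralClosure k[X] L ⧸ 𝔮)) hbij
  let ι : C →ₐ[k] integralClosure k[X] L :=
    { toFun := fun c => ⟨c.1, hC c.1 c.2⟩
      map_one' := rfl
      map_mul' := fun _ _ => rfl
      map_zero' := rfl
      map_add' := fun _ _ => rfl
      commutes' := fun r => by
        apply Subtype.ext
        rfl }
  let q : C →ₐ[k] k := (e.symm.toAlgHom.comp (Ideal.Quotient.mkₐ k 𝔮)).comp ι
  refine ⟨⟨intCl k h, hCS, ⟨h, self_mem_intCl h⟩, reg, q, ?_⟩⟩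
  intro K _ _ χ hχ x
  have hker : ∀ (s : integralClosure k[X] L) (hs : s ∈ 𝔮),
      χ ⟨(s : L), hOS s s.2⟩ = 0 := by
    intro s hs
    have h1 := hn s hs
    have h2 : (⟨(s : L), hOS s s.2⟩ : intCl k h) ^ n =
        ⟨(s : L) ^ n * g, hOS _ h1⟩ * ⟨h, self_mem_intCl h⟩ := by
      apply Subtype.ext
      show (s : L) ^ n = (s : L) ^ n * g * h
      rw [hh, mul_assoc, mul_inv_cancel₀ hg0, mul_one]
    have h3 : χ ⟨(s : L), hOS s s.2⟩ ^ n = 0 := by
      rw [← map_pow, h2, map_mul, hχ, mul_zero]
    rcases Nat.eq_zero_or_pos n with rfl | hpos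
    · rw [pow_zero] at h3; exact absurd h3 one_ne_zero
    · exact (pow_eq_zero_iff hpos.ne').1 h3
  have hmk : Ideal.Quotient.mk 𝔮 (ι x) = Ideal.Quotient.mk 𝔮
      (algebraMap k (integralClosure k[X] L) (q x)) := by
    have h1 : e (q x) = Ideal.Quotient.mkₐ k 𝔮 (ι x) := e.apply_symm_apply _
    exact h1.symm
  have hmem : ι x - algebraMap k (integralClosure k[X] L) (q x) ∈ 𝔮 :=
    (Ideal.Quotient.mk_eq_mk_iff_sub_mem _ _).1 hmk
  have h1 := hker _ hmem
  have h2 : (⟨((ι x - algebraMap k (integralClosure k[X] L) (q x) : integralClosure k[X] L) : L),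
      hOS _ (ι x - algebraMap k (integralClosure k[X] L) (q x)).2⟩ : intCl k h) =
      Subalgebra.inclusion hCS x - algebraMap k (intCl k h) (q x) := by
    apply Subtype.ext
    rfl
  rw [h2, map_sub, AlgHom.commutes, sub_eq_zero] at h1
  exact h1

open scoped IntermediateField.algebraAdjoinAdjoin in
private lemma fd_of_gens_set {k : Type u} {L : Type v} [Field k] [Field L] [Algebra k L]
    (C : Subalgebra k L) (F : Finset L) (hF : Algebra.adjoin k (F : Set L) = C)
    (hgen : IntermediateField.adjoin k (C : Set L) = ⊤) {s : ℕ} (x : Fin s → L)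
    (hint : ∀ c ∈ C, IsIntegral (Algebra.adjoin k (Set.range x)) c) :
    FiniteDimensional (IntermediateField.adjoin k (Set.range x)) L :=
  fd_of_gens C F hF hgen (fun c hc => (hint c hc).tower_top)

open scoped IntermediateField.algebraAdjoinAdjoin in
private lemma alg_adjoin {k : Type u} {L : Type v} [Field k] [Field L] [Algebra k L]
    {s : ℕ} (x : Fin s → L)
    (hfd : FiniteDimensional (IntermediateField.adjoin k (Set.range x)) L) :
    Algebra.IsAlgebraic (Algebra.adjoin k (Set.range x)) L := by
  have h1 : Algebra.IsAlgebraic (IntermediateField.adjoin k (Set.range x)) L :=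
    Algebra.IsAlgebraic.of_finite _ _
  exact (IsFractionRing.comap_isAlgebraic_iff (A := Algebra.adjoin k (Set.range x))
    (K := IntermediateField.adjoin k (Set.range x)) (C := L)).2 h1

private theorem core_of_t {k : Type u} [Field k] [IsAlgClosed k] [CharZero k]
    {L : Type v} [Field L] [Algebra k L]
    (C : Subalgebra k L) (F : Finset L) (hF : Algebra.adjoin k (F : Set L) = C)
    (hgen : IntermediateField.adjoin k (C : Set L) = ⊤) (t : L) (ht : Transcendental k t)
    (hC : ∀ c ∈ C, IsIntegral (Algebra.adjoin k {t}) c) :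
    Nonempty (CurveData.{u, v, w} k C) := by
  let _ : Algebra k[X] L := (aeval t : k[X] →ₐ[k] L).toRingHom.toAlgebra
  have : IsScalarTower k k[X] L := IsScalarTower.of_algebraMap_eq (fun r => by
    show algebraMap k L r = aeval t (algebraMap k k[X] r)
    rw [AlgHom.commutes])
  have hinj : Function.Injective (aeval t : k[X] →ₐ[k] L) :=
    transcendental_iff_injective.1 ht
  have hinj' : Function.Injective (aeval t : k[X] →ₐ[k] L).toRingHom := hinj
  have hle : (nonZeroDivisors k[X]) ≤
      (nonZeroDivisors L).comap (aeval t : k[X] →ₐ[k] L).toRingHom :=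
    nonZeroDivisors_le_comap_nonZeroDivisors_of_injective _ hinj'
  let _ : Algebra (RatFunc k) L :=
    (RatFunc.liftRingHom (aeval t : k[X] →ₐ[k] L).toRingHom hle).toAlgebra
  have : IsScalarTower k[X] (RatFunc k) L := IsScalarTower.of_algebraMap_eq (fun r => by
    show aeval t r = RatFunc.liftRingHom (aeval t : k[X] →ₐ[k] L).toRingHom hle
      (algebraMap k[X] (RatFunc k) r)
    rw [RatFunc.liftRingHom_algebraMap]
    rfl)
  have : IsScalarTower k (RatFunc k) L := IsScalarTower.of_algebraMap_eq (fun r => by
    rw [IsScalarTower.algebraMap_apply k k[X] (RatFunc k), ← IsScalarTower.algebraMap_apply k[X]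
      (RatFunc k) L, ← IsScalarTower.algebraMap_apply k k[X] L])
  refine core C F hF hgen ?_
  intro c hc
  obtain ⟨P, hP, he⟩ := hC c hc
  -- integrality over the image
  have hint : IsIntegral (Algebra.adjoin k {t}) c := ⟨P, hP, he⟩
  let φ : Algebra.adjoin k {t} →+* k[X] := by
    exact ((AlgEquiv.ofInjective (aeval t : k[X] →ₐ[k] L) hinj).symm.toAlgHom.comp
      (Subalgebra.inclusion (le_of_eq (Algebra.adjoin_singleton_eq_range_aeval k t)))).toRingHom
  refine ⟨P.map φ, hP.map φ, ?_⟩
  rw [eval₂_map]
  have hcomp : (algebraMap k[X] L).comp φ = algebraMap (Algebra.adjoin k {t}) L := by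
    apply RingHom.ext
    intro a
    show aeval t ((AlgEquiv.ofInjective (aeval t : k[X] →ₐ[k] L) hinj).symm
      (Subalgebra.inclusion (le_of_eq (Algebra.adjoin_singleton_eq_range_aeval k t)) a)) = (a : L)
    have h1 := (AlgEquiv.ofInjective (aeval t : k[X] →ₐ[k] L) hinj).apply_symm_apply
      (Subalgebra.inclusion (le_of_eq (Algebra.adjoin_singleton_eq_range_aeval k t)) a)
    exact congrArg Subtype.val h1
  rw [hcomp]
  exact he

theorem exists_curveData {k : Type u} [Field k] [IsAlgClosed k] [CharZero k]
    {L : Type v} [Field L] [Algebra k L] (C : Subalgebra k L) (hC : C.FG)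
    (hgen : IntermediateField.adjoin k (C : Set L) = ⊤) (htr : Algebra.trdeg k L = 1) :
    Nonempty (CurveData.{u, v, w} k C) := by
  classical
  obtain ⟨F, hF⟩ := hC
  have hft : Algebra.FiniteType k C := (Subalgebra.fg_iff_finiteType C).1 ⟨F, hF⟩
  obtain ⟨s, f, hinj, hfint⟩ := exists_integral_inj_algHom_of_fg k C
  set x : Fin s → L := fun i => (f (MvPolynomial.X i) : L) with hx
  have hxind : AlgebraicIndependent k x := by
    have h1 : (MvPolynomial.aeval x : MvPolynomial (Fin s) k →ₐ[k] L) = C.val.comp f := by
      apply MvPolynomial.algHom_ext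
      intro i
      simp [hx]
    rw [algebraicIndependent_iff_injective_aeval, h1]
    exact Subtype.val_injective.comp hinj
  -- elements of `C` are integral over the adjoined algebra
  have hcint : ∀ c ∈ C, IsIntegral (Algebra.adjoin k (Set.range x)) c := by
    intro c hc
    obtain ⟨P, hP, he⟩ := hfint ⟨c, hc⟩
    have hmem : ∀ p : MvPolynomial (Fin s) k, ((f p : C) : L) ∈ Algebra.adjoin k (Set.range x) := by
      intro p
      have h1 : ((f p : C) : L) = MvPolynomial.aeval x p := by
        have h1 : (MvPolynomial.aeval x : MvPolynomial (Fin s) k →ₐ[k] L) = C.val.comp f := by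
          apply MvPolynomial.algHom_ext
          intro i
          simp [hx]
        rw [h1]; rfl
      rw [h1, Algebra.adjoin_range_eq_range_aeval]
      exact ⟨p, rfl⟩
    let φ : MvPolynomial (Fin s) k →+* Algebra.adjoin k (Set.range x) :=
      (((C.val.comp f).codRestrict (Algebra.adjoin k (Set.range x)) hmem)).toRingHom
    refine ⟨P.map φ, hP.map φ, ?_⟩
    rw [eval₂_map]
    have hcomp : (algebraMap (Algebra.adjoin k (Set.range x)) L).comp φ =
        (algebraMap C L).comp f.toRingHom := RingHom.ext (fun p => rfl)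
    rw [hcomp]
    have h2 := congrArg (algebraMap C L) he
    rw [hom_eval₂, map_zero] at h2
    exact h2
  have hfd := fd_of_gens_set C F hF hgen x hcint
  have halg : Algebra.IsAlgebraic (Algebra.adjoin k (Set.range x)) L := alg_adjoin x hfd
  have hbasis : IsTranscendenceBasis k x :=
    hxind.isTranscendenceBasis_iff_isAlgebraic.2 halg
  have hs : s = 1 := by
    have h1 := hbasis.lift_cardinalMk_eq_trdeg
    rw [htr, Cardinal.mk_fin] at h1
    simpa using h1
  subst hs
  set t : L := x 0 with htdef
  have hrange : Set.range x = {t} := by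
    ext y
    rw [Set.mem_range, Set.mem_singleton_iff]
    constructor
    · rintro ⟨i, rfl⟩; rw [Subsingleton.elim i 0]
    · rintro rfl; exact ⟨0, rfl⟩
  have ht : Transcendental k t := algebraicIndependent_unique_type_iff.1 hxind
  rw [hrange] at hcint
  exact core_of_t C F hF hgen t ht hcint

end Pool.Agent.GSM
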