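import Pool.Agent.GSM.Newton

/-!
# Polarised Newton

MODULE GSM-Polar. PLAN. In `P = MvPolynomial (Fin D) A` put `X_i = ∑ j, C (x j i) * X j`. For
`J ⊆ Fin D` let `ind J : Fin D →₀ ℕ` be its indicator. Show:
(1) the set `Zhat` of all `p` with `coeff (ind J) p ∈ Z J` for all `J` is a subalgebra
    (`coeff_mul`: antidiagonal of `ind J` = pairs of indicators of complementary subsets of `J`);
(2) `X_i ∈ Zhat`, hence `aeval X Q ∈ Zhat` for every `Q`;
(3) `coeff (ind J) (X_i ^ m) = m! * ∏ j ∈ J, x j i` if `card J = m`, and `0` otherwise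
    (by induction on `m`, or by the multinomial theorem);
(4) evaluate `newton_ideal` at `X`, and compare the coefficient of `ind univ`: the left side is
    `D! * ∏ j, (x j (some i) - x j none)`, the right side is a sum of products
    `coeff (ind J) (∑ X_i ^ m - D X_none ^ m) * coeff (ind Jᶜ) (Q m)` in `B J * Z Jᶜ ⊆ B univ`.
-/

noncomputable section

namespace Pool.Agent.GSM

universe u

open MvPolynomial Finset

/-- the indicator of `J` as an exponent -/
private def pInd {D : ℕ} (J : Finset (Fin D)) : Fin D →₀ ℕ :=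
  Finsupp.equivFunOnFinite.symm fun j => if j ∈ J then 1 else 0

private theorem pInd_apply {D : ℕ} (J : Finset (Fin D)) (j : Fin D) :
    pInd J j = if j ∈ J then 1 else 0 := rfl

private theorem pInd_eq_zero {D : ℕ} {J : Finset (Fin D)} : pInd J = 0 ↔ J = ∅ := by
  constructor
  · intro h
    ext j
    have h1 := DFunLike.congr_fun h j
    rw [pInd_apply, Finsupp.coe_zero, Pi.zero_apply] at h1
    constructor
    · intro hj
      rw [if_pos hj] at h1
      exact absurd h1 one_ne_zero
    · intro hj
      exact absurd hj (Finset.notMem_empty j)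
  · rintro rfl
    ext j
    rw [pInd_apply]
    simp

private theorem pInd_add {D : ℕ} {J J1 : Finset (Fin D)} (h : J1 ⊆ J) :
    pInd J1 + pInd (J \ J1) = pInd J := by
  ext j
  rw [Finsupp.coe_add, Pi.add_apply, pInd_apply, pInd_apply, pInd_apply]
  by_cases h1 : j ∈ J1
  · rw [if_pos h1, if_pos (h h1), if_neg (fun h2 => (Finset.mem_sdiff.1 h2).2 h1)]
  · by_cases h2 : j ∈ J
    · rw [if_neg h1, if_pos h2, if_pos (Finset.mem_sdiff.2 ⟨h2, h1⟩)]
    · rw [if_neg h1, if_neg h2, if_neg (fun h3 => h2 (Finset.mem_sdiff.1 h3).1)]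

private theorem pInd_mul {A : Type u} [CommRing A] {D : ℕ} (J : Finset (Fin D))
    (p q : MvPolynomial (Fin D) A) :
    coeff (pInd J) (p * q) = ∑ J1 ∈ J.powerset, coeff (pInd J1) p * coeff (pInd (J \ J1)) q := by
  classical
  rw [coeff_mul]
  symm
  refine Finset.sum_bij' (fun J1 _ => (pInd J1, pInd (J \ J1))) (fun a _ => a.1.support)
    ?_ ?_ ?_ ?_ ?_
  · intro J1 hJ1
    rw [Finset.HasAntidiagonal.mem_antidiagonal]
    exact pInd_add (Finset.mem_powerset.1 hJ1)
  · intro a ha
    rw [Finset.HasAntidiagonal.mem_antidiagonal] at ha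
    rw [Finset.mem_powerset]
    intro j hj
    by_contra hjJ
    have h1 := DFunLike.congr_fun ha j
    rw [Finsupp.coe_add, Pi.add_apply, pInd_apply, if_neg hjJ] at h1
    rw [Finsupp.mem_support_iff] at hj
    omega
  · intro J1 _
    ext j
    rw [Finsupp.mem_support_iff, pInd_apply]
    by_cases h1 : j ∈ J1 <;> simp [h1]
  · intro a ha
    rw [Finset.HasAntidiagonal.mem_antidiagonal] at ha
    have h1 : ∀ j, a.1 j + a.2 j = if j ∈ J then 1 else 0 := by
      intro j
      have h2 := DFunLike.congr_fun ha j
      rwa [Finsupp.coe_add, Pi.add_apply, pInd_apply] at h2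
    refine Prod.ext ?_ ?_
    · ext j
      rw [pInd_apply]
      have h2 := h1 j
      by_cases h3 : j ∈ J
      · rw [if_pos h3] at h2
        by_cases h4 : a.1 j = 0
        · rw [if_neg (fun h5 => (Finsupp.mem_support_iff.1 h5) h4), h4]
        · rw [if_pos (Finsupp.mem_support_iff.2 h4)]
          omega
      · rw [if_neg h3] at h2
        have h4 : a.1 j = 0 := by omega
        rw [if_neg (fun h5 => (Finsupp.mem_support_iff.1 h5) h4), h4]
    · ext j
      rw [pInd_apply]
      have h2 := h1 j
      by_cases h3 : j ∈ J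
      · rw [if_pos h3] at h2
        by_cases h4 : a.1 j = 0
        · rw [if_pos (Finset.mem_sdiff.2 ⟨h3, fun h5 => (Finsupp.mem_support_iff.1 h5) h4⟩)]
          omega
        · rw [if_neg (fun h5 => (Finset.mem_sdiff.1 h5).2 (Finsupp.mem_support_iff.2 h4))]
          omega
      · rw [if_neg h3] at h2
        rw [if_neg (fun h5 => h3 (Finset.mem_sdiff.1 h5).1)]
        omega
  · intro J1 _
    rfl

/-- the linear form of a family -/
private def pLin {A : Type u} [CommRing A] {D : ℕ} (y : Fin D → A) : MvPolynomial (Fin D) A :=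
  ∑ j, C (y j) * X j

private theorem pLin_coeff {A : Type u} [CommRing A] {D : ℕ} (y : Fin D → A)
    (J : Finset (Fin D)) :
    coeff (pInd J) (pLin y) = if J.card = 1 then ∏ j ∈ J, y j else 0 := by
  classical
  unfold pLin
  rw [coeff_sum]
  have h1 : ∀ j : Fin D, coeff (pInd J) (C (y j) * X j : MvPolynomial (Fin D) A) =
      if J = {j} then y j else 0 := by
    intro j
    rw [coeff_C_mul, coeff_X]
    by_cases h2 : J = {j}
    · have h3 : Finsupp.single j 1 = pInd J := by
        ext k
        rw [pInd_apply, h2, Finsupp.single_apply]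
        by_cases h4 : j = k
        · rw [if_pos h4, if_pos (Finset.mem_singleton.2 h4.symm)]
        · rw [if_neg h4, if_neg (fun h5 => h4 (Finset.mem_singleton.1 h5).symm)]
      rw [if_pos h3, if_pos h2, mul_one]
    · have h3 : ¬ Finsupp.single j 1 = pInd J := by
        intro h4
        apply h2
        ext k
        have h5 := DFunLike.congr_fun h4 k
        rw [pInd_apply, Finsupp.single_apply] at h5
        rw [Finset.mem_singleton]
        by_cases h6 : j = k
        · rw [if_pos h6] at h5
          by_cases h7 : k ∈ J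
          · exact ⟨fun _ => h6.symm, fun _ => h7⟩
          · rw [if_neg h7] at h5
            exact absurd h5 one_ne_zero
        · rw [if_neg h6] at h5
          by_cases h7 : k ∈ J
          · rw [if_pos h7] at h5
            exact absurd h5 (by norm_num)
          · exact ⟨fun h => absurd h h7, fun h => absurd h.symm h6⟩
      rw [if_neg h3, if_neg h2, mul_zero]
  rw [Finset.sum_congr rfl fun j _ => h1 j]
  by_cases hJ : J.card = 1
  · obtain ⟨a, rfl⟩ := Finset.card_eq_one.1 hJ
    rw [if_pos hJ, Finset.prod_singleton, Finset.sum_eq_single a]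
    · rw [if_pos rfl]
    · intro b _ hb
      rw [if_neg (fun h => hb (Finset.singleton_injective h).symm)]
    · intro h
      exact absurd (Finset.mem_univ a) h
  · rw [if_neg hJ]
    refine Finset.sum_eq_zero fun j _ => ?_
    rw [if_neg]
    rintro rfl
    exact hJ (Finset.card_singleton j)

private theorem pLin_pow {A : Type u} [CommRing A] {D : ℕ} (y : Fin D → A) (m : ℕ)
    (J : Finset (Fin D)) :
    coeff (pInd J) (pLin y ^ m) = if J.card = m then (m.factorial : A) * ∏ j ∈ J, y j else 0 := by
  classical
  induction m generalizing J with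
  | zero =>
    rw [pow_zero, coeff_one]
    by_cases hJ : J = ∅
    · subst hJ
      rw [if_pos (pInd_eq_zero.2 rfl).symm, if_pos Finset.card_empty]
      simp
    · rw [if_neg (fun h => hJ (pInd_eq_zero.1 h.symm)),
        if_neg (fun h => hJ (Finset.card_eq_zero.1 h))]
  | succ m ih =>
    rw [pow_succ, pInd_mul]
    have h1 : ∀ J1 ∈ J.powerset, coeff (pInd J1) (pLin y ^ m) *
        coeff (pInd (J \ J1)) (pLin y) =
        if J1.card = m then (if J.card = m + 1 then (m.factorial : A) * ∏ j ∈ J, y j else 0)
          else 0 := by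
      intro J1 hJ1
      have hs := Finset.mem_powerset.1 hJ1
      have hc : (J \ J1).card + J1.card = J.card := Finset.card_sdiff_add_card_eq_card hs
      rw [ih, pLin_coeff]
      by_cases h2 : J1.card = m
      · rw [if_pos h2, if_pos h2]
        by_cases h3 : J.card = m + 1
        · rw [if_pos h3, if_pos (by omega), ← Finset.prod_sdiff hs]
          ring
        · rw [if_neg h3, if_neg (by omega), mul_zero]
      · rw [if_neg h2, if_neg h2, zero_mul]
    rw [Finset.sum_congr rfl h1]
    by_cases h3 : J.card = m + 1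
    · rw [if_pos h3, if_pos h3, ← Finset.sum_filter, Finset.sum_const]
      have h4 : (J.powerset.filter fun J1 => J1.card = m).card = m + 1 := by
        rw [← Finset.powersetCard_eq_filter, Finset.card_powersetCard, h3,
          Nat.choose_succ_self_right]
      rw [h4, nsmul_eq_mul, Nat.factorial_succ]
      push_cast
      ring
    · rw [if_neg h3, if_neg h3]
      refine Finset.sum_eq_zero fun J1 _ => ?_
      rw [ite_self]

private theorem pLin_sub {A : Type u} [CommRing A] {D : ℕ} (y z : Fin D → A) :
    pLin y - pLin z = pLin fun j => y j - z j := by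
  unfold pLin
  rw [← Finset.sum_sub_distrib]
  refine Finset.sum_congr rfl fun j _ => ?_
  rw [map_sub, sub_mul]

theorem polar {A : Type u} [CommRing A] [Algebra ℚ A] {D : ℕ}
    (Z B : Finset (Fin D) → Submodule ℚ A) (hZ1 : (1 : A) ∈ Z ∅)
    (hZmul : ∀ J J', Disjoint J J' → ∀ x ∈ Z J, ∀ y ∈ Z J', x * y ∈ Z (J ∪ J'))
    (hBmul : ∀ J J', Disjoint J J' → ∀ x ∈ B J, ∀ y ∈ Z J', x * y ∈ B (J ∪ J'))
    (x : Fin D → Option (Fin D) → A) (hx : ∀ j i, x j i ∈ Z {j})
    (h : ∀ J : Finset (Fin D), J.Nonempty →
      (∑ i, ∏ j ∈ J, x j (some i)) - (D : ℚ) • ∏ j ∈ J, x j none ∈ B J)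
    (i : Fin D) : ∏ j, (x j (some i) - x j none) ∈ B Finset.univ := by
  classical
  obtain ⟨Q, hQ⟩ := newton_ideal D i
  -- the subalgebra
  have zmul : ∀ p q : MvPolynomial (Fin D) A, (∀ J, coeff (pInd J) p ∈ Z J) →
      (∀ J, coeff (pInd J) q ∈ Z J) → ∀ J, coeff (pInd J) (p * q) ∈ Z J := by
    intro p q hp hq J
    rw [pInd_mul]
    refine Submodule.sum_mem _ fun J1 hJ1 => ?_
    have h1 := hZmul J1 (J \ J1) Finset.disjoint_sdiff _ (hp J1) _ (hq (J \ J1))
    rwa [Finset.union_sdiff_of_subset (Finset.mem_powerset.1 hJ1)] at h1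
  have zlin : ∀ i : Option (Fin D), ∀ J, coeff (pInd J) (pLin fun j => x j i) ∈ Z J := by
    intro i J
    rw [pLin_coeff]
    by_cases hJ : J.card = 1
    · obtain ⟨a, rfl⟩ := Finset.card_eq_one.1 hJ
      rw [if_pos hJ, Finset.prod_singleton]
      exact hx a i
    · rw [if_neg hJ]
      exact Submodule.zero_mem _
  have zQ : ∀ q : MvPolynomial (Option (Fin D)) ℚ, ∀ J,
      coeff (pInd J) (aeval (fun i : Option (Fin D) => pLin fun j => x j i) q) ∈ Z J := by
    intro q
    induction q using MvPolynomial.induction_on with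
    | C c =>
      intro J
      rw [algHom_C, MvPolynomial.algebraMap_apply, coeff_C]
      by_cases hJ : J = ∅
      · subst hJ
        rw [if_pos (pInd_eq_zero.2 rfl).symm, Algebra.algebraMap_eq_smul_one]
        exact Submodule.smul_mem _ _ hZ1
      · rw [if_neg (fun h => hJ (pInd_eq_zero.1 h.symm))]
        exact Submodule.zero_mem _
    | add p q hp hq =>
      intro J
      rw [map_add, coeff_add]
      exact Submodule.add_mem _ (hp J) (hq J)
    | mul_X p i hp =>
      intro J
      rw [map_mul, aeval_X]
      exact zmul _ _ hp (zlin i) J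
  -- the coefficients of the power sums
  have bsum : ∀ m, 1 ≤ m → ∀ J, coeff (pInd J)
      ((∑ i : Fin D, (pLin fun j => x j (some i)) ^ m) -
        (D : MvPolynomial (Fin D) A) * (pLin fun j => x j none) ^ m) ∈ B J := by
    intro m hm J
    have hD : (D : MvPolynomial (Fin D) A) = C (D : A) := by rw [map_natCast]
    rw [coeff_sub, coeff_sum, hD, coeff_C_mul, pLin_pow,
      Finset.sum_congr rfl fun i _ => pLin_pow (fun j => x j (some i)) m J]
    by_cases hJ : J.card = m
    · have hne : J.Nonempty := by
        rw [← Finset.card_pos]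
        omega
      have h1 := Submodule.smul_mem _ (m.factorial : ℚ) (h J hne)
      have e : ∀ a : A, (m.factorial : ℚ) • a = (m.factorial : A) * a := by
        intro a
        rw [Algebra.smul_def, map_natCast]
      have e2 : ∀ a : A, (D : ℚ) • a = (D : A) * a := by
        intro a
        rw [Algebra.smul_def, map_natCast]
      rw [e, e2, mul_sub, Finset.mul_sum] at h1
      simp only [if_pos hJ]
      have e3 : (D : A) * ((m.factorial : A) * ∏ j ∈ J, x j none) =
          (m.factorial : A) * ((D : A) * ∏ j ∈ J, x j none) := by ring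
      rw [e3]
      exact h1
    · simp only [if_neg hJ, Finset.sum_const_zero, mul_zero, sub_zero]
      exact Submodule.zero_mem _
  -- evaluation
  have ev := congrArg (fun q => coeff (pInd (Finset.univ : Finset (Fin D)))
    (aeval (fun i : Option (Fin D) => (pLin fun j => x j i : MvPolynomial (Fin D) A)) q)) hQ
  simp only [map_pow, map_sub, map_sum, map_mul, map_natCast, aeval_X] at ev
  rw [pLin_sub, pLin_pow, if_pos (by rw [Finset.card_univ, Fintype.card_fin]), coeff_sum] at ev
  have hR : ∑ m ∈ Finset.Icc 1 D, coeff (pInd (Finset.univ : Finset (Fin D)))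
      ((∑ i : Fin D, (pLin fun j => x j (some i)) ^ m -
        (D : MvPolynomial (Fin D) A) * (pLin fun j => x j none) ^ m) *
        aeval (fun i : Option (Fin D) => (pLin fun j => x j i : MvPolynomial (Fin D) A)) (Q m)) ∈
      B Finset.univ := by
    refine Submodule.sum_mem _ fun m hm => ?_
    rw [pInd_mul]
    refine Submodule.sum_mem _ fun J1 hJ1 => ?_
    have h1 := hBmul J1 (Finset.univ \ J1) Finset.disjoint_sdiff _
      (bsum m (Finset.mem_Icc.1 hm).1 J1) _ (zQ (Q m) (Finset.univ \ J1))
    rwa [Finset.union_sdiff_of_subset (Finset.subset_univ J1)] at h1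
  rw [← ev] at hR
  have hD0 : (D.factorial : ℚ) ≠ 0 := by exact_mod_cast D.factorial_ne_zero
  have h1 := Submodule.smul_mem _ ((D.factorial : ℚ)⁻¹) hR
  have e : ((D.factorial : ℚ)⁻¹) • ((D.factorial : A) * ∏ j, (x j (some i) - x j none)) =
      ∏ j, (x j (some i) - x j none) := by
    have e2 : (D.factorial : A) = algebraMap ℚ A (D.factorial : ℚ) := by rw [map_natCast]
    rw [e2, ← Algebra.smul_def, smul_smul, inv_mul_cancel₀ hD0, one_smul]
  rwa [e] at h1

end Pool.Agent.GSM
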