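import Pool.Agent.GSM.Link
import Pool.Agent.GSM.Chars
import Pool.Agent.GSM.Polar

/-!
# The norm relation gives linked points

MODULE GSM-NormLink. PLAN. Put `Λ₁, Λ₀` for the two ends of `Λ`. `exists_charDecomp_zero` for `Λ₁`
(with `χ 0 = p`), `exists_charDecomp` for `Λ₀` (characters `ψ i`, `ψ i ∘ g = q` by `hq`). For `J` let
`X_J = ∏ j ∈ J, GG.base g (X j)`; by `homotopy`,
`∑ base (χ i) X_J - (d+1) base q-product` is a boundary. Apply `polar` with `A = GG I σ K`,
`Z J = {x | IsCubeOn (⋃ j ∈ J, a j) (⋃ j ∈ J, b j) x}`, `B J = {x | BdOn ...}`, `D = d + 1`,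
`x j (some i) = base (χ i ∘ g) (X j)`, `x j none = base q (X j)`, at the index `0`.
-/

noncomputable section

namespace Pool.Agent.GSM

open Polynomial

universe u v w

private theorem nl_disj {ι T : Type} {a : ι → Set T} (ha : ∀ i j, i ≠ j → Disjoint (a i) (a j))
    {J J' : Finset ι} (h : Disjoint J J') : Disjoint (⋃ j ∈ J, a j) (⋃ j ∈ J', a j) := by
  rw [Set.disjoint_iUnion₂_left]
  intro i hi
  rw [Set.disjoint_iUnion₂_right]
  intro j hj
  apply ha
  rintro rfl
  exact Finset.disjoint_left.1 h hi hj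

theorem linked_of_family {K : Type u} [Field K] [IsAlgClosed K] {S : Type v} [CommRing S]
    {R : Type w} [CommRing R] {d : ℕ} (Λ : S →+* Matrix (Fin (d + 1)) (Fin (d + 1)) K[X])
    (g : R →+* S) (p : S →+* K) (q : R →+* K) (l : Fin (d + 1) → K) (hl : l ≠ 0)
    (hp : ∀ s, Matrix.vecMul l ((ev K true).mapMatrix (Λ s)) = p s • l)
    (hq : ∀ χ : S →+* K, (∀ (s : S) (c : K), (ev K false).mapMatrix (Λ s) = Matrix.scalar _ c →
      χ s = c) → χ.comp g = q) :
    Linked (p.comp g) q (d + 1) := by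
  classical
  obtain ⟨χ, hχ, hχ0⟩ := exists_charDecomp_zero (((ev K true).mapMatrix).comp Λ) p l hl hp
  obtain ⟨ψ, hψ⟩ := exists_charDecomp (((ev K false).mapMatrix).comp Λ)
  have hψq : ∀ i, (ψ i).comp g = q := fun i => hq (ψ i) fun s c h => hψ.scalar s c h i
  intro I σ _ _ a b X ha hb hX
  let Z : Finset (Fin (d + 1)) → Submodule ℚ (GG I σ K) := fun J =>
    { carrier := {x | IsCubeOn (⋃ j ∈ J, a j) (⋃ j ∈ J, b j) x}
      zero_mem' := IsCubeOn.zero _ _
      add_mem' := fun hx hy => IsCubeOn.add hx hy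
      smul_mem' := fun c x hx => IsCubeOn.smul c hx }
  let B : Finset (Fin (d + 1)) → Submodule ℚ (GG I σ K) := fun J =>
    { carrier := {x | BdOn (⋃ j ∈ J, a j) (⋃ j ∈ J, b j) x}
      zero_mem' := BdOn.zero _ _
      add_mem' := fun hx hy => BdOn.add hx hy
      smul_mem' := fun c x hx => BdOn.smul c hx }
  have hZ : ∀ J x, x ∈ Z J ↔ IsCubeOn (⋃ j ∈ J, a j) (⋃ j ∈ J, b j) x := fun _ _ => Iff.rfl
  have hB : ∀ J x, x ∈ B J ↔ BdOn (⋃ j ∈ J, a j) (⋃ j ∈ J, b j) x := fun _ _ => Iff.rfl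
  let x : Fin (d + 1) → Option (Fin (d + 1)) → GG I σ K := fun j o =>
    o.elim (GG.base q (X j)) fun i => GG.base ((χ i).comp g) (X j)
  have hbase : ∀ (J : Finset (Fin (d + 1))) (f : S →+* K),
      ∏ j ∈ J, GG.base (f.comp g) (X j) = GG.base f (∏ j ∈ J, GG.base g (X j)) := by
    intro J f
    rw [map_prod]
    exact Finset.prod_congr rfl fun j _ => (GG.base_base f g (X j)).symm
  have hXJ : ∀ J : Finset (Fin (d + 1)),
      IsCubeOn (⋃ j ∈ J, a j) (⋃ j ∈ J, b j) (∏ j ∈ J, GG.base g (X j)) := fun J =>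
    IsCubeOn.prod J (fun i _ j _ h => ha i j h) (fun i _ j _ h => hb i j h)
      fun j _ => (hX j).base g
  have key := polar (A := GG I σ K) (D := d + 1) Z B
    (by
      rw [hZ]
      have h1 : (⋃ j ∈ (∅ : Finset (Fin (d + 1))), a j) = ∅ := by simp
      have h2 : (⋃ j ∈ (∅ : Finset (Fin (d + 1))), b j) = ∅ := by simp
      rw [h1, h2]
      exact IsCubeOn.one)
    (by
      intro J J' h y hy z hz
      rw [hZ, Finset.set_biUnion_union, Finset.set_biUnion_union]
      exact IsCubeOn.mul (nl_disj ha h) (nl_disj hb h) hy hz)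
    (by
      intro J J' h y hy z hz
      rw [hB, Finset.set_biUnion_union, Finset.set_biUnion_union]
      exact BdOn.mul (nl_disj ha h) (nl_disj hb h) hy hz)
    x
    (by
      intro j o
      rw [hZ, Finset.set_biUnion_singleton, Finset.set_biUnion_singleton]
      cases o with
      | none => exact (hX j).base q
      | some i => exact (hX j).base _)
    (by
      intro J _
      rw [hB]
      have e1 : ∑ i, ∏ j ∈ J, x j (some i) =
          ∑ i, GG.base (χ i) (∏ j ∈ J, GG.base g (X j)) :=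
        Finset.sum_congr rfl fun i _ => hbase J (χ i)
      have e2 : ((d + 1 : ℕ) : ℚ) • ∏ j ∈ J, x j none =
          ∑ i, GG.base (ψ i) (∏ j ∈ J, GG.base g (X j)) := by
        have h1 : ∀ i, GG.base (ψ i) (∏ j ∈ J, GG.base g (X j)) = ∏ j ∈ J, x j none := by
          intro i
          rw [← hbase J (ψ i), hψq i]
          rfl
        rw [Finset.sum_congr rfl fun i _ => h1 i, Finset.sum_const, Finset.card_univ,
          Fintype.card_fin, Nat.cast_smul_eq_nsmul]
      rw [e1, e2]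
      have b1 := hχ.bd I σ _ _ _ (hXJ J)
      have b2 := hψ.bd I σ _ _ _ (hXJ J)
      have b3 := homotopy Λ (hXJ J)
      have b4 := (b3.sub b1).add b2
      convert b4 using 1
      abel)
    0
  rw [hB] at key
  have h1 : (⋃ j ∈ (Finset.univ : Finset (Fin (d + 1))), a j) = ⋃ j, a j := by simp
  have h2 : (⋃ j ∈ (Finset.univ : Finset (Fin (d + 1))), b j) = ⋃ j, b j := by simp
  rw [h1, h2] at key
  have h3 : ∀ j, x j (some 0) = GG.base (p.comp g) (X j) := by
    intro j
    rw [← hχ0]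
    rfl
  have h4 : ∀ j, x j none = GG.base q (X j) := fun j => rfl
  rw [Finset.prod_congr rfl fun j _ => by rw [h3 j, h4 j]] at key
  exact key

end Pool.Agent.GSM
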