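import Pool.Agent.GSM.Curve
import Pool.Agent.GSM.NormLink

/-!
# The generic point of a curve is linked with a constant point

MODULE GSM-CurveLink. PLAN. Take `CurveData`. Over `K` use the block homomorphism
`S → Matrix (Fin (d+1)) (Fin (d+1)) K[X]`, `s ↦ Λ s` with its variable replaced by `f(h) X`
(`Polynomial.eval₂RingHom` with `k → K → K[X]` and `X ↦ C (f h) * X`, entrywise). At `X = 1` the row
vector `l j = f (b j)` is an eigenvector with character `f` (`mul_b`), nonzero by `one_b`; at
`X = 0` a character `χ` as in `linked_of_family` is `k`-linear (apply the hypothesis to `s ∈ k`) and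
kills `h` (`map_h`), so `char_eq` gives `χ ∘ (C → S) = q`. Apply `linked_of_family` with
`g = (C → S)`, `p = f|_S`.
-/

noncomputable section

namespace Pool.Agent.GSM

universe u v w

open Polynomial in
/-- coefficients `k → K`, variable `X ↦ c X` -/
private def clPhi {k : Type u} [Field k] {K : Type w} [Field K] [Algebra k K] (c : K) :
    k[X] →+* K[X] :=
  Polynomial.eval₂RingHom ((Polynomial.C : K →+* K[X]).comp (algebraMap k K))
    (Polynomial.C c * Polynomial.X)

private theorem clPhi_C {k : Type u} [Field k] {K : Type w} [Field K] [Algebra k K] (c : K)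
    (x : k) : clPhi (k := k) c (Polynomial.C x) = Polynomial.C (algebraMap k K x) := by
  simp [clPhi]

private theorem clPhi_X {k : Type u} [Field k] {K : Type w} [Field K] [Algebra k K] (c : K) :
    clPhi (k := k) c Polynomial.X = Polynomial.C c * Polynomial.X := by
  simp [clPhi]

open Polynomial in
private theorem clPhi_true {k : Type u} [Field k] {K : Type w} [Field K] [Algebra k K] (c : K)
    (P : k[X]) : ev K true (clPhi (k := k) c P) = aeval c P := by
  have h : (ev K true).comp (clPhi (k := k) c) = (aeval c : k[X] →ₐ[k] K).toRingHom := by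
    apply Polynomial.ringHom_ext
    · intro a
      simp [clPhi, ev]
    · simp [clPhi, ev]
  exact congrArg (fun φ : k[X] →+* K => φ P) h

theorem curve_linked {k : Type u} [Field k] [IsAlgClosed k] [CharZero k]
    {L : Type v} [Field L] [Algebra k L] (C : Subalgebra k L) (hC : C.FG)
    (hgen : IntermediateField.adjoin k (C : Set L) = ⊤) (htr : Algebra.trdeg k L = 1)
    {K : Type w} [Field K] [IsAlgClosed K] [Algebra k K] (f : L →ₐ[k] K) :
    ∃ (q : C →ₐ[k] k) (D : ℕ),
      Linked ((f : L →+* K).comp (C.val : C →+* L)) ((algebraMap k K).comp (q : C →+* k)) D := by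
  obtain ⟨D⟩ := exists_curveData.{u, v, w} C hC hgen htr
  set r := D.reg with hr
  have haev : ∀ P : Polynomial k, f ((Polynomial.aeval D.h P : D.S) : L) =
      Polynomial.aeval (f (D.h : L)) P := by
    intro P
    have h1 : ((Polynomial.aeval D.h P : D.S) : L) = Polynomial.aeval (D.h : L) P := by
      exact (Polynomial.aeval_algHom_apply D.S.val D.h P).symm
    rw [h1]
    exact (Polynomial.aeval_algHom_apply f (D.h : L) P).symm
  let Λ' : D.S →+* Matrix (Fin (r.d + 1)) (Fin (r.d + 1)) (Polynomial K) :=
    ((clPhi (k := k) (f (D.h : L))).mapMatrix).comp (r.Λ : D.S →+* _)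
  have hΛ' : ∀ s i j, Λ' s i j = clPhi (k := k) (f (D.h : L)) (r.Λ s i j) := fun s i j => rfl
  have hmain := linked_of_family Λ' ((Subalgebra.inclusion D.le : C →ₐ[k] D.S) : C →+* D.S)
    ((f : L →+* K).comp (D.S.val : D.S →+* L)) ((algebraMap k K).comp (D.q : C →+* k))
    (fun j => f (r.b j : L)) ?_ ?_ ?_
  · exact ⟨D.q, r.d + 1, hmain⟩
  · intro hl
    obtain ⟨c, hc⟩ := r.one_b
    have h1 := congrArg (fun s : D.S => f (s : L)) hc
    simp only [OneMemClass.coe_one, map_one, AddSubmonoidClass.coe_finset_sum, MulMemClass.coe_mul,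
      map_sum, map_mul] at h1
    have h2 : ∀ i, f (r.b i : L) = 0 := fun i => congrFun hl i
    simp only [h2, mul_zero, Finset.sum_const_zero] at h1
    exact one_ne_zero h1
  · intro s
    funext j
    have h1 := congrArg (fun s : D.S => f (s : L)) (r.mul_b s j)
    simp only [AddSubmonoidClass.coe_finset_sum, MulMemClass.coe_mul, map_sum, map_mul] at h1
    have h2 : Matrix.vecMul (fun j => f (r.b j : L)) ((ev K true).mapMatrix (Λ' s)) j =
        ∑ i, f (r.b i : L) * ev K true (Λ' s i j) := rfl
    rw [h2, Pi.smul_apply, smul_eq_mul]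
    refine Eq.trans (Finset.sum_congr rfl fun i _ => ?_) h1.symm
    rw [hΛ', clPhi_true, haev, mul_comm]
  · intro χ hχ
    have hχk : ∀ c : k, χ (algebraMap k D.S c) = algebraMap k K c := by
      intro c
      apply hχ
      have h1 : r.Λ (algebraMap k D.S c) = Matrix.scalar _ (Polynomial.C c) := by
        rw [AlgHom.commutes, Matrix.algebraMap_eq_diagonal, Matrix.scalar_apply]
        rfl
      ext i j
      have h2 : (ev K false).mapMatrix (Λ' (algebraMap k D.S c)) i j =
          ev K false (Λ' (algebraMap k D.S c) i j) := rfl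
      rw [h2, hΛ', h1, Matrix.scalar_apply, Matrix.scalar_apply, Matrix.diagonal_apply,
        Matrix.diagonal_apply]
      split_ifs
      · rw [clPhi_C]
        simp [ev]
      · simp
    have hχh : χ D.h = 0 := by
      apply hχ
      ext i j
      have h2 : (ev K false).mapMatrix (Λ' D.h) i j = ev K false (Λ' D.h i j) := rfl
      rw [h2, hΛ', r.map_h, Matrix.scalar_apply, Matrix.scalar_apply, Matrix.diagonal_apply,
        Matrix.diagonal_apply]
      split_ifs
      · rw [clPhi_X]
        simp [ev]
      · simp
    apply RingHom.ext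
    intro x
    exact D.char_eq { toRingHom := χ, commutes' := hχk } hχh x

end Pool.Agent.GSM
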