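import Pool.Agent.GSM.CurveQ
import Pool.Agent.GSM.NormLink

/-!
# The generic point of a curve is linked with every constant point

MODULE GSM-CurveLinkQ. PLAN. Copy of the proof of `curve_linked` (CurveLink.lean; copy its private
lemmas with new names), starting from `exists_curveData_q`.
-/

noncomputable section

namespace Pool.Agent.GSM

universe u v w

open Polynomial in
/-- coefficients `k → K`, variable `X ↦ c X` -/
private def clqPhi {k : Type u} [Field k] {K : Type w} [Field K] [Algebra k K] (c : K) :
    k[X] →+* K[X] :=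
  Polynomial.eval₂RingHom ((Polynomial.C : K →+* K[X]).comp (algebraMap k K))
    (Polynomial.C c * Polynomial.X)

private theorem clqPhi_C {k : Type u} [Field k] {K : Type w} [Field K] [Algebra k K] (c : K)
    (x : k) : clqPhi (k := k) c (Polynomial.C x) = Polynomial.C (algebraMap k K x) := by
  simp [clqPhi]

private theorem clqPhi_X {k : Type u} [Field k] {K : Type w} [Field K] [Algebra k K] (c : K) :
    clqPhi (k := k) c Polynomial.X = Polynomial.C c * Polynomial.X := by
  simp [clqPhi]

open Polynomial in
private theorem clqPhi_true {k : Type u} [Field k] {K : Type w} [Field K] [Algebra k K] (c : K)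
    (P : k[X]) : ev K true (clqPhi (k := k) c P) = aeval c P := by
  have h : (ev K true).comp (clqPhi (k := k) c) = (aeval c : k[X] →ₐ[k] K).toRingHom := by
    apply Polynomial.ringHom_ext
    · intro a
      simp [clqPhi, ev]
    · simp [clqPhi, ev]
  exact congrArg (fun φ : k[X] →+* K => φ P) h

theorem curve_linked_q {k : Type u} [Field k] [IsAlgClosed k] [CharZero k]
    {L : Type v} [Field L] [Algebra k L] (C : Subalgebra k L) (hC : C.FG)
    (hgen : IntermediateField.adjoin k (C : Set L) = ⊤) (htr : Algebra.trdeg k L = 1)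
    (q₀ : C →ₐ[k] k) {K : Type w} [Field K] [IsAlgClosed K] [Algebra k K] (f : L →ₐ[k] K) :
    ∃ D : ℕ,
      Linked ((f : L →+* K).comp (C.val : C →+* L)) ((algebraMap k K).comp (q₀ : C →+* k)) D := by
  obtain ⟨D, hDq⟩ := exists_curveData_q.{u, v, w} C hC hgen htr q₀
  subst hDq
  set r := D.reg with hr
  have haev : ∀ P : Polynomial k, f ((Polynomial.aeval D.h P : D.S) : L) =
      Polynomial.aeval (f (D.h : L)) P := by
    intro P
    have h1 : ((Polynomial.aeval D.h P : D.S) : L) = Polynomial.aeval (D.h : L) P := by
      exact (Polynomial.aeval_algHom_apply D.S.val D.h P).symm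
    rw [h1]
    exact (Polynomial.aeval_algHom_apply f (D.h : L) P).symm
  let Λ' : D.S →+* Matrix (Fin (r.d + 1)) (Fin (r.d + 1)) (Polynomial K) :=
    ((clqPhi (k := k) (f (D.h : L))).mapMatrix).comp (r.Λ : D.S →+* _)
  have hΛ' : ∀ s i j, Λ' s i j = clqPhi (k := k) (f (D.h : L)) (r.Λ s i j) := fun s i j => rfl
  have hmain := linked_of_family Λ' ((Subalgebra.inclusion D.le : C →ₐ[k] D.S) : C →+* D.S)
    ((f : L →+* K).comp (D.S.val : D.S →+* L)) ((algebraMap k K).comp (D.q : C →+* k))
    (fun j => f (r.b j : L)) ?_ ?_ ?_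
  · exact ⟨r.d + 1, hmain⟩
  · intro hl
    obtain ⟨c, hc⟩ := r.one_b
    have h1 := congrArg (fun s : D.S => f (s : L)) hc
    simp only [OneMemClass.coe_one, map_one, AddSubmonoidClass.coe_finsetSum, MulMemClass.coe_mul,
      map_sum, map_mul] at h1
    have h2 : ∀ i, f (r.b i : L) = 0 := fun i => congrFun hl i
    simp only [h2, mul_zero, Finset.sum_const_zero] at h1
    exact one_ne_zero h1
  · intro s
    funext j
    have h1 := congrArg (fun s : D.S => f (s : L)) (r.mul_b s j)
    simp only [AddSubmonoidClass.coe_finsetSum, MulMemClass.coe_mul, map_sum, map_mul] at h1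
    have h2 : Matrix.vecMul (fun j => f (r.b j : L)) ((ev K true).mapMatrix (Λ' s)) j =
        ∑ i, f (r.b i : L) * ev K true (Λ' s i j) := rfl
    rw [h2, Pi.smul_apply, smul_eq_mul]
    refine Eq.trans (Finset.sum_congr rfl fun i _ => ?_) h1.symm
    rw [hΛ', clqPhi_true, haev, mul_comm]
  · intro χ hχ
    have hχk : ∀ c : k, χ (algebraMap k D.S c) = algebraMap k K c := by
      intro c
      apply hχ
      have h1 : r.Λ (algebraMap k D.S c) = Matrix.scalar _ (Polynomial.C c) := by
        rw [AlgHom.commutes, Matrix.algebraMap_eq_diagonal, Matrix.scalar_apply]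
        rfl
      ext i j
      have h2 : (ev K false).mapMatrix (Λ' (algebraMap k D.S c)) i j =
          ev K false (Λ' (algebraMap k D.S c) i j) := rfl
      rw [h2, hΛ', h1, Matrix.scalar_apply, Matrix.scalar_apply, Matrix.diagonal_apply,
        Matrix.diagonal_apply]
      split_ifs
      · rw [clqPhi_C]
        simp [ev]
      · simp
    have hχh : χ D.h = 0 := by
      apply hχ
      ext i j
      have h2 : (ev K false).mapMatrix (Λ' D.h) i j = ev K false (Λ' D.h i j) := rfl
      rw [h2, hΛ', r.map_h, Matrix.scalar_apply, Matrix.scalar_apply, Matrix.diagonal_apply,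
        Matrix.diagonal_apply]
      split_ifs
      · rw [clqPhi_X]
        simp [ev]
      · simp
    apply RingHom.ext
    intro x
    exact D.char_eq { toRingHom := χ, commutes' := hχk } hχh x

end Pool.Agent.GSM
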