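import Mathlib

/-!
# Commuting matrices up to conjugation

Everything in this file is a definition (plus the proofs needed to state it).
-/

noncomputable section

namespace Pool.Agent.GSM

open Matrix Kronecker

universe u v w

/-- A `σ`-indexed family of pairwise commuting invertible `ι × ι` matrices over `R`. -/
@[ext]
structure Tup (ι σ : Type) [Fintype ι] [DecidableEq ι] (R : Type u) [CommRing R] where
  mat : σ → Matrix ι ι R
  unit : ∀ s, IsUnit (mat s)
  comm : ∀ s t, Commute (mat s) (mat t)

namespace Tup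

variable {ι κ ν δ σ τ : Type} [Fintype ι] [DecidableEq ι] [Fintype κ] [DecidableEq κ]
  [Fintype ν] [DecidableEq ν] [Fintype δ] [DecidableEq δ]
variable {R : Type u} {R' : Type v} [CommRing R] [CommRing R']

/-- Image of a tuple under a ring homomorphism from `ι × ι` matrices to `κ × κ` matrices. -/
def hom (f : Matrix ι ι R →+* Matrix κ κ R') (A : Tup ι σ R) : Tup κ σ R' where
  mat s := f (A.mat s)
  unit s := (A.unit s).map f
  comm s t := (A.comm s t).map f

/-- Renumbering of the basis. -/
def reindex (e : ι ≃ κ) (A : Tup ι σ R) : Tup κ σ R :=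
  A.hom (Matrix.reindexRingEquiv R e).toRingHom

/-- Base change along a ring homomorphism. -/
def map (f : R →+* R') (A : Tup ι σ R) : Tup ι σ R' := A.hom f.mapMatrix

/-- The blocks of an `ι × ι` matrix over `S` after replacing the entries by `δ × δ` matrices. -/
def blockHom (Λ : R →+* Matrix δ δ R') : Matrix ι ι R →+* Matrix (ι × δ) (ι × δ) R' :=
  (Matrix.compRingEquiv ι δ R').toRingHom.comp Λ.mapMatrix

/-- Replace the entries by blocks, along `Λ : R →+* Matrix δ δ R'`. -/
def corr (Λ : R →+* Matrix δ δ R') (A : Tup ι σ R) : Tup (ι × δ) σ R' := A.hom (blockHom Λ)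

/-- Change of the index set: position `t` gets the matrix at position `p t`, or `1`. -/
def pull (p : τ → Option σ) (A : Tup ι σ R) : Tup ι τ R where
  mat t := (p t).elim 1 A.mat
  unit t := by cases p t <;> simp [A.unit]
  comm s t := by
    cases p s <;> cases p t <;> simp [A.comm, Commute.one_left, Commute.one_right]

/-- Direct sum. -/
def add (A : Tup ι σ R) (B : Tup κ σ R) : Tup (ι ⊕ κ) σ R where
  mat s := Matrix.fromBlocks (A.mat s) 0 0 (B.mat s)
  unit s := by
    rw [Matrix.isUnit_iff_isUnit_det, Matrix.det_fromBlocks_zero₂₁]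
    exact ((Matrix.isUnit_iff_isUnit_det _).1 (A.unit s)).mul
      ((Matrix.isUnit_iff_isUnit_det _).1 (B.unit s))
  comm s t := by
    simp [Commute, SemiconjBy, Matrix.fromBlocks_multiply, (A.comm s t).eq, (B.comm s t).eq]

/-- Tensor product. -/
def mul (A : Tup ι σ R) (B : Tup κ σ R) : Tup (ι × κ) σ R where
  mat s := A.mat s ⊗ₖ B.mat s
  unit s := by
    obtain ⟨a, ha⟩ := (A.unit s).exists_left_inv
    obtain ⟨b, hb⟩ := (B.unit s).exists_left_inv
    refine (Matrix.isUnit_iff_isUnit_det _).2 (Matrix.isUnit_det_of_left_inverse (B := a ⊗ₖ b) ?_)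
    rw [← Matrix.mul_kronecker_mul, ha, hb, Matrix.one_kronecker_one]
  comm s t := by
    simp [Commute, SemiconjBy, ← Matrix.mul_kronecker_mul, (A.comm s t).eq, (B.comm s t).eq]

/-- The tuple of identity matrices. -/
def triv (ι σ : Type) [Fintype ι] [DecidableEq ι] (R : Type u) [CommRing R] : Tup ι σ R where
  mat _ := 1
  unit _ := isUnit_one
  comm _ _ := Commute.one_left _

/-- Two tuples are isomorphic if they are conjugate by an invertible matrix. -/
def Iso (A : Tup ι σ R) (B : Tup κ σ R) : Prop :=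
  ∃ (P : Matrix ι κ R) (Q : Matrix κ ι R), P * Q = 1 ∧ Q * P = 1 ∧
    ∀ s, A.mat s * P = P * B.mat s

theorem Iso.refl (A : Tup ι σ R) : A.Iso A := ⟨1, 1, by simp, by simp, by simp⟩

theorem Iso.symm {A : Tup ι σ R} {B : Tup κ σ R} (h : A.Iso B) : B.Iso A := by
  obtain ⟨P, Q, h1, h2, h3⟩ := h
  refine ⟨Q, P, h2, h1, fun s => ?_⟩
  calc B.mat s * Q = (Q * P) * (B.mat s * Q) := by rw [h2, Matrix.one_mul]
    _ = Q * (P * B.mat s) * Q := by simp only [Matrix.mul_assoc]
    _ = Q * A.mat s * (P * Q) := by rw [← h3 s]; simp only [Matrix.mul_assoc]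
    _ = Q * A.mat s := by rw [h1, Matrix.mul_one]

theorem Iso.trans {A : Tup ι σ R} {B : Tup κ σ R} {C : Tup ν σ R} (h : A.Iso B) (h' : B.Iso C) :
    A.Iso C := by
  obtain ⟨P, Q, h1, h2, h3⟩ := h
  obtain ⟨P', Q', h1', h2', h3'⟩ := h'
  refine ⟨P * P', Q' * Q, ?_, ?_, fun s => ?_⟩
  · calc P * P' * (Q' * Q) = P * (P' * Q') * Q := by simp only [Matrix.mul_assoc]
      _ = 1 := by rw [h1', Matrix.mul_one, h1]
  · calc Q' * Q * (P * P') = Q' * (Q * P) * P' := by simp only [Matrix.mul_assoc]
      _ = 1 := by rw [h2, Matrix.mul_one, h2']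
  · rw [← Matrix.mul_assoc, h3, Matrix.mul_assoc, h3', Matrix.mul_assoc]

end Tup

/-- Tuples of commuting invertible matrices of any size. -/
def FTup (σ : Type) (R : Type u) [CommRing R] : Type u := Σ r : ℕ, Tup (Fin r) σ R

instance tupSetoid (σ : Type) (R : Type u) [CommRing R] : Setoid (FTup σ R) where
  r A B := A.2.Iso B.2
  iseqv := ⟨fun A => Tup.Iso.refl A.2, fun h => h.symm, fun h h' => h.trans h'⟩

/-- Conjugacy classes of `σ`-indexed families of commuting invertible matrices. -/
def TupQ (σ : Type) (R : Type u) [CommRing R] : Type u := Quotient (tupSetoid σ R)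

/-- The class of a tuple with an arbitrary finite basis. -/
def cls {ι σ : Type} [Fintype ι] [DecidableEq ι] {R : Type u} [CommRing R] (A : Tup ι σ R) :
    TupQ σ R :=
  Quotient.mk _ ⟨Fintype.card ι, A.reindex (Fintype.equivFin ι)⟩

end Pool.Agent.GSM
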