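import Pool.Agent.GSM.ContG

/-!
# Descent of boundaries from algebraic extensions

MODULE GSM-Desc. PLAN. `bd_descend` with `A = K`, `f = K → Ω` and the finite subextension generated
by `F` gives `K'` finite over `K` with `BdOn a b (GG.base (algebraMap K K') x)`. Apply
`BdOn.corr` to the regular representation `Λ : K' → Matrix (Fin d) (Fin d) K` (`Algebra.leftMulMatrix`);
`GG.corr_base` and `GG.corr_diagonal` show that `GG.corr Λ (GG.base _ x) = d • x`
(`leftMulMatrix` of `algebraMap c` is `diagonal c`; `GG.base_id`). Divide by `d`.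
-/

noncomputable section

namespace Pool.Agent.GSM

universe u v w

theorem bd_of_algebraic {I σ : Type} [Finite I] [DecidableEq I] [Finite σ] [DecidableEq σ]
    {K : Type u} [Field K] {Ω : Type v} [Field Ω] [Algebra K Ω] [Algebra.IsAlgebraic K Ω]
    {a : Set I} {b : Set σ} (x : GG I σ K)
    (hx : BdOn a b (GG.base (algebraMap K Ω) x)) : BdOn a b x := by
  obtain ⟨F, hF, h⟩ := bd_descend.{v, u, v} (algebraMap K Ω) x hx
  have hfin : FiniteDimensional K (IntermediateField.adjoin K F) := by
    have : Finite F := hF
    exact IntermediateField.finiteDimensional_adjoin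
      (fun y _ => Algebra.IsIntegral.isIntegral y)
  have h1 : BdOn a b (GG.base (algebraMap K (IntermediateField.adjoin K F)) x) := by
    refine h (algebraMap K (IntermediateField.adjoin K F))
      (algebraMap (IntermediateField.adjoin K F) Ω) ?_ (RingHom.injective _) ?_
    · exact (IsScalarTower.algebraMap_eq K (IntermediateField.adjoin K F) Ω).symm
    · intro y hy
      exact ⟨⟨y, IntermediateField.subset_adjoin K F hy⟩, rfl⟩
  set B := Module.finBasis K (IntermediateField.adjoin K F) with hB
  have h2 := h1.corr (Algebra.leftMulMatrix B).toRingHom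
  rw [GG.corr_base, GG.corr_diagonal _ (RingHom.id K) (fun s => ?_), GG.base_id,
    Fintype.card_fin] at h2
  swap
  · show Algebra.leftMulMatrix B (algebraMap K (IntermediateField.adjoin K F) s) = _
    rw [AlgHom.commutes, Matrix.algebraMap_eq_diagonal]
    rfl
  have hd : ((Module.finrank K (IntermediateField.adjoin K F) : ℕ) : ℚ) ≠ 0 :=
    Nat.cast_ne_zero.2 Module.finrank_pos.ne'
  have h3 := h2.smul ((Module.finrank K (IntermediateField.adjoin K F) : ℕ) : ℚ)⁻¹
  rwa [smul_smul, inv_mul_cancel₀ hd, one_smul] at h3

end Pool.Agent.GSM
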