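import Mathlib

/-!
# Commuting matrices over an algebraically closed field have a common row eigenvector

MODULE GSM-Eigen. PLAN. Work in `V = Fin (d+1) → K` with the commuting endomorphisms
`v ↦ v ᵥ* Λ s` (`s ∈ S`, `S` commutative). Take a nonzero subspace `W` of minimal dimension that
is stable under all of them (`Nat.find` / well-foundedness of finite dimensional subspaces).
For each `s` the restriction to `W` has an eigenvalue `c` (`Module.End.exists_eigenvalue`), the
eigenspace is a nonzero stable subspace of `W` by commutativity, hence equal to `W`. So every `s`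
acts on `W` by a scalar `χ s`; `χ` is a ring homomorphism because `W ≠ 0`.
-/

noncomputable section

namespace Pool.Agent.GSM

open Matrix

universe u v

theorem exists_row_eigen {K : Type u} [Field K] [IsAlgClosed K] {S : Type v} [CommRing S]
    {d : ℕ} (Λ : S →+* Matrix (Fin (d + 1)) (Fin (d + 1)) K) :
    ∃ (χ : S →+* K) (l : Fin (d + 1) → K), l ≠ 0 ∧ ∀ s, Matrix.vecMul l (Λ s) = χ s • l := by
  classical
  let T : S → ((Fin (d + 1) → K) →ₗ[K] (Fin (d + 1) → K)) := fun s => (Λ s).vecMulLinear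
  have hT : ∀ s v, T s v = Matrix.vecMul v (Λ s) := fun s v => rfl
  have hTT : ∀ s t v, T s (T t v) = T t (T s v) := by
    intro s t v
    rw [hT, hT, hT, hT, Matrix.vecMul_vecMul, Matrix.vecMul_vecMul, ← map_mul, ← map_mul, mul_comm]
  have hex : ∃ n : ℕ, ∃ W : Submodule K (Fin (d + 1) → K), W ≠ ⊥ ∧ (∀ s, ∀ v ∈ W, T s v ∈ W) ∧
      Module.finrank K W = n :=
    ⟨_, ⊤, top_ne_bot, fun _ _ _ => Submodule.mem_top, rfl⟩
  obtain ⟨W, hW0, hWT, hWn⟩ := Nat.find_spec hex
  have hmin : ∀ E : Submodule K (Fin (d + 1) → K), E ≠ ⊥ → (∀ s, ∀ v ∈ E, T s v ∈ E) →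
      Module.finrank K W ≤ Module.finrank K E := by
    intro E h1 h2
    rw [hWn]
    exact Nat.find_min' hex ⟨E, h1, h2, rfl⟩
  have hsc : ∀ s, ∃ c : K, ∀ v ∈ W, T s v = c • v := by
    intro s
    have : Nontrivial W := Submodule.nontrivial_iff_ne_bot.2 hW0
    obtain ⟨c, hc⟩ := Module.End.exists_eigenvalue ((T s).restrict (hWT s))
    obtain ⟨w, hw⟩ := hc.exists_hasEigenvector
    have hw1 : T s w.1 = c • w.1 := by
      have h1 := hw.apply_eq_smul
      have h2 := congrArg Subtype.val h1
      simpa using h2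
    have hw0 : w.1 ≠ 0 := by
      intro h0
      exact hw.2 (Subtype.ext h0)
    let E : Submodule K (Fin (d + 1) → K) := W ⊓ LinearMap.ker (T s - c • LinearMap.id)
    have hmemE : ∀ v, v ∈ E ↔ v ∈ W ∧ T s v = c • v := by
      intro v
      rw [Submodule.mem_inf, LinearMap.mem_ker, LinearMap.sub_apply, LinearMap.smul_apply,
        LinearMap.id_apply, sub_eq_zero]
    have hE0 : E ≠ ⊥ := by
      intro h0
      have h1 : w.1 ∈ E := (hmemE _).2 ⟨w.2, hw1⟩
      rw [h0, Submodule.mem_bot] at h1
      exact hw0 h1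
    have hET : ∀ t, ∀ v ∈ E, T t v ∈ E := by
      intro t v hv
      obtain ⟨h1, h2⟩ := (hmemE v).1 hv
      exact (hmemE _).2 ⟨hWT t v h1, by rw [hTT, h2, map_smul]⟩
    have hEW : E = W := Submodule.eq_of_le_of_finrank_le inf_le_left (hmin E hE0 hET)
    refine ⟨c, fun v hv => ?_⟩
    rw [← hEW] at hv
    exact ((hmemE v).1 hv).2
  choose χ0 hχ using hsc
  obtain ⟨l, hlW, hl0⟩ := Submodule.exists_mem_ne_zero_of_ne_bot hW0
  have huniq : ∀ c c' : K, c • l = c' • l → c = c' := fun c c' h => smul_left_injective K hl0 h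
  have hl : ∀ s, Matrix.vecMul l (Λ s) = χ0 s • l := fun s => by rw [← hT, hχ s l hlW]
  refine ⟨{ toFun := χ0
            map_one' := ?_
            map_mul' := ?_
            map_zero' := ?_
            map_add' := ?_ }, l, hl0, hl⟩
  · apply huniq
    rw [← hl, map_one, Matrix.vecMul_one, one_smul]
  · intro s t
    apply huniq
    rw [← hl, map_mul, ← Matrix.vecMul_vecMul, hl, Matrix.smul_vecMul, hl, smul_smul]
  · apply huniq
    rw [← hl, map_zero, Matrix.vecMul_zero, zero_smul]
  · intro s t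
    apply huniq
    rw [← hl, map_add, Matrix.vecMul_add, hl, hl, add_smul]

end Pool.Agent.GSM
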