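import Pool.Agent.GSM.Poly

/-!
# Tuples over polynomial rings

`GG I σ R = KK σ R[t_i, i ∈ I]`, with substitutions, base change, and `corr`.

Everything is an immediate consequence of `KKMap`, `KKCorr` and `Poly`.
-/

noncomputable section

namespace Pool.Agent.GSM

open Matrix Kronecker

universe u v w u'

/-- The rational Grothendieck ring of tuples over the polynomial ring `R[t_i, i ∈ I]`. -/
abbrev GG (I σ : Type) (R : Type u) [CommRing R] : Type u := KK σ (MvPolynomial I R)

namespace GG

variable {I J L σ τ υ : Type} {δ ε : Type} [Fintype δ] [DecidableEq δ] [Fintype ε] [DecidableEq ε]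
variable {S : Type u} {R : Type v} {R' : Type w} {S' : Type u'}
  [CommRing S] [CommRing R] [CommRing R'] [CommRing S']

/-- Substitution of integral polynomials for the variables. -/
def sub (p : I → MvPolynomial J ℤ) : GG I σ R →ₐ[ℚ] GG J σ R := KK.map (subst R p)

/-- Change of the coefficient ring. -/
def base (f : R →+* R') : GG I σ R →ₐ[ℚ] GG I σ R' := KK.map (MvPolynomial.map f)

/-- Replace entries by blocks. -/
def corr (Λ : S →+* Matrix δ δ R) : GG I σ S →ₗ[ℚ] GG I σ R := KK.corr (polyCorr I Λ)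

theorem base_base (g : R' →+* S) (f : R →+* R') (x : GG I σ R) :
    base g (base f x) = base (g.comp f) x := by
  unfold base
  rw [KK.map_map]
  congr 2
  exact RingHom.ext fun y => MvPolynomial.map_map f g y

theorem base_id (x : GG I σ R) : base (RingHom.id R) x = x := by
  unfold base
  have h : MvPolynomial.map (RingHom.id R) = RingHom.id (MvPolynomial I R) :=
    RingHom.ext fun y => MvPolynomial.map_id y
  rw [h, KK.map_id]

theorem base_sub (f : R →+* R') (p : I → MvPolynomial J ℤ) (x : GG I σ R) :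
    base f (sub p x) = sub p (base f x) := by
  unfold base sub
  rw [KK.map_map, KK.map_map, subst_comp_map]

theorem base_pull (f : R →+* R') (p : τ → Option σ) (x : GG I σ R) :
    base f (KK.pull p x) = KK.pull p (base f x) := by
  exact KK.map_pull _ p x

theorem sub_pull (q : I → MvPolynomial J ℤ) (p : τ → Option σ) (x : GG I σ R) :
    sub q (KK.pull p x) = KK.pull p (sub q x) := by
  exact KK.map_pull _ p x

theorem sub_sub (q : J → MvPolynomial L ℤ) (p : I → MvPolynomial J ℤ) (x : GG I σ R) :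
    sub q (sub p x) = sub (fun i => MvPolynomial.bind₁ q (p i)) x := by
  unfold sub
  rw [KK.map_map]
  congr 2
  refine MvPolynomial.ringHom_ext (fun r => ?_) (fun i => ?_)
  · simp [subst]
  · simp only [subst, RingHom.comp_apply, MvPolynomial.coe_eval₂Hom, MvPolynomial.eval₂_X]
    have h := MvPolynomial.map_bind₁ (Int.castRingHom R) q (p i)
    rw [h, ← MvPolynomial.coe_eval₂Hom, MvPolynomial.eval₂Hom_C_eq_bind₁]
    rfl

theorem sub_X (x : GG I σ R) : sub (fun i => MvPolynomial.X i) x = x := by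
  unfold sub
  have h : subst R (fun i => MvPolynomial.X i) = RingHom.id (MvPolynomial I R) := by
    refine MvPolynomial.ringHom_ext (fun r => ?_) (fun i => ?_)
    · simp [subst]
    · simp [subst]
  rw [h, KK.map_id]

theorem corr_sub (Λ : S →+* Matrix δ δ R) (p : I → MvPolynomial J ℤ) (x : GG I σ S) :
    corr Λ (sub p x) = sub p (corr Λ x) := by
  unfold corr sub
  rw [KK.corr_map, KK.map_corr, subst_comp_polyCorr]

theorem corr_pull (Λ : S →+* Matrix δ δ R) (p : τ → Option σ) (x : GG I σ S) :
    corr Λ (KK.pull p x) = KK.pull p (corr Λ x) := by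
  exact KK.corr_pull _ p x

theorem base_corr (f : R →+* R') (Λ : S →+* Matrix δ δ R) (x : GG I σ S) :
    base f (corr Λ x) = corr (f.mapMatrix.comp Λ) x := by
  unfold corr base
  rw [KK.map_corr, map_comp_polyCorr]

theorem corr_base (Λ : S →+* Matrix δ δ R) (g : S' →+* S) (x : GG I σ S') :
    corr Λ (base g x) = corr (Λ.comp g) x := by
  unfold corr base
  rw [KK.corr_map, polyCorr_comp_map]

theorem corr_conj (Λ : S →+* Matrix δ δ R) (Λ' : S →+* Matrix ε ε R)
    (P : Matrix δ ε R) (Q : Matrix ε δ R) (h1 : P * Q = 1) (h2 : Q * P = 1)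
    (h : ∀ s, Λ s * P = P * Λ' s) (x : GG I σ S) : corr Λ x = corr Λ' x := by
  refine KK.corr_conj _ _ (P.map MvPolynomial.C) (Q.map MvPolynomial.C) ?_ ?_
    (fun s => polyCorr_conj Λ Λ' P h s) x
  · rw [← Matrix.map_mul, h1]
    exact Matrix.map_one _ (map_zero _) (map_one _)
  · rw [← Matrix.map_mul, h2]
    exact Matrix.map_one _ (map_zero _) (map_one _)

theorem corr_fromBlocks (Λ : S →+* Matrix (δ ⊕ ε) (δ ⊕ ε) R) (Λ₁ : S →+* Matrix δ δ R)
    (Λ₂ : S →+* Matrix ε ε R) (h : ∀ s, Λ s = Matrix.fromBlocks (Λ₁ s) 0 0 (Λ₂ s))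
    (x : GG I σ S) : corr Λ x = corr Λ₁ x + corr Λ₂ x := by
  exact KK.corr_fromBlocks _ _ _ (fun s => polyCorr_fromBlocks Λ Λ₁ Λ₂ h s) x

theorem corr_unique [Unique δ] (Λ : S →+* Matrix δ δ R) (f : S →+* R)
    (h : ∀ s, Λ s default default = f s) (x : GG I σ S) : corr Λ x = base f x := by
  exact KK.corr_unique _ _ (fun s => polyCorr_unique Λ f h s) x

theorem corr_empty [IsEmpty δ] (Λ : S →+* Matrix δ δ R) (x : GG I σ S) : corr Λ x = 0 := by
  exact KK.corr_empty _ x

theorem corr_diagonal (Λ : S →+* Matrix δ δ R) (f : S →+* R)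
    (h : ∀ s, Λ s = Matrix.diagonal fun _ => f s) (x : GG I σ S) :
    corr Λ x = (Fintype.card δ : ℚ) • base f x := by
  exact KK.corr_diagonal _ _ (fun s => polyCorr_diagonal Λ f h s) x

end GG

end Pool.Agent.GSM
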