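import Mathlib

/-!
# The rational Grothendieck ring of a commutative semiring

`GR T` is the `ℚ`-algebra generated by symbols `of t`, `t : T`, with the relations
`of (s + t) = of s + of t`, `of (s * t) = of s * of t`, `of 1 = 1`.

MODULE GSM-GR. PLAN.
* `relIdeal T` is the ideal spanned by `of (s+t) - of s - of t` in `MonoidAlgebra ℚ T`; show first
  (`relIdeal_eq_span`) that it is the `ℚ`-span of these elements (multiply a relation by `of c`).
* `liftAdd`: `Finsupp.lift` / `Finsupp.linearCombination ℚ f`, kills the span.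
* `lift`: `MonoidAlgebra.lift` and `Ideal.Quotient.liftₐ`.
-/

noncomputable section

namespace Pool.Agent.GSM

universe u v

section

variable (T : Type u) [CommSemiring T]

/-- The ideal of additivity relations. -/
def relIdeal : Ideal (MonoidAlgebra ℚ T) :=
  Ideal.span (Set.range fun p : T × T =>
    MonoidAlgebra.of ℚ T (p.1 + p.2) - MonoidAlgebra.of ℚ T p.1 - MonoidAlgebra.of ℚ T p.2)

/-- The rational Grothendieck ring of the commutative semiring `T`. -/
def GR : Type u := MonoidAlgebra ℚ T ⧸ relIdeal T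

instance : CommRing (GR T) := inferInstanceAs (CommRing (MonoidAlgebra ℚ T ⧸ relIdeal T))

instance : Algebra ℚ (GR T) := inferInstanceAs (Algebra ℚ (MonoidAlgebra ℚ T ⧸ relIdeal T))

end

namespace GR

variable {T : Type u} [CommSemiring T]

private theorem gr_rel (a b : T) : MonoidAlgebra.of ℚ T (a + b) - MonoidAlgebra.of ℚ T a -
    MonoidAlgebra.of ℚ T b ∈ relIdeal T :=
  Ideal.subset_span ⟨(a, b), rfl⟩

private theorem gr_add (a b : T) :
    Ideal.Quotient.mk (relIdeal T) (MonoidAlgebra.of ℚ T (a + b)) =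
      Ideal.Quotient.mk (relIdeal T) (MonoidAlgebra.of ℚ T a) +
        Ideal.Quotient.mk (relIdeal T) (MonoidAlgebra.of ℚ T b) := by
  rw [← map_add, Ideal.Quotient.eq, ← sub_sub]
  exact gr_rel a b

private theorem gr_zero :
    Ideal.Quotient.mk (relIdeal T) (MonoidAlgebra.of ℚ T (0 : T)) = 0 := by
  have h := gr_add (0 : T) 0
  rw [add_zero] at h
  exact left_eq_add.mp h

/-- The class of an element. -/
def of : T →+* GR T where
  toFun t := Ideal.Quotient.mk (relIdeal T) (MonoidAlgebra.of ℚ T t)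
  map_one' := by rw [map_one, map_one]; rfl
  map_mul' a b := by rw [map_mul, map_mul]; rfl
  map_zero' := gr_zero
  map_add' a b := gr_add a b

theorem relIdeal_eq_span : (relIdeal T).restrictScalars ℚ =
    Submodule.span ℚ (Set.range fun p : T × T =>
      MonoidAlgebra.of ℚ T (p.1 + p.2) - MonoidAlgebra.of ℚ T p.1 - MonoidAlgebra.of ℚ T p.2) := by
  apply le_antisymm
  · intro x hx
    have hx' : x ∈ relIdeal T := hx
    unfold relIdeal at hx'
    induction hx' using Submodule.span_induction with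
    | mem x h => exact Submodule.subset_span h
    | zero => exact Submodule.zero_mem _
    | add x y hx0 hy0 ihx ihy => exact Submodule.add_mem _ (ihx hx0) (ihy hy0)
    | smul a x hx0 ihx =>
      have hxS := ihx hx0
      rw [smul_eq_mul]
      induction a using MonoidAlgebra.induction_on with
      | of c =>
        clear ihx hx0 hx
        induction hxS using Submodule.span_induction with
        | mem x h =>
          obtain ⟨⟨a, b⟩, rfl⟩ := h
          apply Submodule.subset_span
          refine ⟨(c * a, c * b), ?_⟩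
          simp only [mul_sub, ← map_mul, mul_add]
        | zero => rw [mul_zero]; exact Submodule.zero_mem _
        | add x y _ _ ihx ihy => rw [mul_add]; exact Submodule.add_mem _ ihx ihy
        | smul q x _ ih => rw [mul_smul_comm]; exact Submodule.smul_mem _ _ ih
      | add a b iha ihb => 
        rw [add_mul]
        exact Submodule.add_mem _ (iha (Submodule.smul_mem _ a hx0)) (ihb (Submodule.smul_mem _ b hx0))
      | smul q a iha =>
        rw [smul_mul_assoc]
        exact Submodule.smul_mem _ _ (iha (Submodule.smul_mem _ a hx0))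
  · rw [Submodule.span_le]
    rintro _ ⟨⟨a, b⟩, rfl⟩
    exact gr_rel a b

private theorem gr_kill {V : Type v} [AddCommGroup V] [Module ℚ V] (f : T →+ V) :
    (relIdeal T).restrictScalars ℚ ≤ LinearMap.ker ((Finsupp.linearCombination ℚ (f : T → V)) ∘ₗ
      (MonoidAlgebra.coeffLinearEquiv (S := ℚ) (M := T) ℚ).toLinearMap) := by
  rw [relIdeal_eq_span, Submodule.span_le]
  rintro _ ⟨⟨a, b⟩, rfl⟩
  rw [SetLike.mem_coe, LinearMap.mem_ker, map_sub, map_sub]
  have h : ∀ t : T, ((Finsupp.linearCombination ℚ (f : T → V)) ∘ₗ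
      (MonoidAlgebra.coeffLinearEquiv (S := ℚ) (M := T) ℚ).toLinearMap)
        (MonoidAlgebra.of ℚ T t) = f t := by
    intro t
    have h1 := Finsupp.linearCombination_single ℚ (1 : ℚ) t (v := (f : T → V))
    rw [one_smul] at h1
    exact h1
  rw [h, h, h, map_add]
  abel

/-- Additive maps to a `ℚ`-vector space extend. -/
def liftAdd {V : Type v} [AddCommGroup V] [Module ℚ V] (f : T →+ V) : GR T →ₗ[ℚ] V :=
  ((relIdeal T).restrictScalars ℚ).liftQ
    ((Finsupp.linearCombination ℚ (f : T → V)) ∘ₗ
      (MonoidAlgebra.coeffLinearEquiv (S := ℚ) (M := T) ℚ).toLinearMap) (gr_kill f)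

theorem liftAdd_of {V : Type v} [AddCommGroup V] [Module ℚ V] (f : T →+ V) (t : T) :
    liftAdd f (of t) = f t := by
  have h1 := Finsupp.linearCombination_single ℚ (1 : ℚ) t (v := (f : T → V))
  rw [one_smul] at h1
  exact h1

private theorem gr_killA {A : Type v} [CommRing A] [Algebra ℚ A] (f : T →+* A) :
    ∀ a ∈ relIdeal T, MonoidAlgebra.lift ℚ A T (f : T →* A) a = 0 := by
  intro a ha
  have h1 : relIdeal T ≤ RingHom.ker (MonoidAlgebra.lift ℚ A T (f : T →* A)) := by
    unfold relIdeal
    rw [Ideal.span_le]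
    rintro _ ⟨⟨a, b⟩, rfl⟩
    rw [SetLike.mem_coe, RingHom.mem_ker, map_sub, map_sub, MonoidAlgebra.lift_of,
      MonoidAlgebra.lift_of, MonoidAlgebra.lift_of]
    simp
  exact h1 ha

/-- Ring homomorphisms to a commutative `ℚ`-algebra extend. -/
def lift {A : Type v} [CommRing A] [Algebra ℚ A] (f : T →+* A) : GR T →ₐ[ℚ] A :=
  Ideal.Quotient.liftₐ (relIdeal T) (MonoidAlgebra.lift ℚ A T (f : T →* A)) (gr_killA f)

theorem lift_of {A : Type v} [CommRing A] [Algebra ℚ A] (f : T →+* A) (t : T) :
    lift f (of t) = f t := by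
  have h1 : lift f (of t) = MonoidAlgebra.lift ℚ A T (f : T →* A) (MonoidAlgebra.of ℚ T t) := rfl
  rw [h1, MonoidAlgebra.lift_of]
  rfl

/-- The classes `of t` span. -/
theorem span_of : Submodule.span ℚ (Set.range (of : T → GR T)) = ⊤ := by
  rw [eq_top_iff]
  rintro x -
  obtain ⟨y, rfl⟩ := Ideal.Quotient.mk_surjective (I := relIdeal T) x
  induction y using MonoidAlgebra.induction_on with
  | of t => exact Submodule.subset_span ⟨t, rfl⟩
  | add a b ha hb =>
    rw [map_add]
    exact Submodule.add_mem _ ha hb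
  | smul q a ha =>
    exact Submodule.smul_mem _ q ha

theorem lin_ext {V : Type v} [AddCommGroup V] [Module ℚ V] {f g : GR T →ₗ[ℚ] V}
    (h : ∀ t, f (of t) = g (of t)) : f = g := by
  apply LinearMap.ext_on span_of
  rintro _ ⟨t, rfl⟩
  exact h t

theorem alg_ext {A : Type v} [CommRing A] [Algebra ℚ A] {f g : GR T →ₐ[ℚ] A}
    (h : ∀ t, f (of t) = g (of t)) : f = g := by
  have h1 : f.toLinearMap = g.toLinearMap := lin_ext h
  exact AlgHom.toLinearMap_injective h1

private theorem gr_nsmul (n : ℕ) (t : T) : of (n • t) = (n : ℚ) • (of t : GR T) := by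
  rw [map_nsmul, Nat.cast_smul_eq_nsmul]

/-- Every element of `GR T` is `(of a - of b) / n`. -/
theorem exists_rep (x : GR T) : ∃ (n : ℕ) (a b : T), n ≠ 0 ∧ (n : ℚ) • x = of a - of b := by
  have hx : x ∈ Submodule.span ℚ (Set.range (of : T → GR T)) := by
    rw [span_of]
    exact Submodule.mem_top
  induction hx using Submodule.span_induction with
  | mem x h =>
    obtain ⟨t, rfl⟩ := h
    exact ⟨1, t, 0, one_ne_zero, by rw [map_zero, sub_zero, Nat.cast_one, one_smul]⟩
  | zero => exact ⟨1, 0, 0, one_ne_zero, by rw [smul_zero, sub_self]⟩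
  | add x y _ _ hx hy =>
    obtain ⟨n, a, b, hn, h1⟩ := hx
    obtain ⟨m, c, d, hm, h2⟩ := hy
    refine ⟨n * m, m • a + n • c, m • b + n • d, Nat.mul_ne_zero hn hm, ?_⟩
    rw [map_add, map_add, gr_nsmul, gr_nsmul, gr_nsmul, gr_nsmul, Nat.cast_mul, smul_add]
    have h3 : ((n : ℚ) * (m : ℚ)) • x = (m : ℚ) • (of a - of b) := by
      rw [← h1, smul_smul, mul_comm]
    have h4 : ((n : ℚ) * (m : ℚ)) • y = (n : ℚ) • (of c - of d) := by
      rw [← h2, smul_smul]
    rw [h3, h4, smul_sub, smul_sub]
    abel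
  | smul q x _ hx =>
    obtain ⟨n, a, b, hn, h1⟩ := hx
    have hq : ((q.den * n : ℕ) : ℚ) • q • x = (q.num : ℚ) • (of a - of b) := by
      rw [← h1, smul_smul, smul_smul]
      congr 1
      have h2 : (q.den : ℚ) * q = q.num := Rat.den_mul_eq_num q
      rw [Nat.cast_mul, ← h2]
      ring
    rcases Int.eq_nat_or_neg q.num with ⟨k, hk | hk⟩
    · refine ⟨q.den * n, k • a, k • b, Nat.mul_ne_zero q.den_nz hn, ?_⟩
      rw [hq, hk, gr_nsmul, gr_nsmul, Int.cast_natCast, smul_sub]
    · refine ⟨q.den * n, k • b, k • a, Nat.mul_ne_zero q.den_nz hn, ?_⟩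
      rw [hq, hk, gr_nsmul, gr_nsmul, Int.cast_neg, Int.cast_natCast, smul_sub, neg_smul,
        neg_smul]
      abel

end GR

end Pool.Agent.GSM
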