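import Mathlib

/-!
# A divisor through a given point

MODULE GSM-GoDown. PLAN. Noether normalisation (`exists_integral_inj_algHom_of_fg`): an injective
integral `f : MvPolynomial (Fin s) k →ₐ[k] B`; `s = n + 1` by the transcendence degree. Replace the
variable `0` by `X 0 - C (a (f (X 0)))` (an automorphism of the polynomial ring) so that
`a (f (X 0)) = 0`; `t = f (X 0)`, `x i = f (X i.succ)`. The prime ideal `P₀ = (X 0)` of the polynomial
ring is contained in the contraction of `ker a`; going down (`Algebra.HasGoingDown`, instance for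
integral extensions of integrally closed domains, Mathlib.RingTheory.IntegralClosure.GoingDown, use
`Ideal.exists_ideal_le_liesOver_of_le`) gives a prime `𝔭 ≤ ker a` of `B` over `P₀`. A polynomial in
`X 1, …, X n` that lies in `(X 0)` is zero (put `X 0 = 0`); `B / 𝔭` is integral over
`k[X] / (X 0) = k[X 1, …, X n]`.
-/

noncomputable section

namespace Pool.Agent.GSM

universe u v

/-- translation of the variables -/
private def godown_tr {k : Type u} [Field k] {m : ℕ} (c : Fin m → k) :
    MvPolynomial (Fin m) k →ₐ[k] MvPolynomial (Fin m) k :=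
  MvPolynomial.aeval fun i => MvPolynomial.X i - MvPolynomial.C (c i)

private theorem godown_tr_X {k : Type u} [Field k] {m : ℕ} (c : Fin m → k) (i : Fin m) :
    godown_tr c (MvPolynomial.X i) = MvPolynomial.X i - MvPolynomial.C (c i) := by
  unfold godown_tr
  rw [MvPolynomial.aeval_X]

private theorem godown_tr_comp {k : Type u} [Field k] {m : ℕ} (c : Fin m → k)
    (P : MvPolynomial (Fin m) k) : godown_tr c (godown_tr (fun i => - c i) P) = P := by
  have h : (godown_tr c).comp (godown_tr (fun i => - c i)) = AlgHom.id k _ := by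
    refine MvPolynomial.algHom_ext fun i => ?_
    rw [AlgHom.comp_apply, godown_tr_X, map_sub, godown_tr_X, AlgHom.id_apply]
    have h2 : godown_tr c (MvPolynomial.C (- c i)) = MvPolynomial.C (- c i) := by
      unfold godown_tr
      rw [MvPolynomial.aeval_C]
      rfl
    rw [h2, map_neg]
    ring
  have h3 := DFunLike.congr_fun h P
  rw [AlgHom.comp_apply, AlgHom.id_apply] at h3
  exact h3

private theorem godown_tr_inj {k : Type u} [Field k] {m : ℕ} (c : Fin m → k) :
    Function.Injective (godown_tr c) := by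
  intro P Q h
  have h1 := godown_tr_comp (fun i => - c i) P
  have h2 := godown_tr_comp (fun i => - c i) Q
  have h3 : (fun i => - (- c i)) = c := by
    funext i
    rw [neg_neg]
  rw [h3] at h1 h2
  rw [← h1, ← h2, h]

private theorem godown_tr_surj {k : Type u} [Field k] {m : ℕ} (c : Fin m → k) :
    Function.Surjective (godown_tr c) := fun P =>
  ⟨godown_tr (fun i => - c i) P, godown_tr_comp c P⟩

/-- setting the first variable equal to zero -/
private def godown_rho (k : Type u) [Field k] (n : ℕ) :
    MvPolynomial (Fin (n + 1)) k →ₐ[k] MvPolynomial (Fin n) k :=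
  MvPolynomial.aeval (Fin.cons 0 MvPolynomial.X : Fin (n + 1) → MvPolynomial (Fin n) k)

private theorem godown_rho_zero (k : Type u) [Field k] (n : ℕ) :
    godown_rho k n (MvPolynomial.X 0) = 0 := by
  unfold godown_rho
  rw [MvPolynomial.aeval_X, Fin.cons_zero]

private theorem godown_rho_succ (k : Type u) [Field k] (n : ℕ) (i : Fin n) :
    godown_rho k n (MvPolynomial.X i.succ) = MvPolynomial.X i := by
  unfold godown_rho
  rw [MvPolynomial.aeval_X, Fin.cons_succ]

private theorem godown_rho_rename (k : Type u) [Field k] (n : ℕ) (P : MvPolynomial (Fin n) k) :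
    godown_rho k n (MvPolynomial.rename Fin.succ P) = P := by
  have h : (godown_rho k n).comp (MvPolynomial.rename Fin.succ) = AlgHom.id k _ := by
    refine MvPolynomial.algHom_ext fun i => ?_
    rw [AlgHom.comp_apply, MvPolynomial.rename_X, godown_rho_succ, AlgHom.id_apply]
  have h3 := DFunLike.congr_fun h P
  rw [AlgHom.comp_apply, AlgHom.id_apply] at h3
  exact h3

/-- Noether normalisation with all generators in the kernel of a point -/
private theorem godown_noether {k : Type u} [Field k] {B : Type v} [CommRing B]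
    [IsDomain B] [Algebra k B] [Algebra.FiniteType k B] (a : B →ₐ[k] k) (n : ℕ)
    (h : Algebra.trdeg k B = n + 1) :
    ∃ f : MvPolynomial (Fin (n + 1)) k →ₐ[k] B, Function.Injective f ∧
      (f : MvPolynomial (Fin (n + 1)) k →+* B).IsIntegral ∧
      ∀ i, a (f (MvPolynomial.X i)) = 0 := by
  obtain ⟨s, g, hg, hgi⟩ := exists_integral_inj_algHom_of_fg k B
  have hgi' : (g : MvPolynomial (Fin s) k →+* B).IsIntegral := hgi
  have hae : g = MvPolynomial.aeval fun i => g (MvPolynomial.X i) := by
    refine MvPolynomial.algHom_ext fun i => ?_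
    rw [MvPolynomial.aeval_X]
  have hind : AlgebraicIndependent k fun i => g (MvPolynomial.X i) := by
    rw [algebraicIndependent_iff_injective_aeval, ← hae]
    exact hg
  have hran : Algebra.adjoin k (Set.range fun i => g (MvPolynomial.X i)) = g.range := by
    rw [Algebra.adjoin_range_eq_range_aeval, ← hae]
  have halg : Algebra.IsAlgebraic (Algebra.adjoin k (Set.range fun i => g (MvPolynomial.X i))) B := by
    constructor
    intro b
    have h1 : ∀ P, g P ∈ Algebra.adjoin k (Set.range fun i => g (MvPolynomial.X i)) := by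
      intro P
      rw [hran]
      exact ⟨P, rfl⟩
    have h2 : ((algebraMap (Algebra.adjoin k (Set.range fun i => g (MvPolynomial.X i))) B).comp
        (g.codRestrict _ h1 : MvPolynomial (Fin s) k →+* _)) = (g : MvPolynomial (Fin s) k →+* B) :=
      RingHom.ext fun P => rfl
    have h3 : (algebraMap (Algebra.adjoin k (Set.range fun i => g (MvPolynomial.X i))) B).IsIntegral :=
      RingHom.IsIntegral.tower_top _ _ (by rw [h2]; exact hgi')
    exact (show IsIntegral _ b from h3 b).isAlgebraic
  have hbas : IsTranscendenceBasis k fun i => g (MvPolynomial.X i) :=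
    hind.isTranscendenceBasis_iff_isAlgebraic.2 halg
  have hcard := hbas.lift_cardinalMk_eq_trdeg
  have hs : s = n + 1 := by
    rw [h] at hcard
    simp only [Cardinal.mk_fin, Cardinal.lift_natCast, Cardinal.lift_add, Cardinal.lift_one] at hcard
    exact_mod_cast hcard
  subst hs
  refine ⟨g.comp (godown_tr fun i => a (g (MvPolynomial.X i))), ?_, ?_, ?_⟩
  · intro P Q hPQ
    exact godown_tr_inj _ (hg hPQ)
  · have h4 : ((g.comp (godown_tr fun i => a (g (MvPolynomial.X i))) :
        MvPolynomial (Fin (n + 1)) k →ₐ[k] B) : MvPolynomial (Fin (n + 1)) k →+* B) =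
        (g : MvPolynomial (Fin (n + 1)) k →+* B).comp
          (godown_tr fun i => a (g (MvPolynomial.X i)) :
            MvPolynomial (Fin (n + 1)) k →+* MvPolynomial (Fin (n + 1)) k) := rfl
    rw [h4]
    exact RingHom.IsIntegral.trans _ _
      (RingHom.isIntegral_of_surjective _ (godown_tr_surj _)) hgi'
  · intro i
    rw [AlgHom.comp_apply, godown_tr_X, map_sub, map_sub]
    have h5 : g (MvPolynomial.C (a (g (MvPolynomial.X i)))) =
        algebraMap k B (a (g (MvPolynomial.X i))) := g.commutes _
    rw [h5, AlgHom.commutes, Algebra.algebraMap_self, RingHom.id_apply, sub_self]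

theorem exists_divisor {k : Type u} [Field k] [IsAlgClosed k] {B : Type v} [CommRing B]
    [IsDomain B] [Algebra k B] [Algebra.FiniteType k B] (a : B →ₐ[k] k) (n : ℕ)
    (h : Algebra.trdeg k B = n + 1) :
    ∃ (x : Fin n → B) (t : B) (𝔭 : Ideal B), 𝔭.IsPrime ∧ 𝔭 ≤ RingHom.ker a ∧ t ∈ 𝔭 ∧
      AlgebraicIndependent k (Fin.cons t x : Fin (n + 1) → B) ∧
      (∀ b : B, IsIntegral (Algebra.adjoin k (Set.range (Fin.cons t x : Fin (n + 1) → B))) b) ∧
      (∀ P : MvPolynomial (Fin n) k, MvPolynomial.aeval x P ∈ 𝔭 → P = 0) ∧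
      ((MvPolynomial.aeval (fun i => Ideal.Quotient.mk 𝔭 (x i)) :
        MvPolynomial (Fin n) k →ₐ[k] B ⧸ 𝔭) : MvPolynomial (Fin n) k →+* B ⧸ 𝔭).IsIntegral := by
  obtain ⟨f, hf, hfi, hfa⟩ := godown_noether a n h
  -- the prime ideal downstairs
  have hP0 : (RingHom.ker (godown_rho k n)).IsPrime := RingHom.ker_isPrime _
  -- going down
  obtain ⟨𝔭, hp1, hp2, hp3⟩ : ∃ 𝔭 : Ideal B, 𝔭 ≤ RingHom.ker a ∧ 𝔭.IsPrime ∧
      ∀ P, f P ∈ 𝔭 ↔ godown_rho k n P = 0 := by
    let _ : Algebra (MvPolynomial (Fin (n + 1)) k) B := (f : _ →+* B).toAlgebra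
    have _h : Algebra.IsIntegral (MvPolynomial (Fin (n + 1)) k) B := ⟨fun b => hfi b⟩
    have _h : FaithfulSMul (MvPolynomial (Fin (n + 1)) k) B :=
      (faithfulSMul_iff_algebraMap_injective _ _).2 hf
    have _h : (RingHom.ker a).IsPrime := RingHom.ker_isPrime a
    have hle : RingHom.ker (godown_rho k n) ≤
        (RingHom.ker a).under (MvPolynomial (Fin (n + 1)) k) := by
      intro P hP
      rw [RingHom.mem_ker] at hP
      have h1 : a.comp f = (MvPolynomial.aeval fun _ : Fin n => (0 : k)).comp (godown_rho k n) := by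
        refine MvPolynomial.algHom_ext fun i => ?_
        rw [AlgHom.comp_apply, AlgHom.comp_apply, hfa]
        refine Fin.cases ?_ (fun j => ?_) i
        · rw [godown_rho_zero, map_zero]
        · rw [godown_rho_succ, MvPolynomial.aeval_X]
      have h2 := DFunLike.congr_fun h1 P
      rw [AlgHom.comp_apply, AlgHom.comp_apply, hP, map_zero] at h2
      exact h2
    obtain ⟨𝔭, h3, h4, h5⟩ := Ideal.exists_ideal_le_liesOver_of_le
      (p := RingHom.ker (godown_rho k n))
      (q := (RingHom.ker a).under (MvPolynomial (Fin (n + 1)) k)) (RingHom.ker a) hle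
    refine ⟨𝔭, h3, h4, fun P => ?_⟩
    have h6 := h5.over
    constructor
    · intro h7
      have h8 : P ∈ 𝔭.under (MvPolynomial (Fin (n + 1)) k) := h7
      rw [← h6] at h8
      exact h8
    · intro h7
      have h8 : P ∈ RingHom.ker (godown_rho k n) := h7
      rw [h6] at h8
      exact h8
  have hcons : (Fin.cons (f (MvPolynomial.X 0)) (fun i : Fin n => f (MvPolynomial.X i.succ)) :
      Fin (n + 1) → B) = fun i => f (MvPolynomial.X i) := by
    funext i
    refine Fin.cases ?_ (fun j => ?_) i
    · rw [Fin.cons_zero]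
    · rw [Fin.cons_succ]
  have hae : f = MvPolynomial.aeval fun i => f (MvPolynomial.X i) := by
    refine MvPolynomial.algHom_ext fun i => ?_
    rw [MvPolynomial.aeval_X]
  refine ⟨fun i => f (MvPolynomial.X i.succ), f (MvPolynomial.X 0), 𝔭, hp2, hp1, ?_, ?_, ?_, ?_, ?_⟩
  · rw [hp3, godown_rho_zero]
  · rw [hcons, algebraicIndependent_iff_injective_aeval, ← hae]
    exact hf
  · rw [hcons]
    intro b
    have hran : Algebra.adjoin k (Set.range fun i => f (MvPolynomial.X i)) = f.range := by
      rw [Algebra.adjoin_range_eq_range_aeval, ← hae]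
    have h1 : ∀ P, f P ∈ Algebra.adjoin k (Set.range fun i => f (MvPolynomial.X i)) := by
      intro P
      rw [hran]
      exact ⟨P, rfl⟩
    have h2 : ((algebraMap (Algebra.adjoin k (Set.range fun i => f (MvPolynomial.X i))) B).comp
        (f.codRestrict _ h1 : MvPolynomial (Fin (n + 1)) k →+* _)) =
        (f : MvPolynomial (Fin (n + 1)) k →+* B) := RingHom.ext fun P => rfl
    have h3 : (algebraMap (Algebra.adjoin k (Set.range fun i => f (MvPolynomial.X i))) B).IsIntegral :=
      RingHom.IsIntegral.tower_top _ _ (by rw [h2]; exact hfi)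
    exact h3 b
  · intro P hP
    have h1 : MvPolynomial.aeval (fun i : Fin n => f (MvPolynomial.X i.succ)) P =
        f (MvPolynomial.rename Fin.succ P) := by
      have h2 : (MvPolynomial.aeval fun i : Fin n => f (MvPolynomial.X i.succ)) =
          f.comp (MvPolynomial.rename Fin.succ) := by
        refine MvPolynomial.algHom_ext fun i => ?_
        rw [MvPolynomial.aeval_X, AlgHom.comp_apply, MvPolynomial.rename_X]
      rw [h2, AlgHom.comp_apply]
    rw [h1, hp3, godown_rho_rename] at hP
    exact hP
  · obtain ⟨g, hg⟩ : ∃ g : MvPolynomial (Fin n) k →ₐ[k] B ⧸ 𝔭,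
        g = MvPolynomial.aeval (fun i : Fin n => Ideal.Quotient.mk 𝔭 (f (MvPolynomial.X i.succ))) :=
      ⟨_, rfl⟩
    rw [← hg]
    have h1 : (Ideal.Quotient.mkₐ k 𝔭).comp f = g.comp (godown_rho k n) := by
      refine MvPolynomial.algHom_ext fun i => ?_
      rw [AlgHom.comp_apply, AlgHom.comp_apply]
      refine Fin.cases ?_ (fun j => ?_) i
      · rw [godown_rho_zero, map_zero]
        exact Ideal.Quotient.eq_zero_iff_mem.2 ((hp3 _).2 (godown_rho_zero k n))
      · rw [godown_rho_succ, hg, MvPolynomial.aeval_X]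
        rfl
    have h2 : ((g : MvPolynomial (Fin n) k →+* B ⧸ 𝔭).comp
        (godown_rho k n : MvPolynomial (Fin (n + 1)) k →+* MvPolynomial (Fin n) k)) =
        (Ideal.Quotient.mk 𝔭).comp (f : MvPolynomial (Fin (n + 1)) k →+* B) := by
      refine RingHom.ext fun P => ?_
      exact (DFunLike.congr_fun h1 P).symm
    refine RingHom.IsIntegral.tower_top
      (godown_rho k n : MvPolynomial (Fin (n + 1)) k →+* MvPolynomial (Fin n) k) _ ?_
    rw [h2]
    exact RingHom.IsIntegral.trans _ _ hfi
      (RingHom.isIntegral_of_surjective _ Ideal.Quotient.mk_surjective)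

end Pool.Agent.GSM
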