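import Pool.Agent.GSM.Rat

/-!
# `t` is integral over `k[1/g]` if `g` vanishes at infinity

MODULE GSM-Inf. PLAN. Divide the relation by `g ^ r` and put `h = g⁻¹`:
`1 + ∑ a i h ^ (r - i) = 0`. Multiply by the common denominator `s` (`exists_common_denom`):
`s(t) + ∑ p_i(t) h ^ (r - i) = 0` with `deg p_i < deg s`, `s` monic. So `t` is a root of the monic
polynomial `s + ∑ C (h ^ (r - i)) * p_i` over `Algebra.adjoin k {h}`.
-/

noncomputable section

namespace Pool.Agent.GSM

open Polynomial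

universe u v

variable {k : Type u} [Field k]

private theorem inf_aeval {L : Type v} [Field L] [Algebra k L] [Algebra (RatFunc k) L]
    [IsScalarTower k (RatFunc k) L] (p : k[X]) :
    algebraMap (RatFunc k) L (algebraMap k[X] (RatFunc k) p) =
      aeval (algebraMap (RatFunc k) L RatFunc.X) p := by
  have h1 : algebraMap k[X] (RatFunc k) p = aeval (RatFunc.X : RatFunc k) p := by
    rw [← RatFunc.algebraMap_X, aeval_algebraMap_apply, aeval_X_left_apply]
  rw [h1, ← aeval_algebraMap_apply]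

theorem integral_of_relation {L : Type v} [Field L] [Algebra k L] [Algebra (RatFunc k) L]
    [IsScalarTower k (RatFunc k) L] {r : ℕ} (g : L) (hg : g ≠ 0) (a : Fin r → RatFunc k)
    (ha : ∀ i, a i ∈ degLE k (-1))
    (h : g ^ r + ∑ i : Fin r, algebraMap (RatFunc k) L (a i) * g ^ (i : ℕ) = 0) :
    IsIntegral (Algebra.adjoin k {g⁻¹}) (algebraMap (RatFunc k) L RatFunc.X) := by
  obtain ⟨s, p, hs, hp, hsp⟩ := exists_common_denom a ha
  have hmem : g⁻¹ ∈ Algebra.adjoin k {g⁻¹} := Algebra.subset_adjoin rfl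
  let y : Algebra.adjoin k {g⁻¹} := ⟨g⁻¹, hmem⟩
  let φ : k →+* Algebra.adjoin k {g⁻¹} := algebraMap k _
  have hlt : (∑ i : Fin r, C (y ^ (r - (i : ℕ))) * (p i).map φ).degree < (s.map φ).degree := by
    rw [hs.degree_map]
    refine (degree_sum_le _ _).trans_lt ((Finset.sup_lt_iff ?_).2 fun i _ => ?_)
    · rw [bot_lt_iff_ne_bot, Ne, degree_eq_bot]
      exact hs.ne_zero
    · refine lt_of_le_of_lt (degree_mul_le _ _) (lt_of_le_of_lt ?_ (hp i))
      exact (add_le_add degree_C_le degree_map_le).trans_eq (zero_add _)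
  refine ⟨s.map φ + ∑ i : Fin r, C (y ^ (r - (i : ℕ))) * (p i).map φ,
    (hs.map φ).add_of_left hlt, ?_⟩
  have hφ : (algebraMap (Algebra.adjoin k {g⁻¹}) L).comp φ = algebraMap k L :=
    (IsScalarTower.algebraMap_eq k (Algebra.adjoin k {g⁻¹}) L).symm
  have hev : ∀ q : k[X], eval₂ (algebraMap (Algebra.adjoin k {g⁻¹}) L)
      (algebraMap (RatFunc k) L RatFunc.X) (q.map φ) =
      algebraMap (RatFunc k) L (algebraMap k[X] (RatFunc k) q) := by
    intro q
    rw [eval₂_map, hφ, inf_aeval, aeval_def]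
  have hkey : algebraMap (RatFunc k) L (algebraMap k[X] (RatFunc k) s) * g ^ r +
      ∑ i : Fin r, algebraMap (RatFunc k) L (algebraMap k[X] (RatFunc k) (p i)) * g ^ (i : ℕ) =
      0 := by
    have h1 : algebraMap (RatFunc k) L (algebraMap k[X] (RatFunc k) s) *
        (g ^ r + ∑ i : Fin r, algebraMap (RatFunc k) L (a i) * g ^ (i : ℕ)) = 0 := by
      rw [h, mul_zero]
    rw [mul_add, Finset.mul_sum] at h1
    rw [← h1]
    congr 1
    apply Finset.sum_congr rfl
    intro i _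
    rw [← hsp i, map_mul, mul_assoc]
  rw [eval₂_add, eval₂_finsetSum, hev]
  have h2 : ∀ i : Fin r, eval₂ (algebraMap (Algebra.adjoin k {g⁻¹}) L)
      (algebraMap (RatFunc k) L RatFunc.X) (C (y ^ (r - (i : ℕ))) * (p i).map φ) =
      (algebraMap (RatFunc k) L (algebraMap k[X] (RatFunc k) (p i)) * g ^ (i : ℕ)) *
        (g⁻¹) ^ r := by
    intro i
    rw [eval₂_mul, eval₂_C, hev, map_pow]
    have h3 : algebraMap (Algebra.adjoin k {g⁻¹}) L y = g⁻¹ := rfl
    have h4 : (g⁻¹) ^ r = (g⁻¹) ^ (r - (i : ℕ)) * (g⁻¹) ^ (i : ℕ) := by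
      rw [← pow_add, Nat.sub_add_cancel i.2.le]
    rw [h3, h4]
    have h5 : g ^ (i : ℕ) * (g⁻¹) ^ (i : ℕ) = 1 := by
      rw [← mul_pow, mul_inv_cancel₀ hg, one_pow]
    linear_combination (- (algebraMap (RatFunc k) L (algebraMap k[X] (RatFunc k) (p i))) *
      (g⁻¹) ^ (r - (i : ℕ))) * h5
  rw [Finset.sum_congr rfl fun i _ => h2 i, ← Finset.sum_mul]
  have h6 : g ^ r * (g⁻¹) ^ r = 1 := by
    rw [← mul_pow, mul_inv_cancel₀ hg, one_pow]
  linear_combination (g⁻¹) ^ r * hkey -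
    algebraMap (RatFunc k) L (algebraMap k[X] (RatFunc k) s) * h6

end Pool.Agent.GSM
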