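import Pool.Agent.GSM.ContG

/-!
# Boundaries descend along extensions of algebraically closed fields

MODULE GSM-InjH. PLAN. `bd_descend` with `A = K`, `f = K → Ω` gives a finite set `F ⊆ Ω`; take
`A' = Algebra.adjoin K F ⊆ Ω` (finitely generated). By the Nullstellensatz there is a `K`-algebra
homomorphism `s : A' → K` (`A'` is nontrivial; quotient by a maximal ideal, Zariski's lemma
`finite_of_finite_type_of_isJacobsonRing`, `IsAlgClosed`). `BdOn.base s` and `GG.base_base`, `GG.base_id`.
-/

noncomputable section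

namespace Pool.Agent.GSM

universe u v

/-- a nontrivial finitely generated algebra over an algebraically closed field has a point -/
private theorem exists_point (K : Type u) [Field K] [IsAlgClosed K] (A : Type v) [CommRing A]
    [Nontrivial A] [Algebra K A] [Algebra.FiniteType K A] :
    ∃ s : A →+* K, s.comp (algebraMap K A) = RingHom.id K := by
  obtain ⟨m, hm⟩ := Ideal.exists_maximal A
  letI : Field (A ⧸ m) := Ideal.Quotient.field m
  have h1 : Algebra.FiniteType K (A ⧸ m) :=
    Algebra.FiniteType.of_surjective (Ideal.Quotient.mkₐ K m) (Ideal.Quotient.mkₐ_surjective K m)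
  have h2 : Module.Finite K (A ⧸ m) := finite_of_finite_type_of_isJacobsonRing K (A ⧸ m)
  have hbij : Function.Bijective (algebraMap K (A ⧸ m)) :=
    IsAlgClosed.algebraMap_bijective_of_isIntegral
  refine ⟨((RingEquiv.ofBijective _ hbij).symm : (A ⧸ m) →+* K).comp (Ideal.Quotient.mk m), ?_⟩
  ext c
  have h3 : Ideal.Quotient.mk m (algebraMap K A c) = algebraMap K (A ⧸ m) c := rfl
  simp only [RingHom.comp_apply, RingHom.id_apply, RingHom.coe_coe, h3]
  exact (RingEquiv.ofBijective (algebraMap K (A ⧸ m)) hbij).symm_apply_apply c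

theorem bd_of_isAlgClosed {I σ : Type} [Finite I] [DecidableEq I] [Finite σ] [DecidableEq σ]
    {K : Type u} [Field K] [IsAlgClosed K] {Ω : Type v} [Field Ω] [Algebra K Ω]
    {a : Set I} {b : Set σ} (x : GG I σ K)
    (hx : BdOn a b (GG.base (algebraMap K Ω) x)) : BdOn a b x := by
  obtain ⟨F, hF, h⟩ := bd_descend.{v, u, v} (algebraMap K Ω) x hx
  have hft : Algebra.FiniteType K (Algebra.adjoin K F) :=
    (Subalgebra.fg_iff_finiteType _).mp
      (by rw [← hF.coe_toFinset]; exact Subalgebra.fg_adjoin_finset _)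
  obtain ⟨s, hs⟩ := exists_point K (Algebra.adjoin K F)
  have h1 := h (algebraMap K (Algebra.adjoin K F)) ((Algebra.adjoin K F).val : _ →+* Ω) rfl
    Subtype.val_injective (fun c hc => ⟨⟨c, Algebra.subset_adjoin hc⟩, rfl⟩)
  have h2 := h1.base s
  rw [GG.base_base, hs, GG.base_id] at h2
  exact h2

end Pool.Agent.GSM
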