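import Pool.Agent.GSM.Semi
import Pool.Agent.GSM.GR

/-!
# The rational Grothendieck ring of tuples

The homomorphisms `map`, `pull` (ring homomorphisms) and `corr` (additive).
-/

noncomputable section

namespace Pool.Agent.GSM

open Matrix Kronecker

universe u v w

private theorem kk_ext {ι σ : Type} [Fintype ι] [DecidableEq ι] {R : Type u} [CommRing R]
    {A B : Tup ι σ R} (h : ∀ s i j, A.mat s i j = B.mat s i j) : A = B := by
  apply Tup.ext
  funext s
  ext i j
  exact h s i j

private theorem kk_map_triv {ι σ : Type} [Fintype ι] [DecidableEq ι] {R : Type u} {R' : Type v}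
    [CommRing R] [CommRing R'] (f : R →+* R') :
    (Tup.triv ι σ R).map f = Tup.triv ι σ R' := by
  apply Tup.ext
  funext s
  exact map_one f.mapMatrix

private theorem kk_map_mul {ι κ σ : Type} [Fintype ι] [DecidableEq ι] [Fintype κ]
    [DecidableEq κ] {R : Type u} {R' : Type v} [CommRing R] [CommRing R'] (f : R →+* R')
    (A : Tup ι σ R) (B : Tup κ σ R) : (A.mul B).map f = (A.map f).mul (B.map f) := by
  apply kk_ext
  rintro s ⟨i, i'⟩ ⟨j, j'⟩
  exact map_mul f _ _

private theorem kk_map_add {ι κ σ : Type} [Fintype ι] [DecidableEq ι] [Fintype κ]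
    [DecidableEq κ] {R : Type u} {R' : Type v} [CommRing R] [CommRing R'] (f : R →+* R')
    (A : Tup ι σ R) (B : Tup κ σ R) : (A.add B).map f = (A.map f).add (B.map f) := by
  apply kk_ext
  rintro s (i | i) (j | j)
  · rfl
  · exact map_zero f
  · exact map_zero f
  · rfl

private theorem kk_pull_triv {ι σ τ : Type} [Fintype ι] [DecidableEq ι] {R : Type u}
    [CommRing R] (p : τ → Option σ) : (Tup.triv ι σ R).pull p = Tup.triv ι τ R := by
  apply Tup.ext
  funext s
  change (p s).elim 1 (Tup.triv ι σ R).mat = 1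
  cases p s <;> rfl

private theorem kk_pull_mul {ι κ σ τ : Type} [Fintype ι] [DecidableEq ι] [Fintype κ]
    [DecidableEq κ] {R : Type u} [CommRing R] (p : τ → Option σ)
    (A : Tup ι σ R) (B : Tup κ σ R) : (A.mul B).pull p = (A.pull p).mul (B.pull p) := by
  apply Tup.ext
  funext s
  change (p s).elim 1 (A.mul B).mat = (p s).elim 1 A.mat ⊗ₖ (p s).elim 1 B.mat
  cases p s with
  | none => exact (Matrix.one_kronecker_one).symm
  | some t => rfl

private theorem kk_pull_add {ι κ σ τ : Type} [Fintype ι] [DecidableEq ι] [Fintype κ]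
    [DecidableEq κ] {R : Type u} [CommRing R] (p : τ → Option σ)
    (A : Tup ι σ R) (B : Tup κ σ R) : (A.add B).pull p = (A.pull p).add (B.pull p) := by
  apply Tup.ext
  funext s
  change (p s).elim 1 (A.add B).mat =
    Matrix.fromBlocks ((p s).elim 1 A.mat) 0 0 ((p s).elim 1 B.mat)
  cases p s with
  | none => exact (Matrix.fromBlocks_one).symm
  | some t => rfl

private theorem kk_corr_zero {δ σ : Type} [Fintype δ] [DecidableEq δ] {R : Type u} {R' : Type v}
    [CommRing R] [CommRing R'] (Λ : R →+* Matrix δ δ R') :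
    ((Tup.triv (Fin 0) σ R).corr Λ).Iso (Tup.triv (Fin 0) σ R') :=
  Tup.iso_of_equiv (Equiv.equivOfIsEmpty _ _) fun _ i _ => i.1.elim0

private theorem kk_corr_add {ι κ δ σ : Type} [Fintype ι] [DecidableEq ι] [Fintype κ]
    [DecidableEq κ] [Fintype δ] [DecidableEq δ] {R : Type u} {R' : Type v} [CommRing R]
    [CommRing R'] (Λ : R →+* Matrix δ δ R') (A : Tup ι σ R) (B : Tup κ σ R) :
    ((A.add B).corr Λ).Iso ((A.corr Λ).add (B.corr Λ)) := by
  refine Tup.iso_of_equiv (Equiv.sumProdDistrib ι κ δ) ?_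
  rintro s ⟨i | i, a⟩ ⟨j | j, b⟩
  · rfl
  · change Λ 0 a b = 0
    rw [map_zero]
    rfl
  · change Λ 0 a b = 0
    rw [map_zero]
    rfl
  · rfl

namespace TupQ

variable {δ σ τ : Type} [Fintype δ] [DecidableEq δ]
variable {R : Type u} {R' : Type v} [CommRing R] [CommRing R']

/-- Base change. -/
def map (f : R →+* R') : TupQ σ R →+* TupQ σ R' where
  toFun := mapQ f
  map_one' := by rw [← cls_one, mapQ_cls, kk_map_triv, cls_one]
  map_mul' := by
    intro x y
    obtain ⟨r, A, rfl⟩ := cls_surj x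
    obtain ⟨s, B, rfl⟩ := cls_surj y
    rw [← cls_mul, mapQ_cls, mapQ_cls, mapQ_cls, kk_map_mul, cls_mul]
  map_zero' := by rw [← cls_zero, mapQ_cls, kk_map_triv, cls_zero]
  map_add' := by
    intro x y
    obtain ⟨r, A, rfl⟩ := cls_surj x
    obtain ⟨s, B, rfl⟩ := cls_surj y
    rw [← cls_add, mapQ_cls, mapQ_cls, mapQ_cls, kk_map_add, cls_add]

/-- Change of the index set. -/
def pull (p : τ → Option σ) : TupQ σ R →+* TupQ τ R where
  toFun := pullQ p
  map_one' := by rw [← cls_one, pullQ_cls, kk_pull_triv, cls_one]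
  map_mul' := by
    intro x y
    obtain ⟨r, A, rfl⟩ := cls_surj x
    obtain ⟨s, B, rfl⟩ := cls_surj y
    rw [← cls_mul, pullQ_cls, pullQ_cls, pullQ_cls, kk_pull_mul, cls_mul]
  map_zero' := by rw [← cls_zero, pullQ_cls, kk_pull_triv, cls_zero]
  map_add' := by
    intro x y
    obtain ⟨r, A, rfl⟩ := cls_surj x
    obtain ⟨s, B, rfl⟩ := cls_surj y
    rw [← cls_add, pullQ_cls, pullQ_cls, pullQ_cls, kk_pull_add, cls_add]

/-- Replace entries by blocks. -/
def corr (Λ : R →+* Matrix δ δ R') : TupQ σ R →+ TupQ σ R' where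
  toFun := corrQ Λ
  map_zero' := by rw [← cls_zero, corrQ_cls, ← cls_zero]; exact cls_eq_iff.2 (kk_corr_zero Λ)
  map_add' := by
    intro x y
    obtain ⟨r, A, rfl⟩ := cls_surj x
    obtain ⟨s, B, rfl⟩ := cls_surj y
    rw [← cls_add, corrQ_cls, corrQ_cls, corrQ_cls, ← cls_add]
    exact cls_eq_iff.2 (kk_corr_add Λ A B)

end TupQ

/-- The rational Grothendieck ring (for direct sums) of free modules with commuting
automorphisms indexed by `σ`. -/
abbrev KK (σ : Type) (R : Type u) [CommRing R] : Type u := GR (TupQ σ R)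

namespace KK

variable {ι κ δ ε σ τ : Type} [Fintype ι] [DecidableEq ι] [Fintype κ] [DecidableEq κ]
  [Fintype δ] [DecidableEq δ] [Fintype ε] [DecidableEq ε]
variable {R : Type u} {R' : Type v} [CommRing R] [CommRing R']

/-- The class of a tuple. -/
def mk (A : Tup ι σ R) : KK σ R := GR.of (cls A)

/-- Base change. -/
def map (f : R →+* R') : KK σ R →ₐ[ℚ] KK σ R' :=
  GR.lift ((GR.of : TupQ σ R' →+* KK σ R').comp (TupQ.map f))

/-- Change of the index set. -/
def pull (p : τ → Option σ) : KK σ R →ₐ[ℚ] KK τ R :=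
  GR.lift ((GR.of : TupQ τ R →+* KK τ R).comp (TupQ.pull p))

/-- Replace entries by blocks. -/
def corr (Λ : R →+* Matrix δ δ R') : KK σ R →ₗ[ℚ] KK σ R' :=
  GR.liftAdd (((GR.of : TupQ σ R' →+* KK σ R') : TupQ σ R' →+ KK σ R').comp (TupQ.corr Λ))

theorem map_mk (f : R →+* R') (A : Tup ι σ R) : map f (mk A) = mk (A.map f) := by
  unfold map mk
  rw [GR.lift_of]
  exact congrArg GR.of (TupQ.mapQ_cls f A)

theorem pull_mk (p : τ → Option σ) (A : Tup ι σ R) : pull p (mk A) = mk (A.pull p) := by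
  unfold pull mk
  rw [GR.lift_of]
  exact congrArg GR.of (TupQ.pullQ_cls p A)

theorem corr_mk (Λ : R →+* Matrix δ δ R') (A : Tup ι σ R) : corr Λ (mk A) = mk (A.corr Λ) := by
  unfold corr mk
  rw [GR.liftAdd_of]
  exact congrArg GR.of (TupQ.corrQ_cls Λ A)

theorem mk_add (A : Tup ι σ R) (B : Tup κ σ R) : mk (A.add B) = mk A + mk B := by
  unfold mk
  rw [TupQ.cls_add, map_add]

theorem mk_mul (A : Tup ι σ R) (B : Tup κ σ R) : mk (A.mul B) = mk A * mk B := by
  unfold mk
  rw [TupQ.cls_mul, map_mul]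

theorem mk_eq_of_iso {A : Tup ι σ R} {B : Tup κ σ R} (h : A.Iso B) : mk A = mk B :=
  congrArg GR.of (cls_eq_iff.2 h)

/-- Linear maps on `KK σ R` are determined by their values on tuples. -/
theorem lin_ext {V : Type w} [AddCommGroup V] [Module ℚ V] {f g : KK σ R →ₗ[ℚ] V}
    (h : ∀ (r : ℕ) (A : Tup (Fin r) σ R), f (mk A) = g (mk A)) : f = g := by
  refine GR.lin_ext fun t => ?_
  obtain ⟨r, A, rfl⟩ := cls_surj t
  exact h r A

end KK

end Pool.Agent.GSM
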