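import Pool.Agent.GSM.KK

/-!
# Block diagonal, conjugate and scalar block homomorphisms

MODULE GSM-KKCorr. PLAN. `KK.lin_ext` reduces to tuples (`corr_mk`, `map_mk`); then
`mk_eq_of_iso`, `mk_add`. For `corr_conj` the isomorphism is `fun (i, a) (j, b) =>
if i = j then P a b else 0` (that is `1 ⊗ₖ P`), for `corr_fromBlocks` it is `iso_of_equiv` with
`Equiv.prodSumDistrib`; `corr_unique`: `Equiv.prodUnique`; `corr_empty`: `iso_of_equiv` with the
zero tuple; `corr_diagonal`: induction on the cardinality of `δ` (transport to `Fin n` by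
`corr_conj` with a permutation matrix, or treat directly `mk (A.corr Λ) = card δ • mk (A.map f)`
through `iso_of_equiv` to `triv δ`-tensor products: `A.corr Λ` is `(A.map f).mul (triv δ σ R')`,
and `mk (triv δ σ R') = card δ` by induction on the cardinality).
-/

noncomputable section

namespace Pool.Agent.GSM

open Matrix Kronecker

universe u v w u'

namespace KK

variable {ι κ δ ε σ τ υ : Type} [Fintype ι] [DecidableEq ι] [Fintype κ] [DecidableEq κ]
  [Fintype δ] [DecidableEq δ] [Fintype ε] [DecidableEq ε]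
variable {R : Type u} {R' : Type v} {R'' : Type w} [CommRing R] [CommRing R'] [CommRing R'']

private theorem kkcorr_entry (Λ : R →+* Matrix δ δ R') (A : Tup ι σ R) (s : σ) (i j : ι)
    (a b : δ) : (A.corr Λ).mat s (i, a) (j, b) = Λ (A.mat s i j) a b := rfl

private theorem kkcorr_conj_iso (Λ : R →+* Matrix δ δ R') (Λ' : R →+* Matrix ε ε R')
    (P : Matrix δ ε R') (Q : Matrix ε δ R') (h1 : P * Q = 1) (h2 : Q * P = 1)
    (h : ∀ s, Λ s * P = P * Λ' s) (A : Tup ι σ R) : (A.corr Λ).Iso (A.corr Λ') := by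
  refine ⟨(1 : Matrix ι ι R') ⊗ₖ P, (1 : Matrix ι ι R') ⊗ₖ Q, ?_, ?_, fun s => ?_⟩
  · rw [← Matrix.mul_kronecker_mul, Matrix.one_mul, h1, Matrix.one_kronecker_one]
  · rw [← Matrix.mul_kronecker_mul, Matrix.one_mul, h2, Matrix.one_kronecker_one]
  · ext ⟨i, a⟩ ⟨k, c⟩
    rw [Matrix.mul_apply, Matrix.mul_apply, Fintype.sum_prod_type, Fintype.sum_prod_type]
    have e1 : ∀ j : ι, (∑ b : δ, (A.corr Λ).mat s (i, a) (j, b) *
        ((1 : Matrix ι ι R') ⊗ₖ P) (j, b) (k, c)) =
        if j = k then (Λ (A.mat s i k) * P) a c else 0 := by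
      intro j
      by_cases hj : j = k
      · subst hj
        rw [if_pos rfl, Matrix.mul_apply]
        refine Finset.sum_congr rfl fun b _ => ?_
        rw [kkcorr_entry, Matrix.kroneckerMap_apply, Matrix.one_apply_eq, one_mul]
      · rw [if_neg hj]
        refine Finset.sum_eq_zero fun b _ => ?_
        rw [Matrix.kroneckerMap_apply, Matrix.one_apply_ne hj, zero_mul, mul_zero]
    have e2 : ∀ j : ι, (∑ b : ε, ((1 : Matrix ι ι R') ⊗ₖ P) (i, a) (j, b) *
        (A.corr Λ').mat s (j, b) (k, c)) =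
        if i = j then (P * Λ' (A.mat s i k)) a c else 0 := by
      intro j
      by_cases hj : i = j
      · subst hj
        rw [if_pos rfl, Matrix.mul_apply]
        refine Finset.sum_congr rfl fun b _ => ?_
        rw [kkcorr_entry, Matrix.kroneckerMap_apply, Matrix.one_apply_eq, one_mul]
      · rw [if_neg hj]
        refine Finset.sum_eq_zero fun b _ => ?_
        rw [Matrix.kroneckerMap_apply, Matrix.one_apply_ne hj, zero_mul, zero_mul]
    rw [Finset.sum_congr rfl fun j _ => e1 j, Finset.sum_congr rfl fun j _ => e2 j,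
      Finset.sum_ite_eq', Finset.sum_ite_eq, if_pos (Finset.mem_univ _),
      if_pos (Finset.mem_univ _), h]

/-- Conjugate block homomorphisms give the same `corr`. -/
theorem corr_conj (Λ : R →+* Matrix δ δ R') (Λ' : R →+* Matrix ε ε R')
    (P : Matrix δ ε R') (Q : Matrix ε δ R') (h1 : P * Q = 1) (h2 : Q * P = 1)
    (h : ∀ s, Λ s * P = P * Λ' s) (x : KK σ R) : corr Λ x = corr Λ' x := by
  have e : (corr Λ : KK σ R →ₗ[ℚ] KK σ R') = corr Λ' := by
    refine lin_ext fun r A => ?_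
    rw [corr_mk, corr_mk]
    exact mk_eq_of_iso (kkcorr_conj_iso Λ Λ' P Q h1 h2 h A)
  rw [e]

/-- Block diagonal homomorphisms. -/
theorem corr_fromBlocks (Λ : R →+* Matrix (δ ⊕ ε) (δ ⊕ ε) R') (Λ₁ : R →+* Matrix δ δ R')
    (Λ₂ : R →+* Matrix ε ε R') (h : ∀ s, Λ s = Matrix.fromBlocks (Λ₁ s) 0 0 (Λ₂ s))
    (x : KK σ R) : corr Λ x = corr Λ₁ x + corr Λ₂ x := by
  have e : (corr Λ : KK σ R →ₗ[ℚ] KK σ R') = corr Λ₁ + corr Λ₂ := by
    refine lin_ext fun r A => ?_
    rw [LinearMap.add_apply, corr_mk, corr_mk, corr_mk, ← mk_add]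
    refine mk_eq_of_iso (Tup.iso_of_equiv (Equiv.prodSumDistrib (Fin r) δ ε) ?_)
    rintro s ⟨i, a | a⟩ ⟨j, b | b⟩ <;> rw [kkcorr_entry, h] <;> rfl
  rw [e, LinearMap.add_apply]

/-- One dimensional blocks. -/
theorem corr_unique [Unique δ] (Λ : R →+* Matrix δ δ R') (f : R →+* R')
    (h : ∀ s, Λ s default default = f s) (x : KK σ R) : corr Λ x = map f x := by
  have e : (corr Λ : KK σ R →ₗ[ℚ] KK σ R') = (map f).toLinearMap := by
    refine lin_ext fun r A => ?_
    rw [AlgHom.toLinearMap_apply, corr_mk, map_mk]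
    refine mk_eq_of_iso (Tup.iso_of_equiv (Equiv.prodUnique (Fin r) δ) ?_)
    rintro s ⟨i, a⟩ ⟨j, b⟩
    rw [kkcorr_entry, Subsingleton.elim a default, Subsingleton.elim b default, h]
    rfl
  rw [e, AlgHom.toLinearMap_apply]

private theorem kkcorr_mk_zero : mk (Tup.triv (Fin 0) σ R) = 0 := by
  unfold mk
  rw [TupQ.cls_zero, map_zero]

/-- Empty blocks. -/
theorem corr_empty [IsEmpty δ] (Λ : R →+* Matrix δ δ R') (x : KK σ R) : corr Λ x = 0 := by
  have e : (corr Λ : KK σ R →ₗ[ℚ] KK σ R') = 0 := by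
    refine lin_ext fun r A => ?_
    rw [corr_mk, LinearMap.zero_apply, ← kkcorr_mk_zero]
    exact mk_eq_of_iso (Tup.iso_of_equiv (Equiv.equivOfIsEmpty _ _) fun _ i _ => isEmptyElim i.2)
  rw [e, LinearMap.zero_apply]

private theorem kkcorr_triv_iso (e : ι ≃ κ) :
    (Tup.triv ι σ R).Iso (Tup.triv κ σ R) := by
  refine Tup.iso_of_equiv e fun s i j => ?_
  change (1 : Matrix ι ι R) i j = (1 : Matrix κ κ R) (e i) (e j)
  rw [Matrix.one_apply, Matrix.one_apply]
  by_cases hij : i = j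
  · rw [if_pos hij, if_pos (congrArg e hij)]
  · rw [if_neg hij, if_neg fun h => hij (e.injective h)]

private theorem kkcorr_mk_triv_fin (n : ℕ) : mk (Tup.triv (Fin n) σ R) = (n : KK σ R) := by
  induction n with
  | zero => rw [kkcorr_mk_zero, Nat.cast_zero]
  | succ n ih =>
    have e : Fin (n + 1) ≃ Fin n ⊕ Unit := Fintype.equivOfCardEq (by simp)
    have h1 : (Tup.triv (Fin n ⊕ Unit) σ R) = (Tup.triv (Fin n) σ R).add (Tup.triv Unit σ R) := by
      apply Tup.ext
      funext s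
      exact (Matrix.fromBlocks_one).symm
    have h2 : mk (Tup.triv Unit σ R) = (1 : KK σ R) := by
      unfold mk
      rw [TupQ.cls_one, map_one]
    rw [mk_eq_of_iso (kkcorr_triv_iso (σ := σ) (R := R) e), h1, mk_add, ih, h2, Nat.cast_succ]

private theorem kkcorr_mk_triv : mk (Tup.triv ι σ R) = (Fintype.card ι : KK σ R) := by
  rw [mk_eq_of_iso (kkcorr_triv_iso (σ := σ) (R := R) (Fintype.equivFin ι)), kkcorr_mk_triv_fin]

/-- Scalar blocks (induction on the size, or directly: `diagonal` is a sum of 1-dimensional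
blocks; use `corr_conj` with `finSuccEquiv`-type permutations, `corr_fromBlocks`, `corr_unique`). -/
theorem corr_diagonal (Λ : R →+* Matrix δ δ R') (f : R →+* R')
    (h : ∀ s, Λ s = Matrix.diagonal fun _ => f s) (x : KK σ R) :
    corr Λ x = (Fintype.card δ : ℚ) • map f x := by
  have e : (corr Λ : KK σ R →ₗ[ℚ] KK σ R') = (Fintype.card δ : ℚ) • (map f).toLinearMap := by
    refine lin_ext fun r A => ?_
    rw [LinearMap.smul_apply, AlgHom.toLinearMap_apply, corr_mk, map_mk]
    have h1 : (A.corr Λ).Iso ((A.map f).mul (Tup.triv δ σ R')) := by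
      refine Tup.iso_of_equiv (Equiv.refl _) ?_
      rintro s ⟨i, a⟩ ⟨j, b⟩
      rw [kkcorr_entry, h]
      change _ = f (A.mat s i j) * (1 : Matrix δ δ R') a b
      rw [Matrix.diagonal_apply, Matrix.one_apply, mul_ite, mul_one, mul_zero]
    rw [mk_eq_of_iso h1, mk_mul, kkcorr_mk_triv, Nat.cast_smul_eq_nsmul, nsmul_eq_mul, mul_comm]
  rw [e, LinearMap.smul_apply, AlgHom.toLinearMap_apply]

end KK

end Pool.Agent.GSM
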