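import Pool.Agent.GSM.KK

/-!
# Identities between `map`, `pull` and `corr`

Both sides are linear; on tuples the identities are equalities of tuples.
-/

noncomputable section

namespace Pool.Agent.GSM

open Matrix Kronecker

universe u v w u'

namespace KK

variable {ι κ δ ε σ τ υ : Type} [Fintype ι] [DecidableEq ι] [Fintype κ] [DecidableEq κ]
  [Fintype δ] [DecidableEq δ] [Fintype ε] [DecidableEq ε]
variable {R : Type u} {R' : Type v} {R'' : Type w} [CommRing R] [CommRing R'] [CommRing R'']

private theorem kkmap_pull_pull (q : υ → Option τ) (p : τ → Option σ) (A : Tup ι σ R) :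
    (A.pull p).pull q = A.pull (fun t => (q t).bind p) := by
  apply Tup.ext
  funext t
  show (q t).elim 1 (fun s => (p s).elim 1 A.mat) = ((q t).bind p).elim 1 A.mat
  cases q t <;> rfl

private theorem kkmap_map_pull (f : R →+* R') (p : τ → Option σ) (A : Tup ι σ R) :
    (A.pull p).map f = (A.map f).pull p := by
  apply Tup.ext
  funext t
  show f.mapMatrix ((p t).elim 1 A.mat) = (p t).elim 1 (fun s => f.mapMatrix (A.mat s))
  cases p t
  · exact map_one _
  · rfl

private theorem kkmap_corr_pull (Λ : R →+* Matrix δ δ R') (p : τ → Option σ) (A : Tup ι σ R) :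
    (A.pull p).corr Λ = (A.corr Λ).pull p := by
  apply Tup.ext
  funext t
  show Tup.blockHom Λ ((p t).elim 1 A.mat) = (p t).elim 1 (fun s => Tup.blockHom Λ (A.mat s))
  cases p t
  · exact map_one _
  · rfl

theorem map_map (g : R' →+* R'') (f : R →+* R') (x : KK σ R) :
    map g (map f x) = map (g.comp f) x := by
  have h : (map g).toLinearMap ∘ₗ (map f).toLinearMap = (map (g.comp f) : KK σ R →ₐ[ℚ] KK σ R'').toLinearMap :=
    lin_ext fun r A => by
      simp only [LinearMap.comp_apply, AlgHom.toLinearMap_apply, map_mk]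
      rfl
  exact LinearMap.congr_fun h x

theorem map_id (x : KK σ R) : map (RingHom.id R) x = x := by
  have h : (map (RingHom.id R) : KK σ R →ₐ[ℚ] KK σ R).toLinearMap = LinearMap.id :=
    lin_ext fun r A => by
      simp only [LinearMap.comp_apply, AlgHom.toLinearMap_apply, map_mk, LinearMap.id_apply]
      rfl
  exact LinearMap.congr_fun h x

theorem pull_pull (q : υ → Option τ) (p : τ → Option σ) (x : KK σ R) :
    pull q (pull p x) = pull (fun t => (q t).bind p) x := by
  have h : (pull q).toLinearMap ∘ₗ (pull p).toLinearMap = (pull (fun t => (q t).bind p) : KK σ R →ₐ[ℚ] KK υ R).toLinearMap :=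
    lin_ext fun r A => by
      simp only [LinearMap.comp_apply, AlgHom.toLinearMap_apply, pull_mk]
      rw [kkmap_pull_pull]
  exact LinearMap.congr_fun h x

theorem pull_some (x : KK σ R) : pull (fun s : σ => some s) x = x := by
  have h : (pull (fun s : σ => some s) : KK σ R →ₐ[ℚ] KK σ R).toLinearMap = LinearMap.id :=
    lin_ext fun r A => by
      simp only [LinearMap.comp_apply, AlgHom.toLinearMap_apply, pull_mk, LinearMap.id_apply]
      rfl
  exact LinearMap.congr_fun h x

theorem map_pull (f : R →+* R') (p : τ → Option σ) (x : KK σ R) :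
    map f (pull p x) = pull p (map f x) := by
  have h : (map f).toLinearMap ∘ₗ (pull p).toLinearMap = (pull p).toLinearMap ∘ₗ (map f : KK σ R →ₐ[ℚ] KK σ R').toLinearMap :=
    lin_ext fun r A => by
      simp only [LinearMap.comp_apply, AlgHom.toLinearMap_apply, pull_mk, map_mk]
      rw [kkmap_map_pull]
  exact LinearMap.congr_fun h x

theorem corr_pull (Λ : R →+* Matrix δ δ R') (p : τ → Option σ) (x : KK σ R) :
    corr Λ (pull p x) = pull p (corr Λ x) := by
  have h : (corr Λ) ∘ₗ (pull p).toLinearMap = (pull p).toLinearMap ∘ₗ (corr Λ : KK σ R →ₗ[ℚ] KK σ R') :=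
    lin_ext fun r A => by
      simp only [LinearMap.comp_apply, AlgHom.toLinearMap_apply, pull_mk, corr_mk]
      rw [kkmap_corr_pull]
  exact LinearMap.congr_fun h x

theorem map_corr (f : R' →+* R'') (Λ : R →+* Matrix δ δ R') (x : KK σ R) :
    map f (corr Λ x) = corr (f.mapMatrix.comp Λ) x := by
  have h : (map f).toLinearMap ∘ₗ (corr Λ) = (corr (f.mapMatrix.comp Λ) : KK σ R →ₗ[ℚ] KK σ R'') :=
    lin_ext fun r A => by
      simp only [LinearMap.comp_apply, AlgHom.toLinearMap_apply, map_mk, corr_mk]
      rfl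
  exact LinearMap.congr_fun h x

theorem corr_map (Λ : R' →+* Matrix δ δ R'') (g : R →+* R') (x : KK σ R) :
    corr Λ (map g x) = corr (Λ.comp g) x := by
  have h : (corr Λ) ∘ₗ (map g).toLinearMap = (corr (Λ.comp g) : KK σ R →ₗ[ℚ] KK σ R'') :=
    lin_ext fun r A => by
      simp only [LinearMap.comp_apply, AlgHom.toLinearMap_apply, map_mk, corr_mk]
      rfl
  exact LinearMap.congr_fun h x

end KK

end Pool.Agent.GSM
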