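import Pool.Agent.GSM.Neg
import Pool.Agent.GSM.Inf

/-!
# A space of functions vanishing at infinity

MODULE GSM-Lat. PLAN. Choose a basis `b` of `L` over `k(t)` with `b j` integral over `k[t]`
(`exists_integral_multiples` or `FiniteDimensional.exists_is_basis_integral`), and `m` with
`b.repr (b l * b j) i ∈ degLE m` for all `i, j, l`. Put
`J = {g | ∀ i, b.repr g i ∈ degLE (-m-1)}`. Then `b.repr (g * b j) i ∈ degLE (-1)` for `g ∈ J`, so
`exists_relation`, `integral_of_relation` apply. `W` = the `k`-span of the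
`X^{-(j+1)} b i`, `j < m`; the decomposition is `exists_decomp` in every coordinate.
-/

noncomputable section

namespace Pool.Agent.GSM

open Polynomial

universe u v

variable {k : Type u} [Field k]

/-- The space of elements whose coordinates have degree at most `e`. -/
private def latJ {L : Type v} [Field L] [Algebra k L] [Algebra (RatFunc k) L]
    [IsScalarTower k (RatFunc k) L] {r : ℕ} (b : Module.Basis (Fin r) (RatFunc k) L) (e : ℤ) :
    Submodule k L :=
  ⨅ i, (degLE k e).comap ((b.coord i).restrictScalars k)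

private theorem mem_latJ {L : Type v} [Field L] [Algebra k L] [Algebra (RatFunc k) L]
    [IsScalarTower k (RatFunc k) L] {r : ℕ} {b : Module.Basis (Fin r) (RatFunc k) L} {e : ℤ}
    {g : L} : g ∈ latJ b e ↔ ∀ i, b.repr g i ∈ degLE k e := by
  rw [latJ, Submodule.mem_iInf]
  rfl

private theorem latJ_relation {L : Type v} [Field L] [Algebra k L] [Algebra (RatFunc k) L]
    [IsScalarTower k (RatFunc k) L] {r : ℕ} (b : Module.Basis (Fin r) (RatFunc k) L) (m : ℕ)
    (hm : ∀ l j i, b.repr (b l * b j) i ∈ degLE k (m : ℤ)) {g : L}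
    (hg : g ∈ latJ b (-(m : ℤ) - 1)) (i j : Fin r) : b.repr (g * b j) i ∈ degLE k (-1) := by
  have h1 : g * b j = ∑ l, b.repr g l • (b l * b j) := by
    conv_lhs => rw [← b.sum_repr g]
    rw [Finset.sum_mul]
    exact Finset.sum_congr rfl fun l _ => smul_mul_assoc _ _ _
  rw [h1, map_sum, Finsupp.finsetSum_apply]
  refine Submodule.sum_mem _ fun l _ => ?_
  rw [map_smul, Finsupp.smul_apply, smul_eq_mul]
  have h2 := degLE_mul (mem_latJ.1 hg l) (hm l j i)
  have h3 : -(m : ℤ) - 1 + m = -1 := by ring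
  rwa [h3] at h2

private theorem exists_bound {L : Type v} [Field L] [Algebra (RatFunc k) L] {r : ℕ}
    (b : Module.Basis (Fin r) (RatFunc k) L) :
    ∃ m : ℕ, ∀ l j i, b.repr (b l * b j) i ∈ degLE k (m : ℤ) := by
  classical
  choose e he using fun q : Fin r × (Fin r × Fin r) =>
    exists_mem_degLE (b.repr (b q.1 * b q.2.1) q.2.2)
  refine ⟨∑ q, e q, fun l j i => ?_⟩
  refine degLE_mono ?_ (he (l, (j, i)))
  exact_mod_cast Finset.single_le_sum (f := e) (fun _ _ => Nat.zero_le _)
    (Finset.mem_univ (l, (j, i)))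

theorem exists_lattice {L : Type v} [Field L] [Algebra k L] [Algebra k[X] L]
    [Algebra (RatFunc k) L] [IsScalarTower k (RatFunc k) L] [IsScalarTower k[X] (RatFunc k) L]
    [FiniteDimensional (RatFunc k) L] :
    ∃ J W : Submodule k L, FiniteDimensional k W ∧
      (∀ x : L, ∃ o : L, IsIntegral k[X] o ∧ ∃ j ∈ J, ∃ w ∈ W, x = o + j + w) ∧
      ∀ g ∈ J, g ≠ 0 → IsIntegral (Algebra.adjoin k {g⁻¹}) (algebraMap (RatFunc k) L RatFunc.X) := by
  classical
  obtain ⟨s, b₀, hb₀⟩ := FiniteDimensional.exists_is_basis_integral k[X] (RatFunc k) L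
  obtain ⟨r, b, hb⟩ : ∃ (r : ℕ) (b : Module.Basis (Fin r) (RatFunc k) L),
      ∀ i, IsIntegral k[X] (b i) := by
    refine ⟨s.card, b₀.reindex s.equivFin, fun i => ?_⟩
    rw [Module.Basis.reindex_apply]
    exact hb₀ _
  obtain ⟨m, hm⟩ := exists_bound b
  let W : Submodule k L := Submodule.span k (Set.range fun q : Fin m × Fin r =>
    ((RatFunc.X : RatFunc k)⁻¹ ^ ((q.1 : ℕ) + 1)) • b q.2)
  refine ⟨latJ b (-(m : ℤ) - 1), W, FiniteDimensional.span_of_finite k (Set.finite_range _),
    fun x => ?_, fun g hg hg0 => ?_⟩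
  · choose P c R hR hf using fun i => exists_decomp m (b.repr x i)
    refine ⟨∑ i, algebraMap k[X] (RatFunc k) (P i) • b i, ?_, ∑ i, R i • b i, ?_,
      ∑ i, (∑ j : Fin m, c i j • (RatFunc.X : RatFunc k)⁻¹ ^ ((j : ℕ) + 1)) • b i, ?_, ?_⟩
    · refine IsIntegral.sum _ fun i _ => ?_
      rw [Algebra.smul_def, ← IsScalarTower.algebraMap_apply]
      exact isIntegral_algebraMap.mul (hb i)
    · rw [mem_latJ]
      intro i
      rw [b.repr_sum_self]
      exact hR i
    · refine Submodule.sum_mem _ fun i _ => ?_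
      rw [Finset.sum_smul]
      refine Submodule.sum_mem _ fun j _ => ?_
      rw [smul_assoc]
      exact Submodule.smul_mem _ _ (Submodule.subset_span ⟨(j, i), rfl⟩)
    · conv_lhs => rw [← b.sum_repr x]
      rw [← Finset.sum_add_distrib, ← Finset.sum_add_distrib]
      refine Finset.sum_congr rfl fun i _ => ?_
      conv_lhs => rw [hf i]
      rw [add_smul, add_smul]
      abel
  · obtain ⟨a, ha, hrel⟩ := exists_relation b g (fun i j => latJ_relation b m hm hg i j)
    exact integral_of_relation g hg0 a ha hrel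

end Pool.Agent.GSM
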