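import Pool.Agent.GSM.Stmt
import Pool.Agent.GSM.Chain
import Pool.Agent.GSM.Desc

/-!
# Assembly
-/

noncomputable section

namespace Pool.Agent.GSM

universe u v

theorem Linked.congr {R : Type u} {K : Type v} [CommRing R] [CommRing K] {p q p' q' : R →+* K}
    {D : ℕ} (h : Linked p q D) (hp : p' = p) (hq : q' = q) : Linked p' q' D := by
  subst hp; subst hq; exact h

/-- Uniform form: products of `N` classes over `R`, corrected by their values at `z`, vanish. -/
theorem main_point {k : Type u} [Field k] [IsAlgClosed k] [CharZero k] {K : Type u} [Field K]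
    [Algebra k K] {R : Type v} [CommRing R] [Algebra k R] [Algebra.FiniteType k R]
    (p : R →ₐ[k] K) :
    ∃ (N : ℕ) (z : R →ₐ[k] k), ∀ (n w : Fin N → ℕ) (x : ∀ j, Z (Fin (n j)) (Fin (w j)) R),
      H.mk (Z.prod fun j => Z.base (p : R →+* K) (x j) -
        Z.base ((algebraMap k K).comp (z : R →+* k)) (x j)) = 0 := by
  obtain ⟨z, N, hN⟩ := exists_linked (k := k) (K := AlgebraicClosure K)
    ((IsScalarTower.toAlgHom k K (AlgebraicClosure K)).comp p)
  refine ⟨N, z, fun n w x => ?_⟩
  rw [H.mk_eq_zero]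
  apply bd_of_algebraic (Ω := AlgebraicClosure K)
  have key := hN (Σ j, Fin (n j)) (Σ j, Fin (w j)) (fun j => {t | t.1 = j}) (fun j => {t | t.1 = j})
    (fun j => emb j (x j : GG (Fin (n j)) (Fin (w j)) R))
    (fun i j hij => by
      rw [Set.disjoint_left]; intro t ht ht'; exact hij (ht.symm.trans ht'))
    (fun i j hij => by
      rw [Set.disjoint_left]; intro t ht ht'; exact hij (ht.symm.trans ht'))
    (fun j => isCubeOn_emb j (x j).2)
  have h1 : (⋃ j, {t : Σ j, Fin (n j) | t.1 = j}) = Set.univ := by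
    ext t; simp
  have h2 : (⋃ j, {t : Σ j, Fin (w j) | t.1 = j}) = Set.univ := by
    ext t; simp
  rw [h1, h2] at key
  have h3 : GG.base (algebraMap K (AlgebraicClosure K))
      ((Z.prod fun j => Z.base (p : R →+* K) (x j) -
        Z.base ((algebraMap k K).comp (z : R →+* k)) (x j) :
          Z (Σ j, Fin (n j)) (Σ j, Fin (w j)) K) : GG (Σ j, Fin (n j)) (Σ j, Fin (w j)) K) =
      ∏ j, (GG.base
          (((IsScalarTower.toAlgHom k K (AlgebraicClosure K)).comp p : R →ₐ[k] AlgebraicClosure K) :
            R →+* AlgebraicClosure K) (emb j (x j : GG (Fin (n j)) (Fin (w j)) R)) -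
        GG.base ((algebraMap k (AlgebraicClosure K)).comp (z : R →+* k))
          (emb j (x j : GG (Fin (n j)) (Fin (w j)) R))) := by
    rw [Z.prod]
    simp only [map_prod]
    refine Finset.prod_congr rfl fun j _ => ?_
    simp only [Submodule.coe_sub, map_sub, Z.base, LinearMap.coe_restrict_apply,
      AlgHom.toLinearMap_apply, emb_base, GG.base_base]
    congr 2
  rw [h3]
  exact key

/-- Every class over `K` is a class over `k` plus a nilpotent class. -/
theorem main_nilpotent {k : Type u} [Field k] [IsAlgClosed k] [CharZero k] {K : Type u} [Field K]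
    [Algebra k K] (n w : ℕ) (x : Z (Fin n) (Fin w) K) :
    ∃ (y : Z (Fin n) (Fin w) k) (N : ℕ),
      H.mk (Z.prod fun _ : Fin N => x - Z.base (algebraMap k K) y) = 0 := by
  obtain ⟨F, hF, hlift⟩ := exists_cube (isCubeOn_univ.2 x.2)
  let R : Subalgebra k K := Algebra.adjoin k F
  have hR : Algebra.FiniteType k R := by
    rw [← Subalgebra.fg_iff_finiteType]
    exact Subalgebra.fg_def.2 ⟨F, hF, rfl⟩
  obtain ⟨y, hy, hyx⟩ := hlift (A := R) (algebraMap R K) Subtype.val_injective
    (fun a ha => ⟨⟨a, Algebra.subset_adjoin ha⟩, rfl⟩)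
  obtain ⟨N, z, hN⟩ := main_point (k := k) (K := K) R.val
  let y' : Z (Fin n) (Fin w) R := ⟨y, isCubeOn_univ.1 hy⟩
  refine ⟨Z.base (z : R →+* k) y', N, ?_⟩
  have := hN (fun _ => n) (fun _ => w) (fun _ => y')
  convert this using 4
  ext1
  simp only [Submodule.coe_sub, Z.base, LinearMap.coe_restrict_apply, AlgHom.toLinearMap_apply,
    GG.base_base, y']
  rw [← hyx]
  rfl

end Pool.Agent.GSM
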