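import Pool.Agent.GSM.Main
import Pool.Agent.GSM.ChainTo
import Pool.Agent.GSM.InjH
import Pool.Agent.GSM.Big

/-!
# Assembly: any two points of a domain are linked
-/

noncomputable section

namespace Pool.Agent.GSM

universe u v

/-- Any two points become linked over a big field. -/
theorem exists_linked_points {k : Type u} [Field k] [IsAlgClosed k] [CharZero k] {K : Type u}
    [Field K] [Algebra k K] {R : Type v} [CommRing R] [IsDomain R] [Algebra k R]
    [Algebra.FiniteType k R] (p q : R →ₐ[k] K) :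
    ∃ (Ω : Type u) (_ : Field Ω) (_ : IsAlgClosed Ω) (_ : Algebra K Ω) (D : ℕ),
      Linked ((algebraMap K Ω).comp (p : R →+* K)) ((algebraMap K Ω).comp (q : R →+* K)) D := by
  obtain ⟨a, ha⟩ := exists_const_point p
  obtain ⟨b, hb⟩ := exists_const_point q
  obtain ⟨Ω, _, _, _, _, _, η, hη⟩ := exists_big (k := k) (K := K) (R := R)
  have hker : RingHom.ker η = ⊥ := (RingHom.injective_iff_ker_eq_bot η).1 hη
  have hkp : RingHom.ker ((IsScalarTower.toAlgHom k K Ω).comp p) ≤ RingHom.ker a := by
    intro r hr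
    refine ha ?_
    rw [RingHom.mem_ker] at hr ⊢
    exact (algebraMap K Ω).injective (by rw [map_zero]; exact hr)
  have hkq : RingHom.ker ((IsScalarTower.toAlgHom k K Ω).comp q) ≤ RingHom.ker b := by
    intro r hr
    refine hb ?_
    rw [RingHom.mem_ker] at hr ⊢
    exact (algebraMap K Ω).injective (by rw [map_zero]; exact hr)
  obtain ⟨D1, h1⟩ := exists_linked_to ((IsScalarTower.toAlgHom k K Ω).comp p) a hkp
  obtain ⟨D2, h2⟩ := exists_linked_to η a (hker ▸ bot_le)
  obtain ⟨D3, h3⟩ := exists_linked_to η b (hker ▸ bot_le)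
  obtain ⟨D4, h4⟩ := exists_linked_to ((IsScalarTower.toAlgHom k K Ω).comp q) b hkq
  refine ⟨Ω, inferInstance, inferInstance, inferInstance, D1 + D2 + D3 + D4, ?_⟩
  exact (((h1.trans h2.symm).trans h3).trans h4.symm).congr rfl rfl

/-- Uniform form: products of `N` differences of the values at two points vanish. -/
theorem main_points {k : Type u} [Field k] [IsAlgClosed k] [CharZero k] {K : Type u} [Field K]
    [Algebra k K] {R : Type v} [CommRing R] [IsDomain R] [Algebra k R] [Algebra.FiniteType k R]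
    (p q : R →ₐ[k] K) :
    ∃ N : ℕ, ∀ (n w : Fin N → ℕ) (x : ∀ j, Z (Fin (n j)) (Fin (w j)) R),
      H.mk (Z.prod fun j => Z.base (p : R →+* K) (x j) - Z.base (q : R →+* K) (x j)) = 0 := by
  obtain ⟨Ω, _, _, _, N, hN⟩ := exists_linked_points
    ((IsScalarTower.toAlgHom k K (AlgebraicClosure K)).comp p)
    ((IsScalarTower.toAlgHom k K (AlgebraicClosure K)).comp q)
  refine ⟨N, fun n w x => ?_⟩
  rw [H.mk_eq_zero]
  apply bd_of_algebraic (Ω := AlgebraicClosure K)
  apply bd_of_isAlgClosed (Ω := Ω)
  have key := hN (Σ j, Fin (n j)) (Σ j, Fin (w j)) (fun j => {t | t.1 = j}) (fun j => {t | t.1 = j})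
    (fun j => emb j (x j : GG (Fin (n j)) (Fin (w j)) R))
    (fun i j hij => by
      rw [Set.disjoint_left]; intro t ht ht'; exact hij (ht.symm.trans ht'))
    (fun i j hij => by
      rw [Set.disjoint_left]; intro t ht ht'; exact hij (ht.symm.trans ht'))
    (fun j => isCubeOn_emb j (x j).2)
  have h1 : (⋃ j, {t : Σ j, Fin (n j) | t.1 = j}) = Set.univ := by
    ext t; simp
  have h2 : (⋃ j, {t : Σ j, Fin (w j) | t.1 = j}) = Set.univ := by
    ext t; simp
  rw [h1, h2] at key
  have h3 : GG.base (algebraMap (AlgebraicClosure K) Ω) (GG.base (algebraMap K (AlgebraicClosure K))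
      ((Z.prod fun j => Z.base (p : R →+* K) (x j) - Z.base (q : R →+* K) (x j) :
          Z (Σ j, Fin (n j)) (Σ j, Fin (w j)) K) : GG (Σ j, Fin (n j)) (Σ j, Fin (w j)) K)) =
      ∏ j, (GG.base ((algebraMap (AlgebraicClosure K) Ω).comp
          (((IsScalarTower.toAlgHom k K (AlgebraicClosure K)).comp p : R →ₐ[k] AlgebraicClosure K) :
            R →+* AlgebraicClosure K)) (emb j (x j : GG (Fin (n j)) (Fin (w j)) R)) -
        GG.base ((algebraMap (AlgebraicClosure K) Ω).comp
          (((IsScalarTower.toAlgHom k K (AlgebraicClosure K)).comp q : R →ₐ[k] AlgebraicClosure K) :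
            R →+* AlgebraicClosure K)) (emb j (x j : GG (Fin (n j)) (Fin (w j)) R))) := by
    rw [Z.prod]
    simp only [map_prod]
    refine Finset.prod_congr rfl fun j _ => ?_
    simp only [Submodule.coe_sub, map_sub, Z.base, LinearMap.coe_restrict_apply,
      AlgHom.toLinearMap_apply, emb_base, GG.base_base]
    congr 2
  rw [h3]
  exact key

end Pool.Agent.GSM
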