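import Pool.Agent.GSM.PlainEq
import Pool.Agent.GSM.Main2

/-!
# The main theorems in terms of the plain definitions
-/

noncomputable section

namespace Pool.Agent.GSM.Plain

universe u v

theorem points {k : Type u} [Field k] [IsAlgClosed k] [CharZero k] {K : Type u} [Field K]
    [Algebra k K] {R : Type v} [CommRing R] [IsDomain R] [Algebra k R] [Algebra.FiniteType k R]
    (p q : R →ₐ[k] K) :
    ∃ N : ℕ, ∀ (n w : Fin N → ℕ) (x : ∀ j, F (Fin (w j)) (MvPolynomial (Fin (n j)) R)),
      (∀ j, IsCube (x j)) →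
        IsBd (prod fun j => emb j (base (p : R →+* K) (x j) - base (q : R →+* K) (x j))) := by
  obtain ⟨N, hN⟩ := main_points p q
  refine ⟨N, fun n w x hx => ?_⟩
  rw [isBd_iff, toKK_prod]
  have h := hN n w fun j => ⟨toKK (x j), isCube_iff.1 (hx j)⟩
  rw [H.mk_eq_zero] at h
  convert h using 1
  refine Finset.prod_congr rfl fun j _ => ?_
  rw [toKK_emb, map_sub, toKK_base, toKK_base]
  rfl

theorem nilpotent {k : Type u} [Field k] [IsAlgClosed k] [CharZero k] {K : Type u} [Field K]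
    [Algebra k K] (n w : ℕ) (x : F (Fin w) (MvPolynomial (Fin n) K)) (hx : IsCube x) :
    ∃ y : F (Fin w) (MvPolynomial (Fin n) k), IsCube y ∧ ∃ N : ℕ,
      IsBd (prod fun j : Fin N => emb j (x - base (algebraMap k K) y)) := by
  obtain ⟨y, N, h⟩ := main_nilpotent (k := k) n w (⟨toKK x, isCube_iff.1 hx⟩ : Z (Fin n) (Fin w) K)
  obtain ⟨y', hy'⟩ := toKK_surjective (y : GG (Fin n) (Fin w) k)
  refine ⟨y', isCube_iff.2 (by rw [hy']; exact y.2), N, ?_⟩
  rw [isBd_iff, toKK_prod]
  rw [H.mk_eq_zero] at h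
  convert h using 1
  refine Finset.prod_congr rfl fun j _ => ?_
  rw [toKK_emb, map_sub, toKK_base, hy']
  rfl

end Pool.Agent.GSM.Plain
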