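import Pool.Agent.GSM.Rat

/-!
# Matrices with entries of negative degree

MODULE GSM-Neg. PLAN. `degLE k 0` is a subring `A` of `RatFunc k` and `degLE k (-1)` is an ideal `m`
of it. A matrix `M` with entries in `m` has `charpoly M ≡ X ^ r` modulo `m` (`Matrix.charpoly_map`
for `A → A / m`, the image of `M` is `0`, `Matrix.charpoly_zero`). Hence all coefficients of
`charpoly M` except the leading one are in `degLE k (-1)`. Cayley-Hamilton
(`Matrix.aeval_self_charpoly`, or `LinearMap`/`Algebra.leftMulMatrix`) gives the relation for `g`.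
-/

noncomputable section

namespace Pool.Agent.GSM

open Polynomial

universe u v

variable {k : Type u} [Field k]

/-- The rational functions of degree `≤ 0` form a subring. -/
def degLEZero (k : Type u) [Field k] : Subring (RatFunc k) where
  carrier := {f | f ∈ degLE k 0}
  zero_mem' := (degLE k 0).zero_mem
  add_mem' := fun ha hb => (degLE k 0).add_mem ha hb
  neg_mem' := fun ha => (degLE k 0).neg_mem ha
  one_mem' := Or.inr (by rw [RatFunc.intDegree_one])
  mul_mem' := fun ha hb => by
    have := degLE_mul ha hb
    simpa using this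

/-- The rational functions of negative degree form an ideal of `degLEZero`. -/
def degLENeg (k : Type u) [Field k] : Ideal (degLEZero k) where
  carrier := {f | (f : RatFunc k) ∈ degLE k (-1)}
  zero_mem' := (degLE k (-1)).zero_mem
  add_mem' := fun ha hb => (degLE k (-1)).add_mem ha hb
  smul_mem' := fun c f hf => by
    have := degLE_mul c.2 hf
    simpa using this

theorem charpoly_coeff_mem {r : ℕ} (M : Matrix (Fin r) (Fin r) (RatFunc k))
    (hM : ∀ i j, M i j ∈ degLE k (-1)) (i : ℕ) (hi : i < r) :
    M.charpoly.coeff i ∈ degLE k (-1) := by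
  let M' : Matrix (Fin r) (Fin r) (degLEZero k) := fun i j =>
    ⟨M i j, degLE_mono (by norm_num) (hM i j)⟩
  have h1 : M = M'.map (degLEZero k).subtype := by
    ext i j
    rfl
  have h2 : M'.map (Ideal.Quotient.mk (degLENeg k)) = 0 := by
    ext i j
    rw [Matrix.map_apply, Matrix.zero_apply]
    exact Ideal.Quotient.eq_zero_iff_mem.2 (hM i j)
  have h3 : (M'.charpoly.map (Ideal.Quotient.mk (degLENeg k))).coeff i = 0 := by
    rw [← Matrix.charpoly_map, h2, Matrix.charpoly_zero, Polynomial.coeff_X_pow, Fintype.card_fin,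
      if_neg (by omega)]
  rw [Polynomial.coeff_map] at h3
  have h4 : M'.charpoly.coeff i ∈ degLENeg k := Ideal.Quotient.eq_zero_iff_mem.1 h3
  rw [h1, Matrix.charpoly_map, Polynomial.coeff_map]
  exact h4

/-- If multiplication by `g` has entries of negative degree, `g` satisfies an equation with lower
coefficients of negative degree. -/
theorem exists_relation {L : Type v} [Field L] [Algebra (RatFunc k) L] {r : ℕ}
    (b : Module.Basis (Fin r) (RatFunc k) L) (g : L)
    (h : ∀ i j, b.repr (g * b j) i ∈ degLE k (-1)) :
    ∃ a : Fin r → RatFunc k, (∀ i, a i ∈ degLE k (-1)) ∧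
      g ^ r + ∑ i : Fin r, algebraMap (RatFunc k) L (a i) * g ^ (i : ℕ) = 0 := by
  set M := Algebra.leftMulMatrix b g with hM
  have hMe : ∀ i j, M i j ∈ degLE k (-1) := by
    intro i j
    rw [hM, Algebra.leftMulMatrix_eq_repr_mul]
    exact h i j
  have haev : aeval g M.charpoly = 0 := by
    apply Algebra.leftMulMatrix_injective b
    rw [map_zero, ← Polynomial.aeval_algHom_apply]
    exact Matrix.aeval_self_charpoly M
  have hdeg : M.charpoly.natDegree = r := by
    rw [Matrix.charpoly_natDegree_eq_dim, Fintype.card_fin]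
  refine ⟨fun i => M.charpoly.coeff i, fun i => charpoly_coeff_mem M hMe i i.2, ?_⟩
  rw [(Matrix.charpoly_monic M).as_sum, hdeg] at haev
  rw [map_add, map_pow, aeval_X, map_sum] at haev
  rw [← haev]
  congr 1
  rw [← Fin.sum_univ_eq_sum_range (fun i => aeval g (C (M.charpoly.coeff i) * X ^ i)) r]
  refine Finset.sum_congr rfl fun i _ => ?_
  rw [map_mul, map_pow, aeval_X, aeval_C]

end Pool.Agent.GSM
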