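import Mathlib

/-!
# Newton: equal power sums

MODULE GSM-Newton. PLAN. By Newton's identities (`MvPolynomial.mul_esymm_eq_sum`, evaluated at `x`)
and induction on `k`, `esymm_k (x) = (D choose k) * x0 ^ k` for `k ≤ D` (the same identities hold for
the constant family `x0`, so both families have the same `esymm`, by strong induction, since
`k` is invertible in a `ℚ`-algebra). Hence `∏ (X - x i) = (X - x0) ^ D`
(`Multiset.prod_X_sub_C_eq_sum_esymm` or `MvPolynomial.prod_C_add_X_eq_sum_esymm`); evaluate at `x i`.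
`newton_ideal`: apply `newton_pow_zero` in the quotient of `MvPolynomial (Option (Fin D)) ℚ` by the
ideal spanned by the finitely many elements `∑ j, X (some j) ^ m - D * X none ^ m`, `1 ≤ m ≤ D`
(`Ideal.mem_span_range_iff_exists_fun`, or `Submodule.mem_span_finset`).
-/

noncomputable section

namespace Pool.Agent.GSM

universe u

theorem newton_esymm {A : Type u} [CommRing A] [Algebra ℚ A] {D : ℕ} (x y : Fin D → A)
    (h : ∀ m, 1 ≤ m → m ≤ D → ∑ i, x i ^ m = ∑ i, y i ^ m) : ∀ k, k ≤ D →
      MvPolynomial.aeval x (MvPolynomial.esymm (Fin D) ℚ k) =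
        MvPolynomial.aeval y (MvPolynomial.esymm (Fin D) ℚ k) := by
  intro k
  induction k using Nat.strong_induction_on with
  | _ k ih =>
    intro hk
    rcases Nat.eq_zero_or_pos k with h0 | hpos
    · subst h0
      rw [MvPolynomial.esymm_zero, map_one, map_one]
    · have e := MvPolynomial.mul_esymm_eq_sum (Fin D) ℚ k
      have e1 := congrArg (MvPolynomial.aeval x) e
      have e2 := congrArg (MvPolynomial.aeval y) e
      have hps : ∀ (z : Fin D → A) (m : ℕ),
          MvPolynomial.aeval z (MvPolynomial.psum (Fin D) ℚ m) = ∑ i, z i ^ m := by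
        intro z m
        rw [MvPolynomial.psum, map_sum]
        simp
      have hs : ∀ z : Fin D → A, (k : A) * MvPolynomial.aeval z (MvPolynomial.esymm (Fin D) ℚ k) =
          (-1) ^ (k + 1) * ∑ a ∈ Finset.HasAntidiagonal.antidiagonal k with a.1 < k,
            (-1) ^ a.1 * MvPolynomial.aeval z (MvPolynomial.esymm (Fin D) ℚ a.1) *
              ∑ i, z i ^ a.2 := by
        intro z
        have e3 := congrArg (MvPolynomial.aeval z) e
        rw [map_mul, map_natCast, map_mul, map_pow, map_neg, map_one, map_sum] at e3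
        rw [e3]
        congr 1
        refine Finset.sum_congr rfl fun a _ => ?_
        rw [map_mul, map_mul, map_pow, map_neg, map_one, hps]
      have hk0 : (k : ℚ) ≠ 0 := by exact_mod_cast hpos.ne'
      have hmul : (k : A) * MvPolynomial.aeval x (MvPolynomial.esymm (Fin D) ℚ k) =
          (k : A) * MvPolynomial.aeval y (MvPolynomial.esymm (Fin D) ℚ k) := by
        rw [hs x, hs y]
        congr 1
        refine Finset.sum_congr rfl fun a ha => ?_
        rw [Finset.mem_filter, Finset.HasAntidiagonal.mem_antidiagonal] at ha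
        rw [ih a.1 ha.2 (by omega), h a.2 (by omega) (by omega)]
      have hinv : algebraMap ℚ A ((k : ℚ)⁻¹) * (k : A) = 1 := by
        rw [← map_natCast (algebraMap ℚ A) k, ← map_mul, inv_mul_cancel₀ hk0, map_one]
      calc MvPolynomial.aeval x (MvPolynomial.esymm (Fin D) ℚ k)
          = algebraMap ℚ A ((k : ℚ)⁻¹) * ((k : A) *
              MvPolynomial.aeval x (MvPolynomial.esymm (Fin D) ℚ k)) := by
            rw [← mul_assoc, hinv, one_mul]
        _ = algebraMap ℚ A ((k : ℚ)⁻¹) * ((k : A) *
              MvPolynomial.aeval y (MvPolynomial.esymm (Fin D) ℚ k)) := by rw [hmul]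
        _ = MvPolynomial.aeval y (MvPolynomial.esymm (Fin D) ℚ k) := by
            rw [← mul_assoc, hinv, one_mul]

theorem newton_prod {A : Type u} [CommRing A] [Algebra ℚ A] {D : ℕ} (x y : Fin D → A)
    (h : ∀ m, 1 ≤ m → m ≤ D → ∑ i, x i ^ m = ∑ i, y i ^ m) (z : A) :
    ∏ i, (z - x i) = ∏ i, (z - y i) := by
  have key : ∀ w : Fin D → A, ∏ i, (z - w i) = ∑ j ∈ Finset.range (D + 1),
      (-1) ^ j * (MvPolynomial.aeval w (MvPolynomial.esymm (Fin D) ℚ j) * z ^ (D - j)) := by
    intro w
    have e := Multiset.prod_X_sub_X_eq_sum_esymm (Finset.univ.val.map w)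
    have e1 := congrArg (Polynomial.eval z) e
    rw [Polynomial.eval_finsetSum] at e1
    have hc : Multiset.card ((Finset.univ : Finset (Fin D)).val.map w) = D := by
      rw [Multiset.card_map]
      exact Finset.card_fin D
    rw [hc] at e1
    have e2 : Polynomial.eval z
        (((Finset.univ : Finset (Fin D)).val.map w).map fun t =>
          (Polynomial.X - Polynomial.C t : Polynomial A)).prod = ∏ i, (z - w i) := by
      rw [Multiset.map_map]
      change Polynomial.eval z (∏ i, (Polynomial.X - Polynomial.C (w i))) = _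
      rw [Polynomial.eval_prod]
      simp
    rw [e2] at e1
    rw [e1]
    refine Finset.sum_congr rfl fun j _ => ?_
    rw [MvPolynomial.aeval_esymm_eq_multiset_esymm]
    simp
  rw [key x, key y]
  refine Finset.sum_congr rfl fun j hj => ?_
  rw [newton_esymm x y h j (by have := Finset.mem_range.1 hj; omega)]

theorem newton_pow_zero {A : Type u} [CommRing A] [Algebra ℚ A] {D : ℕ} (x : Fin D → A) (x0 : A)
    (h : ∀ m, 1 ≤ m → m ≤ D → ∑ i, x i ^ m = D * x0 ^ m) (i : Fin D) : (x i - x0) ^ D = 0 := by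
  have h1 := newton_prod x (fun _ => x0) (by
    intro m hm1 hm2
    rw [h m hm1 hm2, Finset.sum_const, Finset.card_fin, nsmul_eq_mul]) (x i)
  rw [Finset.prod_const, Finset.card_fin] at h1
  rw [← h1]
  exact Finset.prod_eq_zero (Finset.mem_univ i) (sub_self _)

open MvPolynomial in
theorem newton_ideal (D : ℕ) (i : Fin D) : ∃ Q : ℕ → MvPolynomial (Option (Fin D)) ℚ,
    (X (some i) - X none : MvPolynomial (Option (Fin D)) ℚ) ^ D =
      ∑ m ∈ Finset.Icc 1 D, (∑ j, X (some j) ^ m - (D : MvPolynomial (Option (Fin D)) ℚ) *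
        X none ^ m) * Q m := by
  classical
  let v : ℕ → MvPolynomial (Option (Fin D)) ℚ := fun m =>
    ∑ j : Fin D, X (some j) ^ m - (D : MvPolynomial (Option (Fin D)) ℚ) * X none ^ m
  let I : Ideal (MvPolynomial (Option (Fin D)) ℚ) := Ideal.span (v '' (Finset.Icc 1 D : Finset ℕ))
  have h1 : ∀ m, 1 ≤ m → m ≤ D →
      ∑ j : Fin D, Ideal.Quotient.mk I (X (some j)) ^ m =
        (D : MvPolynomial (Option (Fin D)) ℚ ⧸ I) * Ideal.Quotient.mk I (X none) ^ m := by
    intro m hm1 hm2
    have h2 : v m ∈ I := Ideal.subset_span ⟨m, by simp [hm1, hm2], rfl⟩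
    have h3 := Ideal.Quotient.eq_zero_iff_mem.2 h2
    have h4 : Ideal.Quotient.mk I (v m) = ∑ j : Fin D, Ideal.Quotient.mk I (X (some j)) ^ m -
        (D : MvPolynomial (Option (Fin D)) ℚ ⧸ I) * Ideal.Quotient.mk I (X none) ^ m := by
      simp only [v, map_sub, map_sum, map_pow, map_mul, map_natCast]
    rw [h4] at h3
    exact sub_eq_zero.1 h3
  have h5 := newton_pow_zero (A := MvPolynomial (Option (Fin D)) ℚ ⧸ I)
    (fun j => Ideal.Quotient.mk I (X (some j))) (Ideal.Quotient.mk I (X none)) h1 i
  have h6 : (X (some i) - X none : MvPolynomial (Option (Fin D)) ℚ) ^ D ∈ I := by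
    rw [← Ideal.Quotient.eq_zero_iff_mem, map_pow, map_sub]
    exact h5
  obtain ⟨c, hc⟩ := (Submodule.mem_span_image_finset_iff_exists_fun' _).1 h6
  refine ⟨c, ?_⟩
  rw [← hc]
  refine Finset.sum_congr rfl fun m _ => ?_
  rw [smul_eq_mul, mul_comm]

end Pool.Agent.GSM
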