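import Pool.Agent.GSM.Basic

/-!
# Operations on conjugacy classes of tuples

The additive and multiplicative operations, base change, change of the index set, and the
operation `corr` attached to a homomorphism from `R` to matrices over `R'`; here only as maps
of types, with their values on classes `cls A`, `A` of arbitrary finite size.
-/

noncomputable section

namespace Pool.Agent.GSM

open Matrix Kronecker

universe u v w

namespace TupQ

variable {ι κ δ σ τ : Type} [Fintype ι] [DecidableEq ι] [Fintype κ] [DecidableEq κ]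
  [Fintype δ] [DecidableEq δ]
variable {R : Type u} {R' : Type v} [CommRing R] [CommRing R']

/-- Direct sum of classes. -/
def addQ : TupQ σ R → TupQ σ R → TupQ σ R :=
  Quotient.lift₂ (fun A B => cls (A.2.add B.2))
    (fun _ _ _ _ h h' => cls_eq_iff.2 (Tup.Iso.add h h'))

/-- Tensor product of classes. -/
def mulQ : TupQ σ R → TupQ σ R → TupQ σ R :=
  Quotient.lift₂ (fun A B => cls (A.2.mul B.2))
    (fun _ _ _ _ h h' => cls_eq_iff.2 (Tup.Iso.mul h h'))

/-- Base change of classes. -/
def mapQ (f : R →+* R') : TupQ σ R → TupQ σ R' :=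
  Quotient.lift (fun A => cls (A.2.map f)) (fun _ _ h => cls_eq_iff.2 (Tup.Iso.map f h))

/-- Change of the index set. -/
def pullQ (p : τ → Option σ) : TupQ σ R → TupQ τ R :=
  Quotient.lift (fun A => cls (A.2.pull p)) (fun _ _ h => cls_eq_iff.2 (Tup.Iso.pull p h))

/-- Replace entries by blocks. -/
def corrQ (Λ : R →+* Matrix δ δ R') : TupQ σ R → TupQ σ R' :=
  Quotient.lift (fun A => cls (A.2.corr Λ)) (fun _ _ h => cls_eq_iff.2 (Tup.Iso.corr Λ h))

theorem addQ_cls (A : Tup ι σ R) (B : Tup κ σ R) : addQ (cls A) (cls B) = cls (A.add B) := by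
  exact cls_eq_iff.2 (Tup.Iso.add (Tup.iso_reindex _ A) (Tup.iso_reindex _ B))

theorem mulQ_cls (A : Tup ι σ R) (B : Tup κ σ R) : mulQ (cls A) (cls B) = cls (A.mul B) := by
  exact cls_eq_iff.2 (Tup.Iso.mul (Tup.iso_reindex _ A) (Tup.iso_reindex _ B))

theorem mapQ_cls (f : R →+* R') (A : Tup ι σ R) : mapQ f (cls A) = cls (A.map f) := by
  exact cls_eq_iff.2 (Tup.Iso.map f (Tup.iso_reindex _ A))

theorem pullQ_cls (p : τ → Option σ) (A : Tup ι σ R) : pullQ p (cls A) = cls (A.pull p) := by
  exact cls_eq_iff.2 (Tup.Iso.pull p (Tup.iso_reindex _ A))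

theorem corrQ_cls (Λ : R →+* Matrix δ δ R') (A : Tup ι σ R) :
    corrQ Λ (cls A) = cls (A.corr Λ) := by
  exact cls_eq_iff.2 (Tup.Iso.corr Λ (Tup.iso_reindex _ A))

end TupQ

end Pool.Agent.GSM
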