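import Pool.Agent.GSM.Defs

/-!
# Rational motivic cohomology by commuting matrices: the definitions used in the statement

Nothing but definitions. `F σ R` consists of formal rational combinations of `σ`-indexed families
of commuting invertible matrices over `R`; `rel` is the relation `[A ⊕ B] = [A] + [B]` (up to
conjugation). A class over `R[t_i, i ∈ I]` is a cube (`IsCube`) if its faces `t_i = 0`, `t_i = 1`
vanish and it vanishes when one of the matrices is replaced by the identity matrix; it is a
boundary (`IsBd`) if it is `y(1) - y(0)` for a cube `y` over `R[u]`.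
-/

noncomputable section

namespace Pool.Agent.GSM.Plain

universe u v

variable {R : Type u} {R' : Type v} [CommRing R] [CommRing R']

/-- A size `r` and a `σ`-indexed family of commuting invertible `r × r` matrices over `R`. -/
abbrev Fam (σ : Type) (R : Type u) [CommRing R] : Type u := Σ r : ℕ, Tup (Fin r) σ R

/-- Formal rational combinations of such families. -/
abbrev F (σ : Type) (R : Type u) [CommRing R] : Type u := Fam σ R →₀ ℚ

/-- The relation `[C] = [A] + [B]` if `C` is conjugate to the direct sum of `A` and `B`. -/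
def rel (σ : Type) (R : Type u) [CommRing R] : Submodule ℚ (F σ R) :=
  Submodule.span ℚ {x | ∃ A B C : Fam σ R, C.2.Iso (A.2.add B.2) ∧
    x = Finsupp.single C 1 - Finsupp.single A 1 - Finsupp.single B 1}

/-- Base change of matrices along a ring homomorphism. -/
def map {σ : Type} (f : R →+* R') : F σ R →ₗ[ℚ] F σ R' :=
  Finsupp.lmapDomain ℚ ℚ fun A => ⟨A.1, A.2.map f⟩

/-- Position `t` gets the matrix at position `p t`, or the identity matrix if there is none. -/
def pull {σ τ : Type} (p : τ → Option σ) : F σ R →ₗ[ℚ] F τ R :=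
  Finsupp.lmapDomain ℚ ℚ fun A => ⟨A.1, A.2.pull p⟩

/-- Tensor product (Kronecker product of matrices), extended bilinearly. -/
def mul {σ : Type} (x y : F σ R) : F σ R :=
  x.sum fun A a => y.sum fun B b =>
    Finsupp.single ⟨A.1 * B.1, (A.2.mul B.2).reindex finProdFinEquiv⟩ (a * b)

/-- The tensor product of `N` classes; the empty product is given by the matrices `(1)`. -/
def prod {σ : Type} {N : ℕ} (x : Fin N → F σ R) : F σ R :=
  (List.ofFn x).foldr mul (Finsupp.single ⟨1, Tup.triv (Fin 1) σ R⟩ 1)

/-- Base change of coefficients, for matrices over a polynomial ring. -/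
def base {I σ : Type} (f : R →+* R') : F σ (MvPolynomial I R) →ₗ[ℚ] F σ (MvPolynomial I R') :=
  map (MvPolynomial.map f)

/-- The face `t_i = e`. -/
def face {I σ : Type} [DecidableEq I] (i : I) (e : R) :
    F σ (MvPolynomial I R) →ₗ[ℚ] F σ (MvPolynomial I R) :=
  map (MvPolynomial.eval₂Hom MvPolynomial.C fun j =>
    if j = i then MvPolynomial.C e else MvPolynomial.X j)

/-- Cubes. -/
def IsCube {I σ : Type} [DecidableEq I] [DecidableEq σ] (x : F σ (MvPolynomial I R)) : Prop :=
  (∀ i, face i 0 x ∈ rel σ (MvPolynomial I R) ∧ face i 1 x ∈ rel σ (MvPolynomial I R)) ∧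
    ∀ s, pull (fun t => if t = s then none else some t) x ∈ rel σ (MvPolynomial I R)

/-- Boundaries. -/
def IsBd {I σ : Type} [DecidableEq I] [DecidableEq σ] (x : F σ (MvPolynomial I R)) : Prop :=
  ∃ y : F σ (MvPolynomial I (Polynomial R)), IsCube y ∧
    x - (base (Polynomial.evalRingHom 1) y - base (Polynomial.evalRingHom 0) y) ∈
      rel σ (MvPolynomial I R)

/-- View a class in the `j`-th block of variables and of positions as a class in all of them. -/
def emb {ι : Type} [DecidableEq ι] {I σ : ι → Type} (j : ι) :
    F (σ j) (MvPolynomial (I j) R) →ₗ[ℚ] F (Σ j, σ j) (MvPolynomial (Σ j, I j) R) :=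
  pull (fun t : Σ j, σ j => if h : t.1 = j then some (h ▸ t.2) else none) ∘ₗ
    map (MvPolynomial.rename (Sigma.mk j) :
      MvPolynomial (I j) R →ₐ[R] MvPolynomial (Σ j, I j) R).toRingHom

end Pool.Agent.GSM.Plain
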