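import Pool.Agent.GSM.Bd

/-!
# The groups `H` and external products

`H I σ R` is the group of cubes modulo homotopy: for a field `K`, `|I| = n`, `|σ| = w` it is
`H^{w-n}(K, ℚ(w)) = CH^w(K, w + n) ⊗ ℚ` (Suslin 2003, Voevodsky).

MODULE GSM-Stmt. PLAN. Immediate from `Cube` and `Bd` (with `a = univ`, `b = univ`); `emb_face_*`:
`subst` identities.
-/

noncomputable section

namespace Pool.Agent.GSM

open Polynomial

universe u v w

section

variable (I σ : Type) [DecidableEq I] [DecidableEq σ] (R : Type u) [CommRing R]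

/-- Cubes: all faces vanish, and replacing an automorphism by the identity gives zero. -/
def Z : Submodule ℚ (GG I σ R) where
  carrier := {x | IsCube x}
  zero_mem' := ⟨fun _ _ => map_zero _, fun _ => map_zero _⟩
  add_mem' := by
    rintro a b ⟨h1, h2⟩ ⟨h3, h4⟩
    exact ⟨fun i e => by rw [map_add, h1, h3, add_zero], fun t => by
      rw [map_add, h2, h4, add_zero]⟩
  smul_mem' := by
    rintro c a ⟨h1, h2⟩
    exact ⟨fun i e => by rw [map_smul, h1, smul_zero], fun t => by rw [map_smul, h2, smul_zero]⟩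

variable {I σ R}

theorem mem_Z {x : GG I σ R} : x ∈ Z I σ R ↔ IsCube x := Iff.rfl

/-- Base change of cubes. -/
def Z.base {R' : Type v} [CommRing R'] (f : R →+* R') : Z I σ R →ₗ[ℚ] Z I σ R' :=
  (GG.base f).toLinearMap.restrict (fun _ hx =>
    isCubeOn_univ.1 (IsCubeOn.base f (isCubeOn_univ.2 hx)))

variable (I σ R)

/-- The homotopy relation: differences of the two ends of cubes over `R[X]`. -/
def Bd : Submodule ℚ (Z I σ R) :=
  LinearMap.range (Z.base (I := I) (σ := σ) (ev R true) - Z.base (ev R false))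

/-- Cubes up to homotopy. -/
def H : Type u := Z I σ R ⧸ Bd I σ R

instance : AddCommGroup (H I σ R) := inferInstanceAs (AddCommGroup (Z I σ R ⧸ Bd I σ R))

instance : Module ℚ (H I σ R) := inferInstanceAs (Module ℚ (Z I σ R ⧸ Bd I σ R))

variable {I σ R}

/-- The class of a cube. -/
def H.mk : Z I σ R →ₗ[ℚ] H I σ R := (Bd I σ R).mkQ

theorem H.mk_eq_zero {x : Z I σ R} :
    H.mk x = 0 ↔ BdOn Set.univ Set.univ (x : GG I σ R) := by
  have h1 : H.mk x = 0 ↔ x ∈ Bd I σ R := Submodule.Quotient.mk_eq_zero _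
  rw [h1]
  constructor
  · rintro ⟨y, hy⟩
    exact ⟨y, isCubeOn_univ.2 y.2, congrArg Subtype.val hy⟩
  · rintro ⟨y, hy, hy'⟩
    exact ⟨⟨y, isCubeOn_univ.1 hy⟩, Subtype.ext hy'⟩

end

section

variable {ι : Type} [Fintype ι] [DecidableEq ι] {I σ : ι → Type} [∀ j, DecidableEq (I j)]
  [∀ j, DecidableEq (σ j)] {R : Type u} [CommRing R]

/-- Use the `j`-th block of variables and of automorphisms. -/
def emb (j : ι) : GG (I j) (σ j) R →ₐ[ℚ] GG (Σ j, I j) (Σ j, σ j) R :=
  (KK.pull (fun t : Σ j, σ j => if h : t.1 = j then some (h ▸ t.2) else none)).comp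
    (GG.sub fun i => MvPolynomial.X ⟨j, i⟩)

theorem emb_base {R' : Type v} [CommRing R'] (f : R →+* R') (j : ι) (x : GG (I j) (σ j) R) :
    emb j (GG.base f x) = GG.base f (emb j x) := by
  unfold emb
  rw [AlgHom.comp_apply, AlgHom.comp_apply, GG.base_pull, GG.base_sub]

private theorem stmt_sub_face (j : ι) (t : Σ j, I j) (e : Bool) (x : GG (I j) (σ j) R) :
    face t e (emb j x) = (KK.pull (fun t : Σ j, σ j => if h : t.1 = j then some (h ▸ t.2) else none))
      (GG.sub (fun i => faceSub t e ⟨j, i⟩) x) := by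
  unfold emb face
  rw [AlgHom.comp_apply, GG.sub_pull, GG.sub_sub]
  simp only [MvPolynomial.bind₁_X_right]

private theorem stmt_kill (j : ι) (t : Σ j, σ j) (x : GG (I j) (σ j) R) :
    kill t (emb j x) = (KK.pull (fun t' : Σ j, σ j => (killMap t t').bind
      (fun t : Σ j, σ j => if h : t.1 = j then some (h ▸ t.2) else none)))
      (GG.sub (fun i => MvPolynomial.X ⟨j, i⟩) x) := by
  unfold emb kill
  rw [AlgHom.comp_apply, KK.pull_pull]

theorem isCubeOn_emb (j : ι) {x : GG (I j) (σ j) R} (hx : IsCube x) :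
    IsCubeOn {t : Σ j, I j | t.1 = j} {t : Σ j, σ j | t.1 = j} (emb j x) := by
  constructor
  · rintro ⟨j', i⟩ ht e
    have hj : j' = j := ht
    subst hj
    rw [stmt_sub_face]
    have h1 : (fun i' => faceSub (⟨j', i⟩ : Σ j, I j) e ⟨j', i'⟩) =
        fun i' => MvPolynomial.bind₁ (fun i => (MvPolynomial.X ⟨j', i⟩ :
          MvPolynomial (Σ j, I j) ℤ)) (faceSub i e i') := by
      funext i'
      unfold faceSub
      by_cases h : i' = i
      · subst h
        cases e <;> simp
      · have h2 : ¬ ((⟨j', i'⟩ : Σ j, I j) = ⟨j', i⟩) := by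
          intro h3
          exact h (eq_of_heq (Sigma.mk.inj h3).2)
        rw [if_neg h, if_neg h2, MvPolynomial.bind₁_X_right]
    rw [h1, ← GG.sub_sub]
    have h3 : GG.sub (faceSub i e) x = 0 := hx.1 i e
    rw [h3, map_zero, map_zero]
  · intro t ht e
    rw [stmt_sub_face]
    have h1 : (fun i' => faceSub t e ⟨j, i'⟩) =
        fun i' => (MvPolynomial.X ⟨j, i'⟩ : MvPolynomial (Σ j, I j) ℤ) := by
      funext i'
      unfold faceSub
      rw [if_neg]
      intro h
      exact ht (congrArg Sigma.fst h).symm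
    rw [h1]
    rfl
  · rintro ⟨j', i⟩ ht
    have hj : j' = j := ht
    subst hj
    rw [stmt_kill]
    have h1 : (fun t' : Σ j, σ j => (killMap (⟨j', i⟩ : Σ j, σ j) t').bind
        (fun t : Σ j, σ j => if h : t.1 = j' then some (h ▸ t.2 : σ j') else none)) =
        fun t' => ((fun t : Σ j, σ j => if h : t.1 = j' then some (h ▸ t.2 : σ j') else none)
          t').bind (killMap i) := by
      funext t'
      obtain ⟨l, s⟩ := t'
      unfold killMap
      by_cases hl : l = j'
      · subst hl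
        by_cases hs : s = i
        · subst hs
          simp
        · have h2 : ¬ ((⟨l, s⟩ : Σ j, σ j) = ⟨l, i⟩) := by
            intro h3
            exact hs (eq_of_heq (Sigma.mk.inj h3).2)
          rw [if_neg h2]
          simp [hs]
      · have h2 : ¬ ((⟨l, s⟩ : Σ j, σ j) = ⟨j', i⟩) := by
          intro h3
          exact hl (congrArg Sigma.fst h3)
        rw [if_neg h2]
        simp [hl]
    rw [h1, ← KK.pull_pull]
    have h3 : KK.pull (killMap i) (GG.sub (fun i => (MvPolynomial.X ⟨j', i⟩ :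
        MvPolynomial (Σ j, I j) ℤ)) x) = 0 := by
      rw [← GG.sub_pull]
      have h4 : KK.pull (killMap i) x = 0 := hx.2 i
      rw [h4, map_zero]
    rw [h3, map_zero]
  · intro t ht
    rw [stmt_kill]
    have h1 : (fun t' : Σ j, σ j => (killMap t t').bind
        (fun t : Σ j, σ j => if h : t.1 = j then some (h ▸ t.2 : σ j) else none)) =
        fun t : Σ j, σ j => if h : t.1 = j then some (h ▸ t.2 : σ j) else none := by
      funext t'
      unfold killMap
      by_cases h : t' = t
      · subst h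
        have h2 : ¬ t'.1 = j := ht
        rw [if_pos rfl, dif_neg h2]
        rfl
      · rw [if_neg h]
        rfl
    rw [h1]
    rfl

/-- External product of cubes, in disjoint blocks of variables and automorphisms. -/
def Z.prod (x : ∀ j, Z (I j) (σ j) R) : Z (Σ j, I j) (Σ j, σ j) R :=
  ⟨∏ j, emb j (x j : GG (I j) (σ j) R), by
    have h1 := IsCubeOn.prod (R := R) (a := fun j : ι => {t : Σ j, I j | t.1 = j})
      (b := fun j : ι => {t : Σ j, σ j | t.1 = j}) Finset.univ
      (fun i _ j _ hij => Set.disjoint_left.2 fun t h1 h2 => hij (Eq.trans (Eq.symm h1) h2))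
      (fun i _ j _ hij => Set.disjoint_left.2 fun t h1 h2 => hij (Eq.trans (Eq.symm h1) h2))
      (fun j _ => isCubeOn_emb j (x j).2)
    have e1 : (⋃ j ∈ (Finset.univ : Finset ι), {t : Σ j, I j | t.1 = j}) = Set.univ := by
      ext t
      simp
    have e2 : (⋃ j ∈ (Finset.univ : Finset ι), {t : Σ j, σ j | t.1 = j}) = Set.univ := by
      ext t
      simp
    rw [e1, e2] at h1
    exact isCubeOn_univ.1 h1⟩

private theorem stmt_bd (j : ι) {z : GG (I j) (σ j) R} (h : BdOn Set.univ Set.univ z) :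
    BdOn {t : Σ j, I j | t.1 = j} {t : Σ j, σ j | t.1 = j} (emb j z) := by
  obtain ⟨y, h1, h2⟩ := h
  refine ⟨emb j y, isCubeOn_emb j (isCubeOn_univ.1 h1), ?_⟩
  rw [← emb_base, ← emb_base, ← map_sub, h2]

private theorem stmt_step (x y : ∀ j, Z (I j) (σ j) R) (j₀ : ι)
    (hne : ∀ j, j ≠ j₀ → x j = y j) (h : H.mk (x j₀) = H.mk (y j₀)) :
    H.mk (Z.prod x) = H.mk (Z.prod y) := by
  rw [← sub_eq_zero, ← map_sub, H.mk_eq_zero]
  rw [← sub_eq_zero, ← map_sub, H.mk_eq_zero] at h
  have h1 := stmt_bd j₀ h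
  have h2 := IsCubeOn.prod (R := R) (a := fun j : ι => {t : Σ j, I j | t.1 = j})
    (b := fun j : ι => {t : Σ j, σ j | t.1 = j}) (Finset.univ.erase j₀)
    (fun i _ j _ hij => Set.disjoint_left.2 fun t h1 h2 => hij (Eq.trans (Eq.symm h1) h2))
    (fun i _ j _ hij => Set.disjoint_left.2 fun t h1 h2 => hij (Eq.trans (Eq.symm h1) h2))
    (fun j _ => isCubeOn_emb j (x j).2)
  have h3 := BdOn.mul (by
      rw [Set.disjoint_left]
      intro t ht ht'
      simp only [Set.mem_iUnion, Finset.mem_erase] at ht'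
      obtain ⟨j, hj, hj'⟩ := ht'
      exact hj.1 (Eq.trans (Eq.symm hj') ht)) (by
      rw [Set.disjoint_left]
      intro t ht ht'
      simp only [Set.mem_iUnion, Finset.mem_erase] at ht'
      obtain ⟨j, hj, hj'⟩ := ht'
      exact hj.1 (Eq.trans (Eq.symm hj') ht)) h1 h2
  have e1 : ({t : Σ j, I j | t.1 = j₀} ∪ ⋃ j ∈ Finset.univ.erase j₀, {t : Σ j, I j | t.1 = j}) =
      Set.univ := by
    ext t
    by_cases ht : t.1 = j₀ <;> simp [ht]
  have e2 : ({t : Σ j, σ j | t.1 = j₀} ∪ ⋃ j ∈ Finset.univ.erase j₀, {t : Σ j, σ j | t.1 = j}) =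
      Set.univ := by
    ext t
    by_cases ht : t.1 = j₀ <;> simp [ht]
  rw [e1, e2] at h3
  have e3 : ((Z.prod x - Z.prod y : Z (Σ j, I j) (Σ j, σ j) R) : GG (Σ j, I j) (Σ j, σ j) R) =
      emb j₀ ((x j₀ - y j₀ : Z (I j₀) (σ j₀) R) : GG (I j₀) (σ j₀) R) *
        ∏ j ∈ Finset.univ.erase j₀, emb j (x j : GG (I j) (σ j) R) := by
    change (∏ j, emb j (x j : GG (I j) (σ j) R)) - (∏ j, emb j (y j : GG (I j) (σ j) R)) =
      emb j₀ ((x j₀ : GG (I j₀) (σ j₀) R) - (y j₀ : GG (I j₀) (σ j₀) R)) * _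
    rw [← Finset.mul_prod_erase Finset.univ (fun j => emb j (x j : GG (I j) (σ j) R))
      (Finset.mem_univ j₀), ← Finset.mul_prod_erase Finset.univ
        (fun j => emb j (y j : GG (I j) (σ j) R)) (Finset.mem_univ j₀), map_sub, sub_mul]
    congr 2
    refine Finset.prod_congr rfl fun j hj => ?_
    rw [hne j (Finset.ne_of_mem_erase hj)]
  rw [e3]
  exact h3

/-- The class of the external product only depends on the classes of the factors. -/
theorem Z.prod_congr (x y : ∀ j, Z (I j) (σ j) R) (h : ∀ j, H.mk (x j) = H.mk (y j)) :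
    H.mk (Z.prod x) = H.mk (Z.prod y) := by
  classical
  have key : ∀ s : Finset ι,
      H.mk (Z.prod fun j => if j ∈ s then y j else x j) = H.mk (Z.prod x) := by
    intro s
    induction s using Finset.induction_on with
    | empty => simp
    | insert a s ha ih =>
      rw [← ih]
      refine stmt_step _ _ a (fun j hj => ?_) ?_
      · simp only [Finset.mem_insert, hj, false_or]
      · simp only [Finset.mem_insert_self, if_true, ha, if_false]
        exact (h a).symm
  have h1 := key Finset.univ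
  simp only [Finset.mem_univ, if_true] at h1
  exact h1.symm

end

end Pool.Agent.GSM
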