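import Pool.Agent.GSM.Plain
import Pool.Agent.GSM.Stmt

/-!
# The plain definitions agree with the ones used in the proof
-/

noncomputable section

namespace Pool.Agent.GSM.Plain

universe u v

variable {R : Type u} {R' : Type v} [CommRing R] [CommRing R'] {σ τ I : Type}

/-- The class of a formal combination in the Grothendieck ring. -/
def toKK : F σ R →ₗ[ℚ] KK σ R := Finsupp.linearCombination ℚ fun A : Fam σ R => KK.mk A.2

theorem toKK_single (A : Fam σ R) (a : ℚ) : toKK (Finsupp.single A a) = a • KK.mk A.2 := by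
  rw [toKK, Finsupp.linearCombination_single]

/-- The zero family. -/
private def zf (σ : Type) (R : Type u) [CommRing R] : Fam σ R := ⟨0, Tup.triv (Fin 0) σ R⟩

private theorem single_zf : Finsupp.single (zf σ R) (1 : ℚ) ∈ rel σ R := by
  have h1 : Finsupp.single (zf σ R) (1 : ℚ) - Finsupp.single (zf σ R) 1 -
      Finsupp.single (zf σ R) 1 ∈ rel σ R := by
    refine Submodule.subset_span ⟨_, _, _, ?_, rfl⟩
    exact Tup.iso_of_equiv (Equiv.equivOfIsEmpty (Fin 0) (Fin 0 ⊕ Fin 0)) (fun _ i _ => i.elim0)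
  rw [sub_self, zero_sub] at h1
  exact neg_mem_iff.1 h1

private theorem single_iso {A B : Fam σ R} (h : A.2.Iso B.2) :
    Finsupp.single A (1 : ℚ) - Finsupp.single B 1 ∈ rel σ R := by
  have h2 : Finsupp.single A (1 : ℚ) - Finsupp.single B 1 - Finsupp.single (zf σ R) 1 ∈
      rel σ R := by
    refine Submodule.subset_span ⟨B, zf σ R, A, ?_, rfl⟩
    refine Tup.Iso.trans h (Tup.iso_of_equiv (Equiv.sumEmpty (Fin B.1) (Fin 0)).symm ?_)
    intro s i j
    rfl
  have h3 := (rel σ R).add_mem h2 (single_zf (σ := σ) (R := R))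
  rwa [sub_add_cancel] at h3

/-- The additive map from conjugacy classes to the quotient. -/
private def fromCls (σ : Type) (R : Type u) [CommRing R] : TupQ σ R →+ (F σ R ⧸ rel σ R) where
  toFun := Quotient.lift (fun A : FTup σ R => (rel σ R).mkQ
      (Finsupp.single (⟨A.1, A.2⟩ : Fam σ R) (1 : ℚ))) (by
    intro A B hAB
    change (rel σ R).mkQ (Finsupp.single (⟨A.1, A.2⟩ : Fam σ R) (1 : ℚ)) =
      (rel σ R).mkQ (Finsupp.single (⟨B.1, B.2⟩ : Fam σ R) (1 : ℚ))
    rw [← sub_eq_zero, ← map_sub, Submodule.mkQ_apply, Submodule.Quotient.mk_eq_zero]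
    exact single_iso hAB)
  map_zero' := by
    rw [← TupQ.cls_zero, cls_mk]
    change (rel σ R).mkQ (Finsupp.single (zf σ R) (1 : ℚ)) = 0
    rw [Submodule.mkQ_apply, Submodule.Quotient.mk_eq_zero]
    exact single_zf
  map_add' := by
    intro a b
    obtain ⟨r, A, rfl⟩ := cls_surj a
    obtain ⟨r', B, rfl⟩ := cls_surj b
    obtain ⟨t, C, hC⟩ := cls_surj (cls (A.add B))
    rw [← TupQ.cls_add, ← hC, cls_mk, cls_mk, cls_mk]
    change (rel σ R).mkQ (Finsupp.single (⟨t, C⟩ : Fam σ R) (1 : ℚ)) =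
      (rel σ R).mkQ (Finsupp.single (⟨r, A⟩ : Fam σ R) (1 : ℚ)) +
        (rel σ R).mkQ (Finsupp.single (⟨r', B⟩ : Fam σ R) (1 : ℚ))
    rw [← sub_eq_zero, ← map_add, ← map_sub, Submodule.mkQ_apply,
      Submodule.Quotient.mk_eq_zero, ← sub_sub]
    exact Submodule.subset_span ⟨⟨r, A⟩, ⟨r', B⟩, ⟨t, C⟩, cls_eq_iff.1 hC, rfl⟩

theorem toKK_eq_zero {x : F σ R} : toKK x = 0 ↔ x ∈ rel σ R := by
  constructor
  · intro h
    have h1 : (GR.liftAdd (fromCls σ R)) ∘ₗ toKK = (rel σ R).mkQ := by
      refine Finsupp.lhom_ext fun A a => ?_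
      rw [LinearMap.comp_apply, toKK_single, map_smul]
      unfold KK.mk
      rw [GR.liftAdd_of, cls_mk]
      change a • (rel σ R).mkQ (Finsupp.single A 1) = _
      rw [← map_smul, Finsupp.smul_single, smul_eq_mul, mul_one]
    have h2 := LinearMap.congr_fun h1 x
    rw [LinearMap.comp_apply, h, map_zero] at h2
    exact (Submodule.Quotient.mk_eq_zero _).1 h2.symm
  · intro h
    have h1 : rel σ R ≤ LinearMap.ker toKK := by
      rw [rel, Submodule.span_le]
      rintro _ ⟨A, B, C, hC, rfl⟩
      rw [SetLike.mem_coe, LinearMap.mem_ker, map_sub, map_sub, toKK_single, toKK_single,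
        toKK_single, one_smul, one_smul, one_smul, KK.mk_eq_of_iso hC, KK.mk_add]
      abel
    exact h1 h

theorem toKK_surjective : Function.Surjective (toKK : F σ R →ₗ[ℚ] KK σ R) := by
  rw [← LinearMap.range_eq_top, eq_top_iff, ← GR.span_of, Submodule.span_le]
  rintro _ ⟨t, rfl⟩
  obtain ⟨r, A, rfl⟩ := cls_surj t
  exact ⟨Finsupp.single ⟨r, A⟩ 1, by rw [toKK_single, one_smul]; rfl⟩

theorem toKK_map (f : R →+* R') (x : F σ R) : toKK (map f x) = KK.map f (toKK x) := by
  have h : toKK ∘ₗ map f = (KK.map f).toLinearMap ∘ₗ (toKK : F σ R →ₗ[ℚ] KK σ R) := by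
    refine Finsupp.lhom_ext fun A a => ?_
    rw [LinearMap.comp_apply, LinearMap.comp_apply, toKK_single, map, Finsupp.lmapDomain_apply,
      Finsupp.mapDomain_single, toKK_single, map_smul, AlgHom.toLinearMap_apply, KK.map_mk]
  exact LinearMap.congr_fun h x

theorem toKK_pull (p : τ → Option σ) (x : F σ R) : toKK (pull p x) = KK.pull p (toKK x) := by
  have h : toKK ∘ₗ pull p = (KK.pull p).toLinearMap ∘ₗ (toKK : F σ R →ₗ[ℚ] KK σ R) := by
    refine Finsupp.lhom_ext fun A a => ?_
    rw [LinearMap.comp_apply, LinearMap.comp_apply, toKK_single, pull, Finsupp.lmapDomain_apply,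
      Finsupp.mapDomain_single, toKK_single, map_smul, AlgHom.toLinearMap_apply, KK.pull_mk]
  exact LinearMap.congr_fun h x

theorem toKK_mul (x y : F σ R) : toKK (mul x y) = toKK x * toKK y := by
  have hx : toKK x = x.sum fun A a => a • KK.mk A.2 := Finsupp.linearCombination_apply _ _
  have hy : toKK y = y.sum fun B b => b • KK.mk B.2 := Finsupp.linearCombination_apply _ _
  rw [mul, hx, hy, Finsupp.sum_mul, map_finsuppSum]
  refine Finsupp.sum_congr fun A _ => ?_
  rw [Finsupp.mul_sum, map_finsuppSum]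
  refine Finsupp.sum_congr fun B _ => ?_
  rw [toKK_single, KK.mk_eq_of_iso (Tup.iso_reindex finProdFinEquiv (A.2.mul B.2)), KK.mk_mul,
    smul_mul_smul_comm]

theorem toKK_prod {N : ℕ} (x : Fin N → F σ R) : toKK (prod x) = ∏ j, toKK (x j) := by
  have h : ∀ l : List (F σ R), toKK (l.foldr mul
      (Finsupp.single ⟨1, Tup.triv (Fin 1) σ R⟩ 1)) = (l.map toKK).prod := by
    intro l
    induction l with
    | nil =>
      rw [List.foldr_nil, List.map_nil, List.prod_nil, toKK_single, one_smul]
      have h1 : KK.mk (Tup.triv (Fin 1) σ R) = KK.mk (Tup.triv Unit σ R) := by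
        refine KK.mk_eq_of_iso (Tup.iso_of_equiv finOneEquiv ?_)
        intro s i j
        rw [Subsingleton.elim i j]
        change (1 : Matrix _ _ R) j j = (1 : Matrix _ _ R) _ _
        rw [Matrix.one_apply_eq, Matrix.one_apply_eq]
      rw [h1]
      unfold KK.mk
      rw [TupQ.cls_one, map_one]
    | cons a l ih =>
      rw [List.foldr_cons, toKK_mul, ih, List.map_cons, List.prod_cons]
  rw [prod, h, List.map_ofFn, List.prod_ofFn]
  rfl

section

variable [DecidableEq I] [DecidableEq σ]

omit [DecidableEq I] [DecidableEq σ] in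
theorem toKK_base (f : R →+* R') (x : F σ (MvPolynomial I R)) :
    (toKK (base f x) : GG I σ R') = GG.base f (toKK x : GG I σ R) := toKK_map _ x

omit [DecidableEq σ] in
theorem toKK_face (i : I) (e : Bool) (x : F σ (MvPolynomial I R)) :
    (toKK (face i (if e then 1 else 0) x) : GG I σ R) = GSM.face i e (toKK x : GG I σ R) := by
  rw [face, toKK_map]
  unfold GSM.face GG.sub
  congr 2
  unfold subst
  congr 1
  funext j
  unfold faceSub
  by_cases h : j = i
  · rw [if_pos h, if_pos h]
    cases e <;> simp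
  · rw [if_neg h, if_neg h]
    simp

theorem isCube_iff {x : F σ (MvPolynomial I R)} :
    IsCube x ↔ GSM.IsCube (toKK x : GG I σ R) := by
  unfold IsCube GSM.IsCube
  refine and_congr (forall_congr' fun i => ?_) (forall_congr' fun s => ?_)
  · constructor
    · rintro ⟨h0, h1⟩ e
      cases e
      · have := toKK_face i false x
        rw [← this]
        exact toKK_eq_zero.2 (by simpa using h0)
      · have := toKK_face i true x
        rw [← this]
        exact toKK_eq_zero.2 (by simpa using h1)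
    · intro h
      refine ⟨?_, ?_⟩
      · have h1 := h false
        rw [← toKK_face i false x] at h1
        simpa using toKK_eq_zero.1 h1
      · have h1 := h true
        rw [← toKK_face i true x] at h1
        simpa using toKK_eq_zero.1 h1
  · rw [← toKK_eq_zero, toKK_pull]
    rfl

theorem isBd_iff {x : F σ (MvPolynomial I R)} :
    IsBd x ↔ BdOn Set.univ Set.univ (toKK x : GG I σ R) := by
  constructor
  · rintro ⟨y, hy, h⟩
    refine ⟨toKK y, isCubeOn_univ.2 (isCube_iff.1 hy), ?_⟩
    rw [← toKK_eq_zero, map_sub, map_sub, toKK_base, toKK_base, sub_eq_zero] at h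
    exact h.symm
  · rintro ⟨y, hy, h⟩
    obtain ⟨y, rfl⟩ := toKK_surjective y
    refine ⟨y, isCube_iff.2 (isCubeOn_univ.1 hy), ?_⟩
    rw [← toKK_eq_zero, map_sub, map_sub, toKK_base, toKK_base, sub_eq_zero]
    exact h.symm

end

theorem toKK_emb {ι : Type} [DecidableEq ι] {I σ : ι → Type} (j : ι)
    (x : F (σ j) (MvPolynomial (I j) R)) :
    (toKK (emb j x) : GG (Σ j, I j) (Σ j, σ j) R) = GSM.emb j (toKK x : GG (I j) (σ j) R) := by
  unfold emb GSM.emb
  rw [LinearMap.comp_apply, toKK_pull, toKK_map, AlgHom.comp_apply]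
  congr 1
  unfold GG.sub
  congr 2
  refine MvPolynomial.ringHom_ext (fun r => ?_) (fun i => ?_)
  · simp [subst]
  · simp [subst]

end Pool.Agent.GSM.Plain
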