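import Mathlib

/-!
# A point of the curve over a given divisor

MODULE GSM-PointC. PLAN. Let `S` be the set of nonzero elements of `A`; its elements are invertible in
`C` (they are invertible in the field `k₁`: `A → k₁` is injective because `A → B → C` is), so
`B' = Localization (image of S in B)` maps to `C`; this map is injective (domains) and `C` is
integral over `B'`: `C` is generated by `B` and `k₁`, and every element of `k₁` is algebraic over
`A`, hence integral over `S⁻¹A ⊆ B'`. The prime `𝔭 B'` (`𝔭` does not meet `S` by `h𝔭`) has a prime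
`𝔫` of `C` above it (lying over), and `𝔫` contracts to `𝔭` in `B`. `C / 𝔫` is integral over
`B' / 𝔭 B'`, which is integral over the field `S⁻¹A` (hypothesis `hint`); so `C / 𝔫` is a field
(domain integral over a field), integral over `k₁`, hence `k₁ → C / 𝔫` is bijective.
Alternative: choose `𝔫` maximal among ideals of `C` with `𝔫 ∩ (B \ 𝔭) = ∅` containing `𝔭 C`.
-/

noncomputable section

namespace Pool.Agent.GSM

/-- every element of `C = k₁[B]` has a nonzero multiple by `A` which is integral over `B` -/
private theorem pointC_mult {A B C k₁ : Type*} [CommRing A] [IsDomain A] [CommRing B]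
    [CommRing C] [Field k₁] [Algebra A B] [Algebra B C]
    [Algebra A C] [IsScalarTower A B C] [Algebra A k₁] [Algebra k₁ C] [IsScalarTower A k₁ C]
    (halg : Algebra.IsAlgebraic A k₁)
    (hgen : Algebra.adjoin k₁ (Set.range (algebraMap B C)) = ⊤) (c : C) :
    ∃ s : A, s ≠ 0 ∧ IsIntegral B (algebraMap A C s * c) := by
  have hc : c ∈ Algebra.adjoin k₁ (Set.range (algebraMap B C)) := by
    rw [hgen]
    trivial
  induction hc using Algebra.adjoin_induction with
  | mem x hx =>
    obtain ⟨b, rfl⟩ := hx
    refine ⟨1, one_ne_zero, ?_⟩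
    rw [map_one, one_mul]
    exact isIntegral_algebraMap
  | algebraMap r =>
    obtain ⟨s, hs, hi⟩ := (halg.isAlgebraic r).exists_integral_multiple
    refine ⟨s, hs, ?_⟩
    have h1 : IsIntegral A (algebraMap k₁ C (s • r)) :=
      hi.map (IsScalarTower.toAlgHom A k₁ C)
    have h2 : algebraMap k₁ C (s • r) = algebraMap A C s * algebraMap k₁ C r := by
      rw [Algebra.smul_def, map_mul, ← IsScalarTower.algebraMap_apply A k₁ C]
    rw [h2] at h1
    exact h1.tower_top
  | add x y _ _ hx hy =>
    obtain ⟨s, hs, hsi⟩ := hx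
    obtain ⟨t, ht, hti⟩ := hy
    refine ⟨s * t, mul_ne_zero hs ht, ?_⟩
    have h1 : algebraMap A C (s * t) * (x + y) =
        algebraMap B C (algebraMap A B t) * (algebraMap A C s * x) +
        algebraMap B C (algebraMap A B s) * (algebraMap A C t * y) := by
      rw [← IsScalarTower.algebraMap_apply A B C, ← IsScalarTower.algebraMap_apply A B C, map_mul]
      ring
    rw [h1]
    exact (isIntegral_algebraMap.mul hsi).add (isIntegral_algebraMap.mul hti)
  | mul x y _ _ hx hy =>
    obtain ⟨s, hs, hsi⟩ := hx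
    obtain ⟨t, ht, hti⟩ := hy
    refine ⟨s * t, mul_ne_zero hs ht, ?_⟩
    have h1 : algebraMap A C (s * t) * (x * y) =
        (algebraMap A C s * x) * (algebraMap A C t * y) := by
      rw [map_mul]
      ring
    rw [h1]
    exact hsi.mul hti

theorem exists_point_over {A B C k₁ : Type*} [CommRing A] [IsDomain A] [CommRing B] [IsDomain B]
    [CommRing C] [IsDomain C] [Field k₁] [IsAlgClosed k₁] [Algebra A B] [Algebra B C]
    [Algebra A C] [IsScalarTower A B C] [Algebra A k₁] [Algebra k₁ C] [IsScalarTower A k₁ C]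
    (hAB : Function.Injective (algebraMap A B)) (hBC : Function.Injective (algebraMap B C))
    (halg : Algebra.IsAlgebraic A k₁)
    (hgen : Algebra.adjoin k₁ (Set.range (algebraMap B C)) = ⊤)
    (𝔭 : Ideal B) (hprime : 𝔭.IsPrime) (h𝔭 : ∀ a : A, algebraMap A B a ∈ 𝔭 → a = 0)
    (hint : ((Ideal.Quotient.mk 𝔭).comp (algebraMap A B)).IsIntegral) :
    ∃ q : C →ₐ[k₁] k₁, ∀ b : B, q (algebraMap B C b) = 0 ↔ b ∈ 𝔭 := by
  classical
  -- a prime of the integral closure over `𝔭`
  have hinjB : Function.Injective (algebraMap B (integralClosure B C)) := by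
    intro x y hxy
    apply hBC
    have := congrArg (algebraMap (integralClosure B C) C) hxy
    rwa [← IsScalarTower.algebraMap_apply, ← IsScalarTower.algebraMap_apply] at this
  have hintcl : Algebra.IsIntegral B (integralClosure B C) := integralClosure.AlgebraIsIntegral
  obtain ⟨𝔮, -, h𝔮p, h𝔮⟩ := Ideal.exists_ideal_over_prime_of_isIntegral
    (S := integralClosure B C) 𝔭 ⊥ (by
      rw [← RingHom.ker_eq_comap_bot, (RingHom.injective_iff_ker_eq_bot _).mp hinjB]
      exact bot_le)
  -- the extension of `𝔭` to `C`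
  have hJ : ∀ c ∈ 𝔭.map (algebraMap B C), ∃ s : A, s ≠ 0 ∧ ∃ y ∈ 𝔮,
      (y : C) = algebraMap A C s * c := by
    intro c hc
    induction hc using Submodule.span_induction with
    | mem x hx =>
      obtain ⟨p, hp, rfl⟩ := hx
      refine ⟨1, one_ne_zero, algebraMap B (integralClosure B C) p, ?_, ?_⟩
      · have hp' : p ∈ 𝔮.comap (algebraMap B (integralClosure B C)) := by
          rw [h𝔮]
          exact hp
        exact hp'
      · rw [map_one, one_mul]
        rfl
    | zero =>
      refine ⟨1, one_ne_zero, 0, 𝔮.zero_mem, ?_⟩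
      simp
    | add x y _ _ hx hy =>
      obtain ⟨s, hs, u, hu, hus⟩ := hx
      obtain ⟨t, ht, v, hv, hvt⟩ := hy
      refine ⟨s * t, mul_ne_zero hs ht,
        algebraMap B (integralClosure B C) (algebraMap A B t) * u +
        algebraMap B (integralClosure B C) (algebraMap A B s) * v,
        𝔮.add_mem (𝔮.mul_mem_left _ hu) (𝔮.mul_mem_left _ hv), ?_⟩
      change algebraMap B C (algebraMap A B t) * (u : C) +
        algebraMap B C (algebraMap A B s) * (v : C) = _
      rw [hus, hvt, ← IsScalarTower.algebraMap_apply A B C,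
        ← IsScalarTower.algebraMap_apply A B C, map_mul]
      ring
    | smul a x _ hx =>
      obtain ⟨s, hs, u, hu, hus⟩ := hx
      obtain ⟨t, ht, hti⟩ := pointC_mult (A := A) (B := B) (k₁ := k₁) halg hgen a
      refine ⟨s * t, mul_ne_zero hs ht, ⟨algebraMap A C t * a, hti⟩ * u,
        𝔮.mul_mem_left _ hu, ?_⟩
      change algebraMap A C t * a * (u : C) = _
      rw [hus, map_mul, smul_eq_mul]
      ring
  have hdisj : Disjoint ((𝔭.map (algebraMap B C) : Ideal C) : Set C)
      ((𝔭.primeCompl.map (algebraMap B C) : Submonoid C) : Set C) := by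
    rw [Set.disjoint_left]
    intro c hc hc2
    obtain ⟨b, hb, rfl⟩ := hc2
    obtain ⟨s, hs, y, hy, hys⟩ := hJ _ hc
    have h1 : y = algebraMap B (integralClosure B C) (algebraMap A B s * b) := by
      apply Subtype.ext
      rw [hys]
      have e1 : ∀ b : B, ((algebraMap B (integralClosure B C) b : integralClosure B C) : C) =
          algebraMap B C b := fun b => rfl
      rw [e1, map_mul, ← IsScalarTower.algebraMap_apply A B C]
    have h2 : algebraMap A B s * b ∈ 𝔭 := by
      rw [← h𝔮, Ideal.mem_comap, ← h1]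
      exact hy
    rcases hprime.mem_or_mem h2 with h3 | h3
    · exact hs (h𝔭 s h3)
    · exact hb h3
  obtain ⟨𝔫, h𝔫p, h𝔫, h𝔫d⟩ := Ideal.exists_le_prime_disjoint _ _ hdisj
  have hcont : ∀ b : B, algebraMap B C b ∈ 𝔫 ↔ b ∈ 𝔭 := by
    intro b
    constructor
    · intro hb
      by_contra hcon
      exact Set.disjoint_left.mp h𝔫d hb (Submonoid.mem_map_of_mem _ hcon)
    · intro hb
      exact h𝔫 (Ideal.mem_map_of_mem _ hb)
  -- the quotient is integral over `k₁`
  have hintk : Algebra.IsIntegral k₁ (C ⧸ 𝔫) := by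
    constructor
    intro z
    obtain ⟨c, rfl⟩ := Ideal.Quotient.mk_surjective z
    have hc : c ∈ Algebra.adjoin k₁ (Set.range (algebraMap B C)) := by
      rw [hgen]
      trivial
    induction hc using Algebra.adjoin_induction with
    | mem x hx =>
      obtain ⟨b, rfl⟩ := hx
      obtain ⟨P, hPm, hP0⟩ := hint (Ideal.Quotient.mk 𝔭 b)
      -- transport the equation
      have hker : ∀ x ∈ 𝔭, ((Ideal.Quotient.mk 𝔫).comp (algebraMap B C)) x = 0 := by
        intro x hx
        rw [RingHom.comp_apply, Ideal.Quotient.eq_zero_iff_mem]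
        exact (hcont x).mpr hx
      have hPz := congrArg (Ideal.Quotient.lift 𝔭 ((Ideal.Quotient.mk 𝔫).comp (algebraMap B C))
        hker) hP0
      rw [Polynomial.hom_eval₂, map_zero] at hPz
      refine ⟨P.map (algebraMap A k₁), hPm.map _, ?_⟩
      rw [Polynomial.eval₂_map]
      have hcomp : (algebraMap k₁ (C ⧸ 𝔫)).comp (algebraMap A k₁) =
          (Ideal.Quotient.lift 𝔭 ((Ideal.Quotient.mk 𝔫).comp (algebraMap B C)) hker).comp
            ((Ideal.Quotient.mk 𝔭).comp (algebraMap A B)) := by
        ext a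
        simp only [RingHom.comp_apply, Ideal.Quotient.lift_mk]
        rw [← IsScalarTower.algebraMap_apply A B C, IsScalarTower.algebraMap_apply A k₁ C]
        rfl
      rw [hcomp]
      rw [Ideal.Quotient.lift_mk] at hPz
      exact hPz
    | algebraMap r =>
      have : Ideal.Quotient.mk 𝔫 (algebraMap k₁ C r) = algebraMap k₁ (C ⧸ 𝔫) r := rfl
      rw [this]
      exact isIntegral_algebraMap
    | add x y _ _ hx hy =>
      rw [map_add]
      exact hx.add hy
    | mul x y _ _ hx hy =>
      rw [map_mul]
      exact hx.mul hy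
  have hbij : Function.Bijective (algebraMap k₁ (C ⧸ 𝔫)) :=
    IsAlgClosed.algebraMap_bijective_of_isIntegral
  let e : k₁ ≃ₐ[k₁] (C ⧸ 𝔫) := AlgEquiv.ofBijective (Algebra.ofId k₁ (C ⧸ 𝔫)) hbij
  refine ⟨e.symm.toAlgHom.comp (Ideal.Quotient.mkₐ k₁ 𝔫), ?_⟩
  intro b
  have h1 : (e.symm.toAlgHom.comp (Ideal.Quotient.mkₐ k₁ 𝔫)) (algebraMap B C b) =
      e.symm (Ideal.Quotient.mk 𝔫 (algebraMap B C b)) := rfl
  rw [h1, map_eq_zero_iff e.symm e.symm.injective, Ideal.Quotient.eq_zero_iff_mem]
  exact hcont b

end Pool.Agent.GSM
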