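import Pool.Agent.GSM.KKMap
import Pool.Agent.GSM.KKCorr

/-!
# Polynomial variables: faces, base change and block homomorphisms

MODULE GSM-Poly. PLAN.
* `polyCorr Λ : MvPolynomial I S →+* Matrix δ δ (MvPolynomial I R)` extends
  `Λ : S →+* Matrix δ δ R` coefficientwise; definition through
  `AddMonoidAlgebra.liftNCRingHom` (`MvPolynomial I S` is `AddMonoidAlgebra S (I →₀ ℕ)`).
* Then `polyCorr_C`, `polyCorr_X`, and all the identities of ring homomorphisms out of
  `MvPolynomial I S` follow from `MvPolynomial.ringHom_ext` (valid for noncommutative targets).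
-/

noncomputable section

namespace Pool.Agent.GSM

open Matrix Kronecker

universe u v w u'

section

variable {I J : Type} {δ ε : Type} [Fintype δ] [DecidableEq δ] [Fintype ε] [DecidableEq ε]
variable {S : Type u} {R : Type v} {R' : Type w} {S' : Type u'}
  [CommRing S] [CommRing R] [CommRing R'] [CommRing S']

/-- Coefficientwise extension of a block homomorphism to polynomials. -/
def polyCorr (I : Type) (Λ : S →+* Matrix δ δ R) :
    MvPolynomial I S →+* Matrix δ δ (MvPolynomial I R) :=
  AddMonoidAlgebra.liftNCRingHom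
    (((MvPolynomial.C : R →+* MvPolynomial I R).mapMatrix).comp Λ)
    { toFun := fun m => Matrix.scalar δ (MvPolynomial.monomial (Multiplicative.toAdd m) (1 : R))
      map_one' := by
        rw [toAdd_one]
        simp
      map_mul' := by
        intro a b
        rw [toAdd_mul, ← map_mul, MvPolynomial.monomial_mul, one_mul] }
    (by
      intro x y
      exact (Matrix.scalar_commute _ (fun r => Commute.all _ r) _).symm)

private theorem polyCorr_monomial (Λ : S →+* Matrix δ δ R) (m : I →₀ ℕ) (s : S) :
    polyCorr I Λ (MvPolynomial.monomial m s) =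
      (Λ s).map MvPolynomial.C * Matrix.scalar δ (MvPolynomial.monomial m (1 : R)) := by
  unfold polyCorr
  exact AddMonoidAlgebra.liftNCRingHom_single _ _ _ m s

theorem polyCorr_C (Λ : S →+* Matrix δ δ R) (s : S) :
    polyCorr I Λ (MvPolynomial.C s) = (Λ s).map MvPolynomial.C := by
  have h := polyCorr_monomial (I := I) Λ 0 s
  rw [MvPolynomial.monomial_zero'] at h
  rw [h]
  have h1 : (MvPolynomial.monomial (0 : I →₀ ℕ) (1 : R)) = 1 := rfl
  rw [h1, map_one, mul_one]

theorem polyCorr_X (Λ : S →+* Matrix δ δ R) (i : I) :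
    polyCorr I Λ (MvPolynomial.X i) = Matrix.scalar δ (MvPolynomial.X i) := by
  unfold MvPolynomial.X
  rw [polyCorr_monomial, map_one, Matrix.map_one _ (map_zero _) (map_one _), one_mul]

/-- equality of two ring homomorphisms from polynomials to matrices -/
private theorem ext_aux {T : Type*} [Semiring T] (f g : MvPolynomial I S →+* T)
    (h1 : ∀ s, f (MvPolynomial.C s) = g (MvPolynomial.C s))
    (h2 : ∀ i, f (MvPolynomial.X i) = g (MvPolynomial.X i)) : f = g :=
  MvPolynomial.ringHom_ext h1 h2

private theorem scalar_map_aux {T T' : Type*} [CommRing T] [CommRing T'] (f : T →+* T') (x : T) :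
    (Matrix.scalar δ x).map f = Matrix.scalar δ (f x) := by
  ext i j
  by_cases h : i = j
  · subst h
    simp [Matrix.scalar_apply]
  · simp [Matrix.scalar_apply, Matrix.diagonal_apply_ne _ h]

theorem polyCorr_comp_map (Λ : S →+* Matrix δ δ R) (g : S' →+* S) :
    (polyCorr I Λ).comp (MvPolynomial.map g) = polyCorr I (Λ.comp g) := by
  apply ext_aux
  · intro s
    rw [RingHom.comp_apply, MvPolynomial.map_C, polyCorr_C, polyCorr_C, RingHom.comp_apply]
  · intro i
    rw [RingHom.comp_apply, MvPolynomial.map_X, polyCorr_X, polyCorr_X]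

theorem map_comp_polyCorr (f : R →+* R') (Λ : S →+* Matrix δ δ R) :
    ((MvPolynomial.map f).mapMatrix).comp (polyCorr I Λ) = polyCorr I (f.mapMatrix.comp Λ) := by
  apply ext_aux
  · intro s
    rw [RingHom.comp_apply, polyCorr_C, polyCorr_C, RingHom.comp_apply, RingHom.mapMatrix_apply,
      RingHom.mapMatrix_apply]
    ext a b
    simp [Matrix.map_apply]
  · intro i
    rw [RingHom.comp_apply, polyCorr_X, polyCorr_X, RingHom.mapMatrix_apply, scalar_map_aux,
      MvPolynomial.map_X]

/-- Substitution of polynomials (possibly constants `0`, `1`) for the variables. -/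
def subst (R : Type u) [CommRing R] (p : I → MvPolynomial J ℤ) :
    MvPolynomial I R →+* MvPolynomial J R :=
  MvPolynomial.eval₂Hom MvPolynomial.C (fun i => MvPolynomial.map (Int.castRingHom R) (p i))

theorem subst_comp_polyCorr (Λ : S →+* Matrix δ δ R) (p : I → MvPolynomial J ℤ) :
    ((subst R p).mapMatrix).comp (polyCorr I Λ) = (polyCorr J Λ).comp (subst S p) := by
  apply ext_aux
  · intro s
    rw [RingHom.comp_apply, RingHom.comp_apply, polyCorr_C, RingHom.mapMatrix_apply]
    have h1 : subst S p (MvPolynomial.C s) = MvPolynomial.C s := by simp [subst]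
    rw [h1, polyCorr_C]
    ext a b : 2
    simp [Matrix.map_apply, subst]
  · intro i
    rw [RingHom.comp_apply, RingHom.comp_apply, polyCorr_X, RingHom.mapMatrix_apply,
      scalar_map_aux]
    have h1 : subst S p (MvPolynomial.X i) = MvPolynomial.map (Int.castRingHom S) (p i) := by
      simp [subst]
    have h2 : subst R p (MvPolynomial.X i) = MvPolynomial.map (Int.castRingHom R) (p i) := by
      simp [subst]
    rw [h1, h2]
    have h3 : (polyCorr J Λ).comp (MvPolynomial.map (Int.castRingHom S)) =
        (Matrix.scalar δ).comp (MvPolynomial.map (Int.castRingHom R)) := by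
      apply ext_aux
      · intro z
        rw [RingHom.comp_apply, RingHom.comp_apply, MvPolynomial.map_C, MvPolynomial.map_C,
          polyCorr_C]
        have h4 : Λ ((Int.castRingHom S) z) = Matrix.scalar δ ((Int.castRingHom R) z) := by
          rw [← RingHom.comp_apply, ← RingHom.comp_apply]
          congr 1
          exact Subsingleton.elim _ _
        rw [h4]
        exact scalar_map_aux (MvPolynomial.C : R →+* MvPolynomial J R) _
      · intro j
        rw [RingHom.comp_apply, RingHom.comp_apply, MvPolynomial.map_X, MvPolynomial.map_X,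
          polyCorr_X]
    exact (RingHom.congr_fun h3 (p i)).symm

theorem subst_comp_map (f : R →+* R') (p : I → MvPolynomial J ℤ) :
    (subst R' p).comp (MvPolynomial.map f) = (MvPolynomial.map f).comp (subst R p) := by
  apply ext_aux
  · intro s
    simp [subst]
  · intro i
    simp only [RingHom.comp_apply, subst, MvPolynomial.map_X, MvPolynomial.coe_eval₂Hom,
      MvPolynomial.eval₂_X, MvPolynomial.map_map]
    congr 1
    exact congrArg MvPolynomial.map (Subsingleton.elim _ _)

/-- Conjugate block homomorphisms have conjugate extensions. -/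
theorem polyCorr_conj (Λ : S →+* Matrix δ δ R) (Λ' : S →+* Matrix ε ε R) (P : Matrix δ ε R)
    (h : ∀ s, Λ s * P = P * Λ' s) (x : MvPolynomial I S) :
    polyCorr I Λ x * (P.map MvPolynomial.C : Matrix δ ε (MvPolynomial I R)) =
      (P.map MvPolynomial.C : Matrix δ ε (MvPolynomial I R)) * polyCorr I Λ' x := by
  induction x using MvPolynomial.induction_on with
  | C s =>
    rw [polyCorr_C, polyCorr_C, ← Matrix.map_mul, ← Matrix.map_mul, h]
  | add p q hp hq =>
    rw [map_add, map_add, Matrix.add_mul, Matrix.mul_add, hp, hq]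
  | mul_X p i hp =>
    rw [map_mul, map_mul, polyCorr_X, polyCorr_X]
    have hs : Matrix.scalar δ (MvPolynomial.X i : MvPolynomial I R) *
        (P.map MvPolynomial.C : Matrix δ ε (MvPolynomial I R)) =
        (P.map MvPolynomial.C : Matrix δ ε (MvPolynomial I R)) *
          Matrix.scalar ε (MvPolynomial.X i : MvPolynomial I R) := by
      refine Matrix.ext fun a b => ?_
      rw [Matrix.scalar_apply, Matrix.scalar_apply, Matrix.diagonal_mul, Matrix.mul_diagonal]
      exact mul_comm (MvPolynomial.X i : MvPolynomial I R) _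
    rw [Matrix.mul_assoc, hs, ← Matrix.mul_assoc, hp, Matrix.mul_assoc]

theorem polyCorr_fromBlocks (Λ : S →+* Matrix (δ ⊕ ε) (δ ⊕ ε) R) (Λ₁ : S →+* Matrix δ δ R)
    (Λ₂ : S →+* Matrix ε ε R) (h : ∀ s, Λ s = Matrix.fromBlocks (Λ₁ s) 0 0 (Λ₂ s))
    (x : MvPolynomial I S) :
    polyCorr I Λ x = Matrix.fromBlocks (polyCorr I Λ₁ x) 0 0 (polyCorr I Λ₂ x) := by
  induction x using MvPolynomial.induction_on with
  | C s =>
    rw [polyCorr_C, polyCorr_C, polyCorr_C, h, Matrix.fromBlocks_map]
    simp
  | add p q hp hq =>
    rw [map_add, map_add, map_add, hp, hq, Matrix.fromBlocks_add]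
    simp
  | mul_X p i hp =>
    rw [map_mul, map_mul, map_mul, polyCorr_X, polyCorr_X, polyCorr_X, hp]
    have hs : Matrix.scalar (δ ⊕ ε) (MvPolynomial.X i : MvPolynomial I R) =
        Matrix.fromBlocks (Matrix.scalar δ (MvPolynomial.X i)) 0 0
          (Matrix.scalar ε (MvPolynomial.X i)) := by
      simp only [Matrix.scalar_apply, Matrix.fromBlocks_diagonal]
      congr 1
      ext a
      cases a <;> rfl
    rw [hs, Matrix.fromBlocks_multiply]
    simp

theorem polyCorr_diagonal (Λ : S →+* Matrix δ δ R) (f : S →+* R)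
    (h : ∀ s, Λ s = Matrix.diagonal fun _ => f s) (x : MvPolynomial I S) :
    polyCorr I Λ x = Matrix.diagonal fun _ => MvPolynomial.map f x := by
  have h1 : polyCorr I Λ = (Matrix.scalar δ).comp (MvPolynomial.map f) := by
    apply ext_aux
    · intro s
      rw [polyCorr_C, h, RingHom.comp_apply, MvPolynomial.map_C]
      exact scalar_map_aux (MvPolynomial.C : R →+* MvPolynomial I R) (f s)
    · intro i
      rw [polyCorr_X, RingHom.comp_apply, MvPolynomial.map_X]
  exact RingHom.congr_fun h1 x

theorem polyCorr_unique [Unique δ] (Λ : S →+* Matrix δ δ R) (f : S →+* R)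
    (h : ∀ s, Λ s default default = f s) (x : MvPolynomial I S) :
    polyCorr I Λ x default default = MvPolynomial.map f x := by
  have h1 : ∀ s, Λ s = Matrix.diagonal fun _ => f s := by
    intro s
    ext a b
    rw [Subsingleton.elim a default, Subsingleton.elim b default, h, Matrix.diagonal_apply_eq]
  rw [polyCorr_diagonal Λ f h1, Matrix.diagonal_apply_eq]

end

end Pool.Agent.GSM
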