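import Mathlib

/-!
# Rational functions of bounded degree at infinity

MODULE GSM-Rat. PLAN. `RatFunc.intDegree_add_le`, `RatFunc.intDegree_mul`. For the decomposition:
`f = p / q`, divide with remainder: `f = s + r / q`, `deg (r / q) ≤ -1` (case `m = 0`); for the
induction step apply the case `m = 0` to `X ^ (m + 1) * f'`, `f' ∈ degLE (-m-1)`: its polynomial
part has degree `≤ 0`, so it is a constant `c`, and `f' - c X ^ (-(m+1)) ∈ degLE (-m-2)`.
-/

noncomputable section

namespace Pool.Agent.GSM

open Polynomial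

universe u

variable {k : Type u} [Field k]

/-- Rational functions of degree `≤ e` (at infinity). -/
def degLE (k : Type u) [Field k] (e : ℤ) : Submodule k (RatFunc k) where
  carrier := {f | f = 0 ∨ f.intDegree ≤ e}
  zero_mem' := Or.inl rfl
  add_mem' := by
    rintro a b (ha | ha) (hb | hb)
    · left
      rw [ha, hb, add_zero]
    · right
      rw [ha, zero_add]
      exact hb
    · right
      rw [hb, add_zero]
      exact ha
    · by_cases hb0 : b = 0
      · right
        rw [hb0, add_zero]
        exact ha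
      · by_cases hab : a + b = 0
        · exact Or.inl hab
        · exact Or.inr ((RatFunc.intDegree_add_le hb0 hab).trans (max_le ha hb))
  smul_mem' := by
    rintro c f (hf | hf)
    · left
      rw [hf, smul_zero]
    · by_cases hc : c = 0
      · left
        rw [hc, zero_smul]
      · by_cases hf0 : f = 0
        · left
          rw [hf0, smul_zero]
        · right
          rw [RatFunc.smul_eq_C_mul, RatFunc.intDegree_mul (by simpa using hc) hf0,
            RatFunc.intDegree_C, zero_add]
          exact hf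

theorem mem_degLE {e : ℤ} {f : RatFunc k} : f ∈ degLE k e ↔ f = 0 ∨ f.intDegree ≤ e := Iff.rfl

theorem degLE_mono {e e' : ℤ} (h : e ≤ e') : degLE k e ≤ degLE k e' := by
  rintro f (hf | hf)
  · exact Or.inl hf
  · exact Or.inr (hf.trans h)

theorem degLE_mul {e e' : ℤ} {f f' : RatFunc k} (h : f ∈ degLE k e) (h' : f' ∈ degLE k e') :
    f * f' ∈ degLE k (e + e') := by
  by_cases hf : f = 0
  · left
    rw [hf, zero_mul]
  · by_cases hf' : f' = 0
    · left
      rw [hf', mul_zero]
    · right
      rw [RatFunc.intDegree_mul hf hf']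
      have h1 := (mem_degLE.1 h).resolve_left hf
      have h2 := (mem_degLE.1 h').resolve_left hf'
      omega

theorem exists_mem_degLE (f : RatFunc k) : ∃ e : ℕ, f ∈ degLE k (e : ℤ) :=
  ⟨f.intDegree.toNat, Or.inr (Int.self_le_toNat _)⟩

theorem poly_mem_degLE (p : k[X]) : algebraMap k[X] (RatFunc k) p ∈ degLE k (p.natDegree : ℤ) :=
  Or.inr (le_of_eq RatFunc.intDegree_polynomial)

private theorem rat_num_lt {f : RatFunc k} (hf : f ∈ degLE k (-1)) :
    f.num.degree < f.denom.degree := by
  rcases hf with h | h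
  · subst h
    rw [RatFunc.num_zero, RatFunc.denom_zero, degree_zero, degree_one]
    exact WithBot.bot_lt_coe 0
  · rw [RatFunc.intDegree] at h
    have h1 : f.num.natDegree < f.denom.natDegree := by omega
    exact degree_lt_degree h1

/-- Clearing denominators of elements of negative degree. -/
theorem exists_common_denom {r : ℕ} (a : Fin r → RatFunc k) (ha : ∀ i, a i ∈ degLE k (-1)) :
    ∃ (s : k[X]) (p : Fin r → k[X]), s.Monic ∧ (∀ i, (p i).degree < s.degree) ∧
      ∀ i, algebraMap k[X] (RatFunc k) s * a i = algebraMap k[X] (RatFunc k) (p i) := by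
  classical
  refine ⟨∏ j, (a j).denom, fun i => (a i).num * ∏ j ∈ Finset.univ.erase i, (a j).denom,
    monic_prod_of_monic _ _ fun j _ => RatFunc.monic_denom _, ?_, ?_⟩
  · intro i
    rw [← Finset.mul_prod_erase Finset.univ (fun j => (a j).denom) (Finset.mem_univ i), degree_mul,
      degree_mul]
    have h1 : (∏ j ∈ Finset.univ.erase i, (a j).denom).degree ≠ ⊥ := by
      rw [Ne, degree_eq_bot]
      exact Finset.prod_ne_zero_iff.2 fun j _ => RatFunc.denom_ne_zero _
    exact WithBot.add_lt_add_right h1 (rat_num_lt (ha i))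
  · intro i
    have h1 : algebraMap k[X] (RatFunc k) (a i).denom * a i =
        algebraMap k[X] (RatFunc k) (a i).num := by
      have h2 : algebraMap k[X] (RatFunc k) (a i).denom ≠ 0 :=
        RatFunc.algebraMap_ne_zero (RatFunc.denom_ne_zero _)
      conv_lhs => rw [← RatFunc.num_div_denom (a i)]
      field_simp
      rw [RatFunc.num_div_denom]
    rw [← Finset.mul_prod_erase Finset.univ (fun j => (a j).denom) (Finset.mem_univ i), map_mul,
      map_mul, ← h1]
    ring

private theorem rat_decomp_zero (f : RatFunc k) : ∃ (p : k[X]) (r : RatFunc k),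
    r ∈ degLE k (-1) ∧ f = algebraMap k[X] (RatFunc k) p + r := by
  refine ⟨f.num / f.denom, algebraMap k[X] (RatFunc k) (f.num % f.denom) /
    algebraMap k[X] (RatFunc k) f.denom, ?_, ?_⟩
  · by_cases h0 : f.num % f.denom = 0
    · left
      rw [h0, map_zero, zero_div]
    · right
      rw [RatFunc.intDegree_div (RatFunc.algebraMap_ne_zero h0)
        (RatFunc.algebraMap_ne_zero (RatFunc.denom_ne_zero _)), RatFunc.intDegree_polynomial,
        RatFunc.intDegree_polynomial]
      have h1 : (f.num % f.denom).natDegree < f.denom.natDegree :=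
        natDegree_lt_natDegree h0 (EuclideanDomain.mod_lt _ (RatFunc.denom_ne_zero _))
      omega
  · have h2 : algebraMap k[X] (RatFunc k) f.denom ≠ 0 :=
      RatFunc.algebraMap_ne_zero (RatFunc.denom_ne_zero _)
    have h3 : algebraMap k[X] (RatFunc k) f.num =
        algebraMap k[X] (RatFunc k) f.denom * algebraMap k[X] (RatFunc k) (f.num / f.denom) +
          algebraMap k[X] (RatFunc k) (f.num % f.denom) := by
      rw [← map_mul, ← map_add, EuclideanDomain.div_add_mod]
    conv_lhs => rw [← RatFunc.num_div_denom f, h3]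
    rw [add_div, mul_div_cancel_left₀ _ h2]

/-- Polynomial part, finitely many polar terms, and a remainder of very negative degree. -/
theorem exists_decomp (m : ℕ) (f : RatFunc k) : ∃ (p : k[X]) (c : Fin m → k) (r : RatFunc k),
    r ∈ degLE k (-(m : ℤ) - 1) ∧
    f = algebraMap k[X] (RatFunc k) p + ∑ j, c j • (RatFunc.X : RatFunc k)⁻¹ ^ ((j : ℕ) + 1) + r := by
  induction m with
  | zero =>
    obtain ⟨p, r, hr, hf⟩ := rat_decomp_zero f
    refine ⟨p, Fin.elim0, r, ?_, ?_⟩
    · simpa using hr
    · simpa using hf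
  | succ m ih =>
    obtain ⟨p, c, r, hr, hf⟩ := ih
    obtain ⟨s, ρ, hρ, hs⟩ := rat_decomp_zero ((RatFunc.X : RatFunc k) ^ (m + 1) * r)
    have hX : (RatFunc.X : RatFunc k) ≠ 0 := RatFunc.X_ne_zero
    have hXd : ∀ n : ℕ, ((RatFunc.X : RatFunc k) ^ n).intDegree = n := by
      intro n
      have h1 : (RatFunc.X : RatFunc k) ^ n = algebraMap k[X] (RatFunc k) (X ^ n) := by
        rw [map_pow, RatFunc.algebraMap_X]
      rw [h1, RatFunc.intDegree_polynomial, natDegree_X_pow]
    have h1 : (RatFunc.X : RatFunc k) ^ (m + 1) * r ∈ degLE k 0 := by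
      have h2 := degLE_mul (k := k) (e := (m : ℤ) + 1) (f := (RatFunc.X : RatFunc k) ^ (m + 1))
        (Or.inr (by rw [hXd]; push_cast; exact le_rfl)) hr
      have h3 : ((m : ℤ) + 1) + (-(m : ℤ) - 1) = 0 := by ring
      rwa [h3] at h2
    have h2 : algebraMap k[X] (RatFunc k) s ∈ degLE k 0 := by
      have h3 : algebraMap k[X] (RatFunc k) s = (RatFunc.X : RatFunc k) ^ (m + 1) * r - ρ := by
        rw [hs, add_sub_cancel_right]
      rw [h3]
      exact Submodule.sub_mem _ h1 (degLE_mono (by norm_num) hρ)
    have h3 : s.natDegree = 0 := by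
      rcases h2 with h | h
      · have h4 : s = 0 := (map_eq_zero_iff _ (RatFunc.algebraMap_injective k)).1 h
        rw [h4, natDegree_zero]
      · rw [RatFunc.intDegree_polynomial] at h
        omega
    obtain ⟨c', hc'⟩ := natDegree_eq_zero.1 h3
    refine ⟨p, Fin.snoc c c', (RatFunc.X : RatFunc k)⁻¹ ^ (m + 1) * ρ, ?_, ?_⟩
    · have h5 : (RatFunc.X : RatFunc k)⁻¹ ^ (m + 1) ∈ degLE k (-((m : ℤ) + 1)) := by
        right
        rw [inv_pow, RatFunc.intDegree_inv, hXd]
        push_cast
        exact le_rfl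
      have h6 := degLE_mul h5 hρ
      have h7 : -((m : ℤ) + 1) + -1 = -((m + 1 : ℕ) : ℤ) - 1 := by push_cast; ring
      rwa [h7] at h6
    · have h8 : r = c' • (RatFunc.X : RatFunc k)⁻¹ ^ (m + 1) + (RatFunc.X : RatFunc k)⁻¹ ^ (m + 1) * ρ := by
        have h9 : (RatFunc.X : RatFunc k)⁻¹ ^ (m + 1) * (RatFunc.X : RatFunc k) ^ (m + 1) = 1 := by
          rw [← mul_pow, inv_mul_cancel₀ hX, one_pow]
        have h10 : algebraMap k[X] (RatFunc k) s = RatFunc.C c' := by
          rw [← hc', RatFunc.algebraMap_C]
        calc r = (RatFunc.X : RatFunc k)⁻¹ ^ (m + 1) * ((RatFunc.X : RatFunc k) ^ (m + 1) * r) := by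
              rw [← mul_assoc, h9, one_mul]
          _ = _ := by
              rw [hs, h10, RatFunc.smul_eq_C_mul]
              ring
      rw [Fin.sum_univ_castSucc]
      simp only [Fin.snoc_castSucc, Fin.snoc_last, Fin.val_castSucc, Fin.val_last]
      rw [hf]
      conv_lhs => rw [h8]
      ring

end Pool.Agent.GSM
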