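import Mathlib

/-!
# The regular representation of the integral closure of `k[h]`

MODULE GSM-Reg. PLAN. Give `L` the `k[X]`-algebra structure `X ↦ h` (`letI := (aeval h).toAlgebra`;
injective since `h` is transcendental) and show that `intCl k h` is the underlying set of
`integralClosure k[X] L` (`Algebra.adjoin k {h}` is the range of `aeval h`). `L` is a finite separable
extension of the fraction field of `k[X]`, so the integral closure is a finite free `k[X]`-module
(`IsIntegralClosure.isNoetherian`, torsion free over a PID; `IsIntegralClosure.module_free` or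
`Module.free_of_finite_type_torsion_free'`), of positive rank. `Λ` is `Algebra.leftMulMatrix` for a basis.
-/

noncomputable section

namespace Pool.Agent.GSM

open Polynomial

universe u v

/-- The elements of `L` that are integral over `k[h]`. -/
def intCl (k : Type u) [Field k] {L : Type v} [Field L] [Algebra k L] (h : L) : Subalgebra k L :=
  (integralClosure (Algebra.adjoin k {h}) L).restrictScalars k

theorem mem_intCl {k : Type u} [Field k] {L : Type v} [Field L] [Algebra k L] {h x : L} :
    x ∈ intCl k h ↔ IsIntegral (Algebra.adjoin k {h}) x := Iff.rfl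

theorem self_mem_intCl {k : Type u} [Field k] {L : Type v} [Field L] [Algebra k L] (h : L) :
    h ∈ intCl k h := by
  rw [mem_intCl]
  exact isIntegral_algebraMap (R := Algebra.adjoin k {h}) (A := L)
    (x := ⟨h, Algebra.self_mem_adjoin_singleton k h⟩)

/-- The regular representation of `S` over `k[h]`, where `h` is a variable. -/
structure RegRep (k : Type u) [Field k] {L : Type v} [Field L] [Algebra k L] (S : Subalgebra k L)
    (h : S) where
  d : ℕ
  Λ : S →ₐ[k] Matrix (Fin (d + 1)) (Fin (d + 1)) k[X]
  b : Fin (d + 1) → S
  mul_b : ∀ s j, s * b j = ∑ i, aeval h (Λ s i j) * b i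
  one_b : ∃ c : Fin (d + 1) → k[X], 1 = ∑ i, aeval h (c i) * b i
  map_h : Λ h = Matrix.scalar _ X

/-- elements of `intCl k h` as elements of the integral closure -/
private def regC (k : Type u) [Field k] {L : Type v} [Field L] [Algebra k L] (h : L) :
    intCl k h →ₐ[k] integralClosure (Algebra.adjoin k {h}) L where
  toFun s := ⟨s.1, s.2⟩
  map_one' := rfl
  map_mul' _ _ := rfl
  map_zero' := rfl
  map_add' _ _ := rfl
  commutes' _ := rfl

open scoped IntermediateField.algebraAdjoinAdjoin in
private theorem reg_basis {k : Type u} [Field k] [CharZero k] {L : Type v} [Field L] [Algebra k L]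
    (h : L) (hh : Transcendental k h)
    (hfin : FiniteDimensional (IntermediateField.adjoin k {h}) L) :
    ∃ d : ℕ, Nonempty (Module.Basis (Fin (d + 1)) (Algebra.adjoin k {h})
      (integralClosure (Algebra.adjoin k {h}) L)) := by
  have e := Polynomial.algEquivOfTranscendental k h hh
  haveI h1 : IsPrincipalIdealRing (Algebra.adjoin k {h}) :=
    IsPrincipalIdealRing.of_surjective (e : k[X] →+* Algebra.adjoin k {h}) e.surjective
  haveI h2 : Module.Free (Algebra.adjoin k {h}) (integralClosure (Algebra.adjoin k {h}) L) :=
    IsIntegralClosure.module_free _ (IntermediateField.adjoin k {h}) L _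
  haveI h3 : Module.Finite (Algebra.adjoin k {h}) (integralClosure (Algebra.adjoin k {h}) L) :=
    IsIntegralClosure.finite _ (IntermediateField.adjoin k {h}) L _
  have h4 : 0 < Module.finrank (Algebra.adjoin k {h}) (integralClosure (Algebra.adjoin k {h}) L) :=
    Module.finrank_pos
  obtain ⟨d, hd⟩ := Nat.exists_eq_succ_of_ne_zero h4.ne'
  exact ⟨d, ⟨Module.finBasisOfFinrankEq _ _ hd⟩⟩

theorem exists_regRep {k : Type u} [Field k] [CharZero k] {L : Type v} [Field L] [Algebra k L]
    (h : L) (hh : Transcendental k h)
    (hfin : FiniteDimensional (IntermediateField.adjoin k {h}) L) :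
    Nonempty (RegRep k (intCl k h) ⟨h, self_mem_intCl h⟩) := by
  classical
  obtain ⟨d, ⟨b⟩⟩ := reg_basis h hh hfin
  set e : k[X] ≃ₐ[k] Algebra.adjoin k {h} := Polynomial.algEquivOfTranscendental k h hh with he
  have hev : ∀ a : Algebra.adjoin k {h}, aeval h (e.symm a) = (a : L) := by
    intro a
    have h1 : e (e.symm a) = a := e.apply_symm_apply a
    have h2 : ((e (e.symm a) : Algebra.adjoin k {h}) : L) = aeval h (e.symm a) := by
      rw [he, Polynomial.algEquivOfTranscendental_apply]
      exact (Polynomial.aeval_algHom_apply (Algebra.adjoin k {h}).val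
        (⟨h, Algebra.self_mem_adjoin_singleton k h⟩ : Algebra.adjoin k {h}) _).symm
    rw [← h2, h1]
  have hevS : ∀ a : Algebra.adjoin k {h},
      ((aeval (⟨h, self_mem_intCl h⟩ : intCl k h) (e.symm a) : intCl k h) : L) = (a : L) := by
    intro a
    rw [← hev a]
    exact (Polynomial.aeval_algHom_apply (intCl k h).val
      (⟨h, self_mem_intCl h⟩ : intCl k h) _).symm
  have hrep : ∀ x : integralClosure (Algebra.adjoin k {h}) L,
      (x : L) = ∑ i, ((b.repr x i : Algebra.adjoin k {h}) : L) * (b i : L) := by
    intro x
    have h1 := congrArg (fun y : integralClosure (Algebra.adjoin k {h}) L => (y : L))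
      (b.sum_repr x)
    rw [← h1]
    simp only [AddSubmonoidClass.coe_finset_sum]
    rfl
  refine ⟨
    { d := d
      Λ := (AlgHom.mapMatrix (e.symm : Algebra.adjoin k {h} →ₐ[k] k[X])).comp
        (((Algebra.leftMulMatrix b).restrictScalars k).comp (regC k h))
      b := fun i => ⟨(b i).1, (b i).2⟩
      mul_b := ?_
      one_b := ?_
      map_h := ?_ }⟩
  · intro s j
    apply Subtype.ext
    have h1 := hrep (regC k h s * b j)
    rw [AddSubmonoidClass.coe_finset_sum]
    calc ((s * (⟨(b j).1, (b j).2⟩ : intCl k h) : intCl k h) : L)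
        = ((regC k h s * b j : integralClosure (Algebra.adjoin k {h}) L) : L) := rfl
      _ = _ := h1
      _ = _ := by
        refine Finset.sum_congr rfl fun i _ => ?_
        have h2 : b.repr (regC k h s * b j) i = Algebra.leftMulMatrix b (regC k h s) i j :=
          (Algebra.leftMulMatrix_eq_repr_mul b (regC k h s) i j).symm
        rw [h2]
        show _ = ((aeval (⟨h, self_mem_intCl h⟩ : intCl k h)
          (e.symm (Algebra.leftMulMatrix b (regC k h s) i j)) : intCl k h) : L) * (b i : L)
        rw [hevS]
  · refine ⟨fun i => e.symm (b.repr 1 i), ?_⟩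
    apply Subtype.ext
    rw [AddSubmonoidClass.coe_finset_sum]
    calc ((1 : intCl k h) : L)
        = ((1 : integralClosure (Algebra.adjoin k {h}) L) : L) := rfl
      _ = _ := hrep 1
      _ = _ := by
        refine Finset.sum_congr rfl fun i _ => ?_
        show _ = ((aeval (⟨h, self_mem_intCl h⟩ : intCl k h)
          (e.symm (b.repr 1 i)) : intCl k h) : L) * (b i : L)
        rw [hevS]
  · have h1 : regC k h ⟨h, self_mem_intCl h⟩ = algebraMap (Algebra.adjoin k {h})
        (integralClosure (Algebra.adjoin k {h}) L)
          ⟨h, Algebra.self_mem_adjoin_singleton k h⟩ := rfl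
    have h2 : Algebra.leftMulMatrix b (regC k h ⟨h, self_mem_intCl h⟩) =
        algebraMap (Algebra.adjoin k {h}) (Matrix (Fin (d + 1)) (Fin (d + 1)) _)
          ⟨h, Algebra.self_mem_adjoin_singleton k h⟩ := by
      rw [h1]
      exact (Algebra.leftMulMatrix b).commutes _
    have h3 : e.symm ⟨h, Algebra.self_mem_adjoin_singleton k h⟩ = X :=
      Polynomial.algEquivOfTranscendental_symm_gen k h hh
    show (Algebra.leftMulMatrix b (regC k h ⟨h, self_mem_intCl h⟩)).map
      (e.symm : Algebra.adjoin k {h} →ₐ[k] k[X]) = Matrix.scalar _ X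
    rw [h2]
    ext i j : 1
    rw [Matrix.map_apply, Matrix.algebraMap_matrix_apply, Matrix.scalar_apply,
      Matrix.diagonal_apply]
    by_cases hij : i = j
    · rw [if_pos hij, if_pos hij]
      exact h3
    · rw [if_neg hij, if_neg hij]
      exact map_zero _

end Pool.Agent.GSM
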