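import Pool.Agent.GSM.Ops

/-!
# The semiring of conjugacy classes of tuples

MODULE GSM-Semi. All laws hold up to a permutation of the basis.
PLAN. For each law: `cls_surj` (write the classes as `cls A`, `cls B`, `cls C`), `addQ_cls`,
`mulQ_cls`, then `cls_eq_iff` and the isomorphism is a permutation matrix: prove first a lemma
`iso_of_equiv : (e : ι ≃ κ) → (∀ s i j, A.mat s i j = B.mat s (e i) (e j)) → A.Iso B`
(use `iso_reindex`), and apply it with `Equiv.sumComm`, `Equiv.sumAssoc`, `Equiv.prodComm`,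
`Equiv.prodAssoc`, `Equiv.sumProdDistrib`, `Equiv.emptySum`, `Equiv.punitProd`, ...
-/

noncomputable section

namespace Pool.Agent.GSM

open Matrix Kronecker

universe u v w

namespace Tup

variable {ι κ σ : Type} [Fintype ι] [DecidableEq ι] [Fintype κ] [DecidableEq κ]
  {R : Type u} [CommRing R]

theorem iso_of_equiv {A : Tup ι σ R} {B : Tup κ σ R} (e : ι ≃ κ)
    (h : ∀ s i j, A.mat s i j = B.mat s (e i) (e j)) : A.Iso B := by
  have h1 : A.reindex e = B := by
    apply Tup.ext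
    funext s
    ext i j
    have h2 := h s (e.symm i) (e.symm j)
    rw [e.apply_symm_apply, e.apply_symm_apply] at h2
    exact h2
  rw [← h1]
  exact (iso_reindex e A).symm

end Tup

namespace TupQ

variable (σ : Type) (R : Type u) [CommRing R]

instance : Zero (TupQ σ R) := ⟨cls (Tup.triv (Fin 0) σ R)⟩

instance : One (TupQ σ R) := ⟨cls (Tup.triv Unit σ R)⟩

instance : Add (TupQ σ R) := ⟨addQ⟩

instance : Mul (TupQ σ R) := ⟨mulQ⟩

instance : CommSemiring (TupQ σ R) where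
  nsmul := nsmulRec
  add_assoc := by
    intro x y z
    obtain ⟨_, A, rfl⟩ := cls_surj x
    obtain ⟨_, B, rfl⟩ := cls_surj y
    obtain ⟨_, C, rfl⟩ := cls_surj z
    change addQ (addQ (cls A) (cls B)) (cls C) = addQ (cls A) (addQ (cls B) (cls C))
    rw [addQ_cls, addQ_cls, addQ_cls, addQ_cls, cls_eq_iff]
    refine Tup.iso_of_equiv (Equiv.sumAssoc _ _ _) ?_
    rintro s ((i | i) | i) ((j | j) | j) <;> rfl
  zero_add := by
    intro x
    obtain ⟨_, A, rfl⟩ := cls_surj x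
    change addQ (cls (Tup.triv (Fin 0) σ R)) (cls A) = cls A
    rw [addQ_cls, cls_eq_iff]
    refine Tup.iso_of_equiv (Equiv.emptySum _ _) ?_
    rintro s (i | i) (j | j)
    · exact i.elim0
    · exact i.elim0
    · exact j.elim0
    · rfl
  add_zero := by
    intro x
    obtain ⟨_, A, rfl⟩ := cls_surj x
    change addQ (cls A) (cls (Tup.triv (Fin 0) σ R)) = cls A
    rw [addQ_cls, cls_eq_iff]
    refine Tup.iso_of_equiv (Equiv.sumEmpty _ _) ?_
    rintro s (i | i) (j | j)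
    · rfl
    · exact j.elim0
    · exact i.elim0
    · exact i.elim0
  add_comm := by
    intro x y
    obtain ⟨_, A, rfl⟩ := cls_surj x
    obtain ⟨_, B, rfl⟩ := cls_surj y
    change addQ (cls A) (cls B) = addQ (cls B) (cls A)
    rw [addQ_cls, addQ_cls, cls_eq_iff]
    refine Tup.iso_of_equiv (Equiv.sumComm _ _) ?_
    rintro s (i | i) (j | j) <;> rfl
  mul_assoc := by
    intro x y z
    obtain ⟨_, A, rfl⟩ := cls_surj x
    obtain ⟨_, B, rfl⟩ := cls_surj y
    obtain ⟨_, C, rfl⟩ := cls_surj z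
    change mulQ (mulQ (cls A) (cls B)) (cls C) = mulQ (cls A) (mulQ (cls B) (cls C))
    rw [mulQ_cls, mulQ_cls, mulQ_cls, mulQ_cls, cls_eq_iff]
    refine Tup.iso_of_equiv (Equiv.prodAssoc _ _ _) ?_
    rintro s ⟨⟨i, i'⟩, i''⟩ ⟨⟨j, j'⟩, j''⟩
    exact mul_assoc (A.mat s i j) (B.mat s i' j') (C.mat s i'' j'')
  one_mul := by
    intro x
    obtain ⟨_, A, rfl⟩ := cls_surj x
    change mulQ (cls (Tup.triv Unit σ R)) (cls A) = cls A
    rw [mulQ_cls, cls_eq_iff]
    refine Tup.iso_of_equiv (Equiv.punitProd _) ?_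
    rintro s ⟨⟨⟩, i⟩ ⟨⟨⟩, j⟩
    exact one_mul (A.mat s i j)
  mul_one := by
    intro x
    obtain ⟨_, A, rfl⟩ := cls_surj x
    change mulQ (cls A) (cls (Tup.triv Unit σ R)) = cls A
    rw [mulQ_cls, cls_eq_iff]
    refine Tup.iso_of_equiv (Equiv.prodPUnit _) ?_
    rintro s ⟨i, ⟨⟩⟩ ⟨j, ⟨⟩⟩
    exact mul_one (A.mat s i j)
  mul_comm := by
    intro x y
    obtain ⟨_, A, rfl⟩ := cls_surj x
    obtain ⟨_, B, rfl⟩ := cls_surj y
    change mulQ (cls A) (cls B) = mulQ (cls B) (cls A)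
    rw [mulQ_cls, mulQ_cls, cls_eq_iff]
    refine Tup.iso_of_equiv (Equiv.prodComm _ _) ?_
    rintro s ⟨i, i'⟩ ⟨j, j'⟩
    exact mul_comm (A.mat s i j) (B.mat s i' j')
  left_distrib := by
    intro x y z
    obtain ⟨_, A, rfl⟩ := cls_surj x
    obtain ⟨_, B, rfl⟩ := cls_surj y
    obtain ⟨_, C, rfl⟩ := cls_surj z
    change mulQ (cls A) (addQ (cls B) (cls C)) =
      addQ (mulQ (cls A) (cls B)) (mulQ (cls A) (cls C))
    rw [addQ_cls, mulQ_cls, mulQ_cls, mulQ_cls, addQ_cls, cls_eq_iff]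
    refine Tup.iso_of_equiv (Equiv.prodSumDistrib _ _ _) ?_
    rintro s ⟨i, i' | i'⟩ ⟨j, j' | j'⟩
    · rfl
    · exact mul_zero (A.mat s i j)
    · exact mul_zero (A.mat s i j)
    · rfl
  right_distrib := by
    intro x y z
    obtain ⟨_, A, rfl⟩ := cls_surj x
    obtain ⟨_, B, rfl⟩ := cls_surj y
    obtain ⟨_, C, rfl⟩ := cls_surj z
    change mulQ (addQ (cls A) (cls B)) (cls C) =
      addQ (mulQ (cls A) (cls C)) (mulQ (cls B) (cls C))
    rw [addQ_cls, mulQ_cls, mulQ_cls, mulQ_cls, addQ_cls, cls_eq_iff]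
    refine Tup.iso_of_equiv (Equiv.sumProdDistrib _ _ _) ?_
    rintro s ⟨i | i, i'⟩ ⟨j | j, j'⟩
    · rfl
    · exact zero_mul (C.mat s i' j')
    · exact zero_mul (C.mat s i' j')
    · rfl
  zero_mul := by
    intro x
    obtain ⟨_, A, rfl⟩ := cls_surj x
    change mulQ (cls (Tup.triv (Fin 0) σ R)) (cls A) = cls (Tup.triv (Fin 0) σ R)
    rw [mulQ_cls, cls_eq_iff]
    refine Tup.iso_of_equiv (Equiv.equivOfIsEmpty _ _) ?_
    rintro s ⟨i, i'⟩
    exact i.elim0
  mul_zero := by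
    intro x
    obtain ⟨_, A, rfl⟩ := cls_surj x
    change mulQ (cls A) (cls (Tup.triv (Fin 0) σ R)) = cls (Tup.triv (Fin 0) σ R)
    rw [mulQ_cls, cls_eq_iff]
    refine Tup.iso_of_equiv (Equiv.equivOfIsEmpty _ _) ?_
    rintro s ⟨i, i'⟩
    exact i'.elim0

variable {σ} {R}

theorem cls_add {ι κ : Type} [Fintype ι] [DecidableEq ι] [Fintype κ] [DecidableEq κ]
    (A : Tup ι σ R) (B : Tup κ σ R) : cls (A.add B) = cls A + cls B :=
  (addQ_cls A B).symm

theorem cls_mul {ι κ : Type} [Fintype ι] [DecidableEq ι] [Fintype κ] [DecidableEq κ]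
    (A : Tup ι σ R) (B : Tup κ σ R) : cls (A.mul B) = cls A * cls B :=
  (mulQ_cls A B).symm

theorem cls_zero : cls (Tup.triv (Fin 0) σ R) = 0 := rfl

theorem cls_one : cls (Tup.triv Unit σ R) = 1 := rfl

end TupQ

end Pool.Agent.GSM
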