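import Pool.Agent.GSM.CurveLink

/-!
# Lowering the transcendence degree of a point

MODULE GSM-Step. `B = p.range` has a transcendence basis `s` over `k` with `n + 1` elements; let `a`
be one of them. `k₁` is the relative algebraic closure in `K` of the field generated by the others,
`L = k₁(B)`, `C = k₁[B]`; `L` has transcendence degree one over `k₁`, and `curve_linked` applies.
-/

noncomputable section

namespace Pool.Agent.GSM

universe u v

/-- algebraic over `R` implies algebraic over `S` if the image of `R` is in the image of `S` -/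
private theorem step_lift {R S K : Type*} [CommRing R] [CommRing S] [Field K] (f : R →+* K)
    (hf : Function.Injective f) (g : S →+* K) (h : ∀ r, f r ∈ g.range) (x : K)
    (hx : ∃ P : Polynomial R, P ≠ 0 ∧ P.eval₂ f x = 0) :
    ∃ P : Polynomial S, P ≠ 0 ∧ P.eval₂ g x = 0 := by
  obtain ⟨P, hP, h0⟩ := hx
  have h1 : P.map f ∈ Polynomial.lifts g := by
    rw [Polynomial.lifts_iff_coeff_lifts]
    intro n
    rw [Polynomial.coeff_map]
    exact h _
  rw [Polynomial.mem_lifts] at h1
  obtain ⟨Q, hQ⟩ := h1
  refine ⟨Q, ?_, ?_⟩
  · rintro rfl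
    rw [Polynomial.map_zero] at hQ
    exact hP ((Polynomial.map_eq_zero_iff hf).1 hQ.symm)
  · rw [← Polynomial.eval_map, hQ, Polynomial.eval_map, h0]

/-- algebraicity over the algebra generated by a set in an intermediate field -/
private theorem step_descend {F E K : Type*} [Field F] [Field E] [Field K] [Algebra F E]
    [Algebra E K] [Algebra F K] [IsScalarTower F E K] (s : Set E) (y : E)
    (h : IsAlgebraic (Algebra.adjoin F (algebraMap E K '' s)) (algebraMap E K y)) :
    IsAlgebraic (Algebra.adjoin F s) y := by
  obtain ⟨P, hP, h0⟩ := h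
  have h1 : ∃ Q : Polynomial (Algebra.adjoin F s), Q ≠ 0 ∧
      Q.eval₂ ((algebraMap E K).comp (algebraMap (Algebra.adjoin F s) E)) (algebraMap E K y) = 0 := by
    refine step_lift (algebraMap (Algebra.adjoin F (algebraMap E K '' s)) K)
      Subtype.val_injective _ ?_ _ ⟨P, hP, h0⟩
    rintro ⟨r, hr⟩
    have h2 : Algebra.adjoin F (algebraMap E K '' s) =
        (Algebra.adjoin F s).map (IsScalarTower.toAlgHom F E K) := by
      rw [AlgHom.map_adjoin]
      rfl
    rw [h2] at hr
    obtain ⟨z, hz, hzr⟩ := hr
    exact ⟨⟨z, hz⟩, hzr⟩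
  obtain ⟨Q, hQ, hQ0⟩ := h1
  refine ⟨Q, hQ, ?_⟩
  rw [Polynomial.aeval_def]
  apply (algebraMap E K).injective
  rw [Polynomial.hom_eval₂, hQ0, map_zero]

theorem exists_step {k : Type u} [Field k] [IsAlgClosed k] [CharZero k] {K : Type u} [Field K]
    [IsAlgClosed K] [Algebra k K] {R : Type v} [CommRing R] [Algebra k R]
    [Algebra.FiniteType k R] (p : R →ₐ[k] K) (n : ℕ) (h : Algebra.trdeg k p.range = n + 1) :
    ∃ (q : R →ₐ[k] K) (D : ℕ), Algebra.trdeg k q.range ≤ n ∧
      Linked (p : R →+* K) (q : R →+* K) D := by
  classical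
  obtain ⟨s, hs⟩ := exists_isTranscendenceBasis k p.range
  have hcard : Cardinal.mk s = n + 1 := by rw [hs.cardinalMk_eq_trdeg, h]
  have hne : Nonempty s := by
    rw [← Cardinal.mk_ne_zero_iff, hcard]
    exact_mod_cast Nat.succ_ne_zero n
  obtain ⟨a⟩ := hne
  have hcard2 : Cardinal.mk ({a}ᶜ : Set s) = n := by
    have h1 := Cardinal.mk_sum_compl ({a} : Set s)
    rw [hcard, Cardinal.mk_singleton, add_comm] at h1
    exact Cardinal.add_one_inj.1 h1
  -- the basis in `K`
  obtain ⟨x, hx⟩ : ∃ x : s → K, x = fun i : s => ((i : p.range) : K) := ⟨_, rfl⟩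
  have hind : AlgebraicIndependent k x := by
    rw [hx]
    exact hs.1.map' (f := p.range.val) Subtype.val_injective
  obtain ⟨T0, hT0⟩ : ∃ T0 : Set K, T0 = x '' {a}ᶜ := ⟨_, rfl⟩
  obtain ⟨t, ht⟩ : ∃ t : K, t = x a := ⟨_, rfl⟩
  have htp : t ∈ p.range := by
    rw [ht, hx]
    exact (a : p.range).2
  have htr1 : Transcendental (Algebra.adjoin k T0) t := by
    rw [hT0, ht]
    exact hind.transcendental_adjoin (by simp)
  have hT0c : Cardinal.mk T0 ≤ n := by
    rw [hT0, ← hcard2]
    exact Cardinal.mk_image_le
  let F : IntermediateField k K := IntermediateField.adjoin k T0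
  have htrF : Transcendental F t := IntermediateField.transcendental_adjoin_iff.2 htr1
  let k₁ : IntermediateField F K := algebraicClosure F K
  have hst : IsScalarTower k k₁ K := IsScalarTower.of_algebraMap_eq (fun c => rfl)
  have hk₁ : IsAlgClosed k₁ := IsAlgClosure.isAlgClosed F
  have hk₁c : CharZero k₁ := charZero_of_injective_algebraMap (algebraMap k k₁).injective
  have htrk : AlgebraicIndependent k₁ (fun _ : PUnit.{u + 1} => t) :=
    AlgebraicIndependent.algebraicClosure (algebraicIndependent_unique_type_iff.2 htrF)
  -- the transcendence degree of `k₁`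
  have hk₁d : Algebra.trdeg k k₁ ≤ n := by
    have h1 : Algebra.IsAlgebraic
        (Algebra.adjoin k ((fun y : k₁ => (y : K)) ⁻¹' T0)) k₁ := by
      constructor
      intro y
      refine step_descend (K := K) _ _ ?_
      have h2 : algebraMap k₁ K '' ((fun y : k₁ => (y : K)) ⁻¹' T0) = T0 := by
        refine Set.image_preimage_eq_of_subset ?_
        intro z hz
        have hzF : z ∈ F := IntermediateField.subset_adjoin k T0 hz
        exact ⟨algebraMap F k₁ ⟨z, hzF⟩, rfl⟩
      rw [h2, ← IntermediateField.isAlgebraic_adjoin_iff]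
      exact mem_algebraicClosure_iff.1 y.2
    refine (Algebra.IsAlgebraic.trdeg_le_cardinalMk k
      ((fun y : k₁ => (y : K)) ⁻¹' T0)).trans ?_
    exact (Cardinal.mk_preimage_of_injective _ _ Subtype.val_injective).trans hT0c
  -- the fields and algebras
  let L : IntermediateField k₁ K := IntermediateField.adjoin k₁ (p.range : Set K)
  have hpL : ∀ r : R, p r ∈ L := fun r =>
    IntermediateField.subset_adjoin k₁ _ ⟨r, rfl⟩
  obtain ⟨S, hS⟩ := Algebra.FiniteType.out (R := k) (A := R)
  let C : Subalgebra k₁ L := Algebra.adjoin k₁ ((fun r : R => (⟨p r, hpL r⟩ : L)) '' (S : Set R))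
  have hC : C.FG := by
    rw [Subalgebra.fg_def]
    exact ⟨_, (S.finite_toSet.image _), rfl⟩
  have hpC : ∀ r : R, (⟨p r, hpL r⟩ : L) ∈ C := by
    intro r
    have hr : r ∈ Algebra.adjoin k (S : Set R) := by
      rw [hS]
      exact Algebra.mem_top
    induction hr using Algebra.adjoin_induction with
    | mem y hy => exact Algebra.subset_adjoin ⟨y, hy, rfl⟩
    | algebraMap c =>
      have : (⟨p (algebraMap k R c), hpL _⟩ : L) = algebraMap k₁ L (algebraMap k k₁ c) := by
        apply Subtype.ext
        change p (algebraMap k R c) = algebraMap k K c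
        exact p.commutes c
      rw [this]
      exact C.algebraMap_mem _
    | add y z _ _ hy hz =>
      have : (⟨p (y + z), hpL _⟩ : L) = ⟨p y, hpL y⟩ + ⟨p z, hpL z⟩ := by
        apply Subtype.ext
        exact map_add p y z
      rw [this]
      exact C.add_mem hy hz
    | mul y z _ _ hy hz =>
      have : (⟨p (y * z), hpL _⟩ : L) = ⟨p y, hpL y⟩ * ⟨p z, hpL z⟩ := by
        apply Subtype.ext
        exact map_mul p y z
      rw [this]
      exact C.mul_mem hy hz
  have hgen : IntermediateField.adjoin k₁ (C : Set L) = ⊤ := by
    rw [eq_top_iff]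
    intro y _
    rw [← IntermediateField.mem_lift]
    have h1 : L ≤ IntermediateField.lift (IntermediateField.adjoin k₁ (C : Set L)) := by
      rw [IntermediateField.adjoin_le_iff]
      rintro _ ⟨r, rfl⟩
      refine (IntermediateField.mem_lift (⟨p r, hpL r⟩ : L)).2 ?_
      exact IntermediateField.subset_adjoin k₁ _ (hpC r)
    exact h1 y.2
  have htr : Algebra.trdeg k₁ L = 1 := by
    have htL : t ∈ L := IntermediateField.subset_adjoin k₁ _ htp
    have hb : IsTranscendenceBasis k₁ (fun _ : PUnit.{u + 1} => (⟨t, htL⟩ : L)) := by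
      rw [isTranscendenceBasis_iff_algebraicIndependent_isAlgebraic]
      refine ⟨?_, ?_⟩
      · exact AlgebraicIndependent.of_comp L.val htrk
      · constructor
        intro y
        refine step_descend (K := K) _ _ ?_
        have h2 : algebraMap L K '' (Set.range fun _ : PUnit.{u + 1} => (⟨t, htL⟩ : L)) = {t} := by
          ext z
          simp only [Set.range_const, Set.image_singleton, Set.mem_singleton_iff]
          rfl
        rw [h2, ← IntermediateField.isAlgebraic_adjoin_iff]
        let M : IntermediateField k₁ K := IntermediateField.adjoin k₁ {t}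
        have hkM : ∀ z : K, z ∈ k₁ → z ∈ M := fun z hz =>
          M.algebraMap_mem (⟨z, hz⟩ : k₁)
        have h3 : L ≤ (algebraicClosure M K).restrictScalars k₁ := by
          rw [IntermediateField.adjoin_le_iff]
          rintro _ ⟨r, rfl⟩
          rw [SetLike.mem_coe, IntermediateField.mem_restrictScalars, mem_algebraicClosure_iff]
          have h4 := hs.isAlgebraic.isAlgebraic (⟨p r, r, rfl⟩ : p.range)
          obtain ⟨P, hP, hP0⟩ := h4
          have h5 : ∃ Q : Polynomial M, Q ≠ 0 ∧ Q.eval₂ (algebraMap M K) (p r) = 0 := by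
            refine step_lift ((algebraMap p.range K).comp (algebraMap
              (Algebra.adjoin k (Set.range ((↑) : s → p.range))) p.range))
              (Subtype.val_injective.comp Subtype.val_injective) _ ?_ _ ⟨P, hP, ?_⟩
            · rintro ⟨z, hz⟩
              change (z : K) ∈ _
              have h6 : (z : K) ∈ M := by
                induction hz using Algebra.adjoin_induction with
                | mem y hy =>
                  obtain ⟨i, rfl⟩ := hy
                  by_cases hi : i = a
                  · have : (((i : p.range) : K)) = t := by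
                      rw [ht, hx, hi]
                    rw [this]
                    exact IntermediateField.subset_adjoin k₁ _ rfl
                  · have h7 : (((i : p.range) : K)) ∈ T0 := by
                      rw [hT0, hx]
                      exact ⟨i, hi, rfl⟩
                    have h8 : (((i : p.range) : K)) ∈ F := IntermediateField.subset_adjoin k T0 h7
                    exact hkM _ (k₁.algebraMap_mem (⟨_, h8⟩ : F))
                | algebraMap c =>
                  exact hkM _ (algebraMap k k₁ c).2
                | add y z _ _ hy hz => exact M.add_mem hy hz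
                | mul y z _ _ hy hz => exact M.mul_mem hy hz
              exact ⟨⟨z, h6⟩, rfl⟩
            · have h9 := congrArg (algebraMap p.range K) hP0
              rw [map_zero, Polynomial.aeval_def, Polynomial.hom_eval₂] at h9
              exact h9
          obtain ⟨Q, hQ, hQ0⟩ := h5
          exact ⟨Q, hQ, by rw [Polynomial.aeval_def]; exact hQ0⟩
        have h4 := h3 y.2
        rw [IntermediateField.mem_restrictScalars, mem_algebraicClosure_iff] at h4
        exact h4
    rw [← hb.cardinalMk_eq_trdeg]
    simp
  obtain ⟨q', D, hq'⟩ := curve_linked C hC hgen htr L.val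
  let gL : R →+* L := (p : R →+* K).codRestrict L hpL
  let g : R →+* C := gL.codRestrict C hpC
  have hq2 := hq'.comp g
  have hgc : ∀ c : k, g (algebraMap k R c) = algebraMap k₁ C (algebraMap k k₁ c) := by
    intro c
    apply Subtype.ext
    apply Subtype.ext
    change p (algebraMap k R c) = algebraMap k K c
    exact p.commutes c
  let q'' : R →ₐ[k] k₁ :=
    { (q' : C →+* k₁).comp g with
      commutes' := fun c => by
        change q' (g (algebraMap k R c)) = _
        rw [hgc, q'.commutes]
        rfl }
  refine ⟨(IsScalarTower.toAlgHom k k₁ K).comp q'', D, ?_, ?_⟩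
  · refine le_trans ?_ hk₁d
    have h1 : ((IsScalarTower.toAlgHom k k₁ K).comp q'').range ≤
        (IsScalarTower.toAlgHom k k₁ K).range := AlgHom.range_comp_le_range _ _
    refine (trdeg_le_of_injective (Subalgebra.inclusion h1)
      (Subalgebra.inclusion_injective h1)).trans ?_
    exact trdeg_le_of_surjective (IsScalarTower.toAlgHom k k₁ K).rangeRestrict
      (AlgHom.rangeRestrict_surjective _)
  · exact hq2

end Pool.Agent.GSM
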