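import Pool.Agent.GSM.Bd

/-!
# Block triangular homomorphisms are homotopic to their diagonal part

If `s ↦ fromBlocks (Λ₁ s) (N s) 0 (Λ₂ s)` is a ring homomorphism then so is
`s ↦ fromBlocks (C Λ₁ s) (X * C N s) 0 (C Λ₂ s)` over `R[X]`; its ends are the given homomorphism
(`e = true`) and the block diagonal one (`e = false`).
-/

noncomputable section

namespace Pool.Agent.GSM

open Matrix Kronecker Polynomial

universe u v w u'

section

variable {I σ : Type} [DecidableEq I] [DecidableEq σ]
  {δ ε : Type} [Fintype δ] [DecidableEq δ] [Fintype ε] [DecidableEq ε]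
variable {S : Type u} {R : Type v} [CommRing S] [CommRing R]

omit [Fintype δ] in
private theorem tri_map_one : ((1 : Matrix δ δ R).map C : Matrix δ δ R[X]) = 1 :=
  Matrix.map_one _ C_0 C_1

omit [Fintype δ] [DecidableEq δ] [Fintype ε] [DecidableEq ε] in
private theorem tri_map_zero : ((0 : Matrix δ ε R).map C : Matrix δ ε R[X]) = 0 :=
  Matrix.map_zero _ C_0

omit [Fintype δ] [DecidableEq δ] [Fintype ε] [DecidableEq ε] in
private theorem tri_map_add (A B : Matrix δ ε R) :
    ((A + B).map C : Matrix δ ε R[X]) = A.map C + B.map C :=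
  Matrix.map_add _ (fun _ _ => C_add) A B

private theorem tri_map_mul {δ' ε' ζ' : Type} [Fintype ε'] (A : Matrix δ' ε' R)
    (B : Matrix ε' ζ' R) : ((A * B).map C : Matrix δ' ζ' R[X]) = A.map C * B.map C :=
  Matrix.map_mul

theorem corr_triangular {a : Set I} {b : Set σ} (Λ : S →+* Matrix (δ ⊕ ε) (δ ⊕ ε) R)
    (Λ₁ : S →+* Matrix δ δ R) (Λ₂ : S →+* Matrix ε ε R) (N : S → Matrix δ ε R)
    (h : ∀ s, Λ s = Matrix.fromBlocks (Λ₁ s) (N s) 0 (Λ₂ s)) {x : GG I σ S}
    (hx : IsCubeOn a b x) :
    BdOn a b (GG.corr Λ x - (GG.corr Λ₁ x + GG.corr Λ₂ x)) := by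
  have hN0 : N 0 = 0 := by
    have h1 := h 0
    rw [map_zero, map_zero, map_zero, ← Matrix.fromBlocks_zero, Matrix.fromBlocks_inj] at h1
    exact h1.2.1.symm
  have hN1 : N 1 = 0 := by
    have h1 := h 1
    rw [map_one, map_one, map_one, ← Matrix.fromBlocks_one, Matrix.fromBlocks_inj] at h1
    exact h1.2.1.symm
  have hNadd : ∀ s t, N (s + t) = N s + N t := by
    intro s t
    have h1 := h (s + t)
    rw [map_add, h s, h t, Matrix.fromBlocks_add, Matrix.fromBlocks_inj] at h1
    exact h1.2.1.symm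
  have hNmul : ∀ s t, N (s * t) = Λ₁ s * N t + N s * Λ₂ t := by
    intro s t
    have h1 := h (s * t)
    rw [map_mul, h s, h t, Matrix.fromBlocks_multiply, Matrix.fromBlocks_inj] at h1
    exact h1.2.1.symm
  obtain ⟨Tri, hTri⟩ : ∃ Tri : S →+* Matrix (δ ⊕ ε) (δ ⊕ ε) R[X], ∀ s, Tri s =
      Matrix.fromBlocks ((Λ₁ s).map C) ((X : R[X]) • (N s).map C) 0 ((Λ₂ s).map C) := by
    refine ⟨
      { toFun := fun s => Matrix.fromBlocks ((Λ₁ s).map C) ((X : R[X]) • (N s).map C) 0
          ((Λ₂ s).map C)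
        map_one' := ?_
        map_mul' := ?_
        map_zero' := ?_
        map_add' := ?_ }, fun _ => rfl⟩
    · rw [hN1, map_one, map_one, tri_map_one, tri_map_one, tri_map_zero, smul_zero,
        Matrix.fromBlocks_one]
    · intro s t
      rw [Matrix.fromBlocks_multiply, hNmul, map_mul, map_mul, tri_map_add, tri_map_mul,
        tri_map_mul, tri_map_mul, tri_map_mul, smul_add, Matrix.mul_zero, Matrix.zero_mul,
        Matrix.zero_mul, Matrix.mul_zero, add_zero, zero_add, zero_add, Matrix.mul_smul,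
        Matrix.smul_mul]
    · rw [hN0, map_zero, map_zero, tri_map_zero, tri_map_zero, tri_map_zero, smul_zero,
        Matrix.fromBlocks_zero]
    · intro s t
      rw [hNadd, map_add, map_add, tri_map_add, tri_map_add, tri_map_add, smul_add,
        Matrix.fromBlocks_add, add_zero]
  have hev : ∀ (e : Bool) (s : S), (((ev R e).mapMatrix).comp Tri) s =
      Matrix.fromBlocks (Λ₁ s) ((if e then (1 : R) else 0) • N s) 0 (Λ₂ s) := by
    intro e s
    rw [RingHom.comp_apply, hTri, RingHom.mapMatrix_apply, Matrix.fromBlocks_map]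
    congr 1
    · ext i j
      simp [ev]
    · ext i j
      simp [ev]
    · ext i j
      simp [ev]
    · ext i j
      simp [ev]
  have h1 : ((ev R true).mapMatrix).comp Tri = Λ := by
    refine RingHom.ext fun s => ?_
    rw [hev, h s]
    simp
  have h2 : GG.corr (((ev R false).mapMatrix).comp Tri) x = GG.corr Λ₁ x + GG.corr Λ₂ x := by
    refine GG.corr_fromBlocks _ Λ₁ Λ₂ (fun s => ?_) x
    rw [hev]
    simp
  have h3 := homotopy Tri hx
  rw [h1, h2] at h3
  exact h3

end

end Pool.Agent.GSM
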